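import Pool.Agent.K9h19.LW.PAIR
import Pool.Agent.H318R2.Cr.Rough

/-! Task ABEL: the main term of the pairs. -/

set_option autoImplicit false

open Finset

namespace Pool.Agent.K9h19.LW

open Pool.Agent.Y851.HZ (LR LR_nonneg res_apply)
open Pool.Agent.H318R2.Cr (Rgh fL fL_apply T_bound T_zero fL_nonneg)

theorem fL_eq (w n : ℕ) : fL w n = LR w n / n := by
  classical
  rw [fL_apply, LR, res_apply]
  split_ifs
  · rfl
  · rw [zero_div]

/-- Mertens upper bound for rough numbers -/
theorem R_le : ∃ C : ℝ, 0 ≤ C ∧ ∀ w n : ℕ, 1 ≤ w → 1 ≤ n →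
    ∑ m ∈ Ioc 1 n, LR w m / m ≤ Real.log n + C := by
  obtain ⟨C, hC, h⟩ := T_bound
  refine ⟨C, hC, fun w n hw hn => ?_⟩
  have h1 : ∑ m ∈ Ioc 1 n, LR w m / m ≤ ∑ d ∈ Ioc 0 n, fL w d := by
    simp only [fL_eq]
    refine sum_le_sum_of_subset_of_nonneg (Ioc_subset_Ioc_left (by omega)) fun i _ _ =>
      div_nonneg (LR_nonneg w i) (Nat.cast_nonneg i)
  refine h1.trans ?_
  rcases le_total n w with h2 | h2
  · rw [T_zero h2]
    have := Real.log_natCast_nonneg n
    linarith
  · have h3 := (abs_le.1 (h w n hw h2)).2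
    have := Real.log_natCast_nonneg w
    linarith

/-- Task ABEL. -/
theorem abel : S_ABEL := by
  obtain ⟨C, hC, hR⟩ := R_le
  refine ⟨C + 1, by linarith, 1, fun w X l hw hwX hl0 hlX => ?_⟩
  set U := Real.log X with hU
  have hX1 : 1 ≤ X := by omega
  have hU0 : 0 ≤ U := Real.log_natCast_nonneg X
  let g : ℝ → ℝ := fun v => min l (U - 2 * v)
  let P : ℝ → ℝ := fun v => l * v - (max 0 (2 * v - (U - l))) ^ 2 / 4
  have hg : ∀ v, g v = l - max 0 (2 * v - (U - l)) := by
    intro v
    simp only [g]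
    rcases le_total l (U - 2 * v) with h | h
    · rw [min_eq_left h, max_eq_left (by linarith)]
      ring
    · rw [min_eq_right h, max_eq_right (by linarith)]
      ring
  have hgP : ∀ a b : ℝ, a ≤ b → g b * (b - a) ≤ P b - P a := by
    intro a b hab
    rw [hg]
    simp only [P]
    set α := max 0 (2 * a - (U - l)) with hα
    set β := max 0 (2 * b - (U - l)) with hβ
    have h1 : 0 ≤ α := le_max_left _ _
    have h2 : α ≤ β := max_le_max le_rfl (by linarith)
    have h3 : β ≤ α + 2 * (b - a) := by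
      rw [hβ]
      refine max_le (by linarith) ?_
      have := le_max_right 0 (2 * a - (U - l))
      linarith
    nlinarith [mul_nonneg (sub_nonneg.2 h2) (sub_nonneg.2 h2), mul_nonneg (sub_nonneg.2 hab) (h1.trans h2),
      mul_nonneg (sub_nonneg.2 hab) h1, mul_nonneg (sub_nonneg.2 h3) (h1.trans h2),
      mul_nonneg (sub_nonneg.2 h3) h1]
  have hganti : ∀ a b : ℝ, a ≤ b → g b ≤ g a := fun a b hab =>
    min_le_min le_rfl (by linarith)
  have hg0 : g 0 = l := by
    simp only [g]
    rw [mul_zero, sub_zero, min_eq_left hlX]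
  have hP0 : P 0 = 0 := by
    simp only [P]
    rw [max_eq_left (by linarith)]
    ring
  -- the largest `m` with `m ^ 2 ≤ X`
  set M := Nat.sqrt X with hM
  have hM1 : 1 ≤ M := by
    rw [hM, Nat.le_sqrt]
    simpa using hX1
  have hset : (Ioc 1 X).filter (fun m => m ^ 2 ≤ X) = Ioc 1 M := by
    ext m
    rw [mem_filter, mem_Ioc, mem_Ioc, hM, Nat.le_sqrt, pow_two]
    constructor
    · rintro ⟨⟨h1, h2⟩, h3⟩
      exact ⟨h1, h3⟩
    · rintro ⟨h1, h3⟩
      exact ⟨⟨h1, (Nat.le_mul_self m).trans h3⟩, h3⟩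
  rw [hset]
  have hgm : ∀ n : ℕ, 1 ≤ n → n ≤ M → 0 ≤ g (Real.log n) := by
    intro n hn hnM
    simp only [g]
    refine le_min hl0 ?_
    have h1 : n ^ 2 ≤ X := by
      rw [pow_two, ← Nat.le_sqrt]
      exact hnM
    have hn0 : (0 : ℝ) < n := by exact_mod_cast hn
    have h2 : Real.log ((n ^ 2 : ℕ) : ℝ) ≤ U :=
      Real.log_le_log (by positivity) (by exact_mod_cast h1)
    rw [Nat.cast_pow, Real.log_pow] at h2
    push_cast at h2
    linarith
  have key : ∀ n : ℕ, 1 ≤ n → n ≤ M →
      ∑ m ∈ Ioc 1 n, LR w m / m * g (Real.log m) +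
        g (Real.log n) * (Real.log n + C - ∑ m ∈ Ioc 1 n, LR w m / m) ≤
        C * l + P (Real.log n) := by
    intro n hn
    induction n, hn using Nat.le_induction with
    | base =>
      intro _
      simp only [Ioc_self, sum_empty, Nat.cast_one, Real.log_one, zero_add, sub_zero, hg0, hP0]
      linarith [mul_comm l C]
    | succ n hn ih =>
      intro hnM
      have h1 := ih (by omega)
      rw [sum_Ioc_succ_top hn, sum_Ioc_succ_top hn]
      have hn0 : (0 : ℝ) < n := by exact_mod_cast hn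
      have hmono : Real.log n ≤ Real.log ((n + 1 : ℕ) : ℝ) :=
        Real.log_le_log hn0 (by push_cast; linarith)
      have h2 := hgP _ _ hmono
      have h3 : 0 ≤ Real.log n + C - ∑ m ∈ Ioc 1 n, LR w m / m := by
        have := hR w n hw hn
        linarith
      have h4 := mul_le_mul_of_nonneg_right (hganti _ _ hmono) h3
      nlinarith
  have h1 := key M hM1 le_rfl
  have h2 : 0 ≤ g (Real.log M) * (Real.log M + C - ∑ m ∈ Ioc 1 M, LR w m / m) := by
    refine mul_nonneg (hgm M hM1 le_rfl) ?_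
    have := hR w M hw hM1
    linarith
  have h3 : P (Real.log M) ≤ P (U / 2) := by
    have hle : Real.log M ≤ U / 2 := by
      have h4 : M ^ 2 ≤ X := by
        rw [pow_two, hM]
        exact Nat.sqrt_le X
      have hM0 : (0 : ℝ) < M := by exact_mod_cast hM1
      have h5 : Real.log ((M ^ 2 : ℕ) : ℝ) ≤ U :=
        Real.log_le_log (by positivity) (by exact_mod_cast h4)
      rw [Nat.cast_pow, Real.log_pow] at h5
      push_cast at h5
      linarith
    have h4 := hgP _ _ hle
    have h5 : g (U / 2) = 0 := by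
      simp only [g]
      rw [show U - 2 * (U / 2) = 0 by ring]
      exact min_eq_right hl0
    rw [h5, zero_mul] at h4
    linarith
  have h4 : P (U / 2) = (U * l - l ^ 2 / 2) / 2 := by
    simp only [P]
    rw [show 2 * (U / 2) - (U - l) = l by ring, max_eq_right hl0]
    ring
  have h5 : ∑ m ∈ Ioc 1 M, LR w m / m * g (Real.log m) =
      ∑ m ∈ Ioc 1 M, LR w m / m * min l (U - 2 * Real.log m) := rfl
  rw [← h5]
  nlinarith

end Pool.Agent.K9h19.LW
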