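import Pool.Agent.K9h19.LW.PAIR

/-! Task AVG: Selberg's formula in a class. -/

set_option autoImplicit false

open Finset

namespace Pool.Agent.K9h19.LW

open Pool.Agent.Y851.HZ (LR zR muR ER DD LR_nonneg res_apply res_mul DD_res)
open Pool.Agent.H318R2.Cr (Rgh)

theorem ER_rough {w n : ℕ} (h : ER w n ≠ 0) : Rgh w n := by
  classical
  by_contra hcon
  apply h
  rw [ER, ArithmeticFunction.add_apply, LR, DD_res, res_mul, res_apply, res_apply, if_neg hcon,
    if_neg hcon, add_zero]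

/-- the coprime classes modulo `q` -/
def KK (q : ℕ) : Finset ℕ := (range q).filter (fun c => c.Coprime q)

theorem mem_KK {q c : ℕ} : c ∈ KK q ↔ c < q ∧ c.Coprime q := by
  rw [KK, mem_filter, mem_range]

theorem card_KK (q : ℕ) : (KK q).card = q.totient := by
  rw [KK, Nat.totient]
  congr 1
  apply filter_congr
  intro c _
  exact Nat.coprime_comm

theorem CS_eq (f : ℕ → ℝ) (q b A B : ℕ) :
    CS f q b A B = ∑ n ∈ Ioc A B, if n ≡ b [MOD q] then f n / n else 0 := by
  rw [CS, sum_filter]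

/-- the sum over all classes -/
theorem sum_CS {f : ℕ → ℝ} {q : ℕ} (hq : 1 ≤ q) (hf : ∀ n, f n ≠ 0 → n.Coprime q) (A B : ℕ) :
    ∑ c ∈ KK q, CS f q c A B = TS f A B := by
  simp only [CS_eq]
  rw [sum_comm, TS]
  refine sum_congr rfl fun n _ => ?_
  by_cases h0 : f n = 0
  · simp [h0]
  · have hc := hf n h0
    rw [sum_eq_single (n % q)]
    · rw [if_pos (Nat.mod_modEq n q).symm]
    · intro c hc1 hc2
      rw [if_neg]
      intro h
      apply hc2
      rw [mem_KK] at hc1
      rw [← Nat.mod_eq_of_lt hc1.1]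
      exact h.symm
    · intro h
      exfalso
      apply h
      rw [mem_KK]
      refine ⟨Nat.mod_lt _ hq, ?_⟩
      rw [Nat.Coprime, (Nat.mod_modEq n q).gcd_eq]
      exact hc

theorem q_le {w q : ℕ} (hq : 1 ≤ q) (h : q ^ 8 ≤ w) : q ≤ w :=
  (Nat.le_self_pow (by norm_num) q).trans h

/-- Task AVG. -/
theorem avg (hSD : S_SD) (hTOT : S_TOT) : S_AVG := by
  obtain ⟨C1, hC1, w1, h1⟩ := hSD
  obtain ⟨C2, hC2, w2, h2⟩ := hTOT
  refine ⟨C1 + C2, by positivity, max 2 (max w1 w2), fun w q b Y X hw hq hqw hb hwY hYX => ?_⟩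
  have hw1 : w1 ≤ w := le_trans (le_trans (le_max_left _ _) (le_max_right _ _)) hw
  have hw2 : w2 ≤ w := le_trans (le_trans (le_max_right _ _) (le_max_right _ _)) hw
  have hw3 : 2 ≤ w := le_trans (le_max_left _ _) hw
  have hφ : 0 < (q.totient : ℝ) := by
    exact_mod_cast Nat.totient_pos.2 hq
  have ht : 0 ≤ Real.log w := Real.log_natCast_nonneg w
  have hl : 0 ≤ Real.log X - Real.log Y := by
    have : Real.log Y ≤ Real.log X :=
      Real.log_le_log (by exact_mod_cast (by omega : 0 < Y)) (by exact_mod_cast hYX)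
    linarith
  have h3 := h2 w Y X hw2 hwY hYX
  have h4 : |q.totient * CS (ER w) q b Y X - TS (ER w) Y X| ≤
      C1 * Real.log w * (Real.log X - Real.log Y + Real.log w) := by
    rw [← sum_CS hq (fun n hn => rough_coprime hq (q_le hq hqw) (ER_rough hn)), ← card_KK,
      ← nsmul_eq_mul, ← sum_const, ← sum_sub_distrib]
    refine (abs_sum_le_sum_abs _ _).trans ?_
    have h5 : ∀ c ∈ KK q, |CS (ER w) q b Y X - CS (ER w) q c Y X| ≤
        C1 * Real.log w * (Real.log X - Real.log Y + Real.log w) / q.totient := fun c hc =>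
      h1 w q b c Y X hw1 hq hqw hb (mem_KK.1 hc).2 hwY hYX
    refine (sum_le_sum h5).trans ?_
    rw [sum_const, card_KK, nsmul_eq_mul, mul_div_cancel₀ _ hφ.ne']
  have h6 : q.totient * CS (ER w) q b Y X - ((Real.log X) ^ 2 - (Real.log Y) ^ 2) =
      (q.totient * CS (ER w) q b Y X - TS (ER w) Y X) +
        (TS (ER w) Y X - ((Real.log X) ^ 2 - (Real.log Y) ^ 2)) := by ring
  rw [h6]
  refine (abs_add_le _ _).trans ((add_le_add h4 h3).trans ?_)
  have hX : 0 ≤ Real.log X := Real.log_natCast_nonneg X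
  nlinarith [mul_nonneg hC2.le (mul_nonneg ht ht), mul_nonneg hC1.le hX, mul_nonneg ht hl,
    mul_nonneg hC1.le (mul_nonneg ht hl), mul_nonneg hC2.le (mul_nonneg ht hl)]

end Pool.Agent.K9h19.LW
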