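import Mathlib

/-! Partial summation inequalities. -/

set_option autoImplicit false

open Finset

namespace Pool.Agent.K9h19.LW

/-- partial summation, absolute values -/
theorem abel_abs (e c F : ℕ → ℝ) (A B : ℕ) (hAB : A ≤ B)
    (h : ∀ n, A ≤ n → n < B → |(∑ k ∈ Ioc A n, e k) * (c n - c (n + 1))| ≤ F (n + 1) - F n) :
    |∑ k ∈ Ioc A B, e k * c k - (∑ k ∈ Ioc A B, e k) * c B| ≤ F B - F A := by
  induction B, hAB using Nat.le_induction with
  | base => simp
  | succ B hAB ih =>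
    have h1 := ih (fun n hn hnB => h n hn (by omega))
    have h2 := h B hAB (by omega)
    rw [sum_Ioc_succ_top hAB, sum_Ioc_succ_top hAB]
    have h3 : ∑ k ∈ Ioc A B, e k * c k + e (B + 1) * c (B + 1) -
        (∑ k ∈ Ioc A B, e k + e (B + 1)) * c (B + 1) =
        (∑ k ∈ Ioc A B, e k * c k - (∑ k ∈ Ioc A B, e k) * c B) +
        (∑ k ∈ Ioc A B, e k) * (c B - c (B + 1)) := by ring
    rw [h3]
    have h4 := abs_add_le (∑ k ∈ Ioc A B, e k * c k - (∑ k ∈ Ioc A B, e k) * c B)
      ((∑ k ∈ Ioc A B, e k) * (c B - c (B + 1)))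
    linarith

/-- partial summation, upper bound with a decreasing nonnegative weight: if all partial sums of `e` are at most
`H`, then `∑ e c ≤ H(A) c(A) + ∑ (H(k) - H(k-1)) c(k)`; here with a majorant `F` of the last sum -/
theorem abel_up (e c H F : ℕ → ℝ) (A B : ℕ) (hAB : A ≤ B) (hc : ∀ n, A ≤ n → n < B → c (n + 1) ≤ c n)
    (hc0 : 0 ≤ c B) (hH : ∀ n, A ≤ n → n ≤ B → ∑ k ∈ Ioc A n, e k ≤ H n)
    (hF : ∀ n, A ≤ n → n < B → (H (n + 1) - H n) * c (n + 1) ≤ F (n + 1) - F n) :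
    ∑ k ∈ Ioc A B, e k * c k ≤ H A * c A + (F B - F A) := by
  have key : ∀ n, A ≤ n → n ≤ B → ∑ k ∈ Ioc A n, e k * c k + (H n - ∑ k ∈ Ioc A n, e k) * c n ≤
      H A * c A + (F n - F A) := by
    intro n hn
    induction n, hn using Nat.le_induction with
    | base => intro _; simp
    | succ n hn ih =>
      intro hnB
      have h1 := ih (by omega)
      have h2 := hc n hn (by omega)
      have h3 := hH n hn (by omega)
      have h4 := hF n hn (by omega)
      rw [sum_Ioc_succ_top hn, sum_Ioc_succ_top hn]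
      have h5 : ∑ k ∈ Ioc A n, e k * c k + e (n + 1) * c (n + 1) +
          (H (n + 1) - (∑ k ∈ Ioc A n, e k + e (n + 1))) * c (n + 1) =
          ∑ k ∈ Ioc A n, e k * c k + (H n - ∑ k ∈ Ioc A n, e k) * c (n + 1) + (H (n + 1) - H n) * c (n + 1) := by
        ring
      rw [h5]
      have h6 : (H n - ∑ k ∈ Ioc A n, e k) * c (n + 1) ≤ (H n - ∑ k ∈ Ioc A n, e k) * c n :=
        mul_le_mul_of_nonneg_left h2 (by linarith)
      linarith
  have h1 := key B hAB le_rfl
  have h2 := hH B hAB le_rfl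
  have h3 : 0 ≤ (H B - ∑ k ∈ Ioc A B, e k) * c B := mul_nonneg (by linarith) hc0
  linarith

end Pool.Agent.K9h19.LW
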