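import Pool.Agent.K9h19.LW.Core
import Pool.Agent.Y353.PS.Page

/-! Primes in every class and every window `(x^(1-e), x]`, away from one exceptional modulus. -/

set_option autoImplicit false

open Finset

namespace Pool.Agent.K9h19.LW

open Pool.Agent.Y851.HZ (LR zR muR ER DD LR_nonneg LR_le DD_apply)
open ArithmeticFunction (vonMangoldt)

lemma pp_block {N : ℕ} (hN : 1 ≤ N) :
    ∑ n ∈ (Ioc N (2 * N)).filter (fun n => ¬ n.Prime), vonMangoldt n / (n : ℝ) ≤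
      4 * Real.log (2 * N : ℕ) / Real.sqrt N := by
  have hN0 : (0 : ℝ) < N := by exact_mod_cast hN
  have hs0 : 0 < Real.sqrt N := Real.sqrt_pos.2 hN0
  have hss : Real.sqrt N * Real.sqrt N = N := Real.mul_self_sqrt hN0.le
  have h1 : ∑ n ∈ (Ioc N (2 * N)).filter (fun n => ¬ n.Prime), vonMangoldt n / (n : ℝ) ≤
      (1 / N) * ∑ n ∈ (Ioc N (2 * N)).filter (fun n => ¬ n.Prime), vonMangoldt n := by
    rw [mul_sum]
    apply sum_le_sum
    intro n hn
    rw [mem_filter, mem_Ioc] at hn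
    have h2 : (N : ℝ) ≤ n := by exact_mod_cast hn.1.1.le
    have h3 : (0 : ℝ) ≤ vonMangoldt n := ArithmeticFunction.vonMangoldt_nonneg
    rw [div_eq_mul_one_div, mul_comm]
    exact mul_le_mul_of_nonneg_right (one_div_le_one_div_of_le hN0 h2) h3
  have h2 : ∑ n ∈ (Ioc N (2 * N)).filter (fun n => ¬ n.Prime), vonMangoldt n ≤
      2 * Real.sqrt ((2 * N : ℕ) : ℝ) * Real.log ((2 * N : ℕ) : ℝ) := by
    have h3 := Chebyshev.psi_sub_theta_eq_sum_not_prime ((2 * N : ℕ) : ℝ)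
    rw [Nat.floor_natCast] at h3
    have h4 := Chebyshev.psi_sub_theta_le (x := ((2 * N : ℕ) : ℝ)) (by exact_mod_cast (show 1 ≤ 2 * N by omega))
    rw [h3] at h4
    refine le_trans ?_ h4
    apply sum_le_sum_of_subset_of_nonneg
    · intro n hn
      rw [mem_filter, mem_Ioc] at hn ⊢
      exact ⟨⟨by omega, hn.1.2⟩, hn.2⟩
    · intro n _ _
      exact ArithmeticFunction.vonMangoldt_nonneg
  have h3 : Real.sqrt ((2 * N : ℕ) : ℝ) ≤ 2 * Real.sqrt N := by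
    rw [Real.sqrt_le_left (by positivity), mul_pow, Real.sq_sqrt hN0.le]
    push_cast
    linarith
  have hl0 : 0 ≤ Real.log ((2 * N : ℕ) : ℝ) := Real.log_natCast_nonneg _
  calc ∑ n ∈ (Ioc N (2 * N)).filter (fun n => ¬ n.Prime), vonMangoldt n / (n : ℝ)
      ≤ (1 / N) * (2 * Real.sqrt ((2 * N : ℕ) : ℝ) * Real.log ((2 * N : ℕ) : ℝ)) :=
        h1.trans (mul_le_mul_of_nonneg_left h2 (by positivity))
    _ ≤ (1 / N) * (2 * (2 * Real.sqrt N) * Real.log ((2 * N : ℕ) : ℝ)) := by gcongr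
    _ = 4 * Real.log (2 * N : ℕ) / Real.sqrt N := by
        rw [eq_div_iff hs0.ne']
        calc 1 / (N : ℝ) * (2 * (2 * Real.sqrt N) * Real.log ((2 * N : ℕ) : ℝ)) * Real.sqrt N
            = 4 * Real.log ((2 * N : ℕ) : ℝ) * (1 / N * (Real.sqrt N * Real.sqrt N)) := by ring
          _ = 4 * Real.log (2 * N : ℕ) := by rw [hss, one_div, inv_mul_cancel₀ hN0.ne', mul_one]

lemma pp_dyadic {Y : ℕ} (hY : 1 ≤ Y) (k : ℕ) :
    ∑ n ∈ (Ioc Y (2 ^ k * Y)).filter (fun n => ¬ n.Prime), vonMangoldt n / (n : ℝ) ≤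
      k * (4 * Real.log (2 ^ k * Y : ℕ) / Real.sqrt Y) := by
  induction k with
  | zero => simp
  | succ k ih =>
    have hY0 : (0 : ℝ) < Y := by exact_mod_cast hY
    have hk : 1 ≤ 2 ^ k * Y := Nat.mul_pos (by positivity) hY
    have e1 : Ioc Y (2 ^ (k + 1) * Y) = Ioc Y (2 ^ k * Y) ∪ Ioc (2 ^ k * Y) (2 * (2 ^ k * Y)) := by
      rw [Ioc_union_Ioc_eq_Ioc (Nat.le_mul_of_pos_left Y (by positivity)) (by omega)]
      congr 1
      ring
    have hd : Disjoint ((Ioc Y (2 ^ k * Y)).filter (fun n => ¬ n.Prime))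
        ((Ioc (2 ^ k * Y) (2 * (2 ^ k * Y))).filter (fun n => ¬ n.Prime)) :=
      disjoint_filter_filter (Ioc_disjoint_Ioc_of_le le_rfl)
    rw [e1, filter_union, sum_union hd]
    have e2 := pp_block hk
    have e3 : Real.log ((2 ^ k * Y : ℕ) : ℝ) ≤ Real.log ((2 ^ (k + 1) * Y : ℕ) : ℝ) :=
      Real.log_le_log (by exact_mod_cast hk) (by exact_mod_cast Nat.mul_le_mul_right Y (Nat.pow_le_pow_right (by norm_num) (by omega)))
    have e4 : Real.sqrt Y ≤ Real.sqrt ((2 ^ k * Y : ℕ) : ℝ) :=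
      Real.sqrt_le_sqrt (by exact_mod_cast Nat.le_mul_of_pos_left Y (by positivity))
    have hs0 : 0 < Real.sqrt Y := Real.sqrt_pos.2 hY0
    have e5 : 4 * Real.log ((2 * (2 ^ k * Y) : ℕ) : ℝ) / Real.sqrt ((2 ^ k * Y : ℕ) : ℝ) ≤
        4 * Real.log ((2 ^ (k + 1) * Y : ℕ) : ℝ) / Real.sqrt Y := by
      have : 2 * (2 ^ k * Y) = 2 ^ (k + 1) * Y := by ring
      rw [this]
      have := Real.log_natCast_nonneg (2 ^ (k + 1) * Y)
      gcongr
    have e6 : (k : ℝ) * (4 * Real.log ((2 ^ k * Y : ℕ) : ℝ) / Real.sqrt Y) ≤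
        k * (4 * Real.log ((2 ^ (k + 1) * Y : ℕ) : ℝ) / Real.sqrt Y) := by
      gcongr
    push_cast at *
    linarith

lemma pp_sum {Y X : ℕ} (hY : 1 ≤ Y) (hYX : Y ≤ X) :
    ∑ n ∈ (Ioc Y X).filter (fun n => ¬ n.Prime), vonMangoldt n / (n : ℝ) ≤
      16 * (1 + Real.log X) ^ 2 / Real.sqrt Y := by
  have hY0 : (0 : ℝ) < Y := by exact_mod_cast hY
  have hX0 : (0 : ℝ) < X := by exact_mod_cast (show 0 < X by omega)
  have hs0 : 0 < Real.sqrt Y := Real.sqrt_pos.2 hY0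
  obtain ⟨k, hk⟩ : ∃ k : ℕ, k = Nat.log 2 (X / Y) + 1 := ⟨_, rfl⟩
  have hd1 : 1 ≤ X / Y := Nat.div_pos hYX hY
  have h1 : X / Y < 2 ^ k := by rw [hk]; exact Nat.lt_pow_succ_log_self (by norm_num) _
  have h2 : X ≤ 2 ^ k * Y := by
    have h3 : X < (X / Y + 1) * Y := by
      have := Nat.lt_mul_div_succ X hY
      rw [mul_comm] at this
      exact this
    exact h3.le.trans (Nat.mul_le_mul_right Y (by omega))
  have h3 : 2 ^ k * Y ≤ 2 * X := by
    have h4 : 2 ^ Nat.log 2 (X / Y) ≤ X / Y := Nat.pow_log_le_self 2 (by omega)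
    calc 2 ^ k * Y = 2 * (2 ^ Nat.log 2 (X / Y) * Y) := by rw [hk]; ring
      _ ≤ 2 * (X / Y * Y) := Nat.mul_le_mul_left 2 (Nat.mul_le_mul_right Y h4)
      _ ≤ 2 * X := Nat.mul_le_mul_left 2 (Nat.div_mul_le_self X Y)
  have h4 : ∑ n ∈ (Ioc Y X).filter (fun n => ¬ n.Prime), vonMangoldt n / (n : ℝ) ≤
      ∑ n ∈ (Ioc Y (2 ^ k * Y)).filter (fun n => ¬ n.Prime), vonMangoldt n / (n : ℝ) := by
    apply sum_le_sum_of_subset_of_nonneg
    · intro n hn
      rw [mem_filter, mem_Ioc] at hn ⊢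
      exact ⟨⟨hn.1.1, by omega⟩, hn.2⟩
    · intro n _ _
      exact div_nonneg ArithmeticFunction.vonMangoldt_nonneg (Nat.cast_nonneg n)
  have hlX := Real.log_natCast_nonneg X
  have hlog2 : 0.6931471803 < Real.log 2 := Real.log_two_gt_d9
  have hlog2' : Real.log 2 < 0.6931471808 := Real.log_two_lt_d9
  have h5 : (k : ℝ) ≤ 2 * (1 + Real.log X) := by
    have h6 : (2 : ℝ) ^ Nat.log 2 (X / Y) ≤ X := by
      have h7 : 2 ^ Nat.log 2 (X / Y) ≤ X / Y := Nat.pow_log_le_self 2 (by omega)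
      exact_mod_cast h7.trans (Nat.div_le_self X Y)
    have h8 := Real.log_le_log (by positivity) h6
    rw [Real.log_pow] at h8
    rw [hk]
    push_cast
    have h9 : (0 : ℝ) ≤ (Nat.log 2 (X / Y) : ℝ) := Nat.cast_nonneg _
    nlinarith
  have h6 : Real.log (2 ^ k * Y : ℕ) ≤ 1 + Real.log X := by
    have h7 : ((2 ^ k * Y : ℕ) : ℝ) ≤ 2 * X := by exact_mod_cast h3
    have h8 := Real.log_le_log (by exact_mod_cast (show 0 < 2 ^ k * Y by positivity)) h7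
    rw [Real.log_mul (by norm_num) hX0.ne'] at h8
    linarith
  have h7 := pp_dyadic hY k
  have h8 : 0 ≤ Real.log (2 ^ k * Y : ℕ) := Real.log_natCast_nonneg _
  calc ∑ n ∈ (Ioc Y X).filter (fun n => ¬ n.Prime), vonMangoldt n / (n : ℝ)
      ≤ k * (4 * Real.log (2 ^ k * Y : ℕ) / Real.sqrt Y) := h4.trans h7
    _ ≤ (2 * (1 + Real.log X)) * (4 * (1 + Real.log X) / Real.sqrt Y) := by gcongr
    _ = 8 * (1 + Real.log X) ^ 2 / Real.sqrt Y := by ring
    _ ≤ 16 * (1 + Real.log X) ^ 2 / Real.sqrt Y := by gcongr; norm_num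

/-- the integral part of the `n`-th root -/
noncomputable def rt (n x : ℕ) : ℕ := ⌊(x : ℝ) ^ (1 / (n : ℝ))⌋₊

lemma le_rt {n x a : ℕ} (hn : 1 ≤ n) : a ≤ rt n x ↔ a ^ n ≤ x := by
  have hn0 : (n : ℝ) ≠ 0 := by exact_mod_cast (show n ≠ 0 by omega)
  have hx : (0 : ℝ) ≤ (x : ℝ) ^ (1 / (n : ℝ)) := Real.rpow_nonneg (Nat.cast_nonneg x) _
  unfold rt
  rw [Nat.le_floor_iff hx]
  have h1 : ((x : ℝ) ^ (1 / (n : ℝ))) ^ n = x := by
    rw [← Real.rpow_natCast, ← Real.rpow_mul (Nat.cast_nonneg x), one_div, inv_mul_cancel₀ hn0, Real.rpow_one]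
  constructor
  · intro h
    have h2 := pow_le_pow_left₀ (Nat.cast_nonneg a) h n
    rw [h1] at h2
    exact_mod_cast h2
  · intro h
    have h2 : ((a : ℝ)) ^ n ≤ ((x : ℝ) ^ (1 / (n : ℝ))) ^ n := by rw [h1]; exact_mod_cast h
    exact le_of_pow_le_pow_left₀ (by omega) hx h2

lemma log_rt_le {n x : ℕ} (hn : 1 ≤ n) (hx : 1 ≤ x) : n * Real.log (rt n x) ≤ Real.log x := by
  have h1 : rt n x ^ n ≤ x := (le_rt hn).1 le_rfl
  have h2 : 1 ≤ rt n x := (le_rt hn).2 (by simpa using hx)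
  have h3 : ((rt n x ^ n : ℕ) : ℝ) ≤ x := by exact_mod_cast h1
  have h4 := Real.log_le_log (by exact_mod_cast (show 0 < rt n x ^ n from Nat.pow_pos (by omega))) h3
  push_cast at h4
  rw [Real.log_pow] at h4
  exact h4

lemma log_rt_ge {n x : ℕ} (hn : 1 ≤ n) (hx : 1 ≤ x) : Real.log x ≤ n * (Real.log (rt n x) + 1) := by
  have h2 : 1 ≤ rt n x := (le_rt hn).2 (by simpa using hx)
  have h1 : x < (rt n x + 1) ^ n := by
    by_contra h
    push Not at h
    have := (le_rt hn).2 h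
    omega
  have h3 : (x : ℝ) ≤ (((rt n x + 1) ^ n : ℕ) : ℝ) := by exact_mod_cast h1.le
  have h4 := Real.log_le_log (by exact_mod_cast (show 0 < x by omega)) h3
  push_cast at h4
  rw [Real.log_pow] at h4
  refine h4.trans ?_
  apply mul_le_mul_of_nonneg_left _ (Nat.cast_nonneg n)
  have h5 : (0 : ℝ) < rt n x := by exact_mod_cast h2
  have h6 : (rt n x : ℝ) + 1 ≤ rt n x * Real.exp 1 := by
    have h7 := Real.add_one_le_exp (1 : ℝ)
    have h8 : (1 : ℝ) ≤ rt n x := by exact_mod_cast h2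
    nlinarith
  have h9 := Real.log_le_log (by positivity) h6
  rw [Real.log_mul h5.ne' (Real.exp_pos 1).ne', Real.log_exp] at h9
  exact h9

end Pool.Agent.K9h19.LW
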