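import Pool.Agent.K9h19.LW.Stm2
import Pool.Agent.K9h19.LW.Lin

/-! All classes: comparison of the sums over dyadic scales with `∑ log p / p`. -/

set_option autoImplicit false

open Finset

namespace Pool.Agent.K9h19.LW

open Pool.Agent.H410R2 (psiLog psiLogAP)
open Pool.Agent.H398R2.BV (Prim)
open ArithmeticFunction (vonMangoldt)

/-- the scales `2^j` with `y < 2^j`, `j < J` -/
def scales (y J : ℕ) : Finset ℕ := (range J).filter (fun j => y < 2 ^ j)

/-- the sum over the scales -/
noncomputable def Sig (y J m c : ℕ) : ℝ := ∑ j ∈ scales y J, psiLogAP ((2 : ℝ) ^ j) m c / 2 ^ j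

/-- the weight of `n` in `Sig` -/
noncomputable def wg (y J n : ℕ) : ℝ :=
  ∑ j ∈ scales y J, if n ≤ 2 ^ j then Real.log ((2 : ℝ) ^ j / n) / 2 ^ j else 0

lemma wg_nonneg {y J n : ℕ} (hn : 1 ≤ n) : 0 ≤ wg y J n := by
  have hn0 : (0 : ℝ) < n := by exact_mod_cast hn
  apply sum_nonneg
  intro j _
  split_ifs with h
  · apply div_nonneg _ (by positivity)
    apply Real.log_nonneg
    rw [le_div_iff₀ hn0, one_mul]
    exact_mod_cast h
  · exact le_rfl

lemma Sig_eq {y J N m c : ℕ} (hN : ∀ j < J, 2 ^ j ≤ N) :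
    Sig y J m c = ∑ n ∈ (Icc 1 N).filter (fun n => n ≡ c [MOD m]), vonMangoldt n * wg y J n := by
  unfold Sig wg psiLogAP
  simp_rw [mul_sum]
  rw [sum_comm]
  apply sum_congr rfl
  intro j hj
  rw [scales, mem_filter, mem_range] at hj
  have h1 : ⌊(2 : ℝ) ^ j⌋₊ = 2 ^ j := by
    have : ((2 : ℝ) ^ j) = ((2 ^ j : ℕ) : ℝ) := by push_cast; rfl
    rw [this, Nat.floor_natCast]
  rw [h1, sum_div]
  have h2 : (Icc 1 (2 ^ j)).filter (fun n => n ≡ c [MOD m]) ⊆ (Icc 1 N).filter (fun n => n ≡ c [MOD m]) := by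
    intro n hn
    rw [mem_filter, mem_Icc] at hn ⊢
    exact ⟨⟨hn.1.1, hn.1.2.trans (hN j hj.1)⟩, hn.2⟩
  rw [← sum_subset h2]
  · apply sum_congr rfl
    intro n hn
    rw [mem_filter, mem_Icc] at hn
    rw [if_pos hn.1.2, mul_div_assoc]
  · intro n hn hn2
    rw [mem_filter, mem_Icc] at hn hn2
    rw [if_neg (fun h => hn2 ⟨⟨hn.1.1, h⟩, hn.2⟩), mul_zero]

/-- all scales together -/
lemma wg_aux (n : ℕ) (hn : 1 ≤ n) (J : ℕ) :
    (2 ^ J < n → ∑ j ∈ range J, (if n ≤ 2 ^ j then Real.log ((2 : ℝ) ^ j / n) / 2 ^ j else 0) = 0) ∧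
    (n ≤ 2 ^ J → ∑ j ∈ range J, (if n ≤ 2 ^ j then Real.log ((2 : ℝ) ^ j / n) / 2 ^ j else 0) +
      (2 * Real.log ((2 : ℝ) ^ J / n) + 2 * Real.log 2) / 2 ^ J ≤ 4 * Real.log 2 / n) := by
  have hn0 : (0 : ℝ) < n := by exact_mod_cast hn
  have hl2 : 0 < Real.log 2 := Real.log_pos (by norm_num)
  induction J with
  | zero =>
    constructor
    · intro _; simp
    · intro h
      have hn1 : n = 1 := by omega
      subst hn1
      simp
      linarith
  | succ J ih =>
    obtain ⟨ih1, ih2⟩ := ih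
    have h2J : (0 : ℝ) < 2 ^ J := by positivity
    constructor
    · intro h
      have h1 : 2 ^ J < n := lt_of_le_of_lt (Nat.pow_le_pow_right (by norm_num) (by omega)) h
      rw [sum_range_succ, ih1 h1, if_neg (by omega), add_zero]
    · intro h
      rw [sum_range_succ]
      rcases lt_or_ge (2 ^ J) n with h1 | h1
      · rw [ih1 h1, if_neg (by omega), add_zero, zero_add]
        have h3 : ((2 : ℝ) ^ (J + 1)) / n ≤ 2 := by
          rw [div_le_iff₀ hn0, pow_succ]
          have : (2 : ℝ) ^ J ≤ n := by exact_mod_cast h1.le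
          linarith
        have h4 : Real.log (((2 : ℝ) ^ (J + 1)) / n) ≤ Real.log 2 := Real.log_le_log (by positivity) h3
        have h5 : (n : ℝ) ≤ 2 ^ (J + 1) := by exact_mod_cast h
        calc (2 * Real.log (((2 : ℝ) ^ (J + 1)) / n) + 2 * Real.log 2) / 2 ^ (J + 1)
            ≤ (2 * Real.log 2 + 2 * Real.log 2) / 2 ^ (J + 1) := by gcongr
          _ = 4 * Real.log 2 / 2 ^ (J + 1) := by ring
          _ ≤ 4 * Real.log 2 / n := by gcongr
      · rw [if_pos h1]
        have h3 := ih2 h1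
        have h4 : Real.log ((2 : ℝ) ^ (J + 1) / n) = Real.log 2 + Real.log ((2 : ℝ) ^ J / n) := by
          rw [← Real.log_mul (by norm_num) (by positivity)]
          congr 1
          rw [pow_succ]
          ring
        have h5 : Real.log ((2 : ℝ) ^ J / n) / 2 ^ J + (2 * Real.log ((2 : ℝ) ^ (J + 1) / n) + 2 * Real.log 2) / 2 ^ (J + 1) =
            (2 * Real.log ((2 : ℝ) ^ J / n) + 2 * Real.log 2) / 2 ^ J := by
          rw [h4, pow_succ]
          field_simp
          ring
        linarith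

lemma wg_le {y J n : ℕ} (hn : 1 ≤ n) : wg y J n ≤ 3 / n := by
  have hn0 : (0 : ℝ) < n := by exact_mod_cast hn
  have hl2 := Real.log_two_lt_d9
  have hl2' : 0 < Real.log 2 := Real.log_pos (by norm_num)
  have h1 : wg y J n ≤ ∑ j ∈ range J, (if n ≤ 2 ^ j then Real.log ((2 : ℝ) ^ j / n) / 2 ^ j else 0) := by
    unfold wg scales
    apply sum_le_sum_of_subset_of_nonneg (filter_subset _ _)
    intro j _ _
    split_ifs with h
    · apply div_nonneg _ (by positivity)
      apply Real.log_nonneg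
      rw [le_div_iff₀ hn0, one_mul]
      exact_mod_cast h
    · exact le_rfl
  refine h1.trans ?_
  rcases lt_or_ge (2 ^ J) n with h | h
  · rw [(wg_aux n hn J).1 h]
    positivity
  · have h2 := (wg_aux n hn J).2 h
    have h3 : 0 ≤ (2 * Real.log ((2 : ℝ) ^ J / n) + 2 * Real.log 2) / 2 ^ J := by
      apply div_nonneg _ (by positivity)
      have : 0 ≤ Real.log ((2 : ℝ) ^ J / n) := by
        apply Real.log_nonneg
        rw [le_div_iff₀ hn0, one_mul]
        exact_mod_cast h
      linarith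
    have h4 : 4 * Real.log 2 / n ≤ 3 / n := by
      gcongr
      linarith
    linarith

/-- the weight of small `n` -/
lemma wg_small {y J n : ℕ} (hn : 1 ≤ n) (hy : 1 ≤ y) : wg y J n ≤ J * (J * Real.log 2) / y := by
  have hn1 : (1 : ℝ) ≤ n := by exact_mod_cast hn
  have hn0 : (0 : ℝ) < n := by linarith
  have hy0 : (0 : ℝ) < y := by exact_mod_cast hy
  have hl2' : 0 < Real.log 2 := Real.log_pos (by norm_num)
  have h1 : wg y J n ≤ ∑ _j ∈ scales y J, (J * Real.log 2) / y := by
    apply sum_le_sum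
    intro j hj
    rw [scales, mem_filter, mem_range] at hj
    split_ifs with h
    · have h2 : Real.log ((2 : ℝ) ^ j / n) ≤ J * Real.log 2 := by
        calc Real.log ((2 : ℝ) ^ j / n) ≤ Real.log ((2 : ℝ) ^ j) :=
              Real.log_le_log (by positivity) (div_le_self (by positivity) hn1)
          _ = j * Real.log 2 := Real.log_pow _ _
          _ ≤ J * Real.log 2 := by
              have : (j : ℝ) ≤ J := by exact_mod_cast hj.1.le
              gcongr
      have h3 : (y : ℝ) ≤ 2 ^ j := by exact_mod_cast hj.2.le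
      gcongr
    · positivity
  refine h1.trans ?_
  rw [sum_const, nsmul_eq_mul]
  have h2 : ((scales y J).card : ℝ) ≤ J := by
    have := card_filter_le (range J) (fun j => y < 2 ^ j)
    rw [card_range] at this
    exact_mod_cast this
  calc ((scales y J).card : ℝ) * (J * Real.log 2 / y) ≤ J * (J * Real.log 2 / y) := by gcongr
    _ = J * (J * Real.log 2) / y := by ring

/-- the weight of `n` between `y` and the top scale -/
lemma wg_large {y J n : ℕ} (hn : 1 ≤ n) (hyn : y < n) (hJ : 4 * n ≤ 2 ^ J) : Real.log 2 / (4 * n) ≤ wg y J n := by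
  have hn0 : (0 : ℝ) < n := by exact_mod_cast hn
  have hl2' : 0 < Real.log 2 := Real.log_pos (by norm_num)
  obtain ⟨i, hi⟩ : ∃ i : ℕ, i = Nat.log 2 n + 2 := ⟨_, rfl⟩
  have h1 : 2 ^ Nat.log 2 n ≤ n := Nat.pow_log_le_self 2 (by omega)
  have h2 : n < 2 ^ (Nat.log 2 n + 1) := Nat.lt_pow_succ_log_self (by norm_num) _
  have h3 : 2 ^ i ≤ 4 * n := by
    calc 2 ^ i = 4 * 2 ^ Nat.log 2 n := by rw [hi, pow_add]; ring
      _ ≤ 4 * n := Nat.mul_le_mul_left 4 h1
  have h4 : 2 * n ≤ 2 ^ i := by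
    calc 2 * n ≤ 2 * 2 ^ (Nat.log 2 n + 1) := Nat.mul_le_mul_left 2 h2.le
      _ = 2 ^ i := by rw [hi]; ring
  rcases eq_or_lt_of_le (h3.trans hJ) with h5 | h5
  · -- the scale `2^i = 2^J`: take `i - 1`
    have h6 : n = 2 ^ Nat.log 2 n := by
      have : 4 * n ≤ 4 * 2 ^ Nat.log 2 n := by
        calc 4 * n ≤ 2 ^ J := hJ
          _ = 2 ^ i := h5.symm
          _ = 4 * 2 ^ Nat.log 2 n := by rw [hi, pow_add]; ring
      omega
    have h7 : i = J := Nat.pow_right_injective (le_refl 2) h5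
    have h8 : Nat.log 2 n + 1 ∈ scales y J := by
      rw [scales, mem_filter, mem_range]
      exact ⟨by omega, by omega⟩
    unfold wg
    refine le_trans ?_ (single_le_sum (f := fun j => if n ≤ 2 ^ j then Real.log ((2 : ℝ) ^ j / n) / 2 ^ j else 0) (by
      intro j _
      split_ifs with h
      · apply div_nonneg _ (by positivity)
        apply Real.log_nonneg
        rw [le_div_iff₀ hn0, one_mul]
        exact_mod_cast h
      · exact le_rfl) h8)
    rw [if_pos h2.le]
    have h9 : (2 : ℝ) ^ (Nat.log 2 n + 1) = 2 * n := by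
      rw [pow_succ]
      have : (n : ℝ) = 2 ^ Nat.log 2 n := by exact_mod_cast h6
      rw [← this]; ring
    rw [h9, mul_div_assoc, div_self hn0.ne', mul_one]
    gcongr
    norm_num
  · have h7 : i < J := (Nat.pow_lt_pow_iff_right (by norm_num)).1 h5
    have h8 : i ∈ scales y J := by
      rw [scales, mem_filter, mem_range]
      exact ⟨h7, by omega⟩
    unfold wg
    refine le_trans ?_ (single_le_sum (f := fun j => if n ≤ 2 ^ j then Real.log ((2 : ℝ) ^ j / n) / 2 ^ j else 0) (by
      intro j _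
      split_ifs with h
      · apply div_nonneg _ (by positivity)
        apply Real.log_nonneg
        rw [le_div_iff₀ hn0, one_mul]
        exact_mod_cast h
      · exact le_rfl) h8)
    rw [if_pos (by omega)]
    have h9 : (2 : ℝ) ^ i ≤ 4 * n := by exact_mod_cast h3
    have h10 : (2 : ℝ) * n ≤ 2 ^ i := by exact_mod_cast h4
    have h11 : Real.log 2 ≤ Real.log ((2 : ℝ) ^ i / n) := by
      apply Real.log_le_log (by norm_num)
      rw [le_div_iff₀ hn0]
      exact h10
    exact div_le_div₀ (hl2'.le.trans h11) h11 (by positivity) h9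

end Pool.Agent.K9h19.LW
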