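import Pool.Agent.K9h19.LW.All1

/-! All classes: bounds for the sum over the scales, and the mean value. -/

set_option autoImplicit false

open Finset

namespace Pool.Agent.K9h19.LW

open Pool.Agent.H410R2 (psiLog psiLogAP)
open Pool.Agent.H398R2.BV (Prim)
open ArithmeticFunction (vonMangoldt)

lemma Sig_lower {y J x N m c : ℕ} (hN : ∀ j < J, 2 ^ j ≤ N) (hxN : x ≤ N) (hJ : 4 * x ≤ 2 ^ J) :
    Real.log 2 / 4 * ∑ p ∈ (Ioc y x).filter (fun p => p.Prime ∧ p ≡ c [MOD m]), Real.log p / p ≤ Sig y J m c := by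
  rw [Sig_eq hN, mul_sum]
  have h0 : ∀ n ∈ (Icc 1 N).filter (fun n => n ≡ c [MOD m]), 0 ≤ vonMangoldt n * wg y J n := by
    intro n hn
    rw [mem_filter, mem_Icc] at hn
    exact mul_nonneg ArithmeticFunction.vonMangoldt_nonneg (wg_nonneg hn.1.1)
  calc ∑ p ∈ (Ioc y x).filter (fun p => p.Prime ∧ p ≡ c [MOD m]), Real.log 2 / 4 * (Real.log p / p)
      ≤ ∑ p ∈ (Ioc y x).filter (fun p => p.Prime ∧ p ≡ c [MOD m]), vonMangoldt p * wg y J p := by
        apply sum_le_sum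
        intro p hp
        rw [mem_filter, mem_Ioc] at hp
        have h1 := wg_large (y := y) (J := J) hp.2.1.one_le hp.1.1 ((Nat.mul_le_mul_left 4 hp.1.2).trans hJ)
        rw [ArithmeticFunction.vonMangoldt_apply_prime hp.2.1]
        have h2 := Real.log_natCast_nonneg p
        calc Real.log 2 / 4 * (Real.log p / p) = Real.log p * (Real.log 2 / (4 * p)) := by
              field_simp
          _ ≤ Real.log p * wg y J p := by gcongr
    _ ≤ _ := by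
        apply sum_le_sum_of_subset_of_nonneg
        · intro p hp
          rw [mem_filter, mem_Ioc] at hp
          rw [mem_filter, mem_Icc]
          exact ⟨⟨by omega, hp.1.2.trans hxN⟩, hp.2.2⟩
        · intro n hn _
          exact h0 n hn

lemma Sig_upper {y J N y₁ m c : ℕ} (hN : ∀ j < J, 2 ^ j ≤ N) (hm : 1 ≤ m) (hy : 1 ≤ y) (hy1 : 1 ≤ y₁) (hy1N : y₁ ≤ N) :
    Sig y J m c ≤ ((y₁ : ℝ) / m + 1) * Real.log y₁ * (J * (J * Real.log 2) / y) +
      48 * (1 + Real.log N) ^ 2 / √y₁ +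
      3 * ∑ p ∈ (Ioc y₁ N).filter (fun p => p.Prime ∧ p ≡ c [MOD m]), Real.log p / p := by
  have hy0 : (0 : ℝ) < y := by exact_mod_cast hy
  have hl2' : 0 < Real.log 2 := Real.log_pos (by norm_num)
  have hW0 : (0 : ℝ) ≤ J * (J * Real.log 2) / y := by positivity
  rw [Sig_eq hN]
  have h1 : (Icc 1 N).filter (fun n => n ≡ c [MOD m]) = (Ioc 0 y₁).filter (fun n => n ≡ c [MOD m]) ∪
      (Ioc y₁ N).filter (fun n => n ≡ c [MOD m]) := by
    rw [← filter_union, Ioc_union_Ioc_eq_Ioc (Nat.zero_le _) hy1N]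
    congr 1
  have hd : Disjoint ((Ioc 0 y₁).filter (fun n => n ≡ c [MOD m])) ((Ioc y₁ N).filter (fun n => n ≡ c [MOD m])) :=
    disjoint_filter_filter (Ioc_disjoint_Ioc_of_le le_rfl)
  rw [h1, sum_union hd]
  -- small `n`
  have h2 : ∑ n ∈ (Ioc 0 y₁).filter (fun n => n ≡ c [MOD m]), vonMangoldt n * wg y J n ≤
      ((y₁ : ℝ) / m + 1) * Real.log y₁ * (J * (J * Real.log 2) / y) := by
    have h3 : ∀ n ∈ (Ioc 0 y₁).filter (fun n => n ≡ c [MOD m]), vonMangoldt n * wg y J n ≤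
        Real.log y₁ * (J * (J * Real.log 2) / y) := by
      intro n hn
      rw [mem_filter, mem_Ioc] at hn
      have h4 : vonMangoldt n ≤ Real.log y₁ := ArithmeticFunction.vonMangoldt_le_log.trans
        (Real.log_le_log (by exact_mod_cast hn.1.1) (by exact_mod_cast hn.1.2))
      have h5 := wg_small (y := y) (J := J) hn.1.1 hy
      have h6 := Real.log_natCast_nonneg y₁
      exact mul_le_mul h4 h5 (wg_nonneg hn.1.1) h6
    refine (sum_le_sum h3).trans ?_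
    rw [sum_const, nsmul_eq_mul]
    have h4 := Pool.Agent.Helper112.TII.count_class 0 y₁ m c hm (Nat.zero_le _)
    have h5 : (((Ioc 0 y₁).filter (fun n => n ≡ c [MOD m])).card : ℝ) ≤ (y₁ : ℝ) / m + 1 := by
      simpa using h4
    have h6 := Real.log_natCast_nonneg y₁
    calc (((Ioc 0 y₁).filter (fun n => n ≡ c [MOD m])).card : ℝ) * (Real.log y₁ * (J * (J * Real.log 2) / y))
        ≤ ((y₁ : ℝ) / m + 1) * (Real.log y₁ * (J * (J * Real.log 2) / y)) := by gcongr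
      _ = _ := by ring
  -- large `n`
  have h3 : ∑ n ∈ (Ioc y₁ N).filter (fun n => n ≡ c [MOD m]), vonMangoldt n * wg y J n ≤
      48 * (1 + Real.log N) ^ 2 / √y₁ +
      3 * ∑ p ∈ (Ioc y₁ N).filter (fun p => p.Prime ∧ p ≡ c [MOD m]), Real.log p / p := by
    have h4 : ∑ n ∈ (Ioc y₁ N).filter (fun n => n ≡ c [MOD m]), vonMangoldt n * wg y J n ≤
        ∑ n ∈ (Ioc y₁ N).filter (fun n => n ≡ c [MOD m]), 3 * (vonMangoldt n / n) := by
      apply sum_le_sum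
      intro n hn
      rw [mem_filter, mem_Ioc] at hn
      have h5 := wg_le (y := y) (J := J) (show 1 ≤ n by omega)
      calc vonMangoldt n * wg y J n ≤ vonMangoldt n * (3 / n) :=
            mul_le_mul_of_nonneg_left h5 ArithmeticFunction.vonMangoldt_nonneg
        _ = 3 * (vonMangoldt n / n) := by ring
    refine h4.trans ?_
    rw [← mul_sum, ← sum_filter_add_sum_filter_not ((Ioc y₁ N).filter (fun n => n ≡ c [MOD m])) (fun n => n.Prime)]
    have h5 : ∑ n ∈ ((Ioc y₁ N).filter (fun n => n ≡ c [MOD m])).filter (fun n => n.Prime), vonMangoldt n / (n : ℝ) =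
        ∑ p ∈ (Ioc y₁ N).filter (fun p => p.Prime ∧ p ≡ c [MOD m]), Real.log p / p := by
      rw [filter_filter]
      have e1 : (Ioc y₁ N).filter (fun n => n ≡ c [MOD m] ∧ n.Prime) =
          (Ioc y₁ N).filter (fun p => p.Prime ∧ p ≡ c [MOD m]) := by
        apply filter_congr
        intro n _
        exact and_comm
      rw [e1]
      apply sum_congr rfl
      intro p hp
      rw [mem_filter] at hp
      rw [ArithmeticFunction.vonMangoldt_apply_prime hp.2.1]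
    have h6 : ∑ n ∈ ((Ioc y₁ N).filter (fun n => n ≡ c [MOD m])).filter (fun n => ¬ n.Prime), vonMangoldt n / (n : ℝ) ≤
        16 * (1 + Real.log N) ^ 2 / √y₁ := by
      refine le_trans ?_ (pp_sum hy1 hy1N)
      apply sum_le_sum_of_subset_of_nonneg
      · intro n hn
        rw [mem_filter, mem_filter] at hn
        rw [mem_filter]
        exact ⟨hn.1.1, hn.2⟩
      · intro n _ _
        exact div_nonneg ArithmeticFunction.vonMangoldt_nonneg (Nat.cast_nonneg n)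
    rw [h5, mul_add]
    have h7 : 3 * (16 * (1 + Real.log N) ^ 2 / √y₁) = 48 * (1 + Real.log N) ^ 2 / √y₁ := by ring
    linarith
  linarith

/-- the error of one modulus -/
noncomputable def Em (y J R m : ℕ) : ℝ :=
  ∑ j ∈ scales y J, (1 / (m.totient : ℝ)) * (∑ f ∈ m.divisors.filter (fun f => R < f),
    ∑ ψ ∈ Prim f, ‖psiLog ((2 : ℝ) ^ j) f ψ‖) / 2 ^ j

lemma Em_nonneg (y J R m : ℕ) : 0 ≤ Em y J R m := by
  unfold Em
  apply sum_nonneg
  intro j _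
  apply div_nonneg _ (by positivity)
  apply mul_nonneg (by positivity)
  exact sum_nonneg fun f _ => sum_nonneg fun ψ _ => norm_nonneg _

/-- the mean of the errors -/
lemma Em_mean (hMV : S_MV) : ∃ C : ℝ, 0 < C ∧ ∀ (M R U y J : ℕ), 2 ≤ M → 1 ≤ R → 1 ≤ U → M ^ 2 ≤ y →
    ∑ m ∈ Ioc M (2 * M), Em y J R m ≤
      C * J * (1 + J) ^ 8 * (1 / R + 1 / √U + M / √y + (U : ℝ) ^ 2 * (M : ℝ) ^ 2 / y) := by
  obtain ⟨C, hC, h⟩ := hMV
  refine ⟨C, hC, fun M R U y J hM hR hU hy => ?_⟩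
  have hM2 : (2 : ℝ) ≤ M := by exact_mod_cast hM
  have hyr : (M : ℝ) ^ 2 ≤ y := by exact_mod_cast hy
  have hy0 : (0 : ℝ) < y := by nlinarith
  have hR0 : (0 : ℝ) < R := by exact_mod_cast hR
  have hU0 : (0 : ℝ) < U := by exact_mod_cast hU
  have hl2 := Real.log_two_lt_d9
  have hl2' : 0 < Real.log 2 := Real.log_pos (by norm_num)
  unfold Em
  rw [sum_comm]
  have h1 : ∀ j ∈ scales y J, ∑ m ∈ Ioc M (2 * M), (1 / (m.totient : ℝ)) * (∑ f ∈ m.divisors.filter (fun f => R < f),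
      ∑ ψ ∈ Prim f, ‖psiLog ((2 : ℝ) ^ j) f ψ‖) / 2 ^ j ≤
      C * (1 + J) ^ 8 * (1 / R + 1 / √U + M / √y + (U : ℝ) ^ 2 * (M : ℝ) ^ 2 / y) := by
    intro j hj
    rw [scales, mem_filter, mem_range] at hj
    have h2j : (0 : ℝ) < 2 ^ j := by positivity
    have hyj : (y : ℝ) ≤ 2 ^ j := by exact_mod_cast hj.2.le
    have hMj : (M : ℝ) ≤ 2 ^ j := by nlinarith
    have h2 := h M R U ((2 : ℝ) ^ j) hM hR hU hMj
    rw [← sum_div, div_le_iff₀ h2j]
    refine h2.trans ?_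
    have hlog : Real.log ((2 : ℝ) ^ j) ≤ J := by
      rw [Real.log_pow]
      have e1 : (j : ℝ) ≤ J := by exact_mod_cast hj.1.le
      have e2 : (0 : ℝ) ≤ J := Nat.cast_nonneg _
      nlinarith
    have hlog0 : 0 ≤ Real.log ((2 : ℝ) ^ j) := by rw [Real.log_pow]; positivity
    have hs : √((2 : ℝ) ^ j) * √((2 : ℝ) ^ j) = 2 ^ j := Real.mul_self_sqrt h2j.le
    have hsy : 0 < √(y : ℝ) := Real.sqrt_pos.2 hy0
    have hs2 : 0 < √((2 : ℝ) ^ j) := Real.sqrt_pos.2 h2j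
    have h3 : (M : ℝ) * √((2 : ℝ) ^ j) ≤ (M / √y) * 2 ^ j := by
      have e1 : √(y : ℝ) ≤ √((2 : ℝ) ^ j) := Real.sqrt_le_sqrt hyj
      calc (M : ℝ) * √((2 : ℝ) ^ j) = (M / √y) * (√y * √((2 : ℝ) ^ j)) := by field_simp
        _ ≤ (M / √y) * (√((2 : ℝ) ^ j) * √((2 : ℝ) ^ j)) := by gcongr
        _ = (M / √y) * 2 ^ j := by rw [hs]
    have h4 : (U : ℝ) ^ 2 * (M : ℝ) ^ 2 ≤ ((U : ℝ) ^ 2 * (M : ℝ) ^ 2 / y) * 2 ^ j := by
      calc (U : ℝ) ^ 2 * (M : ℝ) ^ 2 = ((U : ℝ) ^ 2 * (M : ℝ) ^ 2 / y) * y := by field_simp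
        _ ≤ _ := by gcongr
    calc C * (1 + Real.log ((2 : ℝ) ^ j)) ^ 8 * ((2 : ℝ) ^ j / R + (2 : ℝ) ^ j / √U + M * √((2 : ℝ) ^ j) +
          (U : ℝ) ^ 2 * (M : ℝ) ^ 2)
        ≤ C * (1 + J) ^ 8 * ((2 : ℝ) ^ j / R + (2 : ℝ) ^ j / √U + (M / √y) * 2 ^ j +
          ((U : ℝ) ^ 2 * (M : ℝ) ^ 2 / y) * 2 ^ j) := by gcongr
      _ = C * (1 + J) ^ 8 * (1 / R + 1 / √U + M / √y + (U : ℝ) ^ 2 * (M : ℝ) ^ 2 / y) * 2 ^ j := by ring
  refine (sum_le_sum h1).trans ?_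
  rw [sum_const, nsmul_eq_mul]
  have h2 : ((scales y J).card : ℝ) ≤ J := by
    have := card_filter_le (range J) (fun j => y < 2 ^ j)
    rw [card_range] at this
    exact_mod_cast this
  calc ((scales y J).card : ℝ) * (C * (1 + J) ^ 8 * (1 / R + 1 / √U + M / √y + (U : ℝ) ^ 2 * (M : ℝ) ^ 2 / y))
      ≤ J * (C * (1 + J) ^ 8 * (1 / R + 1 / √U + M / √y + (U : ℝ) ^ 2 * (M : ℝ) ^ 2 / y)) := by gcongr
    _ = _ := by ring

/-- one modulus: all classes -/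
lemma Sig_compare {C : ℝ} (hC : 0 < C) (hCL2 : ∀ (X : ℝ) (m g c : ℕ), 1 ≤ X → 1 ≤ m → g ∣ m → c.Coprime m →
      |psiLogAP X m c - (g.totient : ℝ) / m.totient * psiLogAP X g c| ≤
        (1 / (m.totient : ℝ)) * (∑ f ∈ m.divisors.filter (fun f => ¬ f ∣ g), ∑ ψ ∈ Prim f, ‖psiLog X f ψ‖) +
          C * (1 + Real.log m) * (Real.log X) ^ 2)
    {y J R m g c : ℕ} (hy : 1 ≤ y) (hm : 1 ≤ m) (hg : g ∣ m) (hc : c.Coprime m)
    (hR : ∀ f, f ∣ m → ¬ f ∣ g → R < f) :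
    (g.totient : ℝ) / m.totient * Sig y J g c ≤
      Sig y J m c + Em y J R m + C * (1 + Real.log m) * J ^ 3 / y := by
  have hy0 : (0 : ℝ) < y := by exact_mod_cast hy
  have hl2 := Real.log_two_lt_d9
  have hl2' : 0 < Real.log 2 := Real.log_pos (by norm_num)
  have hlm := Real.log_natCast_nonneg m
  have h1 : ∀ j ∈ scales y J, (g.totient : ℝ) / m.totient * (psiLogAP ((2 : ℝ) ^ j) g c / 2 ^ j) ≤
      psiLogAP ((2 : ℝ) ^ j) m c / 2 ^ j + (1 / (m.totient : ℝ)) * (∑ f ∈ m.divisors.filter (fun f => R < f),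
        ∑ ψ ∈ Prim f, ‖psiLog ((2 : ℝ) ^ j) f ψ‖) / 2 ^ j + C * (1 + Real.log m) * J ^ 2 / y := by
    intro j hj
    rw [scales, mem_filter, mem_range] at hj
    have h2j : (0 : ℝ) < 2 ^ j := by positivity
    have h2 := (abs_le.1 (hCL2 ((2 : ℝ) ^ j) m g c (one_le_pow₀ (by norm_num)) hm hg hc)).1
    have h3 : ∑ f ∈ m.divisors.filter (fun f => ¬ f ∣ g), ∑ ψ ∈ Prim f, ‖psiLog ((2 : ℝ) ^ j) f ψ‖ ≤
        ∑ f ∈ m.divisors.filter (fun f => R < f), ∑ ψ ∈ Prim f, ‖psiLog ((2 : ℝ) ^ j) f ψ‖ := by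
      apply sum_le_sum_of_subset_of_nonneg
      · intro f hf
        rw [mem_filter] at hf ⊢
        exact ⟨hf.1, hR f (Nat.dvd_of_mem_divisors hf.1) hf.2⟩
      · intro f _ _
        exact sum_nonneg fun ψ _ => norm_nonneg _
    have h4 : (1 / (m.totient : ℝ)) * (∑ f ∈ m.divisors.filter (fun f => ¬ f ∣ g), ∑ ψ ∈ Prim f, ‖psiLog ((2 : ℝ) ^ j) f ψ‖) ≤
        (1 / (m.totient : ℝ)) * (∑ f ∈ m.divisors.filter (fun f => R < f), ∑ ψ ∈ Prim f, ‖psiLog ((2 : ℝ) ^ j) f ψ‖) := by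
      gcongr
    have h5 : (Real.log ((2 : ℝ) ^ j)) ^ 2 ≤ (J : ℝ) ^ 2 := by
      have e0 : 0 ≤ Real.log ((2 : ℝ) ^ j) := by rw [Real.log_pow]; positivity
      apply pow_le_pow_left₀ e0
      rw [Real.log_pow]
      have e1 : (j : ℝ) ≤ J := by exact_mod_cast hj.1.le
      have e2 : (0 : ℝ) ≤ J := Nat.cast_nonneg _
      nlinarith
    have h6 : C * (1 + Real.log m) * (Real.log ((2 : ℝ) ^ j)) ^ 2 / 2 ^ j ≤ C * (1 + Real.log m) * J ^ 2 / y := by
      have : (y : ℝ) ≤ 2 ^ j := by exact_mod_cast hj.2.le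
      gcongr
    have h7 : (g.totient : ℝ) / m.totient * psiLogAP ((2 : ℝ) ^ j) g c ≤ psiLogAP ((2 : ℝ) ^ j) m c +
        (1 / (m.totient : ℝ)) * (∑ f ∈ m.divisors.filter (fun f => R < f), ∑ ψ ∈ Prim f, ‖psiLog ((2 : ℝ) ^ j) f ψ‖) +
        C * (1 + Real.log m) * (Real.log ((2 : ℝ) ^ j)) ^ 2 := by linarith
    have h8 := div_le_div_of_nonneg_right h7 h2j.le
    calc (g.totient : ℝ) / m.totient * (psiLogAP ((2 : ℝ) ^ j) g c / 2 ^ j)
        = (g.totient : ℝ) / m.totient * psiLogAP ((2 : ℝ) ^ j) g c / 2 ^ j := by ring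
      _ ≤ (psiLogAP ((2 : ℝ) ^ j) m c +
        (1 / (m.totient : ℝ)) * (∑ f ∈ m.divisors.filter (fun f => R < f), ∑ ψ ∈ Prim f, ‖psiLog ((2 : ℝ) ^ j) f ψ‖) +
        C * (1 + Real.log m) * (Real.log ((2 : ℝ) ^ j)) ^ 2) / 2 ^ j := h8
      _ = psiLogAP ((2 : ℝ) ^ j) m c / 2 ^ j + (1 / (m.totient : ℝ)) * (∑ f ∈ m.divisors.filter (fun f => R < f),
        ∑ ψ ∈ Prim f, ‖psiLog ((2 : ℝ) ^ j) f ψ‖) / 2 ^ j +
        C * (1 + Real.log m) * (Real.log ((2 : ℝ) ^ j)) ^ 2 / 2 ^ j := by ring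
      _ ≤ _ := by linarith
  unfold Sig Em
  rw [mul_sum]
  refine (sum_le_sum h1).trans ?_
  rw [sum_add_distrib, sum_add_distrib, sum_const, nsmul_eq_mul]
  have h2 : ((scales y J).card : ℝ) ≤ J := by
    have := card_filter_le (range J) (fun j => y < 2 ^ j)
    rw [card_range] at this
    exact_mod_cast this
  have h3 : ((scales y J).card : ℝ) * (C * (1 + Real.log m) * J ^ 2 / y) ≤ C * (1 + Real.log m) * J ^ 3 / y := by
    calc ((scales y J).card : ℝ) * (C * (1 + Real.log m) * J ^ 2 / y) ≤ J * (C * (1 + Real.log m) * J ^ 2 / y) := by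
          gcongr
      _ = _ := by ring
  linarith

end Pool.Agent.K9h19.LW
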