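import Pool.Agent.K9h19.LW.All2

/-! All classes: the moduli with a bad class. -/

set_option autoImplicit false

open Finset

namespace Pool.Agent.K9h19.LW

open Pool.Agent.H410R2 (psiLog psiLogAP)
open Pool.Agent.H398R2.BV (Prim)
open ArithmeticFunction (vonMangoldt)

/-- the primes `p ≡ c` modulo `m` with `m^(2+ε/3) < p < m^(2+ε)` have `∑ log p/p ≥ κ log m/φ(m)` -/
def Many2 (ε κ : ℝ) (m c : ℕ) : Prop :=
  κ * Real.log m / m.totient ≤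
    ∑ p ∈ (Icc 1 ⌊(m : ℝ) ^ (2 + ε)⌋₊).filter (fun p => p.Prime ∧ p ≡ c [MOD m] ∧
      (m : ℝ) ^ (2 + ε / 3) < p ∧ (p : ℝ) < (m : ℝ) ^ (2 + ε)), Real.log p / p

lemma grow3 {C s : ℝ} (hC : 0 < C) (hs : 3000000000000 * C + 1 ≤ s) : C * (s ^ 2) ^ 8 ≤ Real.exp (4 * s / 3) := by
  have hs1 : 1 ≤ s := by linarith
  have h1 : (4 * s / 3) ^ 17 / 355687428096000 ≤ Real.exp (4 * s / 3) := by
    have := Real.pow_div_factorial_le_exp (4 * s / 3) (by positivity) 17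
    simpa [Nat.factorial] using this
  have h2 : C * (s ^ 2) ^ 8 ≤ (4 * s / 3) ^ 17 / 355687428096000 := by
    have h3 : (4 * s / 3) ^ 17 / 355687428096000 = s ^ 16 * ((4 / 3) ^ 17 / 355687428096000 * s) := by ring
    rw [h3, ← pow_mul]
    have h4 : C ≤ (4 / 3) ^ 17 / 355687428096000 * s := by
      have h5 : (1 : ℝ) ≤ (4 / 3) ^ 17 / 355687428096000 * 3000000000000 := by norm_num
      have h6 : (0 : ℝ) < (4 / 3) ^ 17 / 355687428096000 := by positivity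
      calc C = 1 * C := (one_mul C).symm
        _ ≤ ((4 / 3) ^ 17 / 355687428096000 * 3000000000000) * C := by gcongr
        _ = (4 / 3) ^ 17 / 355687428096000 * (3000000000000 * C) := by ring
        _ ≤ (4 / 3) ^ 17 / 355687428096000 * s := by gcongr; linarith
    calc C * s ^ (2 * 8) = s ^ 16 * C := by ring
      _ ≤ _ := by gcongr
  exact h2.trans h1

/-- elementary facts about the window -/
lemma window2 {ε : ℝ} {M : ℕ} (hε : 0 < ε) (hε1 : ε ≤ 1) (hM : 2 ≤ M) (hl : 32 / ε ≤ Real.log M) :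
    ∃ x y y₁ J : ℕ, M ≤ x ∧ (4 * (x : ℝ)) ≤ (M : ℝ) ^ (2 + ε) ∧ Real.log x ≤ 3 * Real.log M ∧
      Real.log ((4 * x : ℕ) : ℝ) ≤ 3 * Real.log M ∧ M ^ 2 ≤ y ∧ (M : ℝ) ^ (2 + ε / 2) ≤ y ∧
      Real.log y ≤ (1 - ε / 12) * Real.log x ∧ y₁ ≤ 4 * x ∧ 1 ≤ y₁ ∧ (2 * (M : ℝ)) ^ (2 + ε / 3) < y₁ + 1 ∧
      (y₁ : ℝ) ≤ 8 * (M : ℝ) ^ (2 + ε / 3) ∧ (M : ℝ) ^ (2 + ε / 3) ≤ y₁ ∧
      (J : ℝ) ≤ 8 * Real.log M ∧ 4 * x ≤ 2 ^ J ∧ ∀ j < J, 2 ^ j ≤ 4 * x := by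
  have hM2 : (2 : ℝ) ≤ M := by exact_mod_cast hM
  have hM0 : (0 : ℝ) < M := by linarith
  have hM1 : (1 : ℝ) ≤ M := by linarith
  have hL : 32 ≤ ε * Real.log M := by
    rw [div_le_iff₀ hε] at hl
    linarith
  have hL32 : 32 ≤ Real.log M := by
    refine le_trans ?_ hl
    rw [le_div_iff₀ hε]
    linarith
  have hlog2 := Real.log_two_lt_d9
  have hlog2' := Real.log_two_gt_d9
  have hlog4 : Real.log 4 ≤ 2 := by
    have : (4 : ℝ) = 2 ^ 2 := by norm_num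
    rw [this, Real.log_pow]
    push_cast
    linarith
  have hMexp : ∀ t : ℝ, (M : ℝ) ^ t = Real.exp (Real.log M * t) := fun t => Real.rpow_def_of_pos hM0 t
  obtain ⟨x, hx⟩ : ∃ x : ℕ, x = ⌊(M : ℝ) ^ (2 + ε) / 4⌋₊ := ⟨_, rfl⟩
  obtain ⟨y, hy⟩ : ∃ y : ℕ, y = ⌊(M : ℝ) ^ (2 + ε / 2)⌋₊ + 1 := ⟨_, rfl⟩
  obtain ⟨y₁, hy₁⟩ : ∃ y₁ : ℕ, y₁ = ⌊(2 * (M : ℝ)) ^ (2 + ε / 3)⌋₊ := ⟨_, rfl⟩
  obtain ⟨J, hJ⟩ : ∃ J : ℕ, J = Nat.log 2 x + 3 := ⟨_, rfl⟩
  -- `x`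
  have a0 : (M : ℝ) ^ (2 : ℝ) ≤ (M : ℝ) ^ (2 + ε) := Real.rpow_le_rpow_of_exponent_le hM1 (by linarith)
  have a00 : (M : ℝ) ^ (2 : ℝ) = (M : ℝ) ^ 2 := by norm_num
  have hMbig : (8 : ℝ) ≤ M := by
    have : Real.log 8 ≤ Real.log M := by
      have : (8 : ℝ) = 2 ^ 3 := by norm_num
      rw [this, Real.log_pow]
      push_cast
      linarith
    exact (Real.log_le_log_iff (by norm_num) hM0).1 this
  have a1 : (M : ℝ) ≤ (M : ℝ) ^ (2 + ε) / 4 := by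
    rw [a00] at a0
    nlinarith
  have a2 : M ≤ x := by rw [hx]; exact Nat.le_floor a1
  have a3 : (x : ℝ) ≤ (M : ℝ) ^ (2 + ε) / 4 := by rw [hx]; exact Nat.floor_le (by positivity)
  have a4 : (4 * (x : ℝ)) ≤ (M : ℝ) ^ (2 + ε) := by linarith
  have hx0 : (0 : ℝ) < x := by exact_mod_cast (show 0 < x by omega)
  have a5 : Real.log (4 * (x : ℝ)) ≤ (2 + ε) * Real.log M := by
    rw [← Real.log_rpow hM0]
    exact Real.log_le_log (by positivity) a4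
  have a6 : Real.log (4 * (x : ℝ)) = Real.log 4 + Real.log x := Real.log_mul (by norm_num) hx0.ne'
  have hlog4' : 0 ≤ Real.log 4 := Real.log_nonneg (by norm_num)
  have a7 : (2 + ε) * Real.log M - 3 ≤ Real.log x := by
    have h1 : (M : ℝ) ^ (2 + ε) ≤ 8 * x := by
      have h2 := Nat.lt_floor_add_one ((M : ℝ) ^ (2 + ε) / 4)
      rw [← hx] at h2
      have h3 : (1 : ℝ) ≤ x := by exact_mod_cast (show 1 ≤ x by omega)
      linarith
    have h4 := Real.log_le_log (by positivity) h1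
    rw [Real.log_rpow hM0, Real.log_mul (by norm_num) hx0.ne'] at h4
    have h5 : Real.log 8 ≤ 3 := by
      have : (8 : ℝ) = 2 ^ 3 := by norm_num
      rw [this, Real.log_pow]
      push_cast
      linarith
    linarith
  -- `y`
  have b1 : (M : ℝ) ^ (2 + ε / 2) ≤ y := by
    rw [hy]
    push_cast
    exact (Nat.lt_floor_add_one _).le
  have b0 : (1 : ℝ) ≤ (M : ℝ) ^ (2 + ε / 2) := Real.one_le_rpow hM1 (by linarith)
  have b2 : M ^ 2 ≤ y := by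
    have h1 : (M : ℝ) ^ (2 : ℝ) ≤ (M : ℝ) ^ (2 + ε / 2) := Real.rpow_le_rpow_of_exponent_le hM1 (by linarith)
    rw [a00] at h1
    exact_mod_cast h1.trans b1
  have b4 : Real.log y ≤ (2 + ε / 2) * Real.log M + 1 := by
    have h1 : (y : ℝ) ≤ 2 * (M : ℝ) ^ (2 + ε / 2) := by
      rw [hy]
      push_cast
      have := Nat.floor_le (show (0 : ℝ) ≤ (M : ℝ) ^ (2 + ε / 2) by linarith)
      linarith
    have h2 := Real.log_le_log (by linarith) h1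
    rw [Real.log_mul (by norm_num) (by linarith), Real.log_rpow hM0] at h2
    linarith
  have b5 : Real.log y ≤ (1 - ε / 12) * Real.log x := by
    have h1 : (1 - ε / 12) * ((2 + ε) * Real.log M - 3) ≤ (1 - ε / 12) * Real.log x := by
      apply mul_le_mul_of_nonneg_left a7
      linarith
    refine b4.trans (le_trans ?_ h1)
    have h2 : ε ^ 2 * Real.log M ≤ ε * Real.log M := by nlinarith
    nlinarith
  -- `y₁`
  have hMp : (0 : ℝ) < (M : ℝ) ^ (2 + ε / 3) := Real.rpow_pos_of_pos hM0 _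
  have c0 : (2 * (M : ℝ)) ^ (2 + ε / 3) = (2 : ℝ) ^ (2 + ε / 3) * (M : ℝ) ^ (2 + ε / 3) :=
    Real.mul_rpow (by norm_num) hM0.le
  have c1 : (2 : ℝ) ^ (2 + ε / 3) ≤ 8 := by
    calc (2 : ℝ) ^ (2 + ε / 3) ≤ (2 : ℝ) ^ (3 : ℝ) := Real.rpow_le_rpow_of_exponent_le (by norm_num) (by linarith)
      _ = 8 := by norm_num
  have c2 : (4 : ℝ) ≤ (2 : ℝ) ^ (2 + ε / 3) := by
    calc (4 : ℝ) = (2 : ℝ) ^ (2 : ℝ) := by norm_num
      _ ≤ (2 : ℝ) ^ (2 + ε / 3) := Real.rpow_le_rpow_of_exponent_le (by norm_num) (by linarith)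
  have c3 : (2 * (M : ℝ)) ^ (2 + ε / 3) ≤ 8 * (M : ℝ) ^ (2 + ε / 3) := by
    rw [c0]; gcongr
  have c4 : 4 * (M : ℝ) ^ (2 + ε / 3) ≤ (2 * (M : ℝ)) ^ (2 + ε / 3) := by
    rw [c0]; gcongr
  have c5 : (y₁ : ℝ) ≤ (2 * (M : ℝ)) ^ (2 + ε / 3) := by rw [hy₁]; exact Nat.floor_le (by positivity)
  have c6 : (2 * (M : ℝ)) ^ (2 + ε / 3) < y₁ + 1 := by rw [hy₁]; exact Nat.lt_floor_add_one _
  have c7 : (1 : ℝ) ≤ (M : ℝ) ^ (2 + ε / 3) := Real.one_le_rpow hM1 (by linarith)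
  have c8 : (M : ℝ) ^ (2 + ε / 3) ≤ y₁ := by linarith
  have c9 : 1 ≤ y₁ := by exact_mod_cast c7.trans c8
  have c10 : y₁ ≤ 4 * x := by
    have h1 : Real.log y₁ ≤ Real.log x := by
      have h2 := Real.log_le_log (by exact_mod_cast c9) c5
      rw [Real.log_rpow (by positivity), Real.log_mul (by norm_num) hM0.ne'] at h2
      refine h2.trans (le_trans ?_ a7)
      nlinarith
    have h2 : y₁ ≤ x := by
      have := (Real.log_le_log_iff (by exact_mod_cast c9) hx0).1 h1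
      exact_mod_cast this
    omega
  -- `J`
  have d1 : 2 ^ Nat.log 2 x ≤ x := Nat.pow_log_le_self 2 (by omega)
  have d2 : x < 2 ^ (Nat.log 2 x + 1) := Nat.lt_pow_succ_log_self (by norm_num) _
  refine ⟨x, y, y₁, J, a2, a4, by nlinarith, ?_, b2, b1, b5, c10, c9, c6, by linarith, c8, ?_, ?_, ?_⟩
  · push_cast
    nlinarith
  · have e1 : ((2 ^ Nat.log 2 x : ℕ) : ℝ) ≤ x := by exact_mod_cast d1
    have e2 := Real.log_le_log (by push_cast; positivity) e1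
    push_cast at e2
    rw [Real.log_pow] at e2
    rw [hJ]
    push_cast
    have e3 : Real.log x ≤ 3 * Real.log M := by nlinarith
    have e4 : (0 : ℝ) ≤ (Nat.log 2 x : ℝ) := Nat.cast_nonneg _
    nlinarith
  · calc 4 * x ≤ 4 * 2 ^ (Nat.log 2 x + 1) := Nat.mul_le_mul_left 4 d2.le
      _ = 2 ^ J := by rw [hJ]; ring
  · intro j hj
    calc 2 ^ j ≤ 2 ^ (Nat.log 2 x + 2) := Nat.pow_le_pow_right (by norm_num) (by omega)
      _ = 4 * 2 ^ Nat.log 2 x := by ring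
      _ ≤ 4 * x := Nat.mul_le_mul_left 4 d1

end Pool.Agent.K9h19.LW
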