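import Pool.Agent.K9h19.LW.All3

/-! All classes: the error terms of one modulus. -/

set_option autoImplicit false

open Finset

namespace Pool.Agent.K9h19.LW

open Pool.Agent.H410R2 (psiLog psiLogAP)
open Pool.Agent.H398R2.BV (Prim)
open ArithmeticFunction (vonMangoldt)

lemma grow4 {K ε l : ℝ} (hK : 0 < K) (hε : 0 < ε) (hl : 31104 * K / ε ^ 4 ≤ l) : K * l ^ 3 ≤ Real.exp (l * (ε / 6)) := by
  have hl0 : 0 < l := lt_of_lt_of_le (by positivity) hl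
  have h1 : (l * (ε / 6)) ^ 4 / 24 ≤ Real.exp (l * (ε / 6)) := by
    have := Real.pow_div_factorial_le_exp (l * (ε / 6)) (by positivity) 4
    simpa [Nat.factorial] using this
  refine le_trans ?_ h1
  have h2 : (l * (ε / 6)) ^ 4 / 24 = l ^ 3 * (l * ε ^ 4 / 31104) := by ring
  rw [h2, mul_comm]
  apply mul_le_mul_of_nonneg_left _ (by positivity)
  rw [le_div_iff₀ (by norm_num)]
  rw [div_le_iff₀ (by positivity)] at hl
  linarith

lemma err2 {ε C1 : ℝ} (hε : 0 < ε) (hε1 : ε ≤ 1) (hC1 : 0 < C1) {M m x y y₁ J : ℕ} (hM : 2 ≤ M)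
    (hl : 32 ≤ Real.log M) (hmM : M < m) (hm2 : m ≤ 2 * M) (hx : Real.log ((4 * x : ℕ) : ℝ) ≤ 3 * Real.log M)
    (hy : (M : ℝ) ^ (2 + ε / 2) ≤ y) (hy1x : y₁ ≤ 4 * x) (hy1 : 1 ≤ y₁)
    (hy1u : (y₁ : ℝ) ≤ 8 * (M : ℝ) ^ (2 + ε / 3)) (hy1l : (M : ℝ) ^ (2 + ε / 3) ≤ y₁) (hJ : (J : ℝ) ≤ 8 * Real.log M) :
    ((y₁ : ℝ) / m + 1) * Real.log y₁ * (J * (J * Real.log 2) / y) + 48 * (1 + Real.log ((4 * x : ℕ) : ℝ)) ^ 2 / √y₁ +
      C1 * (1 + Real.log m) * J ^ 3 / y ≤ (2000 + 1536 * C1) * (Real.log M) ^ 4 * (M : ℝ) ^ (-(1 + ε / 6)) := by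
  have hM2 : (2 : ℝ) ≤ M := by exact_mod_cast hM
  have hM0 : (0 : ℝ) < M := by linarith
  have hM1 : (1 : ℝ) ≤ M := by linarith
  obtain ⟨l, hl'⟩ : ∃ l : ℝ, l = Real.log M := ⟨_, rfl⟩
  rw [← hl'] at hl hx hJ ⊢
  have hl0 : 0 < l := by linarith
  have hlog2 := Real.log_two_lt_d9
  have hlog2' : 0 < Real.log 2 := Real.log_pos (by norm_num)
  have hm0 : (0 : ℝ) < m := by exact_mod_cast (show 0 < m by omega)
  have hmMr : (M : ℝ) ≤ m := by exact_mod_cast hmM.le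
  have hm2r : (m : ℝ) ≤ 2 * M := by exact_mod_cast hm2
  have hPy : (0 : ℝ) < (M : ℝ) ^ (2 + ε / 2) := Real.rpow_pos_of_pos hM0 _
  have hy0 : (0 : ℝ) < y := lt_of_lt_of_le hPy hy
  have hy10 : (0 : ℝ) < y₁ := by exact_mod_cast hy1
  obtain ⟨P, hP⟩ : ∃ P : ℝ, P = (M : ℝ) ^ (-(1 + ε / 6)) := ⟨_, rfl⟩
  have hP0 : 0 < P := by rw [hP]; exact Real.rpow_pos_of_pos hM0 _
  rw [← hP]
  -- logs
  have hly1 : Real.log y₁ ≤ 3 * l := by
    refine le_trans ?_ hx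
    apply Real.log_le_log hy10
    exact_mod_cast hy1x
  have hly10 : 0 ≤ Real.log y₁ := Real.log_natCast_nonneg y₁
  have hlm : Real.log m ≤ 2 * l := by
    have h1 : (m : ℝ) ≤ (M : ℝ) ^ 2 := by nlinarith
    have h2 := Real.log_le_log hm0 h1
    rw [Real.log_pow, ← hl'] at h2
    exact_mod_cast h2
  have hlm0 : 0 ≤ Real.log m := Real.log_natCast_nonneg m
  have hJ0 : (0 : ℝ) ≤ J := Nat.cast_nonneg _
  have hx0 : 0 ≤ Real.log ((4 * x : ℕ) : ℝ) := Real.log_natCast_nonneg _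
  -- term 1
  have hA : ((y₁ : ℝ) / m + 1) / y ≤ 9 * P := by
    have h1 : (y₁ : ℝ) / m ≤ 8 * (M : ℝ) ^ (1 + ε / 3) := by
      have e1 : (M : ℝ) ^ (2 + ε / 3) = (M : ℝ) ^ (1 + ε / 3) * M := by
        have : (M : ℝ) ^ (1 + ε / 3) * M = (M : ℝ) ^ (1 + ε / 3) * (M : ℝ) ^ (1 : ℝ) := by rw [Real.rpow_one]
        rw [this, ← Real.rpow_add hM0]
        congr 1
        ring
      rw [div_le_iff₀ hm0]
      calc (y₁ : ℝ) ≤ 8 * (M : ℝ) ^ (2 + ε / 3) := hy1u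
        _ = 8 * (M : ℝ) ^ (1 + ε / 3) * M := by rw [e1]; ring
        _ ≤ 8 * (M : ℝ) ^ (1 + ε / 3) * m := by gcongr
    have h2 : (1 : ℝ) ≤ (M : ℝ) ^ (1 + ε / 3) := Real.one_le_rpow hM1 (by linarith)
    have h3 : (M : ℝ) ^ (1 + ε / 3) = P * (M : ℝ) ^ (2 + ε / 2) := by
      rw [hP, ← Real.rpow_add hM0]
      congr 1
      ring
    rw [div_le_iff₀ hy0]
    calc (y₁ : ℝ) / m + 1 ≤ 9 * (M : ℝ) ^ (1 + ε / 3) := by linarith
      _ = 9 * P * (M : ℝ) ^ (2 + ε / 2) := by rw [h3]; ring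
      _ ≤ 9 * P * y := by gcongr
  have hT1 : ((y₁ : ℝ) / m + 1) * Real.log y₁ * (J * (J * Real.log 2) / y) ≤ 1300 * l ^ 3 * P := by
    have h0 : 0 ≤ ((y₁ : ℝ) / m + 1) / y := by positivity
    calc ((y₁ : ℝ) / m + 1) * Real.log y₁ * (J * (J * Real.log 2) / y)
        = (((y₁ : ℝ) / m + 1) / y) * (Real.log y₁ * (J * (J * Real.log 2))) := by ring
      _ ≤ (9 * P) * ((3 * l) * ((8 * l) * ((8 * l) * 0.7))) := by
          have hb : Real.log 2 ≤ 0.7 := by linarith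
          gcongr
      _ ≤ 1300 * l ^ 3 * P := by
          have : 0 ≤ l ^ 3 * P := by positivity
          nlinarith
  -- term 2
  have hs : (M : ℝ) ^ (1 + ε / 6) ≤ √y₁ := by
    apply Real.le_sqrt_of_sq_le
    rw [← Real.rpow_natCast, ← Real.rpow_mul hM0.le]
    refine le_trans (le_of_eq ?_) hy1l
    congr 1
    push_cast
    ring
  have hs0 : (0 : ℝ) < (M : ℝ) ^ (1 + ε / 6) := Real.rpow_pos_of_pos hM0 _
  have hT2 : 48 * (1 + Real.log ((4 * x : ℕ) : ℝ)) ^ 2 / √y₁ ≤ 700 * l ^ 2 * P := by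
    have h1 : 1 / √(y₁ : ℝ) ≤ P := by
      rw [hP, Real.rpow_neg hM0.le, one_div]
      exact inv_anti₀ hs0 hs
    have h2 : (1 + Real.log ((4 * x : ℕ) : ℝ)) ^ 2 ≤ (3.5 * l) ^ 2 := by
      apply pow_le_pow_left₀ (by positivity)
      linarith
    calc 48 * (1 + Real.log ((4 * x : ℕ) : ℝ)) ^ 2 / √y₁ = 48 * (1 + Real.log ((4 * x : ℕ) : ℝ)) ^ 2 * (1 / √y₁) := by ring
      _ ≤ 48 * (3.5 * l) ^ 2 * P := by gcongr
      _ ≤ 700 * l ^ 2 * P := by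
          have : 0 ≤ l ^ 2 * P := by positivity
          nlinarith
  -- term 3
  have hT3 : C1 * (1 + Real.log m) * J ^ 3 / y ≤ 1536 * C1 * l ^ 4 * P := by
    have h1 : 1 / (y : ℝ) ≤ P := by
      have e1 : (M : ℝ) ^ (1 + ε / 6) ≤ y :=
        (Real.rpow_le_rpow_of_exponent_le hM1 (by linarith)).trans hy
      rw [hP, Real.rpow_neg hM0.le, one_div]
      exact inv_anti₀ hs0 e1
    calc C1 * (1 + Real.log m) * J ^ 3 / y = C1 * (1 + Real.log m) * J ^ 3 * (1 / y) := by ring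
      _ ≤ C1 * (3 * l) * (8 * l) ^ 3 * P := by
          have : 1 + Real.log m ≤ 3 * l := by linarith
          gcongr
      _ = 1536 * C1 * l ^ 4 * P := by ring
  have h4 : l ^ 3 * P ≤ l ^ 4 * P := by
    apply mul_le_mul_of_nonneg_right _ hP0.le
    exact pow_le_pow_right₀ (by linarith) (by norm_num)
  have h5 : l ^ 2 * P ≤ l ^ 4 * P := by
    apply mul_le_mul_of_nonneg_right _ hP0.le
    exact pow_le_pow_right₀ (by linarith) (by norm_num)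
  nlinarith

end Pool.Agent.K9h19.LW
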