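import Pool.Agent.K9h19.LW.Fin1
import Pool.Agent.K9h19.LW.Lin2

/-! The number of classes without primes in the window: moduli with a small smooth part. -/

set_option autoImplicit false

open Finset

namespace Pool.Agent.K9h19.LW

/-- the primes `p ≡ c` modulo `m` with `m^(1+ε/3) < p < m^(1+ε)` have `∑ log p/p ≥ κ log m/φ(m)` -/
def Many (ε κ : ℝ) (m c : ℕ) : Prop :=
  κ * Real.log m / m.totient ≤
    ∑ p ∈ (Icc 1 ⌊(m : ℝ) ^ (1 + ε)⌋₊).filter (fun p => p.Prime ∧ p ≡ c [MOD m] ∧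
      (m : ℝ) ^ (1 + ε / 3) < p ∧ (p : ℝ) < (m : ℝ) ^ (1 + ε)), Real.log p / p

open Classical in
/-- the number of classes prime to `m` for which this fails -/
noncomputable def bad (ε κ : ℝ) (m : ℕ) : ℕ :=
  ((range m).filter (fun c => c.Coprime m ∧ ¬ Many ε κ m c)).card

lemma sp_dvd {y m : ℕ} (hm : m ≠ 0) : sp y m ∣ m := by
  unfold sp
  conv_rhs => rw [← Nat.factorization_prod_pow_eq_self hm]
  rw [Finsupp.prod, Nat.support_factorization]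
  exact prod_dvd_prod_of_subset _ _ _ (filter_subset _ _)

lemma sp_pos (y m : ℕ) : 0 < sp y m := by
  unfold sp
  apply prod_pos
  intro p hp
  rw [mem_filter] at hp
  exact Nat.pow_pos (Nat.prime_of_mem_primeFactors hp.1).pos

lemma dvd_sp {y m f : ℕ} (hm : m ≠ 0) (hf : f ∣ m) (hfy : f ≤ y) : f ∣ sp y m := by
  have hf0 : f ≠ 0 := by rintro rfl; exact hm (Nat.eq_zero_of_zero_dvd hf)
  unfold sp
  conv_lhs => rw [← Nat.factorization_prod_pow_eq_self hf0]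
  rw [Finsupp.prod, Nat.support_factorization]
  have h1 : f.primeFactors ⊆ m.primeFactors.filter (fun p => p ≤ y) := by
    intro p hp
    rw [mem_filter]
    exact ⟨Nat.primeFactors_mono hf hm hp, (Nat.le_of_mem_primeFactors hp).trans hfy⟩
  refine dvd_trans ?_ (prod_dvd_prod_of_subset _ _ _ h1)
  apply prod_dvd_prod_of_dvd
  intro p _
  exact pow_dvd_pow p ((Nat.factorization_le_iff_dvd hf0 hm).2 hf p)

/-- elementary facts about the window -/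
lemma window {ε : ℝ} {M : ℕ} (hε : 0 < ε) (hε1 : ε ≤ 1) (hM : 2 ≤ M) (hl : 8 / ε ≤ Real.log M) :
    M ≤ ⌊(M : ℝ) ^ (1 + ε)⌋₊ ∧ (⌊(M : ℝ) ^ (1 + ε)⌋₊ : ℝ) ≤ (M : ℝ) ^ (1 + ε) ∧
    Real.log (⌊(M : ℝ) ^ (1 + ε)⌋₊ : ℝ) ≤ 2 * Real.log M ∧
    2 * M ≤ ⌊(M : ℝ) ^ (1 + ε / 2)⌋₊ + 1 ∧ (M : ℝ) ^ (1 + ε / 2) ≤ ((⌊(M : ℝ) ^ (1 + ε / 2)⌋₊ + 1 : ℕ) : ℝ) ∧
    Real.log ((⌊(M : ℝ) ^ (1 + ε / 2)⌋₊ + 1 : ℕ) : ℝ) ≤ (1 - ε / 8) * Real.log (⌊(M : ℝ) ^ (1 + ε)⌋₊ : ℝ) ∧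
    (2 * (M : ℝ)) ^ (1 + ε / 3) ≤ (M : ℝ) ^ (1 + ε / 2) := by
  have hM2 : (2 : ℝ) ≤ M := by exact_mod_cast hM
  have hM0 : (0 : ℝ) < M := by linarith
  have hM1 : (1 : ℝ) ≤ M := by linarith
  have hL : 8 ≤ ε * Real.log M := by
    rw [div_le_iff₀ hε] at hl
    linarith
  have hL0 : 0 < Real.log M := by nlinarith
  have hlog2 := Real.log_two_lt_d9
  have hlog2' := Real.log_two_gt_d9
  have a1 : (M : ℝ) ≤ (M : ℝ) ^ (1 + ε) := by
    calc (M : ℝ) = (M : ℝ) ^ (1 : ℝ) := (Real.rpow_one _).symm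
      _ ≤ (M : ℝ) ^ (1 + ε) := Real.rpow_le_rpow_of_exponent_le hM1 (by linarith)
  have a2 : (1 : ℝ) ≤ (M : ℝ) ^ (1 + ε) := hM1.trans a1
  have a3 : M ≤ ⌊(M : ℝ) ^ (1 + ε)⌋₊ := Nat.le_floor a1
  have a4 : (⌊(M : ℝ) ^ (1 + ε)⌋₊ : ℝ) ≤ (M : ℝ) ^ (1 + ε) := Nat.floor_le (by linarith)
  have a5 : (0 : ℝ) < (⌊(M : ℝ) ^ (1 + ε)⌋₊ : ℝ) := by exact_mod_cast (show 0 < ⌊(M : ℝ) ^ (1 + ε)⌋₊ by omega)
  have a6 : Real.log (⌊(M : ℝ) ^ (1 + ε)⌋₊ : ℝ) ≤ (1 + ε) * Real.log M := by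
    rw [← Real.log_rpow hM0]
    exact Real.log_le_log a5 a4
  have a7 : (1 + ε) * Real.log M - 1 ≤ Real.log (⌊(M : ℝ) ^ (1 + ε)⌋₊ : ℝ) := by
    have h1 : (M : ℝ) ^ (1 + ε) ≤ 2 * (⌊(M : ℝ) ^ (1 + ε)⌋₊ : ℝ) := by
      have h2 := Nat.lt_floor_add_one ((M : ℝ) ^ (1 + ε))
      have h3 : (1 : ℝ) ≤ (⌊(M : ℝ) ^ (1 + ε)⌋₊ : ℝ) := by exact_mod_cast (show 1 ≤ ⌊(M : ℝ) ^ (1 + ε)⌋₊ by omega)
      linarith
    have h4 := Real.log_le_log (by linarith) h1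
    rw [Real.log_rpow hM0, Real.log_mul (by norm_num) a5.ne'] at h4
    linarith
  have b1 : (M : ℝ) ^ (1 + ε / 2) ≤ ((⌊(M : ℝ) ^ (1 + ε / 2)⌋₊ + 1 : ℕ) : ℝ) := by
    push_cast
    exact (Nat.lt_floor_add_one _).le
  have b0 : (1 : ℝ) ≤ (M : ℝ) ^ (1 + ε / 2) := Real.one_le_rpow hM1 (by linarith)
  have b2 : 2 * (M : ℝ) ≤ (M : ℝ) ^ (1 + ε / 2) := by
    rw [Real.rpow_add hM0, Real.rpow_one, mul_comm]
    apply mul_le_mul_of_nonneg_left _ hM0.le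
    have h1 : Real.log 2 ≤ Real.log M * (ε / 2) := by nlinarith
    calc (2 : ℝ) = Real.exp (Real.log 2) := (Real.exp_log (by norm_num)).symm
      _ ≤ Real.exp (Real.log M * (ε / 2)) := Real.exp_le_exp.2 h1
      _ = (M : ℝ) ^ (ε / 2) := (Real.rpow_def_of_pos hM0 _).symm
  have b3 : 2 * M ≤ ⌊(M : ℝ) ^ (1 + ε / 2)⌋₊ + 1 := by
    have : ((2 * M : ℕ) : ℝ) ≤ ((⌊(M : ℝ) ^ (1 + ε / 2)⌋₊ + 1 : ℕ) : ℝ) := by
      push_cast
      push_cast at b1
      linarith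
    exact_mod_cast this
  have b4 : Real.log ((⌊(M : ℝ) ^ (1 + ε / 2)⌋₊ + 1 : ℕ) : ℝ) ≤ (1 + ε / 2) * Real.log M + 1 := by
    have h1 : ((⌊(M : ℝ) ^ (1 + ε / 2)⌋₊ + 1 : ℕ) : ℝ) ≤ 2 * (M : ℝ) ^ (1 + ε / 2) := by
      push_cast
      have := Nat.floor_le (show (0 : ℝ) ≤ (M : ℝ) ^ (1 + ε / 2) by linarith)
      linarith
    have h2 := Real.log_le_log (by positivity) h1
    rw [Real.log_mul (by norm_num) (by linarith), Real.log_rpow hM0] at h2
    linarith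
  refine ⟨a3, a4, by nlinarith, b3, b1, ?_, ?_⟩
  · have h1 : (1 - ε / 8) * ((1 + ε) * Real.log M - 1) ≤ (1 - ε / 8) * Real.log (⌊(M : ℝ) ^ (1 + ε)⌋₊ : ℝ) := by
      apply mul_le_mul_of_nonneg_left a7
      linarith
    refine b4.trans (le_trans ?_ h1)
    have h2 : ε ^ 2 * Real.log M ≤ ε * Real.log M := by nlinarith
    nlinarith
  · rw [Real.rpow_def_of_pos (by linarith), Real.rpow_def_of_pos hM0]
    apply Real.exp_le_exp.2
    rw [Real.log_mul (by norm_num) hM0.ne']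
    nlinarith

theorem power (hLW : S_LW) (hVAR : S_VAR) (ε : ℝ) (hε : 0 < ε) (hε1 : ε ≤ 1) :
    ∃ κ η C : ℝ, 0 < κ ∧ 0 < η ∧ η ≤ 1 ∧ 0 < C ∧ ∀ B : ℕ, ∃ M₀ : ℕ, ∀ M : ℕ, M₀ ≤ M → ∃ q₁ : ℕ,
      (Real.log M) ^ B < (q₁ : ℝ) ∧ ∀ ρ : ℝ, 0 ≤ ρ → ρ ≤ ε / 2 →
      ∑ m ∈ (Ioc M (2 * M)).filter (fun m => ¬ q₁ ∣ m ∧ (sp ⌊(M : ℝ) ^ ρ⌋₊ m : ℝ) ≤ (M : ℝ) ^ η), (bad ε κ m : ℝ) ≤
        C * (M : ℝ) ^ (2 - ρ) * (Real.log M) ^ 4 := by
  classical
  obtain ⟨L, c₃, hL, hc₃, hlw⟩ := hLW (ε / 8) (by linarith) (by linarith)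
  obtain ⟨C, hC, hvar⟩ := var_all hVAR
  have hLr : (1 : ℝ) ≤ L := by exact_mod_cast hL
  refine ⟨c₃ / 4, 1 / L, 768 * C / c₃ ^ 2, by positivity, by positivity, ?_, by positivity, ?_⟩
  · rw [div_le_one (by linarith)]; exact hLr
  intro B
  obtain ⟨x₀, hx₀⟩ := hlw B
  refine ⟨max (max x₀ 2) ⌈Real.exp (8 / ε)⌉₊, fun M hM => ?_⟩
  have hMx : x₀ ≤ M := ((le_max_left _ _).trans (le_max_left _ _)).trans hM
  have hM2 : 2 ≤ M := ((le_max_right _ _).trans (le_max_left _ _)).trans hM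
  have hMe : Real.exp (8 / ε) ≤ M := (Nat.le_ceil _).trans (by exact_mod_cast (le_max_right _ _).trans hM)
  have hM2r : (2 : ℝ) ≤ M := by exact_mod_cast hM2
  have hM0 : (0 : ℝ) < M := by linarith
  have hM1 : (1 : ℝ) ≤ M := by linarith
  have hl : 8 / ε ≤ Real.log M := (Real.le_log_iff_exp_le hM0).2 hMe
  have hl8 : 8 ≤ Real.log M := by
    refine le_trans ?_ hl
    rw [le_div_iff₀ hε]
    linarith
  obtain ⟨w1, w2, w3, w4, w5, w6, w7⟩ := window hε hε1 hM2 hl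
  obtain ⟨x, hx⟩ : ∃ x : ℕ, x = ⌊(M : ℝ) ^ (1 + ε)⌋₊ := ⟨_, rfl⟩
  obtain ⟨y, hy⟩ : ∃ y : ℕ, y = ⌊(M : ℝ) ^ (1 + ε / 2)⌋₊ + 1 := ⟨_, rfl⟩
  rw [← hx] at w1 w2 w3 w6
  rw [← hy] at w4 w5 w6
  have hx0 : (0 : ℝ) < x := by exact_mod_cast (show 0 < x by omega)
  have hlxM : Real.log M ≤ Real.log x := Real.log_le_log hM0 (by exact_mod_cast w1)
  obtain ⟨q₁, hq₁, hmain⟩ := hx₀ x (hMx.trans w1)
  refine ⟨q₁, lt_of_le_of_lt (pow_le_pow_left₀ (by linarith) hlxM B) hq₁, ?_⟩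
  intro ρ hρ0 hρ
  obtain ⟨R, hR⟩ : ∃ R : ℕ, R = ⌊(M : ℝ) ^ ρ⌋₊ := ⟨_, rfl⟩
  rw [← hR]
  have hMρ : 1 ≤ (M : ℝ) ^ ρ := Real.one_le_rpow hM1 hρ0
  have hR1 : 1 ≤ R := by rw [hR]; exact Nat.le_floor (by simpa using hMρ)
  have hR0 : (0 : ℝ) < R := by exact_mod_cast hR1
  have hRl : (M : ℝ) ^ ρ ≤ 2 * R := by
    have h1 := Nat.lt_floor_add_one ((M : ℝ) ^ ρ)
    rw [← hR] at h1
    have h2 : (1 : ℝ) ≤ R := by exact_mod_cast hR1
    linarith
  -- the mean square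
  have hV := hvar M x y R (fun m => sp R m) hM2 hR1 w4 (by omega) (by
    intro m hm
    rw [mem_Ioc] at hm
    refine ⟨sp_dvd (by omega), fun f hf hfn => ?_⟩
    by_contra hcon
    exact hfn (dvd_sp (by omega) hf (by omega)))
  have hMmρ : (0 : ℝ) < (M : ℝ) ^ (-ρ) := Real.rpow_pos_of_pos hM0 _
  have h1R : 1 / (R : ℝ) ≤ 2 * (M : ℝ) ^ (-ρ) := by
    rw [Real.rpow_neg hM0.le, div_le_iff₀ hR0]
    have h1 : ((M : ℝ) ^ ρ)⁻¹ * (M : ℝ) ^ ρ = 1 := inv_mul_cancel₀ (by positivity)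
    have h2 := mul_le_mul_of_nonneg_left hRl (show 0 ≤ ((M : ℝ) ^ ρ)⁻¹ by positivity)
    rw [h1] at h2
    linarith
  have hMy : (M : ℝ) / y ≤ (M : ℝ) ^ (-ρ) := by
    have hy0 : (0 : ℝ) < y := by exact_mod_cast (show 0 < y by omega)
    rw [div_le_iff₀ hy0]
    calc (M : ℝ) = (M : ℝ) ^ (-(ε / 2)) * (M : ℝ) ^ (1 + ε / 2) := by
          rw [← Real.rpow_add hM0]
          norm_num
      _ ≤ (M : ℝ) ^ (-ρ) * y := by
          apply mul_le_mul (Real.rpow_le_rpow_of_exponent_le hM1 (by linarith)) w5 (by positivity) hMmρ.le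
  have hV2 : ∑ m ∈ Ioc M (2 * M), ∑ c ∈ (range m).filter (fun c => c.Coprime m),
      (SP (wt y x) x m c - ((sp R m).totient : ℝ) / m.totient * SP (wt y x) x (sp R m) c) ^ 2 ≤
      48 * C * (Real.log M) ^ 6 * (M : ℝ) ^ (-ρ) := by
    refine hV.trans ?_
    have h1 : (Real.log x) ^ 4 ≤ (2 * Real.log M) ^ 4 := pow_le_pow_left₀ (by linarith) w3 4
    have h2 : 1 / (R : ℝ) + M / y ≤ 3 * (M : ℝ) ^ (-ρ) := by linarith
    calc C * (Real.log M) ^ 2 * (Real.log x) ^ 4 * (1 / R + M / y)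
        ≤ C * (Real.log M) ^ 2 * (2 * Real.log M) ^ 4 * (3 * (M : ℝ) ^ (-ρ)) := by gcongr
      _ = 48 * C * (Real.log M) ^ 6 * (M : ℝ) ^ (-ρ) := by ring
  -- the classes without many primes
  obtain ⟨δ, hδ⟩ : ∃ δ : ℝ, δ = c₃ / 4 * Real.log M / M := ⟨_, rfl⟩
  have hδ0 : 0 < δ := by rw [hδ]; positivity
  have hkey : ∀ m ∈ (Ioc M (2 * M)).filter (fun m => ¬ q₁ ∣ m ∧ (sp R m : ℝ) ≤ (M : ℝ) ^ (1 / (L : ℝ))),
      (bad ε (c₃ / 4) m : ℝ) * δ ^ 2 ≤ ∑ c ∈ (range m).filter (fun c => c.Coprime m),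
        (SP (wt y x) x m c - ((sp R m).totient : ℝ) / m.totient * SP (wt y x) x (sp R m) c) ^ 2 := by
    intro m hm
    rw [mem_filter, mem_Ioc] at hm
    obtain ⟨⟨hm1, hm2⟩, hm3, hm4⟩ := hm
    have hm0 : (0 : ℝ) < m := by exact_mod_cast (show 0 < m by omega)
    have hmM : (M : ℝ) < m := by exact_mod_cast hm1
    have hm2M : (m : ℝ) ≤ 2 * M := by exact_mod_cast hm2
    have hφ : (0 : ℝ) < m.totient := by exact_mod_cast Nat.totient_pos.2 (show 0 < m by omega)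
    have hφm : (m.totient : ℝ) ≤ m := by exact_mod_cast Nat.totient_le m
    have hspd : sp R m ∣ m := sp_dvd (by omega)
    have hsp0 := sp_pos R m
    have hφs : (0 : ℝ) < (sp R m).totient := by exact_mod_cast Nat.totient_pos.2 hsp0
    have hspL : sp R m ^ L ≤ x := by
      have h1 : ((sp R m : ℝ)) ^ L ≤ ((M : ℝ) ^ (1 / (L : ℝ))) ^ L := pow_le_pow_left₀ (Nat.cast_nonneg _) hm4 L
      rw [← Real.rpow_natCast ((M : ℝ) ^ (1 / (L : ℝ))), ← Real.rpow_mul hM0.le, one_div,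
        inv_mul_cancel₀ (by linarith), Real.rpow_one] at h1
      have h2 : sp R m ^ L ≤ M := by exact_mod_cast h1
      exact h2.trans w1
    unfold bad
    rw [← nsmul_eq_mul]
    calc ((range m).filter (fun c => c.Coprime m ∧ ¬ Many ε (c₃ / 4) m c)).card • δ ^ 2
        = ∑ _c ∈ (range m).filter (fun c => c.Coprime m ∧ ¬ Many ε (c₃ / 4) m c), δ ^ 2 := (sum_const _).symm
      _ ≤ ∑ c ∈ (range m).filter (fun c => c.Coprime m ∧ ¬ Many ε (c₃ / 4) m c),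
          (SP (wt y x) x m c - ((sp R m).totient : ℝ) / m.totient * SP (wt y x) x (sp R m) c) ^ 2 := by
          apply sum_le_sum
          intro c hc
          rw [mem_filter] at hc
          obtain ⟨hc1, hc2, hc3⟩ := hc
          have e1 := hmain (sp R m) c y hsp0 hspL (fun h => hm3 (h.trans hspd))
            (Nat.Coprime.coprime_dvd_right hspd hc2) w6
          rw [← SP_wt] at e1
          -- the main part is large
          have e2 : c₃ * Real.log M / m.totient ≤ ((sp R m).totient : ℝ) / m.totient * SP (wt y x) x (sp R m) c := by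
            calc c₃ * Real.log M / m.totient ≤ c₃ * Real.log x / m.totient := by gcongr
              _ = ((sp R m).totient : ℝ) / m.totient * (c₃ * Real.log x / (sp R m).totient) := by field_simp
              _ ≤ _ := by gcongr
          -- the class has few primes
          have e3 : SP (wt y x) x m c ≤ c₃ / 4 * Real.log m / m.totient := by
            have h1 : ¬ Many ε (c₃ / 4) m c := hc3
            unfold Many at h1
            push Not at h1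
            refine le_trans ?_ h1.le
            rw [SP_wt]
            apply sum_le_sum_of_subset_of_nonneg
            · intro p hp
              rw [mem_filter, mem_Ioc] at hp
              rw [mem_filter, mem_Icc]
              have hpx : (p : ℝ) ≤ x := by exact_mod_cast hp.1.2
              have hpy : (y : ℝ) < p := by exact_mod_cast hp.1.1
              have g1 : (M : ℝ) ^ (1 + ε) < (m : ℝ) ^ (1 + ε) := Real.rpow_lt_rpow hM0.le hmM (by linarith)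
              have g2 : (m : ℝ) ^ (1 + ε / 3) ≤ (2 * (M : ℝ)) ^ (1 + ε / 3) :=
                Real.rpow_le_rpow hm0.le hm2M (by linarith)
              have g3 : (p : ℝ) < (m : ℝ) ^ (1 + ε) := by linarith
              exact ⟨⟨hp.2.1.pos, Nat.le_floor g3.le⟩, hp.2.1, hp.2.2, by linarith, g3⟩
            · intro p _ _
              exact div_nonneg (Real.log_natCast_nonneg p) (Nat.cast_nonneg p)
          have e4 : Real.log m ≤ 2 * Real.log M := by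
            have h1 : (m : ℝ) ≤ (M : ℝ) ^ 2 := by nlinarith
            have h2 := Real.log_le_log hm0 h1
            rw [Real.log_pow] at h2
            exact_mod_cast h2
          have e5 : SP (wt y x) x m c ≤ c₃ / 2 * Real.log M / m.totient := by
            refine e3.trans ?_
            rw [div_le_div_iff_of_pos_right hφ]
            nlinarith
          have e6 : c₃ / 2 * Real.log M / m.totient ≤
              ((sp R m).totient : ℝ) / m.totient * SP (wt y x) x (sp R m) c - SP (wt y x) x m c := by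
            have h1 : c₃ * Real.log M / m.totient - c₃ / 2 * Real.log M / m.totient =
                c₃ / 2 * Real.log M / m.totient := by ring
            linarith
          have e7 : δ ≤ c₃ / 2 * Real.log M / m.totient := by
            rw [hδ, div_le_div_iff₀ hM0 hφ]
            have h1 : (m.totient : ℝ) ≤ 2 * M := hφm.trans hm2M
            have h2 : 0 ≤ c₃ / 4 * Real.log M := by positivity
            nlinarith
          rw [← neg_sub, neg_sq]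
          exact pow_le_pow_left₀ hδ0.le (e7.trans e6) 2
      _ ≤ _ := by
          apply sum_le_sum_of_subset_of_nonneg
          · intro c hc
            rw [mem_filter] at hc ⊢
            exact ⟨hc.1, hc.2.1⟩
          · intro c _ _
            positivity
  have hsum : (∑ m ∈ (Ioc M (2 * M)).filter (fun m => ¬ q₁ ∣ m ∧ (sp R m : ℝ) ≤ (M : ℝ) ^ (1 / (L : ℝ))),
      (bad ε (c₃ / 4) m : ℝ)) * δ ^ 2 ≤ 48 * C * (Real.log M) ^ 6 * (M : ℝ) ^ (-ρ) := by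
    rw [sum_mul]
    refine (sum_le_sum hkey).trans (le_trans ?_ hV2)
    apply sum_le_sum_of_subset_of_nonneg (filter_subset _ _)
    intro m _ _
    exact sum_nonneg fun c _ => sq_nonneg _
  have hδ2 : δ ^ 2 = c₃ ^ 2 * (Real.log M) ^ 2 / (16 * (M : ℝ) ^ 2) := by rw [hδ]; field_simp; ring
  have hpow : (M : ℝ) ^ (2 - ρ) = (M : ℝ) ^ 2 * (M : ℝ) ^ (-ρ) := by
    rw [sub_eq_add_neg, Real.rpow_add hM0]
    norm_num
  have hlog0 : 0 < Real.log M := by linarith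
  have hfin : 48 * C * (Real.log M) ^ 6 * (M : ℝ) ^ (-ρ) =
      (768 * C / c₃ ^ 2 * (M : ℝ) ^ (2 - ρ) * (Real.log M) ^ 4) * δ ^ 2 := by
    rw [hδ2, hpow]
    field_simp
    ring
  rw [hfin] at hsum
  exact le_of_mul_le_mul_right hsum (by positivity)

end Pool.Agent.K9h19.LW
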