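import Pool.Agent.K9h19.LW.All4
import Pool.Agent.K9h19.LW.Fin2

/-! All classes: the moduli with a bad class (main theorem for the moduli with a small smooth part). -/

set_option autoImplicit false

open Finset

namespace Pool.Agent.K9h19.LW

open Pool.Agent.H410R2 (psiLog psiLogAP)
open Pool.Agent.H398R2.BV (Prim)
open ArithmeticFunction (vonMangoldt)

/-- one modulus with a bad class -/
lemma one_bad {ε C1 c₃ : ℝ} (hε : 0 < ε) (hε1 : ε ≤ 1) (hC1 : 0 < C1) (hc₃ : 0 < c₃)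
    (hCL2 : ∀ (X : ℝ) (m g c : ℕ), 1 ≤ X → 1 ≤ m → g ∣ m → c.Coprime m →
      |psiLogAP X m c - (g.totient : ℝ) / m.totient * psiLogAP X g c| ≤
        (1 / (m.totient : ℝ)) * (∑ f ∈ m.divisors.filter (fun f => ¬ f ∣ g), ∑ ψ ∈ Prim f, ‖psiLog X f ψ‖) +
          C1 * (1 + Real.log m) * (Real.log X) ^ 2)
    {M m x y y₁ J R c : ℕ} (hM : 2 ≤ M) (hl : 32 ≤ Real.log M)
    (hgrow : (2000 + 1536 * C1) * (32 / (Real.log 2 * c₃)) * (Real.log M) ^ 3 ≤ (M : ℝ) ^ (ε / 6))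
    (hmM : M < m) (hm2 : m ≤ 2 * M) (hMx : M ≤ x) (hx4 : (4 * (x : ℝ)) ≤ (M : ℝ) ^ (2 + ε))
    (hx : Real.log ((4 * x : ℕ) : ℝ) ≤ 3 * Real.log M)
    (hy : (M : ℝ) ^ (2 + ε / 2) ≤ y) (hyp : 1 ≤ y) (hy1x : y₁ ≤ 4 * x) (hy1 : 1 ≤ y₁)
    (hy1a : (2 * (M : ℝ)) ^ (2 + ε / 3) < y₁ + 1)
    (hy1u : (y₁ : ℝ) ≤ 8 * (M : ℝ) ^ (2 + ε / 3)) (hy1l : (M : ℝ) ^ (2 + ε / 3) ≤ y₁) (hJ : (J : ℝ) ≤ 8 * Real.log M)
    (hJ1 : 4 * x ≤ 2 ^ J) (hJ2 : ∀ j < J, 2 ^ j ≤ 4 * x) (hc : c.Coprime m)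
    (hLW : c₃ * Real.log x / (sp R m).totient ≤
      ∑ p ∈ (Ioc y x).filter (fun p => p.Prime ∧ p ≡ c [MOD sp R m]), Real.log p / p)
    (hbad : ¬ Many2 ε (Real.log 2 * c₃ / 96) m c) :
    Real.log 2 * c₃ / 16 * Real.log M / M ≤ Em y J R m := by
  have hM2 : (2 : ℝ) ≤ M := by exact_mod_cast hM
  have hM0 : (0 : ℝ) < M := by linarith
  have hlog2' : 0 < Real.log 2 := Real.log_pos (by norm_num)
  have hm0 : (0 : ℝ) < m := by exact_mod_cast (show 0 < m by omega)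
  have hmMr : (M : ℝ) < m := by exact_mod_cast hmM
  have hm2r : (m : ℝ) ≤ 2 * M := by exact_mod_cast hm2
  have hφ : (0 : ℝ) < m.totient := by exact_mod_cast Nat.totient_pos.2 (show 0 < m by omega)
  have hφm : (m.totient : ℝ) ≤ 2 * M := (show (m.totient : ℝ) ≤ m by exact_mod_cast Nat.totient_le m).trans hm2r
  have hspd : sp R m ∣ m := sp_dvd (by omega)
  have hφs : (0 : ℝ) < (sp R m).totient := by exact_mod_cast Nat.totient_pos.2 (sp_pos R m)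
  have hlxM : Real.log M ≤ Real.log x := Real.log_le_log hM0 (by exact_mod_cast hMx)
  have hl0 : 0 < Real.log M := by linarith
  -- lower bound
  have e1 := Sig_lower (y := y) (c := c) (m := sp R m) hJ2 (show x ≤ 4 * x by omega) hJ1
  have e2 : Real.log 2 / 4 * c₃ * Real.log M / m.totient ≤ ((sp R m).totient : ℝ) / m.totient * Sig y J (sp R m) c := by
    calc Real.log 2 / 4 * c₃ * Real.log M / m.totient ≤ Real.log 2 / 4 * c₃ * Real.log x / m.totient := by gcongr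
      _ = ((sp R m).totient : ℝ) / m.totient * (Real.log 2 / 4 * (c₃ * Real.log x / (sp R m).totient)) := by
          field_simp
      _ ≤ ((sp R m).totient : ℝ) / m.totient * (Real.log 2 / 4 *
          ∑ p ∈ (Ioc y x).filter (fun p => p.Prime ∧ p ≡ c [MOD sp R m]), Real.log p / p) := by gcongr
      _ ≤ _ := by gcongr
  -- comparison
  have e3 := Sig_compare (y := y) (J := J) (R := R) (g := sp R m) hC1 hCL2 hyp (show 1 ≤ m by omega) hspd hc (by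
    intro f hf hfn
    by_contra hcon
    exact hfn (dvd_sp (by omega) hf (by omega)))
  -- upper bound
  have e4 := Sig_upper (y := y) (J := J) (m := m) (c := c) hJ2 (show 1 ≤ m by omega) hyp hy1 hy1x
  -- the primes
  have e5 : ∑ p ∈ (Ioc y₁ (4 * x)).filter (fun p => p.Prime ∧ p ≡ c [MOD m]), Real.log p / (p : ℝ) ≤
      Real.log 2 * c₃ / 96 * Real.log m / m.totient := by
    have h1 : ¬ Many2 ε (Real.log 2 * c₃ / 96) m c := hbad
    unfold Many2 at h1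
    push Not at h1
    refine le_trans ?_ h1.le
    apply sum_le_sum_of_subset_of_nonneg
    · intro p hp
      rw [mem_filter, mem_Ioc] at hp
      rw [mem_filter, mem_Icc]
      have hpx : (p : ℝ) ≤ 4 * x := by exact_mod_cast hp.1.2
      have hpy : (y₁ : ℝ) + 1 ≤ p := by exact_mod_cast hp.1.1
      have g1 : (M : ℝ) ^ (2 + ε) < (m : ℝ) ^ (2 + ε) := Real.rpow_lt_rpow hM0.le hmMr (by linarith)
      have g2 : (m : ℝ) ^ (2 + ε / 3) ≤ (2 * (M : ℝ)) ^ (2 + ε / 3) :=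
        Real.rpow_le_rpow hm0.le hm2r (by linarith)
      have g3 : (p : ℝ) < (m : ℝ) ^ (2 + ε) := by linarith
      exact ⟨⟨hp.2.1.pos, Nat.le_floor g3.le⟩, hp.2.1, hp.2.2, by linarith, g3⟩
    · intro p _ _
      exact div_nonneg (Real.log_natCast_nonneg p) (Nat.cast_nonneg p)
  have e6 : Real.log m ≤ 2 * Real.log M := by
    have h1 : (m : ℝ) ≤ (M : ℝ) ^ 2 := by nlinarith
    have h2 := Real.log_le_log hm0 h1
    rw [Real.log_pow] at h2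
    exact_mod_cast h2
  have e7 : Real.log 2 * c₃ / 96 * Real.log m / m.totient ≤ Real.log 2 * c₃ / 48 * Real.log M / m.totient := by
    rw [div_le_div_iff_of_pos_right hφ]
    calc Real.log 2 * c₃ / 96 * Real.log m ≤ Real.log 2 * c₃ / 96 * (2 * Real.log M) := by gcongr
      _ = Real.log 2 * c₃ / 48 * Real.log M := by ring
  -- the error
  have e8 := err2 hε hε1 hC1 hM hl hmM hm2 hx hy hy1x hy1 hy1u hy1l hJ
  have e9 : (2000 + 1536 * C1) * (Real.log M) ^ 4 * (M : ℝ) ^ (-(1 + ε / 6)) ≤ Real.log 2 * c₃ / 32 * Real.log M / M := by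
    have h1 : (M : ℝ) ^ (-(1 + ε / 6)) = ((M : ℝ) ^ (ε / 6))⁻¹ / M := by
      rw [← Real.rpow_neg hM0.le, ← Real.rpow_sub_one hM0.ne']
      congr 1
      ring
    have h2 : (0 : ℝ) < (M : ℝ) ^ (ε / 6) := Real.rpow_pos_of_pos hM0 _
    rw [h1, ← mul_div_assoc, div_le_div_iff_of_pos_right hM0, ← div_eq_mul_inv, div_le_iff₀ h2]
    calc (2000 + 1536 * C1) * (Real.log M) ^ 4
        = Real.log 2 * c₃ / 32 * Real.log M * ((2000 + 1536 * C1) * (32 / (Real.log 2 * c₃)) * (Real.log M) ^ 3) := by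
          field_simp
      _ ≤ Real.log 2 * c₃ / 32 * Real.log M * (M : ℝ) ^ (ε / 6) := by gcongr
  -- conclusion
  have e10 : Real.log 2 / 4 * c₃ * Real.log M / m.totient - 3 * (Real.log 2 * c₃ / 48 * Real.log M / m.totient) -
      Real.log 2 * c₃ / 32 * Real.log M / M ≤ Em y J R m := by linarith
  have e11 : Real.log 2 * c₃ / 16 * Real.log M / M + Real.log 2 * c₃ / 32 * Real.log M / M ≤
      Real.log 2 / 4 * c₃ * Real.log M / m.totient - 3 * (Real.log 2 * c₃ / 48 * Real.log M / m.totient) := by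
    have h1 : Real.log 2 / 4 * c₃ * Real.log M / m.totient - 3 * (Real.log 2 * c₃ / 48 * Real.log M / m.totient) =
        3 * (Real.log 2 * c₃ / 16) * Real.log M / m.totient := by ring
    have h2 : Real.log 2 * c₃ / 16 * Real.log M / M + Real.log 2 * c₃ / 32 * Real.log M / M =
        (3 * (Real.log 2 * c₃ / 16) * Real.log M) / (2 * M) := by
      field_simp
      ring
    rw [h1, h2]
    gcongr
  linarith

open Classical in
theorem power2 (hLW : S_LW) (hCL2 : S_CL2) (hMV : S_MV) (ε : ℝ) (hε : 0 < ε) (hε1 : ε ≤ 1) :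
    ∃ κ η : ℝ, 0 < κ ∧ 0 < η ∧ η ≤ 1 ∧ ∀ B : ℕ, ∃ M₀ : ℕ, ∀ M : ℕ, M₀ ≤ M → ∃ q₁ : ℕ,
      (Real.log M) ^ B < (q₁ : ℝ) ∧ ∀ ρ : ℝ, 2 / √(Real.log M) ≤ ρ → ρ ≤ ε / 16 →
      (((Ioc M (2 * M)).filter (fun m => ¬ q₁ ∣ m ∧ (sp ⌊(M : ℝ) ^ ρ⌋₊ m : ℝ) ≤ (M : ℝ) ^ η ∧
          ∃ c : ℕ, c.Coprime m ∧ ¬ Many2 ε κ m c)).card : ℝ) ≤ (M : ℝ) ^ (1 - ρ / 3) := by
  classical
  obtain ⟨L, c₃, hL, hc₃, hlw⟩ := hLW (ε / 12) (by linarith) (by linarith)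
  obtain ⟨C1, hC1, hcl⟩ := hCL2
  obtain ⟨C2, hC2, hmean⟩ := Em_mean hMV
  have hLr : (1 : ℝ) ≤ L := by exact_mod_cast hL
  have hlog2 := Real.log_two_lt_d9
  have hlog2' : 0 < Real.log 2 := Real.log_pos (by norm_num)
  refine ⟨Real.log 2 * c₃ / 96, 1 / L, by positivity, by positivity, ?_, ?_⟩
  · rw [div_le_one (by linarith)]; exact hLr
  intro B
  obtain ⟨x₀, hx₀⟩ := hlw B
  obtain ⟨K, hK⟩ : ∃ K : ℝ, K = (2000 + 1536 * C1) * (32 / (Real.log 2 * c₃)) := ⟨_, rfl⟩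
  have hK0 : 0 < K := by rw [hK]; positivity
  obtain ⟨C4, hC4⟩ : ∃ C4 : ℝ, C4 = C2 * 9 ^ 9 * 6 * (16 / (Real.log 2 * c₃)) := ⟨_, rfl⟩
  have hC40 : 0 < C4 := by rw [hC4]; positivity
  obtain ⟨s0, hs0⟩ : ∃ s0 : ℝ, s0 = 3000000000000 * C4 + 1 := ⟨_, rfl⟩
  obtain ⟨T, hT⟩ : ∃ T : ℝ, T = 32 / ε + 31104 * K / ε ^ 4 + s0 ^ 2 := ⟨_, rfl⟩
  have hT1 : 32 / ε ≤ T := by rw [hT]; have : 0 ≤ 31104 * K / ε ^ 4 := by positivity
                              nlinarith [sq_nonneg s0]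
  have hT2 : 31104 * K / ε ^ 4 ≤ T := by rw [hT]; have : 0 ≤ 32 / ε := by positivity
                                         nlinarith [sq_nonneg s0]
  have hT3 : s0 ^ 2 ≤ T := by
    rw [hT]
    have h1 : 0 ≤ 32 / ε := by positivity
    have h2 : 0 ≤ 31104 * K / ε ^ 4 := by positivity
    linarith
  refine ⟨max (max x₀ 2) ⌈Real.exp T⌉₊, fun M hM => ?_⟩
  have hMx : x₀ ≤ M := ((le_max_left _ _).trans (le_max_left _ _)).trans hM
  have hM2 : 2 ≤ M := ((le_max_right _ _).trans (le_max_left _ _)).trans hM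
  have hMe : Real.exp T ≤ M := (Nat.le_ceil _).trans (by exact_mod_cast (le_max_right _ _).trans hM)
  have hM2r : (2 : ℝ) ≤ M := by exact_mod_cast hM2
  have hM0 : (0 : ℝ) < M := by linarith
  have hM1 : (1 : ℝ) ≤ M := by linarith
  have hlT : T ≤ Real.log M := (Real.le_log_iff_exp_le hM0).2 hMe
  have hl : 32 / ε ≤ Real.log M := hT1.trans hlT
  have hl32 : 32 ≤ Real.log M := by
    refine le_trans ?_ hl
    rw [le_div_iff₀ hε]
    linarith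
  have hMexp : ∀ t : ℝ, (M : ℝ) ^ t = Real.exp (Real.log M * t) := fun t => Real.rpow_def_of_pos hM0 t
  have hgrow : K * (Real.log M) ^ 3 ≤ (M : ℝ) ^ (ε / 6) := by
    rw [hMexp]
    exact grow4 hK0 hε (hT2.trans hlT)
  obtain ⟨x, y, y₁, J, w1, w2, w3, w4, w5, w6, w7, w8, w9, w10, w11, w12, w13, w14, w15⟩ := window2 hε hε1 hM2 hl
  have hx0 : (0 : ℝ) < x := by exact_mod_cast (show 0 < x by omega)
  have hlxM : Real.log M ≤ Real.log x := Real.log_le_log hM0 (by exact_mod_cast w1)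
  obtain ⟨q₁, hq₁, hmain⟩ := hx₀ x (hMx.trans w1)
  refine ⟨q₁, lt_of_le_of_lt (pow_le_pow_left₀ (by linarith) hlxM B) hq₁, ?_⟩
  intro ρ hρ hρ2
  obtain ⟨s, hs⟩ : ∃ s : ℝ, s = √(Real.log M) := ⟨_, rfl⟩
  have hs00 : 0 ≤ s0 := by rw [hs0]; positivity
  have hss0 : s0 ≤ s := by
    rw [hs]
    exact Real.le_sqrt_of_sq_le (hT3.trans hlT)
  have hs1 : 1 ≤ s := by
    have : 0 < 3000000000000 * C4 := by positivity
    linarith
  have hsl : s ^ 2 = Real.log M := by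
    rw [hs]
    exact Real.sq_sqrt (Real.log_natCast_nonneg M)
  rw [← hs] at hρ
  have hs0' : 0 < s := by linarith
  have hρs : 2 ≤ ρ * s := by rwa [div_le_iff₀ hs0'] at hρ
  have hρ0 : 0 < ρ := by
    by_contra hcon
    nlinarith
  have hρl : 2 * s ≤ ρ * Real.log M := by
    rw [← hsl]
    nlinarith
  have hg := grow3 hC40 (s := s) (by linarith)
  rw [hsl] at hg
  have hbig : C4 * (Real.log M) ^ 8 ≤ (M : ℝ) ^ (2 * ρ / 3) := by
    refine hg.trans ?_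
    rw [hMexp]
    apply Real.exp_le_exp.2
    nlinarith
  -- parameters
  obtain ⟨R, hR⟩ : ∃ R : ℕ, R = ⌊(M : ℝ) ^ ρ⌋₊ := ⟨_, rfl⟩
  rw [← hR]
  have hMρ : 1 ≤ (M : ℝ) ^ ρ := Real.one_le_rpow hM1 hρ0.le
  have hR1 : 1 ≤ R := by rw [hR]; exact Nat.le_floor (by simpa using hMρ)
  have hR0 : (0 : ℝ) < R := by exact_mod_cast hR1
  have hRl : (M : ℝ) ^ ρ ≤ 2 * R := by
    have h1 := Nat.lt_floor_add_one ((M : ℝ) ^ ρ)
    rw [← hR] at h1
    have h2 : (1 : ℝ) ≤ R := by exact_mod_cast hR1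
    linarith
  have hMmρ : (0 : ℝ) < (M : ℝ) ^ (-ρ) := Real.rpow_pos_of_pos hM0 _
  have h1R : 1 / (R : ℝ) ≤ 2 * (M : ℝ) ^ (-ρ) := by
    rw [Real.rpow_neg hM0.le, div_le_iff₀ hR0]
    have h1 : ((M : ℝ) ^ ρ)⁻¹ * (M : ℝ) ^ ρ = 1 := inv_mul_cancel₀ (by positivity)
    have h2 := mul_le_mul_of_nonneg_left hRl (show 0 ≤ ((M : ℝ) ^ ρ)⁻¹ by positivity)
    rw [h1] at h2
    linarith
  obtain ⟨U, hU⟩ : ∃ U : ℕ, U = ⌊(M : ℝ) ^ (ε / 8)⌋₊ := ⟨_, rfl⟩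
  have hMU : 1 ≤ (M : ℝ) ^ (ε / 8) := Real.one_le_rpow hM1 (by linarith)
  have hU1 : 1 ≤ U := by rw [hU]; exact Nat.le_floor (by simpa using hMU)
  have hU0 : (0 : ℝ) < U := by exact_mod_cast hU1
  have hUu : (U : ℝ) ≤ (M : ℝ) ^ (ε / 8) := by rw [hU]; exact Nat.floor_le (by linarith)
  have hUl : (M : ℝ) ^ (ε / 8) ≤ 4 * U := by
    have h1 := Nat.lt_floor_add_one ((M : ℝ) ^ (ε / 8))
    rw [← hU] at h1
    have h2 : (1 : ℝ) ≤ U := by exact_mod_cast hU1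
    linarith
  have h1U : 1 / √(U : ℝ) ≤ 2 * (M : ℝ) ^ (-ρ) := by
    have h1 : (M : ℝ) ^ (ε / 16) ≤ 2 * √(U : ℝ) := by
      have h2 : √((M : ℝ) ^ (ε / 8)) ≤ √(4 * U) := Real.sqrt_le_sqrt hUl
      have h3 : √((M : ℝ) ^ (ε / 8)) = (M : ℝ) ^ (ε / 16) := by
        rw [Real.sqrt_eq_rpow, ← Real.rpow_mul hM0.le]
        congr 1
        ring
      have h4 : √(4 * (U : ℝ)) = 2 * √(U : ℝ) := by
        rw [Real.sqrt_mul (by norm_num)]
        congr 1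
        rw [show (4 : ℝ) = 2 ^ 2 by norm_num]
        exact Real.sqrt_sq (by norm_num)
      rw [h3, h4] at h2
      exact h2
    have hsU : 0 < √(U : ℝ) := Real.sqrt_pos.2 hU0
    have h5 : (M : ℝ) ^ ρ ≤ (M : ℝ) ^ (ε / 16) := Real.rpow_le_rpow_of_exponent_le hM1 hρ2
    rw [Real.rpow_neg hM0.le, div_le_iff₀ hsU]
    have h6 : ((M : ℝ) ^ ρ)⁻¹ * (M : ℝ) ^ ρ = 1 := inv_mul_cancel₀ (by positivity)
    have h7 := mul_le_mul_of_nonneg_left (h5.trans h1) (show 0 ≤ ((M : ℝ) ^ ρ)⁻¹ by positivity)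
    rw [h6] at h7
    linarith
  have hy0 : (0 : ℝ) < y := lt_of_lt_of_le (Real.rpow_pos_of_pos hM0 _) w6
  have hy1 : 1 ≤ y := by exact_mod_cast hy0
  have h1y : (M : ℝ) / √(y : ℝ) ≤ (M : ℝ) ^ (-ρ) := by
    have h1 : (M : ℝ) ^ (1 + ε / 4) ≤ √(y : ℝ) := by
      apply Real.le_sqrt_of_sq_le
      rw [← Real.rpow_natCast, ← Real.rpow_mul hM0.le]
      refine le_trans (le_of_eq ?_) w6
      congr 1
      push_cast
      ring
    rw [div_le_iff₀ (Real.sqrt_pos.2 hy0)]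
    calc (M : ℝ) = (M : ℝ) ^ (-(ε / 4)) * (M : ℝ) ^ (1 + ε / 4) := by
          rw [← Real.rpow_add hM0]
          norm_num
      _ ≤ (M : ℝ) ^ (-ρ) * √(y : ℝ) := by
          apply mul_le_mul (Real.rpow_le_rpow_of_exponent_le hM1 (by linarith)) h1 (by positivity) hMmρ.le
  have h2y : (U : ℝ) ^ 2 * (M : ℝ) ^ 2 / y ≤ (M : ℝ) ^ (-ρ) := by
    rw [div_le_iff₀ hy0]
    have h1 : (U : ℝ) ^ 2 ≤ (M : ℝ) ^ (ε / 4) := by
      calc (U : ℝ) ^ 2 ≤ ((M : ℝ) ^ (ε / 8)) ^ 2 := pow_le_pow_left₀ hU0.le hUu 2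
        _ = (M : ℝ) ^ (ε / 4) := by
            rw [← Real.rpow_natCast, ← Real.rpow_mul hM0.le]
            congr 1
            push_cast
            ring
    have h2 : (M : ℝ) ^ 2 = (M : ℝ) ^ (2 : ℝ) := by norm_num
    calc (U : ℝ) ^ 2 * (M : ℝ) ^ 2 ≤ (M : ℝ) ^ (ε / 4) * (M : ℝ) ^ (2 : ℝ) := by rw [h2]; gcongr
      _ = (M : ℝ) ^ (-(ε / 4)) * (M : ℝ) ^ (2 + ε / 2) := by
          rw [← Real.rpow_add hM0, ← Real.rpow_add hM0]
          congr 1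
          ring
      _ ≤ (M : ℝ) ^ (-ρ) * y := by
          apply mul_le_mul (Real.rpow_le_rpow_of_exponent_le hM1 (by linarith)) w6 (by positivity) hMmρ.le
  -- the mean
  have hV := hmean M R U y J hM2 hR1 hU1 w5
  have hlog0 : 0 < Real.log M := by linarith
  have hJ0 : (0 : ℝ) ≤ J := Nat.cast_nonneg _
  have hV2 : ∑ m ∈ Ioc M (2 * M), Em y J R m ≤ C2 * 9 ^ 9 * 6 * (Real.log M) ^ 9 * (M : ℝ) ^ (-ρ) := by
    refine hV.trans ?_
    have h1 : (J : ℝ) ≤ 9 * Real.log M := by linarith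
    have h2 : 1 + (J : ℝ) ≤ 9 * Real.log M := by linarith
    have h3 : 1 / (R : ℝ) + 1 / √(U : ℝ) + M / √(y : ℝ) + (U : ℝ) ^ 2 * (M : ℝ) ^ 2 / y ≤ 6 * (M : ℝ) ^ (-ρ) := by
      linarith
    calc C2 * J * (1 + J) ^ 8 * (1 / (R : ℝ) + 1 / √(U : ℝ) + M / √(y : ℝ) + (U : ℝ) ^ 2 * (M : ℝ) ^ 2 / y)
        ≤ C2 * (9 * Real.log M) * (9 * Real.log M) ^ 8 * (6 * (M : ℝ) ^ (-ρ)) := by gcongr
      _ = C2 * 9 ^ 9 * 6 * (Real.log M) ^ 9 * (M : ℝ) ^ (-ρ) := by ring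
  -- the count
  obtain ⟨S, hS⟩ : ∃ S : Finset ℕ, S = (Ioc M (2 * M)).filter (fun m => ¬ q₁ ∣ m ∧ (sp R m : ℝ) ≤ (M : ℝ) ^ (1 / (L : ℝ)) ∧
      ∃ c : ℕ, c.Coprime m ∧ ¬ Many2 ε (Real.log 2 * c₃ / 96) m c) := ⟨_, rfl⟩
  have hkey : ∀ m ∈ S, Real.log 2 * c₃ / 16 * Real.log M / M ≤ Em y J R m := by
    intro m hm
    rw [hS, mem_filter, mem_Ioc] at hm
    obtain ⟨⟨hm1, hm2⟩, hm3, hm4, c, hc1, hc2⟩ := hm
    have hspd : sp R m ∣ m := sp_dvd (by omega)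
    have hspL : sp R m ^ L ≤ x := by
      have h1 : ((sp R m : ℝ)) ^ L ≤ ((M : ℝ) ^ (1 / (L : ℝ))) ^ L := pow_le_pow_left₀ (Nat.cast_nonneg _) hm4 L
      rw [← Real.rpow_natCast ((M : ℝ) ^ (1 / (L : ℝ))), ← Real.rpow_mul hM0.le, one_div,
        inv_mul_cancel₀ (by linarith), Real.rpow_one] at h1
      have h2 : sp R m ^ L ≤ M := by exact_mod_cast h1
      exact h2.trans w1
    have e1 := hmain (sp R m) c y (sp_pos R m) hspL (fun h => hm3 (h.trans hspd))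
      (Nat.Coprime.coprime_dvd_right hspd hc1) w7
    rw [hK] at hgrow
    exact one_bad hε hε1 hC1 hc₃ hcl hM2 hl32 hgrow hm1 hm2 w1 w2 w4 w6 hy1 w8 w9 w10 w11 w12 w13 w14 w15 hc1 e1 hc2
  have hsum : (S.card : ℝ) * (Real.log 2 * c₃ / 16 * Real.log M / M) ≤
      C2 * 9 ^ 9 * 6 * (Real.log M) ^ 9 * (M : ℝ) ^ (-ρ) := by
    refine le_trans ?_ hV2
    rw [← nsmul_eq_mul, ← sum_const]
    refine (sum_le_sum hkey).trans ?_
    apply sum_le_sum_of_subset_of_nonneg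
    · rw [hS]; exact filter_subset _ _
    · intro m _ _
      exact Em_nonneg y J R m
  rw [← hS]
  have hd : 0 < Real.log 2 * c₃ / 16 * Real.log M / M := by positivity
  refine le_of_mul_le_mul_right (hsum.trans ?_) hd
  calc C2 * 9 ^ 9 * 6 * (Real.log M) ^ 9 * (M : ℝ) ^ (-ρ)
      = (C4 * (Real.log M) ^ 8) * (M * (M : ℝ) ^ (-ρ)) * (Real.log 2 * c₃ / 16 * Real.log M / M) := by
        rw [hC4]
        field_simp
    _ ≤ (M : ℝ) ^ (2 * ρ / 3) * (M * (M : ℝ) ^ (-ρ)) * (Real.log 2 * c₃ / 16 * Real.log M / M) := by gcongr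
    _ = (M : ℝ) ^ (1 - ρ / 3) * (Real.log 2 * c₃ / 16 * Real.log M / M) := by
        congr 1
        have h1 : (M : ℝ) * (M : ℝ) ^ (-ρ) = (M : ℝ) ^ (1 - ρ) := by
          rw [sub_eq_add_neg, Real.rpow_add hM0, Real.rpow_one]
        rw [h1, ← Real.rpow_add hM0]
        congr 1
        ring

end Pool.Agent.K9h19.LW
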