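import Pool.Agent.K9h19.LW.All5

/-! All classes: counting the moduli with a bad class. -/

set_option autoImplicit false

open Finset

namespace Pool.Agent.K9h19.LW

open Classical in
theorem count2 (hLW : S_LW) (hCL2 : S_CL2) (hMV : S_MV) (hSM : S_SM) (ε : ℝ) (hε : 0 < ε) (hε1 : ε ≤ 1) :
    ∃ κ η C : ℝ, 0 < κ ∧ 0 < η ∧ 0 < C ∧ ∀ B : ℕ, ∃ M₀ : ℕ, ∀ M : ℕ, M₀ ≤ M → ∃ q₁ : ℕ,
      (Real.log M) ^ B < (q₁ : ℝ) ∧ ∀ ρ : ℝ, 2 / √(Real.log M) ≤ ρ → ρ ≤ ε / 16 →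
      (((Ioc M (2 * M)).filter (fun m => ¬ q₁ ∣ m ∧ (sp ⌊(M : ℝ) ^ ρ⌋₊ m : ℝ) ≤ (M : ℝ) ^ η ∧
          ∃ c : ℕ, c.Coprime m ∧ ¬ Many2 ε κ m c)).card : ℝ) ≤ (M : ℝ) ^ (1 - ρ / 3) ∧
      (((Ioc M (2 * M)).filter (fun m => ¬ q₁ ∣ m ∧ ∃ c : ℕ, c.Coprime m ∧ ¬ Many2 ε κ m c)).card : ℝ) ≤
        C * M * Real.exp (-(η / ρ)) := by
  obtain ⟨κ, η, hκ, hη, hη1, hpow⟩ := power2 hLW hCL2 hMV ε hε hε1
  obtain ⟨C2, hC2, y₀, hsm⟩ := hSM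
  refine ⟨κ, η, 1 + C2, hκ, hη, by linarith, fun B => ?_⟩
  obtain ⟨M1, hM1⟩ := hpow B
  obtain ⟨s0, hs0⟩ : ∃ s0 : ℝ, s0 = 1 + y₀ := ⟨_, rfl⟩
  refine ⟨max (max M1 2) ⌈Real.exp (s0 ^ 2)⌉₊, fun M hM => ?_⟩
  have hMM1 : M1 ≤ M := ((le_max_left _ _).trans (le_max_left _ _)).trans hM
  have hM2 : 2 ≤ M := ((le_max_right _ _).trans (le_max_left _ _)).trans hM
  have hMe : Real.exp (s0 ^ 2) ≤ M := (Nat.le_ceil _).trans (by exact_mod_cast (le_max_right _ _).trans hM)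
  have hM2r : (2 : ℝ) ≤ M := by exact_mod_cast hM2
  have hM0 : (0 : ℝ) < M := by linarith
  have hM1r : (1 : ℝ) ≤ M := by linarith
  have hl : s0 ^ 2 ≤ Real.log M := (Real.le_log_iff_exp_le hM0).2 hMe
  obtain ⟨s, hs⟩ : ∃ s : ℝ, s = √(Real.log M) := ⟨_, rfl⟩
  have hss0 : s0 ≤ s := by
    rw [hs]
    exact Real.le_sqrt_of_sq_le hl
  have hy0r : (0 : ℝ) ≤ y₀ := Nat.cast_nonneg _
  have hs1 : 1 ≤ s := by linarith
  have hsl : s ^ 2 = Real.log M := by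
    rw [hs]
    exact Real.sq_sqrt (Real.log_natCast_nonneg M)
  obtain ⟨q₁, hq₁, hmain⟩ := hM1 M hMM1
  refine ⟨q₁, hq₁, fun ρ hρ hρ2 => ?_⟩
  have h1 := hmain ρ hρ hρ2
  rw [← hs] at hρ
  have hs0' : 0 < s := by linarith
  have hρs : 2 ≤ ρ * s := by rwa [div_le_iff₀ hs0'] at hρ
  have hρ0 : 0 < ρ := by
    by_contra hcon
    nlinarith
  have hρl : 2 * s ≤ ρ * Real.log M := by
    rw [← hsl]
    nlinarith
  have hMexp : ∀ t : ℝ, (M : ℝ) ^ t = Real.exp (Real.log M * t) := fun t => Real.rpow_def_of_pos hM0 t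
  refine ⟨h1, ?_⟩
  -- the smooth parts
  obtain ⟨R, hR⟩ : ∃ R : ℕ, R = ⌊(M : ℝ) ^ ρ⌋₊ := ⟨_, rfl⟩
  rw [← hR] at h1
  have hMρ : Real.exp (2 * s) ≤ (M : ℝ) ^ ρ := by
    rw [hMexp]
    apply Real.exp_le_exp.2
    linarith
  have hy : 2 * (y₀ : ℝ) + 1 ≤ (M : ℝ) ^ ρ := by
    have e1 := Real.add_one_le_exp (2 * s)
    linarith
  have hRy : y₀ ≤ R := by rw [hR]; exact Nat.le_floor (by linarith)
  have hR3 : 3 ≤ R := by
    rw [hR]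
    apply Nat.le_floor
    have e1 := Real.add_one_le_exp (2 * s)
    push_cast
    linarith
  have hR0 : (0 : ℝ) < R := by exact_mod_cast (show 0 < R by omega)
  have hlR0 : 0 < Real.log R := Real.log_pos (by exact_mod_cast (show 1 < R by omega))
  have hlR : Real.log R ≤ ρ * Real.log M := by
    rw [← Real.log_rpow hM0]
    apply Real.log_le_log hR0
    rw [hR]
    exact Nat.floor_le (by positivity)
  have hS := hsm R M ((M : ℝ) ^ η) hRy (by omega) (Real.one_le_rpow hM1r hη.le)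
  have hlog0 : 0 < Real.log M := by rw [← hsl]; positivity
  have hS2 : C2 * M * Real.exp (-(Real.log ((M : ℝ) ^ η) / Real.log R)) ≤ C2 * M * Real.exp (-(η / ρ)) := by
    apply mul_le_mul_of_nonneg_left _ (by positivity)
    apply Real.exp_le_exp.2
    rw [neg_le_neg_iff, Real.log_rpow hM0, div_le_div_iff₀ hρ0 hlR0]
    calc η * Real.log R ≤ η * (ρ * Real.log M) := by gcongr
      _ = η * Real.log M * ρ := by ring
  have hM3 : (M : ℝ) ^ (1 - ρ / 3) ≤ M * Real.exp (-(η / ρ)) := by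
    have e1 : (M : ℝ) * Real.exp (-(η / ρ)) = Real.exp (Real.log M + -(η / ρ)) := by
      rw [Real.exp_add, Real.exp_log hM0]
    rw [hMexp, e1]
    apply Real.exp_le_exp.2
    have e2 : η / ρ ≤ ρ / 3 * Real.log M := by
      rw [div_le_iff₀ hρ0]
      have e3 : 4 ≤ ρ ^ 2 * Real.log M := by
        rw [← hsl]
        nlinarith
      nlinarith
    nlinarith
  have hsub : ((Ioc M (2 * M)).filter (fun m => ¬ q₁ ∣ m ∧ ∃ c : ℕ, c.Coprime m ∧ ¬ Many2 ε κ m c)) ⊆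
      ((Ioc M (2 * M)).filter (fun m => ¬ q₁ ∣ m ∧ (sp R m : ℝ) ≤ (M : ℝ) ^ η ∧
        ∃ c : ℕ, c.Coprime m ∧ ¬ Many2 ε κ m c)) ∪
      ((Ioc M (2 * M)).filter (fun m => (M : ℝ) ^ η < (sp R m : ℝ))) := by
    intro m hm
    rw [mem_filter] at hm
    rw [mem_union, mem_filter, mem_filter]
    rcases le_or_gt (sp R m : ℝ) ((M : ℝ) ^ η) with h | h
    · exact Or.inl ⟨hm.1, hm.2.1, h, hm.2.2⟩
    · exact Or.inr ⟨hm.1, h⟩
  have hcard : (((Ioc M (2 * M)).filter (fun m => ¬ q₁ ∣ m ∧ ∃ c : ℕ, c.Coprime m ∧ ¬ Many2 ε κ m c)).card : ℝ) ≤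
      (((Ioc M (2 * M)).filter (fun m => ¬ q₁ ∣ m ∧ (sp R m : ℝ) ≤ (M : ℝ) ^ η ∧
        ∃ c : ℕ, c.Coprime m ∧ ¬ Many2 ε κ m c)).card : ℝ) +
      (((Ioc M (2 * M)).filter (fun m => (M : ℝ) ^ η < (sp R m : ℝ))).card : ℝ) := by
    exact_mod_cast (card_le_card hsub).trans (card_union_le _ _)
  have hS3 : (((Ioc M (2 * M)).filter (fun m => (M : ℝ) ^ η < (sp R m : ℝ))).card : ℝ) ≤
      C2 * M * Real.exp (-(η / ρ)) := by
    refine le_trans (le_of_eq ?_) (hS.trans hS2)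
    congr 2
  calc (((Ioc M (2 * M)).filter (fun m => ¬ q₁ ∣ m ∧ ∃ c : ℕ, c.Coprime m ∧ ¬ Many2 ε κ m c)).card : ℝ)
      ≤ M * Real.exp (-(η / ρ)) + C2 * M * Real.exp (-(η / ρ)) := by linarith
    _ = (1 + C2) * M * Real.exp (-(η / ρ)) := by ring

end Pool.Agent.K9h19.LW
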