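import Pool.Agent.K9h19.LW.Stm
import Pool.Agent.Helper112.MultLS

/-! Leaf PARS of project LW (helper19), by helper66. -/

set_option autoImplicit false

open Finset

namespace Pool.Agent.K9h19.LW

namespace Prs

open Pool.Agent.Helper112

/-- the character sum -/
noncomputable def A (N : ℕ) (a : ℕ → ℝ) {f : ℕ} (χ : DirichletCharacter ℂ f) : ℂ :=
  ∑ n ∈ Icc 1 N, (a n : ℂ) * χ (n : ZMod f)

/-- the deviation -/
noncomputable def D (N m g : ℕ) (a : ℕ → ℝ) (c : ZMod m) : ℂ :=
  ((SP a N m c.val - (g.totient : ℝ) / m.totient * SP a N g c.val : ℝ) : ℂ)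

lemma sum_units (m : ℕ) [NeZero m] (F : ℕ → ℝ) :
    ∑ u : (ZMod m)ˣ, F ((u : ZMod m).val) = ∑ c ∈ (range m).filter (fun c => c.Coprime m), F c := by
  apply sum_bij (fun (a : (ZMod m)ˣ) _ => (a : ZMod m).val)
  · intro a _
    rw [mem_filter, mem_range]
    exact ⟨ZMod.val_lt _, ZMod.val_coe_unit_coprime a⟩
  · intro a _ b _ hab
    exact Units.ext (ZMod.val_injective m hab)
  · intro b hb
    rw [mem_filter, mem_range] at hb
    refine ⟨ZMod.unitOfCoprime b hb.2, mem_univ _, ?_⟩
    rw [ZMod.coe_unitOfCoprime, ZMod.val_natCast, Nat.mod_eq_of_lt hb.1]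
  · intro a _
    rfl

open Classical in
/-- the sum of a character over a class modulo `g` -/
lemma sum_class (m g : ℕ) [NeZero m] (hg : g ∣ m) (χ : DirichletCharacter ℂ m) (n : ℕ)
    (hn : n.Coprime m) :
    ∑ c : ZMod m, (if n ≡ c.val [MOD g] then χ c else 0) =
      if χ.FactorsThrough g then ((m.totient : ℂ) / g.totient) * χ (n : ZMod m) else 0 := by
  have hg0 : g ≠ 0 := fun h => NeZero.ne m (Nat.eq_zero_of_zero_dvd (h ▸ hg))
  have hgz : NeZero g := ⟨hg0⟩
  let u₀ : (ZMod m)ˣ := ZMod.unitOfCoprime n hn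
  have hu₀ : (u₀ : ZMod m) = (n : ZMod m) := ZMod.coe_unitOfCoprime n hn
  -- sum over units
  have h1 : ∑ c : ZMod m, (if n ≡ c.val [MOD g] then χ c else 0) =
      ∑ u ∈ (univ : Finset (ZMod m)ˣ).filter
        (fun u => ZMod.unitsMap hg u = ZMod.unitsMap hg u₀), χ (u : ZMod m) := by
    symm
    rw [sum_filter]
    have h2 : ∀ u : (ZMod m)ˣ, (if ZMod.unitsMap hg u = ZMod.unitsMap hg u₀ then
        χ (u : ZMod m) else 0) = (if n ≡ (u : ZMod m).val [MOD g] then χ (u : ZMod m) else 0) := by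
      intro u
      have h3 : ZMod.unitsMap hg u = ZMod.unitsMap hg u₀ ↔ n ≡ (u : ZMod m).val [MOD g] := by
        rw [Units.ext_iff, ZMod.unitsMap_val, ZMod.unitsMap_val, hu₀, ZMod.cast_natCast hg,
          ← ZMod.natCast_eq_natCast_iff, ← ZMod.natCast_val]
        exact eq_comm
      by_cases h4 : n ≡ (u : ZMod m).val [MOD g]
      · rw [if_pos h4, if_pos (h3.mpr h4)]
      · rw [if_neg h4, if_neg (fun h5 => h4 (h3.mp h5))]
    rw [sum_congr rfl fun u _ => h2 u]
    have h5 := sum_filter_add_sum_filter_not (univ : Finset (ZMod m)) (fun c => IsUnit c)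
      (fun c => if n ≡ c.val [MOD g] then χ c else 0)
    rw [← h5]
    have h6 : ∑ c ∈ univ.filter (fun c : ZMod m => ¬ IsUnit c),
        (if n ≡ c.val [MOD g] then χ c else 0) = 0 := by
      apply sum_eq_zero
      intro c hc
      rw [mem_filter] at hc
      rw [MulChar.map_nonunit _ hc.2, ite_self]
    rw [h6, add_zero]
    apply sum_bij (fun (u : (ZMod m)ˣ) _ => (u : ZMod m))
    · intro u _; simp
    · intro u _ v _ huv; exact Units.ext huv
    · intro c hc
      rw [mem_filter] at hc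
      exact ⟨hc.2.unit, mem_univ _, rfl⟩
    · intro u _; rfl
  rw [h1]
  by_cases hχ : χ.FactorsThrough g
  · rw [if_pos hχ]
    have hker := (DirichletCharacter.factorsThrough_iff_ker_unitsMap hg).mp hχ
    have h2 : ∀ u ∈ (univ : Finset (ZMod m)ˣ).filter
        (fun u => ZMod.unitsMap hg u = ZMod.unitsMap hg u₀), χ (u : ZMod m) = χ (n : ZMod m) := by
      intro u hu
      rw [mem_filter] at hu
      have h3 : u * u₀⁻¹ ∈ (ZMod.unitsMap hg).ker := by
        rw [MonoidHom.mem_ker, map_mul, map_inv, hu.2, mul_inv_cancel]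
      have h4 := hker h3
      rw [MonoidHom.mem_ker] at h4
      have h5 : χ ((u * u₀⁻¹ : (ZMod m)ˣ) : ZMod m) = 1 := by
        have := congrArg Units.val h4
        rwa [MulChar.coe_toUnitHom, Units.val_one] at this
      have h6 : (u : ZMod m) = ((u * u₀⁻¹ : (ZMod m)ˣ) : ZMod m) * (u₀ : ZMod m) := by
        rw [← Units.val_mul, inv_mul_cancel_right]
      rw [h6, map_mul, h5, one_mul, hu₀]
    rw [sum_congr rfl h2, sum_const, nsmul_eq_mul]
    congr 1
    -- the cardinality of the fibre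
    have hs := ZMod.unitsMap_surjective hg
    have h3 : ∀ w : (ZMod g)ˣ, ((univ : Finset (ZMod m)ˣ).filter
        (fun u => ZMod.unitsMap hg u = w)).card = ((univ : Finset (ZMod m)ˣ).filter
        (fun u => ZMod.unitsMap hg u = ZMod.unitsMap hg u₀)).card := by
      intro w
      exact MonoidHom.card_fiber_eq_of_mem_range (ZMod.unitsMap hg) (hs w) ⟨u₀, rfl⟩
    have h4 : Fintype.card (ZMod m)ˣ = Fintype.card (ZMod g)ˣ *
        ((univ : Finset (ZMod m)ˣ).filter
          (fun u => ZMod.unitsMap hg u = ZMod.unitsMap hg u₀)).card := by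
      rw [← card_univ, card_eq_sum_card_fiberwise (f := ZMod.unitsMap hg)
        (t := (univ : Finset (ZMod g)ˣ)) (fun _ _ => mem_univ _),
        sum_congr rfl fun w _ => h3 w, sum_const, card_univ, smul_eq_mul]
    rw [ZMod.card_units_eq_totient, ZMod.card_units_eq_totient] at h4
    have h5 : (g.totient : ℂ) ≠ 0 := by
      have := Nat.totient_pos.mpr (Nat.pos_of_ne_zero hg0)
      exact_mod_cast this.ne'
    rw [eq_div_iff h5, mul_comm]
    exact_mod_cast h4.symm
  · rw [if_neg hχ]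
    have h2 : ¬ (ZMod.unitsMap hg).ker ≤ χ.toUnitHom.ker := fun h =>
      hχ ((DirichletCharacter.factorsThrough_iff_ker_unitsMap hg).mpr h)
    rw [SetLike.not_le_iff_exists] at h2
    obtain ⟨v, hv1, hv2⟩ := h2
    rw [MonoidHom.mem_ker] at hv1 hv2
    have h3 : χ (v : ZMod m) ≠ 1 := by
      intro h
      apply hv2
      rw [Units.ext_iff, MulChar.coe_toUnitHom, Units.val_one]
      exact h
    have h4 : ∑ u ∈ (univ : Finset (ZMod m)ˣ).filter
        (fun u => ZMod.unitsMap hg u = ZMod.unitsMap hg u₀), χ (u : ZMod m) =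
        χ (v : ZMod m) * ∑ u ∈ (univ : Finset (ZMod m)ˣ).filter
        (fun u => ZMod.unitsMap hg u = ZMod.unitsMap hg u₀), χ (u : ZMod m) := by
      rw [mul_sum]
      refine sum_bij' (fun u _ => v⁻¹ * u) (fun u _ => v * u) ?_ ?_ ?_ ?_ ?_
      · intro u hu
        rw [mem_filter] at hu ⊢
        refine ⟨mem_univ _, ?_⟩
        rw [map_mul, map_inv, hv1, inv_one, one_mul, hu.2]
      · intro u hu
        rw [mem_filter] at hu ⊢
        refine ⟨mem_univ _, ?_⟩
        rw [map_mul, hv1, one_mul, hu.2]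
      · intro u _
        rw [mul_inv_cancel_left]
      · intro u _
        rw [inv_mul_cancel_left]
      · intro u _
        rw [← map_mul, ← Units.val_mul, mul_inv_cancel_left]
    have h5 : (1 - χ (v : ZMod m)) * ∑ u ∈ (univ : Finset (ZMod m)ˣ).filter
        (fun u => ZMod.unitsMap hg u = ZMod.unitsMap hg u₀), χ (u : ZMod m) = 0 := by
      rw [sub_mul, one_mul, ← h4, sub_self]
    rcases mul_eq_zero.mp h5 with h6 | h6
    · exact absurd (sub_eq_zero.mp h6).symm h3
    · exact h6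

open Classical in
/-- the transform of the deviation -/
lemma transform (N m g : ℕ) (a : ℕ → ℝ) [NeZero m] (hg : g ∣ m)
    (ha : ∀ n, a n ≠ 0 → n.Coprime m) (χ : DirichletCharacter ℂ m) :
    ∑ c : ZMod m, χ c * D N m g a c = if χ.FactorsThrough g then 0 else A N a χ := by
  have hg0 : g ≠ 0 := fun h => NeZero.ne m (Nat.eq_zero_of_zero_dvd (h ▸ hg))
  have hSP : ∀ (k : ℕ) (c : ZMod m), χ c * ((SP a N k c.val : ℝ) : ℂ) =
      ∑ n ∈ Icc 1 N, (a n : ℂ) * (if n ≡ c.val [MOD k] then χ c else 0) := by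
    intro k c
    unfold SP
    rw [Complex.ofReal_sum, mul_sum, sum_filter]
    refine sum_congr rfl fun n _ => ?_
    split_ifs
    · ring
    · ring
  have hk : ∀ k : ℕ, ∑ c : ZMod m, χ c * ((SP a N k c.val : ℝ) : ℂ) =
      ∑ n ∈ Icc 1 N, (a n : ℂ) * ∑ c : ZMod m, (if n ≡ c.val [MOD k] then χ c else 0) := by
    intro k
    rw [sum_congr rfl fun c _ => hSP k c, sum_comm]
    refine sum_congr rfl fun n _ => ?_
    rw [mul_sum]
  have h1 : ∑ c : ZMod m, χ c * D N m g a c =
      ∑ c : ZMod m, χ c * ((SP a N m c.val : ℝ) : ℂ) -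
      ((g.totient : ℂ) / m.totient) * ∑ c : ZMod m, χ c * ((SP a N g c.val : ℝ) : ℂ) := by
    rw [mul_sum, ← sum_sub_distrib]
    refine sum_congr rfl fun c _ => ?_
    unfold D
    push_cast
    ring
  have h2 : ∑ c : ZMod m, χ c * ((SP a N m c.val : ℝ) : ℂ) = A N a χ := by
    rw [hk]
    unfold A
    refine sum_congr rfl fun n _ => ?_
    congr 1
    have h3 : ∀ c : ZMod m, (if n ≡ c.val [MOD m] then χ c else 0) =
        if c = (n : ZMod m) then χ c else 0 := by
      intro c
      have h4 : n ≡ c.val [MOD m] ↔ c = (n : ZMod m) := by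
        rw [← ZMod.natCast_eq_natCast_iff, ZMod.natCast_val, ZMod.cast_id]
        exact eq_comm
      by_cases h5 : c = (n : ZMod m)
      · rw [if_pos h5, if_pos (h4.mpr h5)]
      · rw [if_neg h5, if_neg (fun h => h5 (h4.mp h))]
    rw [sum_congr rfl fun c _ => h3 c, sum_ite_eq' univ (n : ZMod m), if_pos (mem_univ _)]
  have hφ : (m.totient : ℂ) ≠ 0 := by
    have := Nat.totient_pos.mpr (NeZero.pos m)
    exact_mod_cast this.ne'
  have hφg : (g.totient : ℂ) ≠ 0 := by
    have := Nat.totient_pos.mpr (Nat.pos_of_ne_zero hg0)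
    exact_mod_cast this.ne'
  have h3 : ∑ c : ZMod m, χ c * ((SP a N g c.val : ℝ) : ℂ) =
      if χ.FactorsThrough g then ((m.totient : ℂ) / g.totient) * A N a χ else 0 := by
    rw [hk]
    have h4 : ∀ n ∈ Icc 1 N, (a n : ℂ) * ∑ c : ZMod m, (if n ≡ c.val [MOD g] then χ c else 0) =
        if χ.FactorsThrough g then ((m.totient : ℂ) / g.totient) * ((a n : ℂ) * χ (n : ZMod m))
        else 0 := by
      intro n _
      by_cases h5 : a n = 0
      · rw [h5]; simp
      · rw [sum_class m g hg χ n (ha n h5)]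
        split_ifs
        · ring
        · ring
    rw [sum_congr rfl h4]
    split_ifs
    · unfold A
      rw [mul_sum]
    · rw [sum_const_zero]
  rw [h1, h2, h3]
  split_ifs
  · rw [← mul_assoc, div_mul_div_cancel₀ hφ, div_self hφg, one_mul, sub_self]
  · rw [mul_zero, sub_zero]

open Classical in
lemma plan (N m g : ℕ) (a : ℕ → ℝ) [NeZero m] (hg : g ∣ m)
    (ha : ∀ n, a n ≠ 0 → n.Coprime m) :
    (m.totient : ℝ) * ∑ c ∈ (range m).filter (fun c => c.Coprime m),
      (SP a N m c - (g.totient : ℝ) / m.totient * SP a N g c) ^ 2 =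
    ∑ χ ∈ (univ : Finset (DirichletCharacter ℂ m)).filter (fun χ => ¬ χ.FactorsThrough g),
      ‖A N a χ‖ ^ 2 := by
  have h1 := MLS.sum_all m (D N m g a)
  have h2 : ∑ χ : DirichletCharacter ℂ m, ‖∑ c : ZMod m, χ⁻¹ c * D N m g a c‖ ^ 2 =
      ∑ χ : DirichletCharacter ℂ m, ‖∑ c : ZMod m, χ c * D N m g a c‖ ^ 2 :=
    Equiv.sum_comp (Equiv.inv (DirichletCharacter ℂ m))
      (fun χ => ‖∑ c : ZMod m, χ c * D N m g a c‖ ^ 2)
  rw [h2] at h1
  have h3 : ∑ u : (ZMod m)ˣ, ‖D N m g a u‖ ^ 2 =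
      ∑ c ∈ (range m).filter (fun c => c.Coprime m),
      (SP a N m c - (g.totient : ℝ) / m.totient * SP a N g c) ^ 2 := by
    rw [← sum_units m (fun c => (SP a N m c - (g.totient : ℝ) / m.totient * SP a N g c) ^ 2)]
    refine sum_congr rfl fun u _ => ?_
    unfold D
    rw [Complex.norm_real, Real.norm_eq_abs, sq_abs]
  rw [h3] at h1
  rw [← h1, sum_filter]
  refine sum_congr rfl fun χ _ => ?_
  rw [transform N m g a hg ha χ]
  by_cases h : χ.FactorsThrough g
  · rw [if_pos h, if_neg (not_not.mpr h), norm_zero]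
    norm_num
  · rw [if_neg h, if_pos h]

/-- the character sums of induced characters agree -/
lemma A_changeLevel (N m f : ℕ) (a : ℕ → ℝ) [NeZero m] (hf : f ∣ m)
    (ha : ∀ n, a n ≠ 0 → n.Coprime m) (ψ : DirichletCharacter ℂ f) :
    A N a (DirichletCharacter.changeLevel hf ψ) = A N a ψ := by
  unfold A
  refine sum_congr rfl fun n _ => ?_
  by_cases h : a n = 0
  · rw [h]; simp
  · congr 1
    have h1 : IsCoprime (n : ℤ) (m : ℤ) := Nat.isCoprime_iff_coprime.mpr (ha n h)
    have h2 := DirichletCharacter.changeLevel_eq_cast_of_dvd' ψ hf h1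
    simpa using h2

end Prs

open Classical in
theorem pars : S_PARS := by
  intro N m g a hm hg ha
  have hmz : NeZero m := ⟨by omega⟩
  have hφ : (0 : ℝ) < m.totient := by exact_mod_cast Nat.totient_pos.mpr hm
  rw [one_div, ← div_eq_inv_mul, le_div_iff₀ hφ, mul_comm, Prs.plan N m g a hg ha]
  have h1 : ∀ χ ∈ (univ : Finset (DirichletCharacter ℂ m)).filter
      (fun χ => ¬ χ.FactorsThrough g), χ.conductor ∈ m.divisors.filter (fun f => ¬ f ∣ g) := by
    intro χ hχ
    rw [mem_filter] at hχ ⊢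
    refine ⟨Nat.mem_divisors.mpr ⟨χ.conductor_dvd_level, NeZero.ne m⟩, ?_⟩
    intro h
    exact hχ.2 (χ.factorsThrough_conductor.mono χ h hg)
  rw [← sum_fiberwise_of_maps_to h1]
  apply sum_le_sum
  intro f hf
  rw [mem_filter, Nat.mem_divisors] at hf
  have hfm := hf.1.1
  have h2 : (((univ : Finset (DirichletCharacter ℂ m)).filter
      (fun χ => ¬ χ.FactorsThrough g)).filter (fun χ => χ.conductor = f)) ⊆
      ((univ : Finset (DirichletCharacter ℂ f)).filter (fun χ => χ.IsPrimitive)).image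
        (DirichletCharacter.changeLevel hfm) := by
    intro χ hχ
    rw [mem_filter] at hχ
    obtain ⟨_, hc⟩ := hχ
    subst hc
    rw [mem_image]
    exact ⟨χ.primitiveCharacter, by
      rw [mem_filter]; exact ⟨mem_univ _, χ.primitiveCharacter_isPrimitive⟩,
      χ.changeLevel_primitiveCharacter⟩
  calc _ ≤ ∑ χ ∈ ((univ : Finset (DirichletCharacter ℂ f)).filter (fun χ => χ.IsPrimitive)).image
        (DirichletCharacter.changeLevel hfm), ‖Prs.A N a χ‖ ^ 2 :=
        sum_le_sum_of_subset_of_nonneg h2 fun χ _ _ => by positivity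
    _ = ∑ ψ ∈ (univ : Finset (DirichletCharacter ℂ f)).filter (fun χ => χ.IsPrimitive),
        ‖Prs.A N a (DirichletCharacter.changeLevel hfm ψ)‖ ^ 2 := by
        rw [sum_image]
        intro x _ y _ hxy
        exact DirichletCharacter.changeLevel_injective hfm hxy
    _ = _ := sum_congr rfl fun ψ _ => by
        rw [Prs.A_changeLevel N m f a hfm ha ψ]
        rfl

end Pool.Agent.K9h19.LW
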