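import Pool.Agent.K9h19.LW.Stm2
import Pool.Agent.K9h19.LW.PARS
import Pool.Agent.H398R2.BA2

/-! Leaf CL2 of project LW (helper19), by helper85. -/

set_option autoImplicit false

open Finset

namespace Pool.Agent.K9h19.LW

open Pool.Agent.H410R2 (psiLog psiLogAP)
open Pool.Agent.H398R2.BV (Prim TL)

namespace Cl2

open Pool.Agent.Helper112

/-- the weights, restricted to the integers prime to `m` -/
noncomputable def w (X : ℝ) (m n : ℕ) : ℝ :=
  if n.Coprime m then ArithmeticFunction.vonMangoldt n * Real.log (X / n) else 0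

lemma w_ne {X : ℝ} {m n : ℕ} (h : w X m n ≠ 0) : n.Coprime m := by
  by_contra hc
  exact h (if_neg hc)

/-- the deviation of one class -/
lemma D_le (N m g : ℕ) (a : ℕ → ℝ) [NeZero m] (hg : g ∣ m) (ha : ∀ n, a n ≠ 0 → n.Coprime m)
    (c : ℕ) (hc : c.Coprime m) :
    open scoped Classical in
    (m.totient : ℝ) * |SP a N m c - (g.totient : ℝ) / m.totient * SP a N g c| ≤
      ∑ χ ∈ (univ : Finset (DirichletCharacter ℂ m)).filter (fun χ => ¬ χ.FactorsThrough g),
        ‖Prs.A N a χ‖ := by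
  classical
  have hu : IsUnit (c : ZMod m) := (ZMod.isUnit_iff_coprime c m).mpr hc
  have hSP : ∀ k : ℕ, k ∣ m → SP a N k (c : ZMod m).val = SP a N k c := by
    intro k hk
    unfold SP
    have h1 : (c : ZMod m).val ≡ c [MOD k] := by
      rw [ZMod.val_natCast]
      exact (Nat.mod_modEq c m).of_dvd hk
    congr 1
    ext n
    rw [mem_filter, mem_filter]
    constructor
    · rintro ⟨h2, h3⟩
      exact ⟨h2, h3.trans h1⟩
    · rintro ⟨h2, h3⟩
      exact ⟨h2, h3.trans h1.symm⟩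
  have hD : Prs.D N m g a (c : ZMod m) =
      ((SP a N m c - (g.totient : ℝ) / m.totient * SP a N g c : ℝ) : ℂ) := by
    unfold Prs.D
    rw [hSP m dvd_rfl, hSP g hg]
  have h1 : ∑ χ : DirichletCharacter ℂ m, χ (c : ZMod m)⁻¹ * ∑ b : ZMod m, χ b * Prs.D N m g a b =
      (m.totient : ℂ) * Prs.D N m g a (c : ZMod m) := by
    calc _ = ∑ b : ZMod m, (∑ χ : DirichletCharacter ℂ m, χ (c : ZMod m)⁻¹ * χ b) *
          Prs.D N m g a b := by
          simp_rw [mul_sum, sum_mul]
          rw [sum_comm]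
          refine sum_congr rfl fun b _ => sum_congr rfl fun χ _ => ?_
          ring
      _ = ∑ b : ZMod m, (if (c : ZMod m) = b then (m.totient : ℂ) else 0) *
          Prs.D N m g a b := by
          refine sum_congr rfl fun b _ => ?_
          rw [DirichletCharacter.sum_char_inv_mul_char_eq ℂ hu b]
      _ = _ := by
          simp
  have h2 : (m.totient : ℂ) * Prs.D N m g a (c : ZMod m) =
      ∑ χ ∈ (univ : Finset (DirichletCharacter ℂ m)).filter (fun χ => ¬ χ.FactorsThrough g),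
        χ (c : ZMod m)⁻¹ * Prs.A N a χ := by
    rw [← h1, sum_filter]
    refine sum_congr rfl fun χ _ => ?_
    rw [Prs.transform N m g a hg ha χ]
    by_cases h : χ.FactorsThrough g
    · rw [if_pos h, if_neg (not_not.mpr h), mul_zero]
    · rw [if_neg h, if_pos h]
  have h3 : (m.totient : ℝ) * |SP a N m c - (g.totient : ℝ) / m.totient * SP a N g c| =
      ‖(m.totient : ℂ) * Prs.D N m g a (c : ZMod m)‖ := by
    rw [hD, norm_mul, Complex.norm_real, Complex.norm_natCast, Real.norm_eq_abs]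
  rw [h3, h2]
  refine (norm_sum_le _ _).trans (sum_le_sum fun χ _ => ?_)
  rw [norm_mul]
  calc _ ≤ 1 * ‖Prs.A N a χ‖ :=
        mul_le_mul_of_nonneg_right (χ.norm_le_one _) (norm_nonneg _)
    _ = _ := one_mul _

lemma A_eq_TL (X : ℝ) (m : ℕ) [NeZero m] (χ : DirichletCharacter ℂ m) :
    Prs.A ⌊X⌋₊ (w X m) χ = TL X m χ (fun n => ArithmeticFunction.vonMangoldt n) := by
  unfold Prs.A TL w
  refine sum_congr rfl fun n _ => ?_
  by_cases hn : n.Coprime m
  · rw [if_pos hn]
    push_cast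
    ring
  · rw [if_neg hn, MulChar.map_nonunit _ (fun hu => hn ((ZMod.isUnit_iff_coprime n _).mp hu))]
    simp

open Classical in
/-- a sum over the characters which do not factor through `g`, by primitive characters -/
lemma step (m g : ℕ) [NeZero m] (hg : g ∣ m) (F : DirichletCharacter ℂ m → ℝ)
    (hF : ∀ χ, 0 ≤ F χ) (B : (f : ℕ) → DirichletCharacter ℂ f → ℝ)
    (hB : ∀ (f : ℕ) (h : f ∣ m) (ψ : DirichletCharacter ℂ f),
      F (DirichletCharacter.changeLevel h ψ) ≤ B f ψ) :
    ∑ χ ∈ (univ : Finset (DirichletCharacter ℂ m)).filter (fun χ => ¬ χ.FactorsThrough g), F χ ≤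
      ∑ f ∈ m.divisors.filter (fun f => ¬ f ∣ g), ∑ ψ ∈ Prim f, B f ψ := by
  have h1 : ∀ χ ∈ (univ : Finset (DirichletCharacter ℂ m)).filter
      (fun χ => ¬ χ.FactorsThrough g), χ.conductor ∈ m.divisors.filter (fun f => ¬ f ∣ g) := by
    intro χ hχ
    rw [mem_filter] at hχ ⊢
    refine ⟨Nat.mem_divisors.mpr ⟨χ.conductor_dvd_level, NeZero.ne m⟩, ?_⟩
    intro h
    exact hχ.2 (χ.factorsThrough_conductor.mono χ h hg)
  rw [← sum_fiberwise_of_maps_to h1]
  apply sum_le_sum
  intro f hf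
  rw [mem_filter, Nat.mem_divisors] at hf
  have hfm := hf.1.1
  have h2 : (((univ : Finset (DirichletCharacter ℂ m)).filter
      (fun χ => ¬ χ.FactorsThrough g)).filter (fun χ => χ.conductor = f)) ⊆
      (Prim f).image (DirichletCharacter.changeLevel hfm) := by
    intro χ hχ
    rw [mem_filter] at hχ
    obtain ⟨_, hc⟩ := hχ
    subst hc
    rw [mem_image]
    exact ⟨χ.primitiveCharacter, by
      unfold Pool.Agent.H398R2.BV.Prim
      rw [mem_filter]; exact ⟨mem_univ _, χ.primitiveCharacter_isPrimitive⟩,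
      χ.changeLevel_primitiveCharacter⟩
  calc _ ≤ ∑ χ ∈ (Prim f).image (DirichletCharacter.changeLevel hfm), F χ :=
        sum_le_sum_of_subset_of_nonneg h2 fun χ _ _ => hF χ
    _ = ∑ ψ ∈ Prim f, F (DirichletCharacter.changeLevel hfm ψ) := by
        rw [sum_image]
        intro x _ y _ hxy
        exact DirichletCharacter.changeLevel_injective hfm hxy
    _ ≤ _ := sum_le_sum fun ψ _ => hB f hfm ψ

end Cl2

theorem cl2 : S_CL2 := by
  classical
  refine ⟨4, by norm_num, ?_⟩
  intro X m g c hX hm hg hc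
  have hmz : NeZero m := ⟨by omega⟩
  have hL : 0 ≤ Real.log X := Real.log_nonneg hX
  set E : ℝ := (m.primeFactors.card : ℝ) * Real.log X ^ 2 with hE
  have hE0 : 0 ≤ E := by positivity
  have hφ : (1 : ℝ) ≤ m.totient := by exact_mod_cast Nat.totient_pos.mpr (by omega)
  have hφ0 : (0 : ℝ) < m.totient := by linarith
  have hg0 : 0 < g := Nat.pos_of_dvd_of_pos hg (by omega)
  have hφg : (g.totient : ℝ) ≤ m.totient := by
    exact_mod_cast Nat.le_of_dvd (Nat.totient_pos.mpr (by omega)) (Nat.totient_dvd_of_dvd hg)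
  -- restriction to the integers prime to `m`
  have hm1 : SP (Cl2.w X m) ⌊X⌋₊ m c = psiLogAP X m c := by
    unfold SP psiLogAP Cl2.w
    refine sum_congr rfl fun n hn => ?_
    rw [mem_filter] at hn
    have : n.Coprime m := by
      have h1 := hn.2.gcd_eq
      unfold Nat.Coprime
      rw [h1]
      exact hc
    rw [if_pos this]
  have hg1 : |psiLogAP X g c - SP (Cl2.w X m) ⌊X⌋₊ g c| ≤ E := by
    have h1 : psiLogAP X g c - SP (Cl2.w X m) ⌊X⌋₊ g c =
        ∑ n ∈ ((Icc 1 ⌊X⌋₊).filter (fun n => n ≡ c [MOD g])).filter (fun n => ¬ n.Coprime m),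
          ArithmeticFunction.vonMangoldt n * Real.log (X / n) := by
      unfold SP psiLogAP Cl2.w
      rw [← sum_sub_distrib]
      conv_rhs => rw [sum_filter]
      refine sum_congr rfl fun n _ => ?_
      by_cases hn : n.Coprime m
      · rw [if_pos hn, if_neg (not_not.mpr hn), sub_self]
      · rw [if_neg hn, if_pos hn, sub_zero]
    have hnn : ∀ n ∈ Icc 1 ⌊X⌋₊, 0 ≤ ArithmeticFunction.vonMangoldt n * Real.log (X / n) :=
      fun n hn => mul_nonneg ArithmeticFunction.vonMangoldt_nonneg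
        (Pool.Agent.H398R2.BV.log_div_bounds X n hX hn).1
    rw [h1, abs_of_nonneg]
    · refine le_trans ?_ (Pool.Agent.H398R2.BV.sum_nc X hX m hm)
      apply sum_le_sum_of_subset_of_nonneg
      · intro n hn
        rw [mem_filter, mem_filter] at hn
        rw [mem_filter]
        exact ⟨hn.1.1, hn.2⟩
      · intro n hn _
        rw [mem_filter] at hn
        exact hnn n hn.1
    · apply sum_nonneg
      intro n hn
      rw [mem_filter, mem_filter] at hn
      exact hnn n hn.1.1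
  have h1 := Cl2.D_le ⌊X⌋₊ m g (Cl2.w X m) hg (fun n hn => Cl2.w_ne hn) c hc
  -- the characters
  have h2 : ∑ χ ∈ (univ : Finset (DirichletCharacter ℂ m)).filter (fun χ => ¬ χ.FactorsThrough g),
      ‖Prs.A ⌊X⌋₊ (Cl2.w X m) χ‖ ≤ (∑ f ∈ m.divisors.filter (fun f => ¬ f ∣ g),
        ∑ ψ ∈ Prim f, ‖psiLog X f ψ‖) + m.totient * E := by
    have h3 := Cl2.step m g hg
      (fun χ => max (‖Prs.A ⌊X⌋₊ (Cl2.w X m) χ‖ - E) 0) (fun χ => le_max_right _ _)
      (fun f ψ => ‖psiLog X f ψ‖) (by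
        intro f h ψ
        apply max_le _ (norm_nonneg _)
        rw [Cl2.A_eq_TL]
        have := Pool.Agent.H398R2.BV.TL_changeLevel X hX m f hm h ψ
        linarith)
    calc _ ≤ ∑ χ ∈ (univ : Finset (DirichletCharacter ℂ m)).filter
          (fun χ => ¬ χ.FactorsThrough g), (max (‖Prs.A ⌊X⌋₊ (Cl2.w X m) χ‖ - E) 0 + E) := by
          apply sum_le_sum
          intro χ _
          have := le_max_left (‖Prs.A ⌊X⌋₊ (Cl2.w X m) χ‖ - E) 0
          linarith
      _ = ∑ χ ∈ (univ : Finset (DirichletCharacter ℂ m)).filter (fun χ => ¬ χ.FactorsThrough g),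
          max (‖Prs.A ⌊X⌋₊ (Cl2.w X m) χ‖ - E) 0 +
          (((univ : Finset (DirichletCharacter ℂ m)).filter
            (fun χ => ¬ χ.FactorsThrough g)).card : ℝ) * E := by
          rw [sum_add_distrib, sum_const, nsmul_eq_mul]
      _ ≤ _ := by
          apply add_le_add h3
          apply mul_le_mul_of_nonneg_right _ hE0
          have h4 := DirichletCharacter.card_eq_totient_of_hasEnoughRootsOfUnity ℂ m
          rw [← h4, Nat.card_eq_fintype_card]
          exact_mod_cast (card_filter_le _ _)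
  set S : ℝ := ∑ f ∈ m.divisors.filter (fun f => ¬ f ∣ g), ∑ ψ ∈ Prim f, ‖psiLog X f ψ‖ with hS
  have h5 : |SP (Cl2.w X m) ⌊X⌋₊ m c - (g.totient : ℝ) / m.totient * SP (Cl2.w X m) ⌊X⌋₊ g c| ≤
      1 / (m.totient : ℝ) * S + E := by
    have h6 := h1.trans h2
    have h7 : |SP (Cl2.w X m) ⌊X⌋₊ m c - (g.totient : ℝ) / m.totient * SP (Cl2.w X m) ⌊X⌋₊ g c| ≤
        (S + m.totient * E) / m.totient := by
      rw [le_div_iff₀ hφ0, mul_comm]
      exact h6
    calc _ ≤ _ := h7
      _ = _ := by field_simp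
  have h8 : |(g.totient : ℝ) / m.totient * (psiLogAP X g c - SP (Cl2.w X m) ⌊X⌋₊ g c)| ≤ E := by
    rw [abs_mul, abs_of_nonneg (by positivity)]
    calc _ ≤ 1 * E := by
          apply mul_le_mul _ hg1 (abs_nonneg _) zero_le_one
          rw [div_le_one hφ0]
          exact hφg
      _ = E := one_mul E
  have hEle : E ≤ 2 * Real.log m * Real.log X ^ 2 :=
    mul_le_mul_of_nonneg_right (Pool.Agent.H398R2.BV.omega_le_log m hm) (by positivity)
  have hlm : 0 ≤ Real.log m := Real.log_natCast_nonneg m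
  calc |psiLogAP X m c - (g.totient : ℝ) / m.totient * psiLogAP X g c| =
      |(SP (Cl2.w X m) ⌊X⌋₊ m c - (g.totient : ℝ) / m.totient * SP (Cl2.w X m) ⌊X⌋₊ g c) -
        (g.totient : ℝ) / m.totient * (psiLogAP X g c - SP (Cl2.w X m) ⌊X⌋₊ g c)| := by
        rw [hm1]; congr 1; ring
    _ ≤ |SP (Cl2.w X m) ⌊X⌋₊ m c - (g.totient : ℝ) / m.totient * SP (Cl2.w X m) ⌊X⌋₊ g c| +
        |(g.totient : ℝ) / m.totient * (psiLogAP X g c - SP (Cl2.w X m) ⌊X⌋₊ g c)| :=
        abs_sub _ _
    _ ≤ (1 / (m.totient : ℝ) * S + E) + E := add_le_add h5 h8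
    _ ≤ 1 / (m.totient : ℝ) * S + 4 * (1 + Real.log m) * Real.log X ^ 2 := by
        have : 0 ≤ Real.log X ^ 2 := by positivity
        nlinarith

end Pool.Agent.K9h19.LW
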