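import Pool.Agent.K9h19.LW.Stm
import Pool.Agent.H318R2.Cr.Rough

/-! Assembly: the lower bound for primes in a class and a window from Selberg's formula, pairs and the gain. -/

set_option autoImplicit false

open Finset

namespace Pool.Agent.K9h19.LW

open Pool.Agent.Y851.HZ (LR zR muR ER DD LR_nonneg DD_apply)
open Pool.Agent.H318R2.Cr (Rgh)

lemma CS_add (f g : ℕ → ℝ) (q b A B : ℕ) : CS (fun n => f n + g n) q b A B = CS f q b A B + CS g q b A B := by
  unfold CS
  rw [← sum_add_distrib]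
  exact sum_congr rfl fun n _ => by ring

lemma CS_nonneg {f : ℕ → ℝ} (hf : ∀ n, 0 ≤ f n) (q b A B : ℕ) : 0 ≤ CS f q b A B :=
  sum_nonneg fun n _ => div_nonneg (hf n) (Nat.cast_nonneg n)

lemma CS_anti {f : ℕ → ℝ} (hf : ∀ n, 0 ≤ f n) (q b : ℕ) {A A' B : ℕ} (h : A ≤ A') : CS f q b A' B ≤ CS f q b A B := by
  unfold CS
  apply sum_le_sum_of_subset_of_nonneg
  · intro n hn
    rw [mem_filter, mem_Ioc] at hn ⊢
    exact ⟨⟨lt_of_le_of_lt h hn.1.1, hn.1.2⟩, hn.2⟩
  · intro n _ _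
    exact div_nonneg (hf n) (Nat.cast_nonneg n)

lemma CS_empty (f : ℕ → ℝ) (q b : ℕ) {A B : ℕ} (h : B ≤ A) : CS f q b A B = 0 := by
  unfold CS
  rw [Ioc_eq_empty_of_le h, filter_empty, sum_empty]

lemma CS_ER (w q b A B : ℕ) : CS (ER w) q b A B = CS (DD (LR w)) q b A B + CS (⇑(LR w * LR w)) q b A B := by
  rw [← CS_add]
  unfold CS
  exact sum_congr rfl fun n _ => by rw [ER, ArithmeticFunction.add_apply]

lemma LR_coprime {w q m : ℕ} (hqw : q ≤ w) (hq : 1 ≤ q) (h : LR w m ≠ 0) : m.Coprime q := by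
  classical
  have hr : Rgh w m := by
    by_contra hr
    apply h
    unfold LR
    rw [Pool.Agent.Y851.HZ.res_apply, if_neg hr]
  rw [Nat.coprime_iff_gcd_eq_one]
  by_contra hg
  obtain ⟨p, hp, hd⟩ := Nat.exists_prime_and_dvd hg
  have h1 : p ∣ m := hd.trans (Nat.gcd_dvd_left _ _)
  have h2 : p ∣ q := hd.trans (Nat.gcd_dvd_right _ _)
  exact hr p hp ((Nat.le_of_dvd hq h2).trans hqw) h1

lemma LR_prime {w p : ℕ} (hp : p.Prime) (h : w < p) : LR w p = Real.log p := by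
  classical
  have hr : Rgh w p := by
    intro r hr hrw hrp
    have := (Nat.prime_dvd_prime_iff_eq hr hp).1 hrp
    omega
  unfold LR
  rw [Pool.Agent.Y851.HZ.res_apply, if_pos hr, ArithmeticFunction.vonMangoldt_apply_prime hp]

/-- floor of a quotient, logarithmically -/
lemma log_div_ge {Y m : ℕ} (hm : 1 ≤ m) (h : m ≤ Y) : Real.log Y - Real.log m - Real.log 2 ≤ Real.log (Y / m : ℕ) := by
  have hm0 : (0 : ℝ) < m := by exact_mod_cast hm
  have hY0 : (0 : ℝ) < Y := by exact_mod_cast (show 0 < Y by omega)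
  have h1 : 1 ≤ Y / m := Nat.div_pos h hm
  have h2 : Y < m * (Y / m + 1) := Nat.lt_mul_div_succ Y hm
  have h3 : Y ≤ m * (2 * (Y / m)) := h2.le.trans (Nat.mul_le_mul_left m (by omega))
  have h4 : (Y : ℝ) ≤ m * (2 * ((Y / m : ℕ) : ℝ)) := by exact_mod_cast h3
  have h5 : (0 : ℝ) < ((Y / m : ℕ) : ℝ) := by exact_mod_cast h1
  have h6 := Real.log_le_log hY0 h4
  rw [Real.log_mul hm0.ne' (by positivity), Real.log_mul (by norm_num) h5.ne'] at h6
  linarith

lemma log_div_le {X m : ℕ} (hm : 1 ≤ m) (h : m ≤ X) : Real.log (X / m : ℕ) ≤ Real.log X - Real.log m := by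
  have hm0 : (0 : ℝ) < m := by exact_mod_cast hm
  have hX0 : (0 : ℝ) < X := by exact_mod_cast (show 0 < X by omega)
  have h1 : 1 ≤ X / m := Nat.div_pos h hm
  have h5 : (0 : ℝ) < ((X / m : ℕ) : ℝ) := by exact_mod_cast h1
  rw [← Real.log_div hX0.ne' hm0.ne']
  exact Real.log_le_log h5 Nat.cast_div_le

lemma log_pred_ge {m : ℕ} (hm : 2 ≤ m) : Real.log m - Real.log 2 ≤ Real.log ((m - 1 : ℕ) : ℝ) := by
  have hm0 : (0 : ℝ) < m := by exact_mod_cast (show 0 < m by omega)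
  have h1 : (0 : ℝ) < ((m - 1 : ℕ) : ℝ) := by exact_mod_cast (show 0 < m - 1 by omega)
  have h2 : (m : ℝ) ≤ 2 * ((m - 1 : ℕ) : ℝ) := by exact_mod_cast (show m ≤ 2 * (m - 1) by omega)
  have h3 := Real.log_le_log hm0 h2
  rw [Real.log_mul (by norm_num) h1.ne'] at h3
  linarith

/-- the inner sum of the pairs -/
lemma inner_le {C : ℝ} {w₀ : ℕ} (hC : 0 < C)
    (hUP : ∀ w q a A B : ℕ, w₀ ≤ w → 1 ≤ q → q ^ 8 ≤ w →
      a.Coprime q → w ≤ A → A ≤ B → Real.log B ≤ 5 * Real.log A →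
      q.totient * CS (LR w) q a A B ≤ 2 * (Real.log B - Real.log A) + C * Real.log w)
    {w z q a m Y X : ℕ} (hw0 : w₀ ≤ w) (hw3 : 3 ≤ w) (hq : 1 ≤ q) (hq8 : q ^ 8 ≤ w) (ha : a.Coprime q)
    (hwz : w ≤ z) (hz4 : z ^ 4 ≤ X) (hY : 1 ≤ Y) (hYX : Y ≤ X)
    (hl : 4 * (Real.log X - Real.log Y) ≤ Real.log X) (hX7 : 7 ≤ Real.log X) (hm1 : 2 ≤ m) (hm : m ^ 2 ≤ X) :
    q.totient * CS (LR w) q a (max (Y / m) (m - 1)) (X / m) ≤
      2 * min (Real.log X - Real.log Y) (Real.log X - 2 * Real.log m) + (C + 2) * Real.log w := by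
  have hm0 : (0 : ℝ) < m := by exact_mod_cast (show 0 < m by omega)
  have hX0 : (0 : ℝ) < X := by exact_mod_cast (show 0 < X by omega)
  have hY0 : (0 : ℝ) < Y := by exact_mod_cast hY
  have hw0' : (0 : ℝ) < w := by exact_mod_cast (show 0 < w by omega)
  have hlw : 1 ≤ Real.log w := by
    rw [← Real.log_exp 1]
    apply Real.log_le_log (Real.exp_pos 1)
    have h3 : (3 : ℝ) ≤ w := by exact_mod_cast hw3
    linarith [Real.exp_one_lt_d9]
  have hlm : 2 * Real.log m ≤ Real.log X := by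
    have h1 : ((m ^ 2 : ℕ) : ℝ) ≤ X := by exact_mod_cast hm
    have h2 := Real.log_le_log (by positivity) h1
    push_cast at h2
    rw [Real.log_pow] at h2
    exact_mod_cast h2
  have hl0 : 0 ≤ Real.log X - Real.log Y := sub_nonneg.2 (Real.log_le_log hY0 (by exact_mod_cast hYX))
  have hmin0 : 0 ≤ min (Real.log X - Real.log Y) (Real.log X - 2 * Real.log m) := le_min hl0 (by linarith)
  rcases le_total (X / m) (max (Y / m) (m - 1)) with h | h
  · rw [CS_empty _ _ _ h, mul_zero]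
    have : 0 ≤ (C + 2) * Real.log w := by positivity
    linarith
  -- `z m ≤ Y`
  have hX3 : X ^ 3 ≤ Y ^ 4 := by
    have h1 : 3 * Real.log X ≤ 4 * Real.log Y := by linarith
    have h2 : Real.log ((X ^ 3 : ℕ) : ℝ) ≤ Real.log ((Y ^ 4 : ℕ) : ℝ) := by
      push_cast
      rw [Real.log_pow, Real.log_pow]
      exact_mod_cast h1
    have hp1 : (0 : ℝ) < ((X ^ 3 : ℕ) : ℝ) := by push_cast; positivity
    have hp2 : (0 : ℝ) < ((Y ^ 4 : ℕ) : ℝ) := by push_cast; positivity
    have h3 := (Real.log_le_log_iff hp1 hp2).1 h2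
    exact_mod_cast h3
  have hzm : z * m ≤ Y := by
    have h1 : (z * m) ^ 4 ≤ Y ^ 4 := by
      calc (z * m) ^ 4 = z ^ 4 * (m ^ 2) ^ 2 := by ring
        _ ≤ X * X ^ 2 := Nat.mul_le_mul hz4 (Nat.pow_le_pow_left hm 2)
        _ = X ^ 3 := by ring
        _ ≤ Y ^ 4 := hX3
    exact (Nat.pow_le_pow_iff_left (by norm_num)).1 h1
  have hzY : z ≤ Y / m := (Nat.le_div_iff_mul_le (by omega)).2 hzm
  have hmY : m ≤ Y := le_trans (Nat.le_mul_of_pos_left m (by omega)) hzm
  have hmX : m ≤ X := hmY.trans hYX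
  set A := max (Y / m) (m - 1) with hA
  have hA1 : Y / m ≤ A := le_max_left _ _
  have hA2 : m - 1 ≤ A := le_max_right _ _
  have hA0 : 1 ≤ A := by omega
  have hYm1 : (0 : ℝ) < ((Y / m : ℕ) : ℝ) := by exact_mod_cast (show 0 < Y / m by omega)
  have hA3 : Real.log Y - Real.log m - Real.log 2 ≤ Real.log A :=
    (log_div_ge (by omega) hmY).trans (Real.log_le_log hYm1 (by exact_mod_cast hA1))
  have hA4 : Real.log m - Real.log 2 ≤ Real.log A :=
    (log_pred_ge hm1).trans (Real.log_le_log (by exact_mod_cast (show 0 < m - 1 by omega)) (by exact_mod_cast hA2))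
  have hB := log_div_le (by omega) hmX
  have hlog2 := Real.log_two_lt_d9
  have hlog2' : 0 < Real.log 2 := Real.log_pos (by norm_num)
  have h1 := hUP w q a A (X / m) hw0 hq hq8 ha (by omega) h (by linarith)
  have h2 : Real.log (X / m : ℕ) - Real.log A ≤ min (Real.log X - Real.log Y) (Real.log X - 2 * Real.log m) + 1 := by
    rw [← min_add_add_right]
    apply le_min <;> linarith
  linarith

lemma cls_cop {q m b : ℕ} (hq : 1 ≤ q) (hm : m.Coprime q) (hb : b.Coprime q) : (cls q m b).Coprime q := by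
  have : NeZero q := ⟨by omega⟩
  unfold cls
  have h1 : (b : ZMod q) * (m : ZMod q)⁻¹ =
      ((ZMod.unitOfCoprime b hb * (ZMod.unitOfCoprime m hm)⁻¹ : (ZMod q)ˣ) : ZMod q) := by
    rw [Units.val_mul, ZMod.coe_unitOfCoprime, ← ZMod.inv_coe_unit, ZMod.coe_unitOfCoprime]
  rw [h1]
  exact ZMod.val_coe_unit_coprime _

/-- CORE: primes in a class and a window -/
def S_CORE : Prop := ∃ C : ℝ, 0 < C ∧ ∃ w₀ : ℕ, ∀ w z K q b Y X : ℕ, ∀ c : ℝ, w₀ ≤ w → 1 ≤ q → q ^ 8 ≤ w →
  b.Coprime q → w ≤ z → 1 ≤ K → z ^ (4 * K) ≤ X → 1 ≤ Y → Y ≤ X →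
  4 * (Real.log X - Real.log Y) ≤ Real.log X → 0 < c → c ≤ 1 →
  (∀ g : ℕ, g.Coprime q → c / (q.totient : ℝ) ≤
    ∑ p ∈ (Ioc z (z ^ K)).filter (fun p => p.Prime ∧ p ≡ g [MOD q]), (1 : ℝ) / p) →
  2 * c * Real.log z * (Real.log X - Real.log Y) - C * (Real.log w * Real.log X + (K * Real.log z) ^ 2) ≤
    q.totient * CS (DD (LR w)) q b Y X

lemma fin_alg {c T l U t C1 C2 C3 C4 C5 K D : ℝ} (hC1 : 0 < C1) (hC2 : 0 < C2) (hC3 : 0 < C3) (hC4 : 0 < C4)
    (hC5 : 0 ≤ C5) (hD : D = C2 + C4 + 2) (hc : 0 < c) (hc1 : c ≤ 1) (ht : 1 ≤ t) (hl : 0 ≤ l) (hlU : l ≤ U)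
    (htU : t ≤ U) (hT0 : 0 ≤ T) (hTU : T ≤ U) :
    2 * c * T * C4 + C1 * (t * (l + t) + U) + 4 * C3 * l + 2 * D * t * (U + C5) + 2 * C4 * (K * T) ^ 2 ≤
      (4 * C4 + 3 * C1 + 4 * C3 + 2 * D * (1 + C5)) * (t * U + (K * T) ^ 2) := by
  have hU : 1 ≤ U := ht.trans htU
  have hD0 : 0 < D := by rw [hD]; linarith
  have hKT : 0 ≤ (K * T) ^ 2 := sq_nonneg _
  have e0 : T ≤ t * U := by
    calc T ≤ 1 * U := by linarith
      _ ≤ t * U := mul_le_mul_of_nonneg_right ht (by linarith)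
  have e0' : U ≤ t * U := by
    calc U = 1 * U := (one_mul U).symm
      _ ≤ t * U := mul_le_mul_of_nonneg_right ht (by linarith)
  have htU0 : 0 ≤ t * U := by positivity
  have e1 : 2 * c * T * C4 ≤ 2 * C4 * (t * U) := by
    calc 2 * c * T * C4 = (2 * C4) * (c * T) := by ring
      _ ≤ (2 * C4) * (1 * (t * U)) := by gcongr
      _ = _ := by ring
  have e2 : C1 * (t * (l + t) + U) ≤ 3 * C1 * (t * U) := by
    calc C1 * (t * (l + t) + U) = C1 * (t * l + t * t + U) := by ring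
      _ ≤ C1 * (t * U + t * U + t * U) := by gcongr
      _ = _ := by ring
  have e3 : 4 * C3 * l ≤ 4 * C3 * (t * U) := by
    have : l ≤ t * U := hlU.trans e0'
    gcongr
  have e4 : 2 * D * t * (U + C5) ≤ 2 * D * (1 + C5) * (t * U) := by
    have h1 : U + C5 ≤ (1 + C5) * U := by nlinarith
    calc 2 * D * t * (U + C5) ≤ 2 * D * t * ((1 + C5) * U) := by gcongr
      _ = _ := by ring
  have e5 : 2 * C4 * (K * T) ^ 2 ≤ (4 * C4 + 3 * C1 + 4 * C3 + 2 * D * (1 + C5)) * (K * T) ^ 2 := by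
    apply mul_le_mul_of_nonneg_right _ hKT
    have : 0 ≤ 2 * D * (1 + C5) := by positivity
    linarith
  have e6 : 2 * C4 * (t * U) + 3 * C1 * (t * U) + 4 * C3 * (t * U) + 2 * D * (1 + C5) * (t * U) ≤
      (4 * C4 + 3 * C1 + 4 * C3 + 2 * D * (1 + C5)) * (t * U) := by
    have : 0 ≤ 2 * C4 * (t * U) := by positivity
    nlinarith
  linarith

theorem core (hAVG : S_AVG) (hUP : S_UP) (hPAIR : S_PAIR) (hABEL : S_ABEL) (hGAIN : S_GAIN) : S_CORE := by
  classical
  obtain ⟨C1, hC1, w1, h1⟩ := hAVG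
  obtain ⟨C2, hC2, w2, h2⟩ := hUP
  obtain ⟨C3, hC3, w3, h3⟩ := hABEL
  obtain ⟨C4, hC4, w4, h4⟩ := hGAIN
  obtain ⟨C5, hC5, h5⟩ := Pool.Agent.H318R2.Cr.T_bound
  obtain ⟨D, hD⟩ : ∃ D : ℝ, D = C2 + C4 + 2 := ⟨_, rfl⟩
  have hD0 : 0 < D := by rw [hD]; linarith
  refine ⟨4 * C4 + 3 * C1 + 4 * C3 + 2 * D * (1 + C5), by positivity, max (max w1 w2) (max (max w3 w4) 8), ?_⟩
  intro w z K q b Y X c hw hq hq8 hb hwz hK hz4K hY hYX hlX hc hc1 hpage
  have hw1 : w1 ≤ w := ((le_max_left _ _).trans (le_max_left _ _)).trans hw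
  have hw2 : w2 ≤ w := ((le_max_right _ _).trans (le_max_left _ _)).trans hw
  have hw3 : w3 ≤ w := (((le_max_left _ _).trans (le_max_left _ _)).trans (le_max_right _ _)).trans hw
  have hw4 : w4 ≤ w := (((le_max_right _ _).trans (le_max_left _ _)).trans (le_max_right _ _)).trans hw
  have hw8 : 8 ≤ w := ((le_max_right _ _).trans (le_max_right _ _)).trans hw
  have hz8 : 8 ≤ z := hw8.trans hwz
  have hz4 : z ^ 4 ≤ X := (Nat.pow_le_pow_right (by omega) (by omega)).trans hz4K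
  have hX0n : 0 < X := by omega
  have hX0 : (0 : ℝ) < X := by exact_mod_cast hX0n
  have hY0 : (0 : ℝ) < Y := by exact_mod_cast hY
  have hz0 : (0 : ℝ) < z := by exact_mod_cast (show 0 < z by omega)
  have hw0' : (0 : ℝ) < w := by exact_mod_cast (show 0 < w by omega)
  have hlw2 : 2 ≤ Real.log w := by
    have e1 : (2 : ℝ) = Real.log (Real.exp 2) := (Real.log_exp 2).symm
    rw [e1]
    apply Real.log_le_log (Real.exp_pos 2)
    have e2 : Real.exp 2 = Real.exp 1 * Real.exp 1 := by rw [← Real.exp_add]; norm_num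
    have e3 : (8 : ℝ) ≤ w := by exact_mod_cast hw8
    have e4 := Real.exp_one_lt_d9
    have e5 := Real.exp_pos 1
    rw [e2]
    nlinarith
  have hwzl : Real.log w ≤ Real.log z := Real.log_le_log hw0' (by exact_mod_cast hwz)
  have hzU : 4 * Real.log z ≤ Real.log X := by
    have e1 : ((z ^ 4 : ℕ) : ℝ) ≤ X := by exact_mod_cast hz4
    have e2 := Real.log_le_log (by push_cast; positivity) e1
    push_cast at e2
    rw [Real.log_pow] at e2
    exact_mod_cast e2
  have hl0 : 0 ≤ Real.log X - Real.log Y := sub_nonneg.2 (Real.log_le_log hY0 (by exact_mod_cast hYX))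
  have hwY : w ≤ Y := by
    have e1 : Real.log w ≤ Real.log Y := by linarith
    have e2 := (Real.log_le_log_iff hw0' hY0).1 e1
    exact_mod_cast e2
  have hwX : w ≤ X := hwY.trans hYX
  have hqw : q ≤ w := (Nat.le_self_pow (by norm_num) q).trans hq8
  have hf0 : (0 : ℝ) ≤ q.totient := Nat.cast_nonneg _
  -- Selberg's formula
  have hA := (abs_le.1 (h1 w q b Y X hw1 hq hq8 hb hwY hYX)).1
  -- the pairs
  have hP := hPAIR w q b Y X hq hqw hb
  set Sm := (Ioc 1 X).filter (fun m => m ^ 2 ≤ X) with hSm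
  set J := (Ioc z (z ^ K)).filter Nat.Prime with hJ
  set l := Real.log X - Real.log Y with hl
  set t := Real.log w with ht
  set g : ℕ → ℝ := fun m => LR w m / m * CS (LR w) q (cls q m b) (max (Y / m) (m - 1)) (X / m) with hg
  have hJS : J ⊆ Sm := by
    intro m hm
    rw [hJ, mem_filter, mem_Ioc] at hm
    rw [hSm, mem_filter, mem_Ioc]
    have e1 : m ^ 2 ≤ X := by
      calc m ^ 2 ≤ (z ^ K) ^ 2 := Nat.pow_le_pow_left hm.1.2 2
        _ = z ^ (2 * K) := by rw [← pow_mul]; ring_nf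
        _ ≤ z ^ (4 * K) := Nat.pow_le_pow_right (by omega) (by omega)
        _ ≤ X := hz4K
    exact ⟨⟨hm.2.one_lt, (Nat.le_self_pow (by norm_num) m).trans e1⟩, e1⟩
  have hgain := h4 w z K q b Y X c hw4 hq hq8 hb hwz hK hz4K hY hYX hlX hc hc1 hpage
  -- the part of `J`
  have hJ1 : q.totient * ∑ m ∈ J, g m ≤ ∑ m ∈ J, LR w m / m * (2 * min l (Real.log X - 2 * Real.log m) + D * t) +
      C4 * (K * Real.log z) ^ 2 - c * Real.log z * (l - C4) := by
    have e1 : ∑ m ∈ J, g m ≤ ∑ p ∈ J, Real.log p / p * CS (LR w) q (cls q p b) (Y / p) (X / p) := by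
      apply sum_le_sum
      intro m hm
      rw [hJ, mem_filter, mem_Ioc] at hm
      rw [hg]
      simp only
      rw [LR_prime hm.2 (by omega)]
      apply mul_le_mul_of_nonneg_left _ (div_nonneg (Real.log_natCast_nonneg m) (Nat.cast_nonneg m))
      exact CS_anti (LR_nonneg w) _ _ (le_max_left _ _)
    have e2 : (2 * l + C4 * t) * (∑ p ∈ J, Real.log p / p) ≤
        ∑ m ∈ J, LR w m / m * (2 * min l (Real.log X - 2 * Real.log m) + D * t) := by
      rw [mul_sum]
      apply sum_le_sum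
      intro m hm
      rw [hJ, mem_filter, mem_Ioc] at hm
      rw [LR_prime hm.2 (by omega), mul_comm]
      apply mul_le_mul_of_nonneg_left _ (div_nonneg (Real.log_natCast_nonneg m) (Nat.cast_nonneg m))
      have hm0 : (0 : ℝ) < m := by exact_mod_cast hm.2.pos
      have e3 : 4 * Real.log m ≤ Real.log X := by
        have e4 : ((m ^ 4 : ℕ) : ℝ) ≤ X := by
          exact_mod_cast (calc m ^ 4 ≤ (z ^ K) ^ 4 := Nat.pow_le_pow_left hm.1.2 4
            _ = z ^ (4 * K) := by rw [← pow_mul]; ring_nf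
            _ ≤ X := hz4K)
        have e5 := Real.log_le_log (by push_cast; positivity) e4
        push_cast at e5
        rw [Real.log_pow] at e5
        exact_mod_cast e5
      have e6 : min l (Real.log X - 2 * Real.log m) = l := min_eq_left (by linarith)
      rw [e6, hD]
      have : 0 ≤ (C2 + 2) * t := by positivity
      nlinarith
    calc (q.totient : ℝ) * ∑ m ∈ J, g m
        ≤ q.totient * ∑ p ∈ J, Real.log p / p * CS (LR w) q (cls q p b) (Y / p) (X / p) :=
          mul_le_mul_of_nonneg_left e1 hf0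
      _ ≤ _ := by linarith
  -- the other part
  have hJ2 : q.totient * ∑ m ∈ Sm \ J, g m ≤
      ∑ m ∈ Sm \ J, LR w m / m * (2 * min l (Real.log X - 2 * Real.log m) + D * t) := by
    rw [mul_sum]
    apply sum_le_sum
    intro m hm
    rw [mem_sdiff, hSm, mem_filter, mem_Ioc] at hm
    obtain ⟨⟨⟨hm1, hm2⟩, hm3⟩, -⟩ := hm
    rw [hg]
    simp only
    have hLR := LR_nonneg w m
    by_cases h0 : LR w m = 0
    · rw [h0]; simp
    have hmq := LR_coprime hqw hq h0
    have e1 := inner_le hC2 h2 (a := cls q m b) (m := m) (Y := Y) (X := X) (z := z) hw2 (by omega) hq hq8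
      (cls_cop hq hmq hb) hwz hz4 hY hYX hlX (by linarith) (by omega) hm3
    have e2 : (C2 + 2) * Real.log w ≤ D * t := by
      rw [hD, ht]
      have : 0 ≤ C4 * Real.log w := by positivity
      nlinarith
    have hLm : 0 ≤ LR w m / m := div_nonneg hLR (Nat.cast_nonneg m)
    calc (q.totient : ℝ) * (LR w m / m * CS (LR w) q (cls q m b) (max (Y / m) (m - 1)) (X / m))
        = LR w m / m * (q.totient * CS (LR w) q (cls q m b) (max (Y / m) (m - 1)) (X / m)) := by ring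
      _ ≤ LR w m / m * (2 * min l (Real.log X - 2 * Real.log m) + D * t) :=
          mul_le_mul_of_nonneg_left (by linarith) hLm
  have hJ3 : q.totient * ∑ m ∈ Sm, g m ≤
      ∑ m ∈ Sm, LR w m / m * (2 * min l (Real.log X - 2 * Real.log m) + D * t) +
      C4 * (K * Real.log z) ^ 2 - c * Real.log z * (l - C4) := by
    rw [← sum_sdiff hJS, ← sum_sdiff hJS (f := fun m : ℕ => LR w m / m * (2 * min l (Real.log X - 2 * Real.log m) + D * t)),
      mul_add]
    linarith
  have hAb := h3 w X l hw3 hwX hl0 (by linarith [Real.log_natCast_nonneg Y])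
  have hM : ∑ m ∈ Sm, LR w m / m ≤ Real.log X + C5 := by
    have e1 := (abs_le.1 (h5 w X (by omega) hwX)).2
    have e2 : ∑ m ∈ Sm, LR w m / m ≤ ∑ d ∈ Ioc 0 X, Pool.Agent.H318R2.Cr.fL w d := by
      calc ∑ m ∈ Sm, LR w m / m = ∑ m ∈ Sm, Pool.Agent.H318R2.Cr.fL w m := by
            apply sum_congr rfl
            intro m _
            rw [Pool.Agent.H318R2.Cr.fL_apply]
            unfold LR
            rw [Pool.Agent.Y851.HZ.res_apply]
            split_ifs
            · rfl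
            · rw [zero_div]
        _ ≤ _ := by
            apply sum_le_sum_of_subset_of_nonneg
            · intro m hm
              rw [hSm, mem_filter, mem_Ioc] at hm
              rw [mem_Ioc]
              omega
            · intro m _ _
              exact Pool.Agent.H318R2.Cr.fL_nonneg w m
    linarith
  have hsplit : ∑ m ∈ Sm, LR w m / m * (2 * min l (Real.log X - 2 * Real.log m) + D * t) =
      2 * ∑ m ∈ Sm, LR w m / m * min l (Real.log X - 2 * Real.log m) + D * t * ∑ m ∈ Sm, LR w m / m := by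
    rw [mul_sum, mul_sum, ← sum_add_distrib]
    exact sum_congr rfl fun m _ => by ring
  have hDt : D * t * ∑ m ∈ Sm, LR w m / m ≤ D * t * (Real.log X + C5) :=
    mul_le_mul_of_nonneg_left hM (by positivity)
  have hPf : (q.totient : ℝ) * CS (⇑(LR w * LR w)) q b Y X ≤ q.totient * (2 * ∑ m ∈ Sm, g m) :=
    mul_le_mul_of_nonneg_left hP hf0
  rw [CS_ER, mul_add] at hA
  have hfin := fin_alg (c := c) (T := Real.log z) (l := l) (U := Real.log X) (t := t) (K := (K : ℝ)) hC1 hC2 hC3 hC4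
    hC5 hD hc hc1 (by linarith) hl0 (by linarith [Real.log_natCast_nonneg Y]) (by linarith) (by linarith) (by linarith)
  have hsq : (Real.log X) ^ 2 - (Real.log Y) ^ 2 = 2 * Real.log X * l - l ^ 2 := by rw [hl]; ring
  rw [hsq] at hA
  have hx : (q.totient : ℝ) * (2 * ∑ m ∈ Sm, g m) = 2 * (q.totient * ∑ m ∈ Sm, g m) := by ring
  rw [hx] at hPf
  nlinarith [hfin, hPf, hJ3, hA, hAb, hsplit, hDt]

end Pool.Agent.K9h19.LW
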