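import Pool.Agent.K9h19.LW.Stm

/-! The mean square of the deviation for the weights `log p / p` in a long window. -/

set_option autoImplicit false

open Finset

namespace Pool.Agent.K9h19.LW

/-- the weights `log p / p` on the primes of `(y, x]` -/
noncomputable def wt (y x n : ℕ) : ℝ := if n.Prime ∧ y < n ∧ n ≤ x then Real.log n / n else 0

/-- the part of the weights in a dyadic block -/
noncomputable def wj (y x j n : ℕ) : ℝ := if 2 ^ j < n ∧ n ≤ 2 ^ (j + 1) then wt y x n else 0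

lemma wt_nonneg (y x n : ℕ) : 0 ≤ wt y x n := by
  unfold wt
  split_ifs
  · exact div_nonneg (Real.log_natCast_nonneg n) (Nat.cast_nonneg n)
  · exact le_rfl

lemma SP_wt (y x m c : ℕ) : SP (wt y x) x m c =
    ∑ p ∈ (Ioc y x).filter (fun p => p.Prime ∧ p ≡ c [MOD m]), Real.log p / p := by
  unfold SP wt
  rw [← sum_filter, filter_filter]
  apply sum_congr _ (fun _ _ => rfl)
  ext n
  rw [mem_filter, mem_filter, mem_Icc, mem_Ioc]
  constructor
  · rintro ⟨⟨h1, h2⟩, h3, h4, h5, h6⟩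
    exact ⟨⟨h5, h2⟩, h4, h3⟩
  · rintro ⟨⟨h1, h2⟩, h3, h4⟩
    exact ⟨⟨by omega, h2⟩, h4, h3, h1, h2⟩

lemma wt_split {y x J n : ℕ} (h : x ≤ 2 ^ J) : wt y x n = ∑ j ∈ range J, wj y x j n := by
  by_cases h0 : wt y x n = 0
  · rw [h0]
    symm
    apply sum_eq_zero
    intro j _
    unfold wj
    rw [h0, ite_self]
  have hn : n.Prime ∧ y < n ∧ n ≤ x := by
    by_contra hn
    exact h0 (by unfold wt; rw [if_neg hn])
  have hn2 := hn.1.two_le
  -- the block of `n`
  obtain ⟨i, hi⟩ : ∃ i : ℕ, i = Nat.log 2 (n - 1) := ⟨_, rfl⟩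
  have h1 : 2 ^ i ≤ n - 1 := by rw [hi]; exact Nat.pow_log_le_self 2 (by omega)
  have h2 : n - 1 < 2 ^ (i + 1) := by rw [hi]; exact Nat.lt_pow_succ_log_self (by norm_num) _
  have hiJ : i < J := by
    by_contra hcon
    have h3 : 2 ^ J ≤ 2 ^ i := Nat.pow_le_pow_right (by norm_num) (by omega)
    omega
  rw [sum_eq_single_of_mem i (mem_range.2 hiJ)]
  · unfold wj
    rw [if_pos ⟨by omega, by omega⟩]
  · intro j _ hj
    unfold wj
    rw [if_neg]
    rintro ⟨h3, h4⟩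
    rcases lt_or_gt_of_ne hj with h5 | h5
    · have : 2 ^ (j + 1) ≤ 2 ^ i := Nat.pow_le_pow_right (by norm_num) h5
      omega
    · have : 2 ^ (i + 1) ≤ 2 ^ j := Nat.pow_le_pow_right (by norm_num) h5
      omega

lemma SP_split {y x J m c N : ℕ} (h : x ≤ 2 ^ J) : SP (wt y x) N m c = ∑ j ∈ range J, SP (wj y x j) N m c := by
  unfold SP
  rw [sum_comm]
  exact sum_congr rfl fun n _ => wt_split h

lemma SP_ext {a : ℕ → ℝ} {N N' m c : ℕ} (h : N ≤ N') (h0 : ∀ n, N < n → a n = 0) : SP a N' m c = SP a N m c := by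
  unfold SP
  symm
  apply sum_subset
  · intro n hn
    rw [mem_filter, mem_Icc] at hn ⊢
    exact ⟨⟨hn.1.1, hn.1.2.trans h⟩, hn.2⟩
  · intro n hn hn2
    rw [mem_filter, mem_Icc] at hn hn2
    apply h0
    by_contra hcon
    exact hn2 ⟨⟨hn.1.1, by omega⟩, hn.2⟩

lemma wt_ext {y x n : ℕ} (h : x < n) : wt y x n = 0 := by
  unfold wt
  rw [if_neg]
  rintro ⟨_, _, h3⟩
  omega

lemma wj_ext {y x j n : ℕ} (h : 2 ^ (j + 1) < n) : wj y x j n = 0 := by
  unfold wj
  rw [if_neg]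
  rintro ⟨_, h3⟩
  omega

lemma wj_sq (y x j : ℕ) : ∑ n ∈ Icc 1 (2 ^ (j + 1)), (wj y x j n) ^ 2 ≤ (Real.log x) ^ 2 / 2 ^ j := by
  have h1 : ∀ n ∈ Icc 1 (2 ^ (j + 1)), (wj y x j n) ^ 2 ≤
      if n ∈ Ioc (2 ^ j) (2 ^ (j + 1)) then (Real.log x / 2 ^ j) ^ 2 else 0 := by
    intro n _
    unfold wj
    by_cases h : 2 ^ j < n ∧ n ≤ 2 ^ (j + 1)
    · rw [if_pos h, if_pos (mem_Ioc.2 h)]
      unfold wt
      split_ifs with h2
      · have hn0 : (0 : ℝ) < n := by exact_mod_cast h2.1.pos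
        have e1 : (2 : ℝ) ^ j ≤ n := by exact_mod_cast h.1.le
        have e2 : Real.log n ≤ Real.log x := Real.log_le_log hn0 (by exact_mod_cast h2.2.2)
        have e3 := Real.log_natCast_nonneg n
        have e4 := Real.log_natCast_nonneg x
        gcongr
      · rw [zero_pow (by norm_num)]
        positivity
    · rw [if_neg h, zero_pow (by norm_num)]
      split_ifs <;> positivity
  refine (sum_le_sum h1).trans ?_
  rw [← sum_filter]
  have h2 : ((Icc 1 (2 ^ (j + 1))).filter (fun n => n ∈ Ioc (2 ^ j) (2 ^ (j + 1)))).card ≤ 2 ^ j := by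
    calc ((Icc 1 (2 ^ (j + 1))).filter (fun n => n ∈ Ioc (2 ^ j) (2 ^ (j + 1)))).card
        ≤ (Ioc (2 ^ j) (2 ^ (j + 1))).card := card_le_card fun n hn => (mem_filter.1 hn).2
      _ = 2 ^ j := by rw [Nat.card_Ioc, pow_succ]; omega
  rw [sum_const, nsmul_eq_mul]
  have h3 : (((Icc 1 (2 ^ (j + 1))).filter (fun n => n ∈ Ioc (2 ^ j) (2 ^ (j + 1)))).card : ℝ) ≤ 2 ^ j := by
    exact_mod_cast h2
  calc (((Icc 1 (2 ^ (j + 1))).filter (fun n => n ∈ Ioc (2 ^ j) (2 ^ (j + 1)))).card : ℝ) * (Real.log x / 2 ^ j) ^ 2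
      ≤ 2 ^ j * (Real.log x / 2 ^ j) ^ 2 := by gcongr
    _ = (Real.log x) ^ 2 / 2 ^ j := by field_simp

/-- the mean square for the whole window -/
theorem var_all (hVAR : S_VAR) : ∃ C : ℝ, 0 < C ∧ ∀ (M x y R : ℕ) (g : ℕ → ℕ), 2 ≤ M → 1 ≤ R → 2 * M ≤ y → 2 ≤ x →
    (∀ m ∈ Ioc M (2 * M), g m ∣ m ∧ ∀ f, f ∣ m → ¬ f ∣ g m → R < f) →
    ∑ m ∈ Ioc M (2 * M), ∑ c ∈ (range m).filter (fun c => c.Coprime m),
        (SP (wt y x) x m c - ((g m).totient : ℝ) / m.totient * SP (wt y x) x (g m) c) ^ 2 ≤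
      C * (Real.log M) ^ 2 * (Real.log x) ^ 4 * (1 / R + M / y) := by
  obtain ⟨C, hC, hV⟩ := hVAR
  refine ⟨32 * C, by positivity, ?_⟩
  intro M x y R g hM hR hy hx hg
  have hx0 : (0 : ℝ) < x := by exact_mod_cast (show 0 < x by omega)
  have hM0 : (0 : ℝ) < M := by exact_mod_cast (show 0 < M by omega)
  have hy0 : (0 : ℝ) < y := by exact_mod_cast (show 0 < y by omega)
  have hR0 : (0 : ℝ) < R := by exact_mod_cast (show 0 < R by omega)
  obtain ⟨J, hJ⟩ : ∃ J : ℕ, J = Nat.log 2 x + 1 := ⟨_, rfl⟩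
  have hxJ : x ≤ 2 ^ J := by rw [hJ]; exact (Nat.lt_pow_succ_log_self (by norm_num) _).le
  have hlx : 0.69 < Real.log x := by
    have e1 : Real.log 2 ≤ Real.log x := Real.log_le_log (by norm_num) (by exact_mod_cast hx)
    linarith [Real.log_two_gt_d9]
  have hJl : (J : ℝ) ≤ 4 * Real.log x := by
    have e1 : ((2 ^ Nat.log 2 x : ℕ) : ℝ) ≤ x := by exact_mod_cast Nat.pow_log_le_self 2 (by omega)
    have e2 := Real.log_le_log (by push_cast; positivity) e1
    push_cast at e2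
    rw [Real.log_pow] at e2
    have e3 := Real.log_two_gt_d9
    have e4 : (0 : ℝ) ≤ (Nat.log 2 x : ℝ) := Nat.cast_nonneg _
    rw [hJ]
    push_cast
    nlinarith
  -- the blocks
  set D : ℕ → ℕ → ℕ → ℝ := fun j m c =>
    SP (wj y x j) (2 ^ (j + 1)) m c - ((g m).totient : ℝ) / m.totient * SP (wj y x j) (2 ^ (j + 1)) (g m) c with hD
  have hsplit : ∀ m c : ℕ, SP (wt y x) x m c - ((g m).totient : ℝ) / m.totient * SP (wt y x) x (g m) c =
      ∑ j ∈ range J, D j m c := by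
    intro m c
    have e1 : ∀ m' : ℕ, SP (wt y x) x m' c = ∑ j ∈ range J, SP (wj y x j) (2 ^ (j + 1)) m' c := by
      intro m'
      rw [← SP_ext hxJ (fun n hn => wt_ext hn), SP_split hxJ]
      apply sum_congr rfl
      intro j hj
      exact SP_ext (Nat.pow_le_pow_right (by norm_num) (mem_range.1 hj)) (fun n hn => wj_ext hn)
    rw [e1, e1, mul_sum, ← sum_sub_distrib]
  have hblock : ∀ j ∈ range J, ∑ m ∈ Ioc M (2 * M), ∑ c ∈ (range m).filter (fun c => c.Coprime m), (D j m c) ^ 2 ≤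
      C * (Real.log M) ^ 2 * ((Real.log x) ^ 2 * (2 * (1 / R + M / y))) := by
    intro j _
    have h1 := hV M (2 ^ (j + 1)) R (wj y x j) g hM hR (by
      intro n hn
      unfold wj at hn
      split_ifs at hn with h2
      · unfold wt at hn
        split_ifs at hn with h3
        · exact ⟨h3.1, by omega⟩
        · exact absurd rfl hn
      · exact absurd rfl hn) hg
    refine h1.trans ?_
    rw [mul_assoc]
    apply mul_le_mul_of_nonneg_left _ (by positivity)
    rcases le_or_gt (2 ^ (j + 1)) y with h2 | h2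
    · have h3 : ∑ n ∈ Icc 1 (2 ^ (j + 1)), (wj y x j n) ^ 2 = 0 := by
        apply sum_eq_zero
        intro n hn
        rw [mem_Icc] at hn
        unfold wj wt
        rw [if_neg (show ¬ (n.Prime ∧ y < n ∧ n ≤ x) by rintro ⟨_, h4, _⟩; omega)]
        simp
      rw [h3, mul_zero]
      positivity
    · have h3 := wj_sq y x j
      have h4 : (y : ℝ) ≤ 2 * 2 ^ j := by
        have : (y : ℝ) ≤ ((2 ^ (j + 1) : ℕ) : ℝ) := by exact_mod_cast h2.le
        push_cast at this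
        rw [pow_succ] at this
        linarith
      have h2j : (0 : ℝ) < 2 ^ j := by positivity
      have h5 : (M : ℝ) / 2 ^ j ≤ 2 * (M / y) := by
        rw [div_le_iff₀ h2j]
        calc (M : ℝ) = (M / y) * y := by field_simp
          _ ≤ (M / y) * (2 * 2 ^ j) := by gcongr
          _ = 2 * (M / y) * 2 ^ j := by ring
      calc (((2 ^ (j + 1) : ℕ) : ℝ) / R + M) * ∑ n ∈ Icc 1 (2 ^ (j + 1)), (wj y x j n) ^ 2
          ≤ (((2 ^ (j + 1) : ℕ) : ℝ) / R + M) * ((Real.log x) ^ 2 / 2 ^ j) := by gcongr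
        _ = (Real.log x) ^ 2 * (2 * (1 / R) + M / 2 ^ j) := by
            push_cast
            field_simp
            ring
        _ ≤ (Real.log x) ^ 2 * (2 * (1 / R) + 2 * (M / y)) := by gcongr
        _ = (Real.log x) ^ 2 * (2 * (1 / R + M / y)) := by ring
  calc ∑ m ∈ Ioc M (2 * M), ∑ c ∈ (range m).filter (fun c => c.Coprime m),
        (SP (wt y x) x m c - ((g m).totient : ℝ) / m.totient * SP (wt y x) x (g m) c) ^ 2
      ≤ ∑ m ∈ Ioc M (2 * M), ∑ c ∈ (range m).filter (fun c => c.Coprime m), (J : ℝ) * ∑ j ∈ range J, (D j m c) ^ 2 := by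
        apply sum_le_sum
        intro m _
        apply sum_le_sum
        intro c _
        rw [hsplit]
        have := sq_sum_le_card_mul_sum_sq (s := range J) (f := fun j => D j m c)
        rwa [card_range] at this
    _ = (J : ℝ) * ∑ j ∈ range J, ∑ m ∈ Ioc M (2 * M), ∑ c ∈ (range m).filter (fun c => c.Coprime m), (D j m c) ^ 2 := by
        simp only [← mul_sum]
        congr 1
        rw [sum_comm]
        apply sum_congr rfl
        intro m _
        rw [sum_comm]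
    _ ≤ (J : ℝ) * ∑ j ∈ range J, C * (Real.log M) ^ 2 * ((Real.log x) ^ 2 * (2 * (1 / R + M / y))) := by
        gcongr with j hj
        exact hblock j hj
    _ = (J : ℝ) ^ 2 * (C * (Real.log M) ^ 2 * ((Real.log x) ^ 2 * (2 * (1 / R + M / y)))) := by
        rw [sum_const, card_range, nsmul_eq_mul]; ring
    _ ≤ (4 * Real.log x) ^ 2 * (C * (Real.log M) ^ 2 * ((Real.log x) ^ 2 * (2 * (1 / R + M / y)))) := by
        gcongr
    _ = 32 * C * (Real.log M) ^ 2 * (Real.log x) ^ 4 * (1 / R + M / y) := by ring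

end Pool.Agent.K9h19.LW
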