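import Pool.Agent.K9h19.LW.Fin2

/-! Counting the moduli with many bad classes. -/

set_option autoImplicit false

open Finset

namespace Pool.Agent.K9h19.LW

lemma grow2 {C s : ℝ} (hC : 0 < C) (hs : 16000000 * C + 1 ≤ s) : C * (s ^ 2) ^ 4 ≤ Real.exp (2 * s / 3) := by
  have hs1 : 1 ≤ s := by linarith
  have h1 : (2 * s / 3) ^ 9 / 362880 ≤ Real.exp (2 * s / 3) := by
    have := Real.pow_div_factorial_le_exp (2 * s / 3) (by positivity) 9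
    simpa [Nat.factorial] using this
  have h2 : C * (s ^ 2) ^ 4 ≤ (2 * s / 3) ^ 9 / 362880 := by
    have h3 : (2 * s / 3) ^ 9 / 362880 = s ^ 8 * (512 / 19683 / 362880 * s) := by ring
    rw [h3, ← pow_mul]
    have h4 : C ≤ 512 / 19683 / 362880 * s := by
      have : (16000000 : ℝ) * C * (512 / 19683 / 362880) ≥ C := by
        have : (16000000 : ℝ) * (512 / 19683 / 362880) ≥ 1 := by norm_num
        nlinarith
      nlinarith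
    calc C * s ^ (2 * 4) = s ^ 8 * C := by ring
      _ ≤ _ := by gcongr
  exact h2.trans h1

theorem count (hLW : S_LW) (hVAR : S_VAR) (hSM : S_SM) (ε : ℝ) (hε : 0 < ε) (hε1 : ε ≤ 1) :
    ∃ κ η C : ℝ, 0 < κ ∧ 0 < η ∧ 0 < C ∧ ∀ B : ℕ, ∃ M₀ : ℕ, ∀ M : ℕ, M₀ ≤ M → ∃ q₁ : ℕ,
      (Real.log M) ^ B < (q₁ : ℝ) ∧ ∀ ρ : ℝ, 2 / √(Real.log M) ≤ ρ → ρ ≤ ε / 2 →
      (((Ioc M (2 * M)).filter (fun m => ¬ q₁ ∣ m ∧ (sp ⌊(M : ℝ) ^ ρ⌋₊ m : ℝ) ≤ (M : ℝ) ^ η ∧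
          (M : ℝ) ^ (1 - ρ / 3) < bad ε κ m)).card : ℝ) ≤ (M : ℝ) ^ (1 - ρ / 3) ∧
      (((Ioc M (2 * M)).filter (fun m => ¬ q₁ ∣ m ∧ (M : ℝ) ^ (1 - ρ / 3) < bad ε κ m)).card : ℝ) ≤
        C * M * Real.exp (-(η / ρ)) := by
  classical
  obtain ⟨κ, η, C, hκ, hη, hη1, hC, hpow⟩ := power hLW hVAR ε hε hε1
  obtain ⟨C2, hC2, y₀, hsm⟩ := hSM
  refine ⟨κ, η, 1 + C2, hκ, hη, by linarith, fun B => ?_⟩
  obtain ⟨M1, hM1⟩ := hpow B
  obtain ⟨s0, hs0⟩ : ∃ s0 : ℝ, s0 = 16000000 * C + 1 + y₀ := ⟨_, rfl⟩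
  refine ⟨max (max M1 2) ⌈Real.exp (s0 ^ 2)⌉₊, fun M hM => ?_⟩
  have hMM1 : M1 ≤ M := ((le_max_left _ _).trans (le_max_left _ _)).trans hM
  have hM2 : 2 ≤ M := ((le_max_right _ _).trans (le_max_left _ _)).trans hM
  have hMe : Real.exp (s0 ^ 2) ≤ M := (Nat.le_ceil _).trans (by exact_mod_cast (le_max_right _ _).trans hM)
  have hM2r : (2 : ℝ) ≤ M := by exact_mod_cast hM2
  have hM0 : (0 : ℝ) < M := by linarith
  have hM1r : (1 : ℝ) ≤ M := by linarith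
  have hl : s0 ^ 2 ≤ Real.log M := (Real.le_log_iff_exp_le hM0).2 hMe
  obtain ⟨s, hs⟩ : ∃ s : ℝ, s = √(Real.log M) := ⟨_, rfl⟩
  have hs00 : 0 ≤ s0 := by rw [hs0]; positivity
  have hss0 : s0 ≤ s := by
    rw [hs]
    exact Real.le_sqrt_of_sq_le hl
  have hy0r : (0 : ℝ) ≤ y₀ := Nat.cast_nonneg _
  have hs1 : 1 ≤ s := by
    have : 0 < 16000000 * C := by positivity
    linarith
  have hsl : s ^ 2 = Real.log M := by
    rw [hs]
    exact Real.sq_sqrt (Real.log_natCast_nonneg M)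
  obtain ⟨q₁, hq₁, hmain⟩ := hM1 M hMM1
  refine ⟨q₁, hq₁, fun ρ hρ hρ2 => ?_⟩
  rw [← hs] at hρ
  have hs0' : 0 < s := by linarith
  have hρs : 2 ≤ ρ * s := by rwa [div_le_iff₀ hs0'] at hρ
  have hρ0 : 0 < ρ := by
    by_contra hcon
    nlinarith
  -- `ρ log M ≥ 2 s`
  have hρl : 2 * s ≤ ρ * Real.log M := by
    rw [← hsl]
    nlinarith
  have hMexp : ∀ t : ℝ, (M : ℝ) ^ t = Real.exp (Real.log M * t) := fun t => Real.rpow_def_of_pos hM0 t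
  have hg := grow2 hC (s := s) (by linarith)
  rw [hsl] at hg
  have hbig : C * (Real.log M) ^ 4 ≤ (M : ℝ) ^ (ρ / 3) := by
    refine hg.trans ?_
    rw [hMexp]
    apply Real.exp_le_exp.2
    nlinarith
  have hA := hmain ρ hρ0.le hρ2
  -- first part
  have h1 : (((Ioc M (2 * M)).filter (fun m => ¬ q₁ ∣ m ∧ (sp ⌊(M : ℝ) ^ ρ⌋₊ m : ℝ) ≤ (M : ℝ) ^ η ∧
      (M : ℝ) ^ (1 - ρ / 3) < bad ε κ m)).card : ℝ) ≤ (M : ℝ) ^ (1 - ρ / 3) := by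
    have hp : (0 : ℝ) < (M : ℝ) ^ (1 - ρ / 3) := Real.rpow_pos_of_pos hM0 _
    have e1 : (((Ioc M (2 * M)).filter (fun m => ¬ q₁ ∣ m ∧ (sp ⌊(M : ℝ) ^ ρ⌋₊ m : ℝ) ≤ (M : ℝ) ^ η ∧
        (M : ℝ) ^ (1 - ρ / 3) < bad ε κ m)).card : ℝ) * (M : ℝ) ^ (1 - ρ / 3) ≤
        C * (M : ℝ) ^ (2 - ρ) * (Real.log M) ^ 4 := by
      refine le_trans ?_ hA
      rw [← nsmul_eq_mul, ← sum_const]
      calc ∑ _m ∈ (Ioc M (2 * M)).filter (fun m => ¬ q₁ ∣ m ∧ (sp ⌊(M : ℝ) ^ ρ⌋₊ m : ℝ) ≤ (M : ℝ) ^ η ∧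
            (M : ℝ) ^ (1 - ρ / 3) < bad ε κ m), (M : ℝ) ^ (1 - ρ / 3)
          ≤ ∑ m ∈ (Ioc M (2 * M)).filter (fun m => ¬ q₁ ∣ m ∧ (sp ⌊(M : ℝ) ^ ρ⌋₊ m : ℝ) ≤ (M : ℝ) ^ η ∧
            (M : ℝ) ^ (1 - ρ / 3) < bad ε κ m), (bad ε κ m : ℝ) := by
            apply sum_le_sum
            intro m hm
            rw [mem_filter] at hm
            exact hm.2.2.2.le
        _ ≤ _ := by
            apply sum_le_sum_of_subset_of_nonneg
            · intro m hm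
              rw [mem_filter] at hm ⊢
              exact ⟨hm.1, hm.2.1, hm.2.2.1⟩
            · intro m _ _
              exact Nat.cast_nonneg _
    have e2 : C * (M : ℝ) ^ (2 - ρ) * (Real.log M) ^ 4 ≤ (M : ℝ) ^ (1 - ρ / 3) * (M : ℝ) ^ (1 - ρ / 3) := by
      calc C * (M : ℝ) ^ (2 - ρ) * (Real.log M) ^ 4 = (M : ℝ) ^ (2 - ρ) * (C * (Real.log M) ^ 4) := by ring
        _ ≤ (M : ℝ) ^ (2 - ρ) * (M : ℝ) ^ (ρ / 3) := by gcongr
        _ = (M : ℝ) ^ (1 - ρ / 3) * (M : ℝ) ^ (1 - ρ / 3) := by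
            rw [← Real.rpow_add hM0, ← Real.rpow_add hM0]
            congr 1
            ring
    exact le_of_mul_le_mul_right (e1.trans e2) hp
  refine ⟨h1, ?_⟩
  -- the smooth parts
  obtain ⟨R, hR⟩ : ∃ R : ℕ, R = ⌊(M : ℝ) ^ ρ⌋₊ := ⟨_, rfl⟩
  rw [← hR] at h1
  have hMρ : Real.exp (2 * s) ≤ (M : ℝ) ^ ρ := by
    rw [hMexp]
    apply Real.exp_le_exp.2
    linarith
  have hy : 2 * (y₀ : ℝ) + 1 ≤ (M : ℝ) ^ ρ := by
    have e1 := Real.add_one_le_exp (2 * s)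
    have : (y₀ : ℝ) ≤ s := by
      have : 0 < 16000000 * C := by positivity
      linarith
    linarith
  have hRy : y₀ ≤ R := by rw [hR]; exact Nat.le_floor (by linarith)
  have hR3 : 3 ≤ R := by
    rw [hR]
    apply Nat.le_floor
    have e1 := Real.add_one_le_exp (2 * s)
    push_cast
    linarith
  have hR0 : (0 : ℝ) < R := by exact_mod_cast (show 0 < R by omega)
  have hlR0 : 0 < Real.log R := Real.log_pos (by exact_mod_cast (show 1 < R by omega))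
  have hlR : Real.log R ≤ ρ * Real.log M := by
    rw [← Real.log_rpow hM0]
    apply Real.log_le_log hR0
    rw [hR]
    exact Nat.floor_le (by positivity)
  have hS := hsm R M ((M : ℝ) ^ η) hRy (by omega) (Real.one_le_rpow hM1r hη.le)
  have hlog0 : 0 < Real.log M := by rw [← hsl]; positivity
  have hS2 : C2 * M * Real.exp (-(Real.log ((M : ℝ) ^ η) / Real.log R)) ≤ C2 * M * Real.exp (-(η / ρ)) := by
    apply mul_le_mul_of_nonneg_left _ (by positivity)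
    apply Real.exp_le_exp.2
    rw [neg_le_neg_iff, Real.log_rpow hM0, div_le_div_iff₀ hρ0 hlR0]
    calc η * Real.log R ≤ η * (ρ * Real.log M) := by gcongr
      _ = η * Real.log M * ρ := by ring
  have hM3 : (M : ℝ) ^ (1 - ρ / 3) ≤ M * Real.exp (-(η / ρ)) := by
    have e1 : (M : ℝ) * Real.exp (-(η / ρ)) = Real.exp (Real.log M + -(η / ρ)) := by
      rw [Real.exp_add, Real.exp_log hM0]
    rw [hMexp, e1]
    apply Real.exp_le_exp.2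
    have e2 : η / ρ ≤ ρ / 3 * Real.log M := by
      rw [div_le_iff₀ hρ0]
      have e3 : 4 ≤ ρ ^ 2 * Real.log M := by
        rw [← hsl]
        nlinarith
      nlinarith
    nlinarith
  have hsub : ((Ioc M (2 * M)).filter (fun m => ¬ q₁ ∣ m ∧ (M : ℝ) ^ (1 - ρ / 3) < bad ε κ m)) ⊆
      ((Ioc M (2 * M)).filter (fun m => ¬ q₁ ∣ m ∧ (sp R m : ℝ) ≤ (M : ℝ) ^ η ∧ (M : ℝ) ^ (1 - ρ / 3) < bad ε κ m)) ∪
      ((Ioc M (2 * M)).filter (fun m => (M : ℝ) ^ η < (sp R m : ℝ))) := by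
    intro m hm
    rw [mem_filter] at hm
    rw [mem_union, mem_filter, mem_filter]
    rcases le_or_gt (sp R m : ℝ) ((M : ℝ) ^ η) with h | h
    · exact Or.inl ⟨hm.1, hm.2.1, h, hm.2.2⟩
    · exact Or.inr ⟨hm.1, h⟩
  have hcard : (((Ioc M (2 * M)).filter (fun m => ¬ q₁ ∣ m ∧ (M : ℝ) ^ (1 - ρ / 3) < bad ε κ m)).card : ℝ) ≤
      (((Ioc M (2 * M)).filter (fun m => ¬ q₁ ∣ m ∧ (sp R m : ℝ) ≤ (M : ℝ) ^ η ∧
        (M : ℝ) ^ (1 - ρ / 3) < bad ε κ m)).card : ℝ) +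
      (((Ioc M (2 * M)).filter (fun m => (M : ℝ) ^ η < (sp R m : ℝ))).card : ℝ) := by
    exact_mod_cast (card_le_card hsub).trans (card_union_le _ _)
  calc (((Ioc M (2 * M)).filter (fun m => ¬ q₁ ∣ m ∧ (M : ℝ) ^ (1 - ρ / 3) < bad ε κ m)).card : ℝ)
      ≤ M * Real.exp (-(η / ρ)) + C2 * M * Real.exp (-(η / ρ)) := by linarith
    _ = (1 + C2) * M * Real.exp (-(η / ρ)) := by ring

end Pool.Agent.K9h19.LW
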