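import Pool.Agent.K9h19.LW.Fin3

/-! The version for almost all moduli and the least prime. -/

set_option autoImplicit false

open Finset

namespace Pool.Agent.K9h19.LW

/-- `y`-smooth part with a real parameter -/
lemma sp_floor (y : ℝ) (hy : 0 ≤ y) (m : ℕ) :
    sp ⌊y⌋₊ m = ∏ p ∈ m.primeFactors.filter (fun p : ℕ => (p : ℝ) ≤ y), p ^ m.factorization p := by
  unfold sp
  apply prod_congr _ (fun _ _ => rfl)
  apply filter_congr
  intro p _
  exact Nat.le_floor_iff hy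

/-- few multiples of a large number -/
lemma mult_count {M q : ℕ} (hq : 1 ≤ q) :
    (((Ioc M (2 * M)).filter (fun m => q ∣ m)).card : ℝ) ≤ M / q + 1 := by
  have hq0 : (0 : ℝ) < q := by exact_mod_cast hq
  have h1 : ((Ioc M (2 * M)).filter (fun m => q ∣ m)).card ≤ 2 * M / q - M / q := by
    have h2 : ((Ioc M (2 * M)).filter (fun m => q ∣ m)).card ≤ (Ioc (M / q) (2 * M / q)).card := by
      apply card_le_card_of_injOn (fun m => m / q)
      · intro m hm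
        rw [mem_coe, mem_filter, mem_Ioc] at hm
        rw [mem_coe, mem_Ioc]
        obtain ⟨⟨hm1, hm2⟩, k, rfl⟩ := hm
        show M / q < q * k / q ∧ q * k / q ≤ 2 * M / q
        rw [Nat.mul_div_cancel_left _ (show 0 < q from hq)]
        refine ⟨(Nat.div_lt_iff_lt_mul hq).2 (by rw [mul_comm]; exact hm1), ?_⟩
        rw [Nat.le_div_iff_mul_le hq, mul_comm]
        exact hm2
      · intro a ha b hb hab
        rw [mem_coe, mem_filter] at ha hb
        obtain ⟨_, k, rfl⟩ := ha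
        obtain ⟨_, l, rfl⟩ := hb
        simp only [Nat.mul_div_cancel_left _ (show 0 < q from hq)] at hab
        rw [hab]
    rwa [Nat.card_Ioc] at h2
  have h3 : ((2 * M / q - M / q : ℕ) : ℝ) ≤ M / q + 1 := by
    have h4 : 2 * M / q ≤ M / q + M / q + 1 := by
      have e1 := Nat.div_add_mod M q
      have e2 := Nat.mod_lt M (show q > 0 by omega)
      rw [← Nat.lt_succ_iff, Nat.div_lt_iff_lt_mul hq]
      nlinarith
    have h5 : 2 * M / q - M / q ≤ M / q + 1 := by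
      rw [Nat.sub_le_iff_le_add]
      calc 2 * M / q ≤ M / q + M / q + 1 := h4
        _ = M / q + 1 + M / q := by ring
    have h6 : ((M / q : ℕ) : ℝ) ≤ M / q := Nat.cast_div_le
    have h7 : ((2 * M / q - M / q : ℕ) : ℝ) ≤ ((M / q + 1 : ℕ) : ℝ) := by exact_mod_cast h5
    push_cast at h7
    linarith
  have h8 : (((Ioc M (2 * M)).filter (fun m => q ∣ m)).card : ℝ) ≤ ((2 * M / q - M / q : ℕ) : ℝ) := by
    exact_mod_cast h1
  linarith

open Classical in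
theorem almost_all (hmain : ∀ ε : ℝ, 0 < ε → ε ≤ 1 →
    ∃ κ η C : ℝ, 0 < κ ∧ 0 < η ∧ 0 < C ∧ ∀ B : ℕ, ∃ M₀ : ℕ, ∀ M : ℕ, M₀ ≤ M → ∃ q₁ : ℕ,
      (Real.log M) ^ B < (q₁ : ℝ) ∧ ∀ ρ : ℝ, 2 / √(Real.log M) ≤ ρ → ρ ≤ ε / 2 →
      (((Ioc M (2 * M)).filter (fun m => ¬ q₁ ∣ m ∧ (M : ℝ) ^ (1 - ρ / 3) < bad ε κ m)).card : ℝ) ≤
        C * M * Real.exp (-(η / ρ))) (ε δ : ℝ) (hε : 0 < ε) (hδ : 0 < δ) :
    ∃ τ : ℝ, 0 < τ ∧ ∃ M₀ : ℕ, ∀ M : ℕ, M₀ ≤ M →
      (((Ioc M (2 * M)).filter (fun m : ℕ => (m : ℝ) ^ (1 - τ) <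
        (((range m).filter (fun c => c.Coprime m ∧
          ¬ ∃ p : ℕ, p.Prime ∧ p ≡ c [MOD m] ∧ (p : ℝ) < (m : ℝ) ^ (1 + ε))).card : ℝ))).card : ℝ) ≤ δ * M := by
  obtain ⟨e, he⟩ : ∃ e : ℝ, e = min ε 1 := ⟨_, rfl⟩
  have he0 : 0 < e := by rw [he]; exact lt_min hε one_pos
  have he1 : e ≤ 1 := by rw [he]; exact min_le_right _ _
  have hee : e ≤ ε := by rw [he]; exact min_le_left _ _
  obtain ⟨κ, η, C, hκ, hη, hC, hB⟩ := hmain e he0 he1
  -- the choice of `ρ`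
  obtain ⟨ρ, hρ⟩ : ∃ ρ : ℝ, ρ = min (e / 2) (η * δ / (2 * C)) := ⟨_, rfl⟩
  have hρ0 : 0 < ρ := by rw [hρ]; exact lt_min (by linarith) (by positivity)
  have hρ1 : ρ ≤ e / 2 := by rw [hρ]; exact min_le_left _ _
  have hρ2 : ρ ≤ η * δ / (2 * C) := by rw [hρ]; exact min_le_right _ _
  have hexp : C * Real.exp (-(η / ρ)) ≤ δ / 2 := by
    have h1 : η / ρ ≤ Real.exp (η / ρ) := by linarith [Real.add_one_le_exp (η / ρ)]
    have h2 : Real.exp (-(η / ρ)) ≤ ρ / η := by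
      rw [Real.exp_neg, inv_le_comm₀ (Real.exp_pos _) (by positivity), inv_div]
      exact h1
    calc C * Real.exp (-(η / ρ)) ≤ C * (ρ / η) := by gcongr
      _ ≤ C * ((η * δ / (2 * C)) / η) := by gcongr
      _ = δ / 2 := by field_simp
  refine ⟨ρ / 3, by positivity, ?_⟩
  obtain ⟨M1, hM1⟩ := hB 1
  refine ⟨max (max M1 3) (max ⌈Real.exp ((2 / ρ) ^ 2 + 4 / δ)⌉₊ ⌈4 / δ⌉₊), fun M hM => ?_⟩
  have hMM1 : M1 ≤ M := ((le_max_left _ _).trans (le_max_left _ _)).trans hM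
  have hM3 : 3 ≤ M := ((le_max_right _ _).trans (le_max_left _ _)).trans hM
  have hMe : Real.exp ((2 / ρ) ^ 2 + 4 / δ) ≤ M :=
    (Nat.le_ceil _).trans (by exact_mod_cast ((le_max_left _ _).trans (le_max_right _ _)).trans hM)
  have hMd : 4 / δ ≤ M :=
    (Nat.le_ceil _).trans (by exact_mod_cast ((le_max_right _ _).trans (le_max_right _ _)).trans hM)
  have hM0 : (0 : ℝ) < M := by exact_mod_cast (show 0 < M by omega)
  have hl : (2 / ρ) ^ 2 + 4 / δ ≤ Real.log M := (Real.le_log_iff_exp_le hM0).2 hMe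
  have hd0 : 0 < 4 / δ := by positivity
  have hl0 : 0 < Real.log M := by
    have : 0 ≤ (2 / ρ) ^ 2 := sq_nonneg _
    linarith
  obtain ⟨q₁, hq₁, hmain2⟩ := hM1 M hMM1
  rw [pow_one] at hq₁
  have hs : 2 / √(Real.log M) ≤ ρ := by
    have h1 : 2 / ρ ≤ √(Real.log M) := Real.le_sqrt_of_sq_le (by linarith)
    have h2 : 0 < √(Real.log M) := Real.sqrt_pos.2 hl0
    rw [div_le_iff₀ hρ0] at h1
    rw [div_le_iff₀ h2]
    linarith
  have h2 := hmain2 ρ hs hρ1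
  have hq1 : 1 ≤ q₁ := by
    have : (0 : ℝ) < q₁ := hl0.trans hq₁
    exact_mod_cast this
  have h3 := mult_count (M := M) hq1
  have h4 : (M : ℝ) / q₁ + 1 ≤ δ / 2 * M := by
    have hq0 : (0 : ℝ) < q₁ := by exact_mod_cast hq1
    have e1 : (M : ℝ) / q₁ ≤ δ / 4 * M := by
      rw [div_le_iff₀ hq0]
      have e2 : 4 / δ ≤ q₁ := by
        have : 0 ≤ (2 / ρ) ^ 2 := sq_nonneg _
        linarith
      rw [div_le_iff₀ hδ] at e2
      nlinarith
    have e3 : 1 ≤ δ / 4 * M := by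
      rw [div_le_iff₀ hδ] at hMd
      linarith
    linarith
  have hsub : ((Ioc M (2 * M)).filter (fun m : ℕ => (m : ℝ) ^ (1 - ρ / 3) <
        (((range m).filter (fun c => c.Coprime m ∧
          ¬ ∃ p : ℕ, p.Prime ∧ p ≡ c [MOD m] ∧ (p : ℝ) < (m : ℝ) ^ (1 + ε))).card : ℝ))) ⊆
      ((Ioc M (2 * M)).filter (fun m => ¬ q₁ ∣ m ∧ (M : ℝ) ^ (1 - ρ / 3) < bad e κ m)) ∪
      ((Ioc M (2 * M)).filter (fun m => q₁ ∣ m)) := by
    intro m hm
    rw [mem_filter, mem_Ioc] at hm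
    rw [mem_union, mem_filter, mem_filter, mem_Ioc]
    by_cases hqm : q₁ ∣ m
    · exact Or.inr ⟨hm.1, hqm⟩
    refine Or.inl ⟨hm.1, hqm, ?_⟩
    have hmM : (M : ℝ) ≤ m := by exact_mod_cast hm.1.1.le
    have hm1 : (1 : ℝ) < m := by exact_mod_cast (show 1 < m by omega)
    have e1 : (M : ℝ) ^ (1 - ρ / 3) ≤ (m : ℝ) ^ (1 - ρ / 3) :=
      Real.rpow_le_rpow hM0.le hmM (by linarith)
    refine lt_of_le_of_lt e1 (lt_of_lt_of_le hm.2 ?_)
    unfold bad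
    have e2 : (range m).filter (fun c => c.Coprime m ∧
          ¬ ∃ p : ℕ, p.Prime ∧ p ≡ c [MOD m] ∧ (p : ℝ) < (m : ℝ) ^ (1 + ε)) ⊆
        (range m).filter (fun c => c.Coprime m ∧ ¬ Many e κ m c) := by
      intro c hc
      rw [mem_filter] at hc ⊢
      refine ⟨hc.1, hc.2.1, fun hmany => hc.2.2 ?_⟩
      unfold Many at hmany
      have hφ : (0 : ℝ) < m.totient := by exact_mod_cast Nat.totient_pos.2 (show 0 < m by omega)
      have hpos : 0 < κ * Real.log m / m.totient := by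
        have := Real.log_pos hm1
        positivity
      obtain ⟨p, hp, _⟩ := exists_ne_zero_of_sum_ne_zero (lt_of_lt_of_le hpos hmany).ne'
      rw [mem_filter] at hp
      refine ⟨p, hp.2.1, hp.2.2.1, hp.2.2.2.2.trans_le ?_⟩
      exact Real.rpow_le_rpow_of_exponent_le hm1.le (by linarith)
    exact_mod_cast card_le_card e2
  have hcard : (((Ioc M (2 * M)).filter (fun m : ℕ => (m : ℝ) ^ (1 - ρ / 3) <
        (((range m).filter (fun c => c.Coprime m ∧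
          ¬ ∃ p : ℕ, p.Prime ∧ p ≡ c [MOD m] ∧ (p : ℝ) < (m : ℝ) ^ (1 + ε))).card : ℝ))).card : ℝ) ≤
      (((Ioc M (2 * M)).filter (fun m => ¬ q₁ ∣ m ∧ (M : ℝ) ^ (1 - ρ / 3) < bad e κ m)).card : ℝ) +
      (((Ioc M (2 * M)).filter (fun m => q₁ ∣ m)).card : ℝ) := by
    exact_mod_cast (card_le_card hsub).trans (card_union_le _ _)
  have h5 : C * M * Real.exp (-(η / ρ)) ≤ δ / 2 * M := by
    calc C * M * Real.exp (-(η / ρ)) = (C * Real.exp (-(η / ρ))) * M := by ring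
      _ ≤ δ / 2 * M := by gcongr
  linarith

end Pool.Agent.K9h19.LW
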