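import Pool.Agent.K9h19.LW.AVG
import Pool.Agent.K9h19.LW.ABEL

/-! Task GAIN: the saving from the primes of the interval `(z, z^K]`. -/

set_option autoImplicit false

open Finset

namespace Pool.Agent.K9h19.LW

open Pool.Agent.Y851.HZ (LR LR_nonneg res_apply)
open Pool.Agent.H318R2.Cr (Rgh fL fL_apply T_bound T_zero fL_nonneg)

theorem cls_lt {q m b : ℕ} (hq : 1 ≤ q) : cls q m b < q := by
  haveI : NeZero q := ⟨by omega⟩
  exact ZMod.val_lt _

theorem cls_mem {q m b : ℕ} (hq : 1 ≤ q) (hm : m.Coprime q) (hb : b.Coprime q) : cls q m b ∈ KK q :=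
  mem_KK.2 ⟨cls_lt hq, cls_coprime hq hm hb⟩

theorem CS_mono {f : ℕ → ℝ} (hf : ∀ n, 0 ≤ f n) (q b : ℕ) {A A' B B' : ℕ} (hA : A' ≤ A) (hB : B ≤ B') :
    CS f q b A B ≤ CS f q b A' B' := by
  unfold CS
  refine sum_le_sum_of_subset_of_nonneg ?_ fun n _ _ => div_nonneg (hf n) (Nat.cast_nonneg n)
  intro n hn
  rw [mem_filter, mem_Ioc] at hn ⊢
  exact ⟨⟨by omega, by omega⟩, hn.2⟩

theorem log_div_bounds {Y Z : ℕ} (hZ : 1 ≤ Z) (hYZ : Z ≤ Y) :
    Real.log ((Y / Z : ℕ) : ℝ) ≤ Real.log Y - Real.log Z ∧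
    Real.log Y - Real.log Z - 1 ≤ Real.log ((Y / Z : ℕ) : ℝ) := by
  have hZ0 : (0 : ℝ) < Z := by exact_mod_cast hZ
  have hY0 : (0 : ℝ) < Y := by exact_mod_cast (by omega : 0 < Y)
  have h1 : 1 ≤ Y / Z := by
    rw [Nat.le_div_iff_mul_le (by omega)]
    omega
  have h1r : (1 : ℝ) ≤ ((Y / Z : ℕ) : ℝ) := by exact_mod_cast h1
  rw [← Real.log_div hY0.ne' hZ0.ne']
  constructor
  · exact Real.log_le_log (by linarith) Nat.cast_div_le
  · have h2 : (Y : ℝ) / Z ≤ 2 * ((Y / Z : ℕ) : ℝ) := by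
      rw [div_le_iff₀ hZ0]
      have h3 : Y < (Y / Z + 1) * Z := by
        have := Nat.lt_mul_div_succ Y (show 0 < Z by omega)
        rw [mul_comm]
        exact this
      have h4 : (Y : ℝ) ≤ (((Y / Z : ℕ) : ℝ) + 1) * Z := by exact_mod_cast h3.le
      nlinarith
    have h3 : Real.log ((Y : ℝ) / Z) ≤ Real.log (2 * ((Y / Z : ℕ) : ℝ)) :=
      Real.log_le_log (by positivity) h2
    rw [Real.log_mul (by norm_num) (by linarith)] at h3
    have h4 : Real.log 2 ≤ 1 := by
      have := Real.log_two_lt_d9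
      linarith
    linarith

theorem TS_LR_le : ∃ C : ℝ, 0 ≤ C ∧ ∀ w A B : ℕ, 1 ≤ w → w ≤ A → A ≤ B →
    TS (LR w) A B ≤ Real.log B - Real.log A + C := by
  obtain ⟨C, hC, h⟩ := T_bound
  refine ⟨2 * C, by linarith, fun w A B hw hwA hAB => ?_⟩
  have h1 := (abs_le.1 (h w A hw hwA)).1
  have h2 := (abs_le.1 (h w B hw (hwA.trans hAB))).2
  have h3 := sum_Ioc_consecutive (fL w) (Nat.zero_le A) hAB
  have h4 : TS (LR w) A B = ∑ d ∈ Ioc A B, fL w d := by
    unfold TS
    simp only [fL_eq]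
  rw [h4]
  linarith

theorem SJ_le : ∃ C : ℝ, 0 ≤ C ∧ ∀ z Z : ℕ, 1 ≤ Z →
    ∑ p ∈ (Ioc z Z).filter Nat.Prime, Real.log p / p ≤ Real.log Z + C := by
  obtain ⟨C, hC, h⟩ := R_le
  refine ⟨C, hC, fun z Z hZ => le_trans ?_ (h 1 Z le_rfl hZ)⟩
  have h1 : ∀ p ∈ (Ioc z Z).filter Nat.Prime, Real.log p / p = LR 1 p / p := by
    intro p hp
    classical
    rw [mem_filter] at hp
    have hr : Rgh 1 p := fun r hr hr1 _ => by
      have := hr.two_le
      omega
    rw [LR, res_apply, if_pos hr, ArithmeticFunction.vonMangoldt_apply_prime hp.2]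
  rw [sum_congr rfl h1]
  refine sum_le_sum_of_subset_of_nonneg ?_ fun n _ _ => div_nonneg (LR_nonneg 1 n) (Nat.cast_nonneg n)
  intro p hp
  rw [mem_filter, mem_Ioc] at hp
  rw [mem_Ioc]
  exact ⟨hp.2.one_lt, hp.1.2⟩

/-- Task GAIN. -/
theorem gain (hUP : S_UP) : S_GAIN := by
  classical
  obtain ⟨C1, hC1, w1, hup⟩ := hUP
  obtain ⟨C2, hC2, hTS⟩ := TS_LR_le
  obtain ⟨C3, hC3, hSJ⟩ := SJ_le
  refine ⟨C1 + 4 * (1 + C3) + (1 + C2), by positivity, max 3 w1,
    fun w z K q b Y X c hw hq hqw hb hwz hK hzX hY1 hYX hl4 hc0 hc1 hden => ?_⟩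
  have hw1 : w1 ≤ w := (le_max_right _ _).trans hw
  have hw3 : 3 ≤ w := (le_max_left _ _).trans hw
  have hz3 : 3 ≤ z := hw3.trans hwz
  have hqw' : q ≤ w := q_le hq hqw
  set Z := z ^ K with hZ
  have hzZ : z ≤ Z := Nat.le_self_pow (by omega) z
  have hZ3 : 3 ≤ Z := hz3.trans hzZ
  have hz0 : (0 : ℝ) < z := by exact_mod_cast (by omega : 0 < z)
  have hZ0 : (0 : ℝ) < Z := by exact_mod_cast (by omega : 0 < Z)
  have hX0 : (0 : ℝ) < X := by exact_mod_cast (by omega : 0 < X)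
  have hY0 : (0 : ℝ) < Y := by exact_mod_cast (by omega : 0 < Y)
  have hlZ : Real.log Z = K * Real.log z := by
    rw [hZ, Nat.cast_pow, Real.log_pow]
  have hlz1 : 1 ≤ Real.log z := by
    rw [Real.le_log_iff_exp_le hz0]
    have h1 : (3 : ℝ) ≤ z := by exact_mod_cast hz3
    linarith [Real.exp_one_lt_d9]
  have hKr : (1 : ℝ) ≤ K := by exact_mod_cast hK
  have hKz : 1 ≤ K * Real.log z := by nlinarith
  have hlZX : 4 * Real.log Z ≤ Real.log X := by
    have h1 : Real.log ((z ^ (4 * K) : ℕ) : ℝ) ≤ Real.log X :=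
      Real.log_le_log (by positivity) (by exact_mod_cast hzX)
    rw [Nat.cast_pow, Real.log_pow] at h1
    push_cast at h1
    rw [hlZ]
    linarith
  have hlYZ : 3 * Real.log Z ≤ Real.log Y := by linarith
  have hZ3Y : Z ^ 3 ≤ Y := by
    have h1 : Real.log ((Z ^ 3 : ℕ) : ℝ) ≤ Real.log Y := by
      rw [Nat.cast_pow, Real.log_pow]
      push_cast
      exact hlYZ
    have h2 := (Real.log_le_log_iff (by positivity) hY0).1 h1
    exact_mod_cast h2
  set A := Y / Z with hA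
  set B := X / z with hB
  have hwA : w ≤ A := by
    rw [hA, Nat.le_div_iff_mul_le (by omega)]
    have h1 : w * Z ≤ Z * Z := Nat.mul_le_mul_right _ (hwz.trans hzZ)
    have h2 : Z * Z ≤ Z ^ 3 := by
      rw [pow_succ, pow_two]
      exact Nat.le_mul_of_pos_right _ (by omega)
    omega
  have hAB : A ≤ B := Nat.div_le_div hYX hzZ (by omega)
  have hZY : Z ≤ Y := (Nat.le_self_pow (by norm_num) Z).trans hZ3Y
  have hzX' : z ≤ X := hzZ.trans (hZY.trans hYX)
  obtain ⟨hA1, hA2⟩ := log_div_bounds (by omega : 1 ≤ Z) hZY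
  obtain ⟨hB1, hB2⟩ := log_div_bounds (by omega : 1 ≤ z) hzX'
  rw [← hA] at hA1 hA2
  rw [← hB] at hB1 hB2
  have hlog5 : Real.log B ≤ 5 * Real.log A := by
    have h1 : 1 ≤ Real.log Z := by rw [hlZ]; exact hKz
    nlinarith
  set t := Real.log w with ht
  have ht0 : 0 ≤ t := Real.log_natCast_nonneg w
  set l := Real.log X - Real.log Y with hl
  set l' := Real.log B - Real.log A with hl'
  have hll1 : l' ≤ l + K * Real.log z + 1 := by
    rw [hl', hl, ← hlZ]
    linarith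
  have hll2 : l - 1 ≤ l' := by
    rw [hl', hl]
    have h1 : Real.log z ≤ Real.log Z := Real.log_le_log hz0 (by exact_mod_cast hzZ)
    linarith
  have hφ : 0 < (q.totient : ℝ) := by
    exact_mod_cast Nat.totient_pos.2 hq
  set H := 2 * l' + C1 * t with hH
  let h : ℕ → ℝ := fun a => CS (LR w) q a A B
  have hh : ∀ a, a.Coprime q → q.totient * h a ≤ H := fun a ha =>
    hup w q a A B hw1 hq hqw ha hwA hAB hlog5
  let D : ℕ → ℝ := fun a => H - q.totient * h a
  have hD0 : ∀ a ∈ KK q, 0 ≤ D a := fun a ha => sub_nonneg.2 (hh a (mem_KK.1 ha).2)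
  have hDsum : q.totient * (l' - C2) ≤ ∑ a ∈ KK q, D a := by
    have h1 : ∑ a ∈ KK q, D a = q.totient * (H - TS (LR w) A B) := by
      simp only [D, h]
      rw [sum_sub_distrib, sum_const, card_KK, nsmul_eq_mul, ← mul_sum,
        sum_CS hq (fun n hn => rough_coprime hq hqw' (LR_rough hn))]
      ring
    rw [h1]
    refine mul_le_mul_of_nonneg_left ?_ hφ.le
    have h2 := hTS w A B (by omega) hwA hAB
    have h3 : 0 ≤ C1 * t := mul_nonneg hC1.le ht0
    have h4 : 0 ≤ l' := by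
      rw [hl']
      have : Real.log A ≤ Real.log B :=
        Real.log_le_log (by exact_mod_cast (by omega : 0 < A)) (by exact_mod_cast hAB)
      linarith
    rw [hH]
    linarith
  set J := (Ioc z Z).filter Nat.Prime with hJ
  have hJp : ∀ p ∈ J, p.Prime ∧ z < p ∧ p ≤ Z ∧ p.Coprime q := by
    intro p hp
    rw [hJ, mem_filter, mem_Ioc] at hp
    refine ⟨hp.2, hp.1.1, hp.1.2, ?_⟩
    rw [hp.2.coprime_iff_not_dvd]
    intro hd
    have := Nat.le_of_dvd hq hd
    omega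
  -- comparison with the larger interval
  have hstep1 : (q.totient : ℝ) * ∑ p ∈ J, Real.log p / p * CS (LR w) q (cls q p b) (Y / p) (X / p) ≤
      ∑ p ∈ J, Real.log p / p * (H - D (cls q p b)) := by
    rw [mul_sum]
    refine sum_le_sum fun p hp => ?_
    obtain ⟨hp1, hp2, hp3, hp4⟩ := hJp p hp
    have h1 : CS (LR w) q (cls q p b) (Y / p) (X / p) ≤ h (cls q p b) :=
      CS_mono (LR_nonneg w) q _ (Nat.div_le_div_left hp3 hp1.pos) (Nat.div_le_div_left hp2.le (by omega))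
    have h2 : 0 ≤ Real.log p / p := div_nonneg (Real.log_natCast_nonneg p) (Nat.cast_nonneg p)
    simp only [D]
    have h3 := mul_le_mul_of_nonneg_left h1 (mul_nonneg hφ.le h2)
    nlinarith
  have hSJ0 : 0 ≤ ∑ p ∈ J, Real.log p / p :=
    sum_nonneg fun p _ => div_nonneg (Real.log_natCast_nonneg p) (Nat.cast_nonneg p)
  -- the gain
  have hgain : c * Real.log z * (l' - C2) ≤ ∑ p ∈ J, Real.log p / p * D (cls q p b) := by
    have h1 : ∑ p ∈ J, Real.log z * (1 / (p : ℝ) * D (cls q p b)) ≤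
        ∑ p ∈ J, Real.log p / p * D (cls q p b) := by
      refine sum_le_sum fun p hp => ?_
      obtain ⟨hp1, hp2, hp3, hp4⟩ := hJp p hp
      have h2 := hD0 _ (cls_mem (m := p) (b := b) hq hp4 hb)
      have hp0 : (0 : ℝ) < p := by exact_mod_cast hp1.pos
      have h3 : Real.log z ≤ Real.log p := Real.log_le_log hz0 (by exact_mod_cast hp2.le)
      rw [← mul_assoc, mul_one_div]
      exact mul_le_mul_of_nonneg_right (div_le_div_of_nonneg_right h3 hp0.le) h2
    refine le_trans ?_ h1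
    rw [← mul_sum, mul_comm c, mul_assoc]
    refine mul_le_mul_of_nonneg_left ?_ (by linarith)
    rw [← sum_fiberwise_of_maps_to (s := J) (t := KK q) (g := fun p => cls q p b)
      (fun p hp => cls_mem hq (hJp p hp).2.2.2 hb)]
    have h2 : ∀ a ∈ KK q, c / q.totient * D a ≤
        ∑ p ∈ J.filter (fun p => cls q p b = a), 1 / (p : ℝ) * D (cls q p b) := by
      intro a ha
      have ha' := mem_KK.1 ha
      have h3 : ∑ p ∈ J.filter (fun p => cls q p b = a), 1 / (p : ℝ) * D (cls q p b) =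
          (∑ p ∈ J.filter (fun p => cls q p b = a), 1 / (p : ℝ)) * D a := by
        rw [sum_mul]
        refine sum_congr rfl fun p hp => ?_
        rw [mem_filter] at hp
        rw [hp.2]
      rw [h3]
      refine mul_le_mul_of_nonneg_right ?_ (hD0 a ha)
      have h4 := hden (cls q a b) (cls_coprime hq ha'.2 hb)
      refine h4.trans (le_of_eq (sum_congr ?_ fun _ _ => rfl))
      ext p
      rw [hJ, filter_filter, mem_filter, mem_filter]
      have h5 : p ∈ Ioc z Z → p.Prime → (p ≡ cls q a b [MOD q] ↔ cls q p b = a) := by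
        intro hp1 hp2
        have hp4 := (hJp p (by rw [hJ, mem_filter]; exact ⟨hp1, hp2⟩)).2.2.2
        rw [cls_iff hq ha'.2]
        constructor
        · intro h6
          have h7 : a ≡ cls q p b [MOD q] := (cls_iff hq hp4).2 (by rwa [mul_comm])
          rw [← Nat.mod_eq_of_lt ha'.1, ← Nat.mod_eq_of_lt (cls_lt (m := p) (b := b) hq)]
          exact h7.symm
        · intro h6
          have h7 : p * a ≡ b [MOD q] := (cls_iff hq hp4).1 (by rw [h6])
          rwa [mul_comm]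
      constructor
      · rintro ⟨h6, h7, h8⟩
        exact ⟨h6, h7, (h5 h6 h7).1 h8⟩
      · rintro ⟨h6, h7, h8⟩
        exact ⟨h6, h7, (h5 h6 h7).2 h8⟩
    refine le_trans ?_ (sum_le_sum h2)
    rw [← mul_sum]
    have h3 : c / (q.totient : ℝ) * (q.totient * (l' - C2)) ≤ c / q.totient * ∑ a ∈ KK q, D a :=
      mul_le_mul_of_nonneg_left hDsum (by positivity)
    have h4 : c / (q.totient : ℝ) * (q.totient * (l' - C2)) = c * (l' - C2) := by
      field_simp
    linarith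
  have hsum : ∑ p ∈ J, Real.log p / p * (H - D (cls q p b)) =
      H * ∑ p ∈ J, Real.log p / p - ∑ p ∈ J, Real.log p / p * D (cls q p b) := by
    rw [mul_sum, ← sum_sub_distrib]
    refine sum_congr rfl fun p _ => ?_
    ring
  set SJ := ∑ p ∈ J, Real.log p / (p : ℝ) with hSJdef
  have hSJ1 : SJ ≤ (1 + C3) * (K * Real.log z) := by
    have h1 := hSJ z Z (by omega)
    rw [hlZ] at h1
    nlinarith
  have hHS : H * SJ ≤ (2 * l + C1 * t) * SJ + 4 * (1 + C3) * (K * Real.log z) ^ 2 := by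
    have h1 : H * SJ ≤ (2 * (l + K * Real.log z + 1) + C1 * t) * SJ :=
      mul_le_mul_of_nonneg_right (by rw [hH]; linarith) hSJ0
    have h2 : (2 * (K * Real.log z) + 2) * SJ ≤ 4 * (K * Real.log z) * ((1 + C3) * (K * Real.log z)) :=
      mul_le_mul (by linarith) hSJ1 hSJ0 (by positivity)
    have h3 : (2 * (l + K * Real.log z + 1) + C1 * t) * SJ =
        (2 * l + C1 * t) * SJ + (2 * (K * Real.log z) + 2) * SJ := by ring
    have h4 : 4 * (K * Real.log z) * ((1 + C3) * (K * Real.log z)) =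
        4 * (1 + C3) * (K * Real.log z) ^ 2 := by ring
    linarith
  have hcz : 0 ≤ c * Real.log z := by positivity
  have hfin1 : c * Real.log z * (l - (1 + C2)) ≤ c * Real.log z * (l' - C2) :=
    mul_le_mul_of_nonneg_left (by linarith) hcz
  have h1 : 0 ≤ t * SJ := mul_nonneg ht0 hSJ0
  have h2 : 0 ≤ (K * Real.log z) ^ 2 := by positivity
  have h3 : 0 ≤ (4 * (1 + C3) + (1 + C2)) * (t * SJ) := by positivity
  have h4 : 0 ≤ (C1 + (1 + C2)) * (K * Real.log z) ^ 2 := by positivity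
  have h5 : 0 ≤ c * Real.log z * (C1 + 4 * (1 + C3)) := by positivity
  have h6 : (2 * l + (C1 + 4 * (1 + C3) + (1 + C2)) * t) * SJ +
      (C1 + 4 * (1 + C3) + (1 + C2)) * (K * Real.log z) ^ 2 -
      c * Real.log z * (l - (C1 + 4 * (1 + C3) + (1 + C2))) =
      ((2 * l + C1 * t) * SJ + 4 * (1 + C3) * (K * Real.log z) ^ 2 - c * Real.log z * (l - (1 + C2))) +
      (4 * (1 + C3) + (1 + C2)) * (t * SJ) + (C1 + (1 + C2)) * (K * Real.log z) ^ 2 +
      c * Real.log z * (C1 + 4 * (1 + C3)) := by ring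
  rw [h6]
  linarith

end Pool.Agent.K9h19.LW
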