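import Pool.Agent.K9h19.LW.PARS
import Pool.Agent.H398R2.BV1

/-! Leaf VAR of project LW (helper19), by helper66. -/

set_option autoImplicit false

open Finset

namespace Pool.Agent.K9h19.LW

namespace Vr

open Pool.Agent.Helper112

/-- Abel summation for the weight `1 / f`. -/
lemma abel_inv (h : ℕ → ℝ) (R K : ℕ) (hRK : R ≤ K) :
    ∑ f ∈ Ioc R K, h f / f = ∑ F ∈ Ioc R K, (∑ f ∈ Ioc R F, h f) / ((F : ℝ) * (F + 1)) +
      (∑ f ∈ Ioc R K, h f) / (K + 1) := by
  induction K, hRK using Nat.le_induction with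
  | base => simp
  | succ K hK ih =>
    rw [sum_Ioc_succ_top (by omega), sum_Ioc_succ_top (by omega)
      (fun F => (∑ f ∈ Ioc R F, h f) / ((F : ℝ) * (F + 1))), ih, sum_Ioc_succ_top (by omega) h]
    push_cast
    have h1 : (0 : ℝ) < (K : ℝ) + 1 := by positivity
    have h2 : (0 : ℝ) < (K : ℝ) + 1 + 1 := by positivity
    field_simp
    ring

lemma sum_weights (N R K : ℕ) (hRK : R ≤ K) :
    ∑ F ∈ Ioc R K, ((N : ℝ) + (F : ℝ) ^ 2) / ((F : ℝ) * (F + 1)) ≤
      N * (1 / ((R : ℝ) + 1) - 1 / ((K : ℝ) + 1)) + (K - R) := by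
  induction K, hRK using Nat.le_induction with
  | base => simp
  | succ K hK ih =>
    rw [sum_Ioc_succ_top (by omega)]
    have h1 : (0 : ℝ) < (K : ℝ) + 1 := by positivity
    have h2 : (0 : ℝ) < (K : ℝ) + 1 + 1 := by positivity
    have h3 : ((N : ℝ) + ((K + 1 : ℕ) : ℝ) ^ 2) / (((K + 1 : ℕ) : ℝ) * (((K + 1 : ℕ) : ℝ) + 1)) ≤
        N * (1 / ((K : ℝ) + 1) - 1 / ((K : ℝ) + 1 + 1)) + 1 := by
      push_cast
      have h4 : (N : ℝ) * (1 / ((K : ℝ) + 1) - 1 / ((K : ℝ) + 1 + 1)) =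
          N / (((K : ℝ) + 1) * ((K : ℝ) + 1 + 1)) := by
        field_simp
        ring
      rw [h4, add_div]
      have h5 : ((K : ℝ) + 1) ^ 2 / (((K : ℝ) + 1) * ((K : ℝ) + 1 + 1)) ≤ 1 := by
        rw [div_le_one (by positivity)]
        nlinarith
      linarith
    push_cast
    push_cast at h3
    linarith

/-- from the large sieve to the weight `1 / φ(f)` -/
lemma tail_bound (h : ℕ → ℝ) (hh : ∀ f, 0 ≤ h f) (N R K : ℕ) (S : ℝ) (hS : 0 ≤ S) (hR : 1 ≤ R)
    (hL : ∀ F : ℕ, ∑ f ∈ Icc 1 F, h f ≤ 6 * (N + (F : ℝ) ^ 2) * S) :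
    ∑ f ∈ Ioc R K, h f / f ≤ 12 * (N / R + K) * S := by
  rcases le_or_gt R K with hRK | hRK
  swap
  · rw [Ioc_eq_empty (by omega), sum_empty]
    positivity
  have hL' : ∀ F : ℕ, ∑ f ∈ Ioc R F, h f ≤ 6 * (N + (F : ℝ) ^ 2) * S := by
    intro F
    refine le_trans (sum_le_sum_of_subset_of_nonneg ?_ fun f _ _ => hh f) (hL F)
    intro f hf
    rw [mem_Ioc] at hf
    rw [mem_Icc]
    omega
  have hRr : (1 : ℝ) ≤ R := by exact_mod_cast hR
  have hRKr : (R : ℝ) ≤ K := by exact_mod_cast hRK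
  rw [abel_inv h R K hRK]
  have h1 : ∑ F ∈ Ioc R K, (∑ f ∈ Ioc R F, h f) / ((F : ℝ) * (F + 1)) ≤
      6 * S * (N * (1 / ((R : ℝ) + 1) - 1 / ((K : ℝ) + 1)) + (K - R)) := by
    calc _ ≤ ∑ F ∈ Ioc R K, 6 * S * (((N : ℝ) + (F : ℝ) ^ 2) / ((F : ℝ) * (F + 1))) := by
          apply sum_le_sum
          intro F hF
          rw [mem_Ioc] at hF
          have hF0 : (0 : ℝ) < F := by
            have : 0 < F := by omega
            exact_mod_cast this
          calc (∑ f ∈ Ioc R F, h f) / ((F : ℝ) * (F + 1)) ≤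
              (6 * (N + (F : ℝ) ^ 2) * S) / ((F : ℝ) * (F + 1)) := by
                gcongr
                exact hL' F
            _ = _ := by ring
      _ = 6 * S * ∑ F ∈ Ioc R K, (((N : ℝ) + (F : ℝ) ^ 2) / ((F : ℝ) * (F + 1))) := by
          rw [mul_sum]
      _ ≤ _ := by
          gcongr
          exact sum_weights N R K hRK
  have h2 : (∑ f ∈ Ioc R K, h f) / ((K : ℝ) + 1) ≤ 6 * S * (N / ((K : ℝ) + 1) + K) := by
    rw [div_le_iff₀ (by positivity)]
    refine (hL' K).trans ?_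
    have h3 : 6 * S * ((N : ℝ) / ((K : ℝ) + 1) + K) * ((K : ℝ) + 1) =
        6 * S * (N + K * (K + 1)) := by
      field_simp
    rw [h3]
    have h4 : 6 * ((N : ℝ) + (K : ℝ) ^ 2) * S = 6 * S * (N + (K : ℝ) ^ 2) := by ring
    rw [h4]
    gcongr
    nlinarith
  have h3 : (1 : ℝ) / ((R : ℝ) + 1) ≤ 1 / R := by
    apply one_div_le_one_div_of_le (by linarith)
    linarith
  have hN : (0 : ℝ) ≤ N := Nat.cast_nonneg N
  have h4 : (N : ℝ) * (1 / ((R : ℝ) + 1)) ≤ N / R := by
    calc (N : ℝ) * (1 / ((R : ℝ) + 1)) ≤ N * (1 / R) := mul_le_mul_of_nonneg_left h3 hN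
      _ = N / R := by ring
  have h5 : (N : ℝ) * (1 / ((R : ℝ) + 1) - 1 / ((K : ℝ) + 1)) + (K - R) +
      (N / ((K : ℝ) + 1) + K) ≤ N / R + 2 * K := by
    have : (N : ℝ) * (1 / ((R : ℝ) + 1) - 1 / ((K : ℝ) + 1)) =
        N * (1 / ((R : ℝ) + 1)) - N / ((K : ℝ) + 1) := by ring
    rw [this]
    linarith
  calc _ ≤ 6 * S * (N * (1 / ((R : ℝ) + 1) - 1 / ((K : ℝ) + 1)) + (K - R)) +
        6 * S * (N / ((K : ℝ) + 1) + K) := add_le_add h1 h2
    _ = 6 * S * ((N : ℝ) * (1 / ((R : ℝ) + 1) - 1 / ((K : ℝ) + 1)) + (K - R) +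
      (N / ((K : ℝ) + 1) + K)) := by ring
    _ ≤ 6 * S * (N / R + 2 * K) := by gcongr
    _ ≤ 12 * (N / R + K) * S := by
        have h6 : 0 ≤ (N : ℝ) / R := by positivity
        nlinarith

lemma inv_tot_le (n : ℕ) (hn : 1 ≤ n) : 1 / (Nat.totient n : ℝ) ≤ (n.divisors.card : ℝ) / n := by
  have h1 : n ≤ n.divisors.card * Nat.totient n := by
    calc n = ∑ d ∈ n.divisors, Nat.totient d := (Nat.sum_totient n).symm
      _ ≤ ∑ _d ∈ n.divisors, Nat.totient n := by
          apply sum_le_sum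
          intro d hd
          exact Nat.le_of_dvd (Nat.totient_pos.mpr hn)
            (Nat.totient_dvd_of_dvd (Nat.dvd_of_mem_divisors hd))
      _ = _ := by rw [sum_const, smul_eq_mul]
  have h2 : (0:ℝ) < Nat.totient n := by exact_mod_cast Nat.totient_pos.mpr hn
  have h3 : (0:ℝ) < n := by exact_mod_cast hn
  rw [div_le_div_iff₀ h2 h3, one_mul]
  exact_mod_cast h1

lemma sum_inv_tot (D : ℕ) : ∑ e ∈ Icc 1 D, 1 / (Nat.totient e : ℝ) ≤ (1 + Real.log D) ^ 2 := by
  refine le_trans (sum_le_sum fun e he => ?_) (Pool.Agent.H398R2.BV.sum_card_div_div D)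
  rw [mem_Icc] at he
  exact inv_tot_le e he.1

/-- the multiples of `f` -/
lemma sum_inv_mult (M f : ℕ) (hf : 1 ≤ f) (hfM : f ≤ 2 * M) :
    ∑ m ∈ (Ioc M (2 * M)).filter (fun m => f ∣ m), 1 / (m.totient : ℝ) ≤
      1 / (f.totient : ℝ) * (1 + Real.log (2 * M)) ^ 2 := by
  have hφf : (0 : ℝ) < f.totient := by exact_mod_cast Nat.totient_pos.mpr hf
  have hlog : Real.log ((2 * M / f : ℕ) : ℝ) ≤ Real.log (2 * M) := by
    have h1 : 1 ≤ 2 * M / f := (Nat.one_le_div_iff (by omega)).2 hfM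
    apply Real.log_le_log
    · exact_mod_cast h1
    · have : 2 * M / f ≤ 2 * M := Nat.div_le_self _ _
      exact_mod_cast this
  have hlog0 : 0 ≤ Real.log ((2 * M / f : ℕ) : ℝ) := Real.log_natCast_nonneg _
  calc _ ≤ ∑ m ∈ (Ioc M (2 * M)).filter (fun m => f ∣ m),
        1 / (f.totient : ℝ) * (1 / ((m / f).totient : ℝ)) := by
        apply sum_le_sum
        intro m hm
        rw [mem_filter, mem_Ioc] at hm
        obtain ⟨⟨hm1, hm2⟩, k, rfl⟩ := hm
        have hk : 0 < k := by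
          rcases Nat.eq_zero_or_pos k with h | h
          · subst h; omega
          · exact h
        rw [Nat.mul_div_cancel_left k (by omega)]
        have h1 : f.totient * k.totient ≤ (f * k).totient := Nat.totient_super_multiplicative f k
        have hφk : (0 : ℝ) < k.totient := by exact_mod_cast Nat.totient_pos.mpr hk
        rw [one_div_mul_one_div]
        apply one_div_le_one_div_of_le (by positivity)
        exact_mod_cast h1
    _ = 1 / (f.totient : ℝ) * ∑ m ∈ (Ioc M (2 * M)).filter (fun m => f ∣ m),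
        (1 / ((m / f).totient : ℝ)) := by rw [mul_sum]
    _ ≤ 1 / (f.totient : ℝ) * ∑ e ∈ Icc 1 (2 * M / f), (1 / (e.totient : ℝ)) := by
        gcongr
        have h1 : ∑ m ∈ (Ioc M (2 * M)).filter (fun m => f ∣ m), (1 / ((m / f).totient : ℝ)) =
            ∑ e ∈ ((Ioc M (2 * M)).filter (fun m => f ∣ m)).image (fun m => m / f),
              (1 / (e.totient : ℝ)) := by
          rw [sum_image]
          intro x hx y hy hxy
          rw [mem_coe, mem_filter] at hx hy
          obtain ⟨-, k, rfl⟩ := hx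
          obtain ⟨-, l, rfl⟩ := hy
          simp only [Nat.mul_div_cancel_left _ (show 0 < f by omega)] at hxy
          rw [hxy]
        rw [h1]
        apply sum_le_sum_of_subset_of_nonneg
        · intro e he
          rw [mem_image] at he
          obtain ⟨m, hm, rfl⟩ := he
          rw [mem_filter, mem_Ioc] at hm
          obtain ⟨⟨hm1, hm2⟩, hfm⟩ := hm
          rw [mem_Icc]
          refine ⟨(Nat.one_le_div_iff (by omega)).2 (Nat.le_of_dvd (by omega) hfm), ?_⟩
          exact Nat.div_le_div_right hm2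
        · intro e _ _
          positivity
    _ ≤ 1 / (f.totient : ℝ) * (1 + Real.log ((2 * M / f : ℕ) : ℝ)) ^ 2 := by
        gcongr
        exact sum_inv_tot _
    _ ≤ _ := by gcongr

end Vr

open Classical in
theorem var (hPARS : S_PARS) : S_VAR := by
  refine ⟨384, by norm_num, ?_⟩
  intro M N R a g hM hR ha hg
  set G : ℕ → ℝ := fun f => ∑ χ ∈ (univ : Finset (DirichletCharacter ℂ f)).filter
    (fun χ => χ.IsPrimitive), ‖∑ n ∈ Icc 1 N, (a n : ℂ) * χ (n : ZMod f)‖ ^ 2 with hG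
  have hG0 : ∀ f, 0 ≤ G f := fun f => sum_nonneg fun χ _ => by positivity
  set S : ℝ := ∑ n ∈ Icc 1 N, (a n) ^ 2 with hS
  have hS0 : 0 ≤ S := sum_nonneg fun n _ => by positivity
  have hls : ∀ F : ℕ, ∑ f ∈ Icc 1 F, ((f : ℝ) / (Nat.totient f : ℝ)) * G f ≤
      6 * (N + (F : ℝ) ^ 2) * S := by
    intro F
    have h := Pool.Agent.Helper112.mult_large_sieve N F (fun n => (a n : ℂ))
    have h1 : ∑ n ∈ Icc 1 N, ‖(a n : ℂ)‖ ^ 2 = S := by
      refine sum_congr rfl fun n _ => ?_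
      rw [Complex.norm_real, Real.norm_eq_abs, sq_abs]
    rw [h1] at h
    exact h
  have htail := Vr.tail_bound (fun f => ((f : ℝ) / (Nat.totient f : ℝ)) * G f)
    (fun f => mul_nonneg (by positivity) (hG0 f)) N R (2 * M) S hS0 hR hls
  -- each modulus
  have h1 : ∀ m ∈ Ioc M (2 * M), ∑ c ∈ (range m).filter (fun c => c.Coprime m),
      (SP a N m c - ((g m).totient : ℝ) / m.totient * SP a N (g m) c) ^ 2 ≤
      ∑ f ∈ Ioc R (2 * M), if f ∣ m then 1 / (m.totient : ℝ) * G f else 0 := by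
    intro m hm
    obtain ⟨hg1, hg2⟩ := hg m hm
    rw [mem_Ioc] at hm
    have hcop : ∀ n, a n ≠ 0 → n.Coprime m := by
      intro n hn
      obtain ⟨hn1, hn2⟩ := ha n hn
      rw [Nat.Prime.coprime_iff_not_dvd hn1]
      intro h
      have := Nat.le_of_dvd (by omega) h
      omega
    refine (hPARS N m (g m) a (by omega) hg1 hcop).trans ?_
    rw [mul_sum, ← sum_filter]
    refine sum_le_sum_of_subset_of_nonneg ?_ ?_
    · intro f hf
      rw [mem_filter, Nat.mem_divisors] at hf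
      rw [mem_filter, mem_Ioc]
      exact ⟨⟨hg2 f hf.1.1 hf.2, (Nat.le_of_dvd (by omega) hf.1.1).trans hm.2⟩, hf.1.1⟩
    · intro f _ _
      exact mul_nonneg (by positivity) (hG0 f)
  have hlogM : (0 : ℝ) < Real.log M := Real.log_pos (by exact_mod_cast hM)
  have hlog2M : Real.log (2 * M) ≤ 2 * Real.log M := by
    rw [Real.log_mul (by norm_num) (by positivity)]
    have : Real.log 2 ≤ Real.log M := Real.log_le_log (by norm_num) (by exact_mod_cast hM)
    linarith
  have hlog1 : 1 + Real.log (2 * M) ≤ 4 * Real.log M := by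
    have h2 : Real.log 2 ≤ Real.log M := Real.log_le_log (by norm_num) (by exact_mod_cast hM)
    have h3 := Real.log_two_gt_d9
    linarith
  have hlog0 : 0 ≤ 1 + Real.log (2 * M) := by
    have : 0 ≤ Real.log (2 * M) := Real.log_nonneg (by
      have : (2 : ℝ) ≤ M := by exact_mod_cast hM
      linarith)
    linarith
  calc _ ≤ ∑ m ∈ Ioc M (2 * M), ∑ f ∈ Ioc R (2 * M),
        (if f ∣ m then 1 / (m.totient : ℝ) * G f else 0) := sum_le_sum h1
    _ = ∑ f ∈ Ioc R (2 * M), ∑ m ∈ Ioc M (2 * M),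
        (if f ∣ m then 1 / (m.totient : ℝ) * G f else 0) := sum_comm
    _ = ∑ f ∈ Ioc R (2 * M), (∑ m ∈ (Ioc M (2 * M)).filter (fun m => f ∣ m),
        1 / (m.totient : ℝ)) * G f := by
        refine sum_congr rfl fun f _ => ?_
        rw [← sum_filter, sum_mul]
    _ ≤ ∑ f ∈ Ioc R (2 * M), (1 / (f.totient : ℝ) * (4 * Real.log M) ^ 2) * G f := by
        apply sum_le_sum
        intro f hf
        rw [mem_Ioc] at hf
        apply mul_le_mul_of_nonneg_right _ (hG0 f)
        refine (Vr.sum_inv_mult M f (by omega) hf.2).trans ?_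
        gcongr
    _ = (4 * Real.log M) ^ 2 * ∑ f ∈ Ioc R (2 * M), ((f : ℝ) / (Nat.totient f : ℝ)) * G f / f := by
        rw [mul_sum]
        refine sum_congr rfl fun f hf => ?_
        rw [mem_Ioc] at hf
        have hf0 : (f : ℝ) ≠ 0 := by
          have : f ≠ 0 := by omega
          exact_mod_cast this
        field_simp
    _ ≤ (4 * Real.log M) ^ 2 * (12 * (N / R + (2 * M : ℕ)) * S) := by gcongr
    _ ≤ 384 * (Real.log M) ^ 2 * (N / R + M) * S := by
        have h5 : 12 * ((N : ℝ) / R + (2 * M : ℕ)) ≤ 24 * (N / R + M) := by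
          push_cast
          have : 0 ≤ (N : ℝ) / R := by positivity
          linarith
        calc (4 * Real.log M) ^ 2 * (12 * (N / R + (2 * M : ℕ)) * S) =
            16 * (Real.log M) ^ 2 * S * (12 * ((N : ℝ) / R + (2 * M : ℕ))) := by ring
          _ ≤ 16 * (Real.log M) ^ 2 * S * (24 * (N / R + M)) := by gcongr
          _ = _ := by ring

end Pool.Agent.K9h19.LW
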