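import Pool.Agent.K9h19.LW.Stm3
import Pool.Agent.K9h19.LW.All1
import Pool.Agent.K9h19.LW.VAR
import Pool.Agent.H398R2.BA1

/-! Weights on the primes: sums over classes and character sums. -/

set_option autoImplicit false

open Finset

namespace Pool.Agent.K9h19.LW

open Pool.Agent.H410R2 (psiLog psiLogAP)
open Pool.Agent.H398R2.BV (Prim)
open ArithmeticFunction (vonMangoldt)

/-- the weights on the primes which do not divide `m` -/
noncomputable def ap (y J N m n : ℕ) : ℝ := if n.Prime ∧ n ≤ N ∧ n.Coprime m then Real.log n * wg y J n else 0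

lemma ap_coprime {y J N m n : ℕ} (h : ap y J N m n ≠ 0) : n.Coprime m := by
  unfold ap at h
  split_ifs at h with h1
  · exact h1.2.2
  · exact absurd rfl h

lemma ap_nonneg (y J N m n : ℕ) : 0 ≤ ap y J N m n := by
  unfold ap
  split_ifs with h
  · exact mul_nonneg (Real.log_natCast_nonneg n) (wg_nonneg h.1.one_le)
  · exact le_rfl

/-- the rest of the weights -/
noncomputable def rest (y J N m : ℕ) : ℝ :=
  ∑ n ∈ (Icc 1 N).filter (fun n => ¬ (n.Prime ∧ n.Coprime m)), vonMangoldt n * wg y J n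

lemma rest_nonneg (y J N m : ℕ) : 0 ≤ rest y J N m := by
  unfold rest
  apply sum_nonneg
  intro n hn
  rw [mem_filter, mem_Icc] at hn
  exact mul_nonneg ArithmeticFunction.vonMangoldt_nonneg (wg_nonneg hn.1.1)

lemma rest_le {y J N m : ℕ} {l : ℝ} (hl : 1 ≤ l) (hJ : (J : ℝ) ≤ 8 * l) (hN : Real.log N ≤ 4 * l)
    (hml : Real.log m ≤ 2 * l) (hm : 1 ≤ m) (hy : 1 ≤ y) (hyN : y ≤ N) :
    rest y J N m ≤ 2400 * l ^ 4 / √(y : ℝ) := by
  have hy0 : (0 : ℝ) < y := by exact_mod_cast hy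
  have hy1 : (1 : ℝ) ≤ y := by exact_mod_cast hy
  have hs0 : 0 < √(y : ℝ) := Real.sqrt_pos.2 hy0
  have hs1 : 1 ≤ √(y : ℝ) := Real.one_le_sqrt.2 hy1
  have hss : √(y : ℝ) * √(y : ℝ) = y := Real.mul_self_sqrt hy0.le
  have hlog2 := Real.log_two_lt_d9
  have hlog2' : 0 < Real.log 2 := Real.log_pos (by norm_num)
  have hJ0 : (0 : ℝ) ≤ J := Nat.cast_nonneg _
  obtain ⟨W, hW⟩ : ∃ W : ℝ, W = J * (J * Real.log 2) / y := ⟨_, rfl⟩
  have hW0 : 0 ≤ W := by rw [hW]; positivity
  have hWl : W ≤ 45 * l ^ 2 / y := by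
    rw [hW]
    apply div_le_div_of_nonneg_right _ hy0.le
    calc (J : ℝ) * (J * Real.log 2) ≤ (8 * l) * ((8 * l) * 0.7) := by
          have : Real.log 2 ≤ 0.7 := by linarith
          gcongr
      _ ≤ 45 * l ^ 2 := by nlinarith
  have hV : ∀ n : ℕ, (0 : ℝ) ≤ vonMangoldt n := fun n => ArithmeticFunction.vonMangoldt_nonneg
  have hlN := Real.log_natCast_nonneg N
  have hly0 := Real.log_natCast_nonneg y
  have hly : Real.log y ≤ 4 * l := (Real.log_le_log hy0 (by exact_mod_cast hyN)).trans hN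
  -- non primes up to `y`
  have h1 : ∑ n ∈ (Icc 1 y).filter (fun n => ¬ n.Prime), vonMangoldt n * wg y J n ≤ 400 * l ^ 3 / √(y : ℝ) := by
    have e1 : ∑ n ∈ (Icc 1 y).filter (fun n => ¬ n.Prime), vonMangoldt n * wg y J n ≤
        (∑ n ∈ (Icc 1 y).filter (fun n => ¬ n.Prime), vonMangoldt n) * W := by
      rw [sum_mul]
      apply sum_le_sum
      intro n hn
      rw [mem_filter, mem_Icc] at hn
      rw [hW]
      exact mul_le_mul_of_nonneg_left (wg_small hn.1.1 hy) (hV n)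
    have e2 : ∑ n ∈ (Icc 1 y).filter (fun n => ¬ n.Prime), vonMangoldt n ≤ 2 * √(y : ℝ) * Real.log y := by
      have h3 := Chebyshev.psi_sub_theta_eq_sum_not_prime (y : ℝ)
      rw [Nat.floor_natCast] at h3
      have h4 := Chebyshev.psi_sub_theta_le (x := (y : ℝ)) hy1
      rw [h3] at h4
      refine le_trans ?_ h4
      apply sum_le_sum_of_subset_of_nonneg
      · intro n hn
        rw [mem_filter, mem_Icc] at hn
        rw [mem_filter, mem_Ioc]
        exact ⟨⟨by omega, hn.1.2⟩, hn.2⟩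
      · intro n _ _
        exact hV n
    calc ∑ n ∈ (Icc 1 y).filter (fun n => ¬ n.Prime), vonMangoldt n * wg y J n
        ≤ (2 * √(y : ℝ) * Real.log y) * (45 * l ^ 2 / y) := e1.trans (mul_le_mul e2 hWl hW0 (by positivity))
      _ ≤ (2 * √(y : ℝ) * (4 * l)) * (45 * l ^ 2 / y) := by gcongr
      _ = 360 * l ^ 3 * (√(y : ℝ) / y) := by ring
      _ = 360 * l ^ 3 / √(y : ℝ) := by
          have : √(y : ℝ) / y = 1 / √(y : ℝ) := by
            rw [div_eq_div_iff hy0.ne' hs0.ne', hss, one_mul]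
          rw [this]; ring
      _ ≤ 400 * l ^ 3 / √(y : ℝ) := by gcongr; norm_num
  -- non primes above `y`
  have h2 : ∑ n ∈ (Ioc y N).filter (fun n => ¬ n.Prime), vonMangoldt n * wg y J n ≤ 1200 * l ^ 2 / √(y : ℝ) := by
    have e1 : ∑ n ∈ (Ioc y N).filter (fun n => ¬ n.Prime), vonMangoldt n * wg y J n ≤
        3 * ∑ n ∈ (Ioc y N).filter (fun n => ¬ n.Prime), vonMangoldt n / (n : ℝ) := by
      rw [mul_sum]
      apply sum_le_sum
      intro n hn
      rw [mem_filter, mem_Ioc] at hn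
      have h5 := wg_le (y := y) (J := J) (show 1 ≤ n by omega)
      calc vonMangoldt n * wg y J n ≤ vonMangoldt n * (3 / n) := mul_le_mul_of_nonneg_left h5 (hV n)
        _ = 3 * (vonMangoldt n / n) := by ring
    have e2 := pp_sum hy hyN
    calc ∑ n ∈ (Ioc y N).filter (fun n => ¬ n.Prime), vonMangoldt n * wg y J n
        ≤ 3 * (16 * (1 + Real.log N) ^ 2 / √(y : ℝ)) := by linarith
      _ ≤ 3 * (16 * (5 * l) ^ 2 / √(y : ℝ)) := by
          have : 1 + Real.log N ≤ 5 * l := by linarith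
          gcongr
      _ = 1200 * l ^ 2 / √(y : ℝ) := by ring
  -- not coprime
  have h3 : ∑ n ∈ (Icc 1 N).filter (fun n => ¬ n.Coprime m), vonMangoldt n * wg y J n ≤ 720 * l ^ 4 / √(y : ℝ) := by
    have e1 : ∑ n ∈ (Icc 1 N).filter (fun n => ¬ n.Coprime m), vonMangoldt n * wg y J n ≤
        (∑ n ∈ (Icc 1 N).filter (fun n => ¬ n.Coprime m), vonMangoldt n) * W := by
      rw [sum_mul]
      apply sum_le_sum
      intro n hn
      rw [mem_filter, mem_Icc] at hn
      rw [hW]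
      exact mul_le_mul_of_nonneg_left (wg_small hn.1.1 hy) (hV n)
    have e2 := Pool.Agent.H398R2.BV.sum_not_coprime N m hm
    have e3 := Pool.Agent.H398R2.BV.omega_le_log m hm
    have e4 : (m.primeFactors.card : ℝ) * Real.log N ≤ (4 * l) * (4 * l) := by
      have : (m.primeFactors.card : ℝ) ≤ 4 * l := by linarith
      gcongr
    calc ∑ n ∈ (Icc 1 N).filter (fun n => ¬ n.Coprime m), vonMangoldt n * wg y J n
        ≤ ((4 * l) * (4 * l)) * (45 * l ^ 2 / y) := e1.trans (mul_le_mul (e2.trans e4) hWl hW0 (by positivity))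
      _ = 720 * l ^ 4 / y := by ring
      _ ≤ 720 * l ^ 4 / √(y : ℝ) := by
          have : √(y : ℝ) ≤ y := by nlinarith
          gcongr
  -- together
  have h4 : rest y J N m ≤ (∑ n ∈ (Icc 1 y).filter (fun n => ¬ n.Prime), vonMangoldt n * wg y J n) +
      (∑ n ∈ (Ioc y N).filter (fun n => ¬ n.Prime), vonMangoldt n * wg y J n) +
      ∑ n ∈ (Icc 1 N).filter (fun n => ¬ n.Coprime m), vonMangoldt n * wg y J n := by
    have hw : ∀ n ∈ Icc 1 N, 0 ≤ vonMangoldt n * wg y J n := fun n hn =>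
      mul_nonneg (hV n) (wg_nonneg (mem_Icc.1 hn).1)
    have e0 : rest y J N m ≤ ∑ n ∈ (((Icc 1 y).filter (fun n => ¬ n.Prime)) ∪ ((Ioc y N).filter (fun n => ¬ n.Prime))) ∪
        ((Icc 1 N).filter (fun n => ¬ n.Coprime m)), vonMangoldt n * wg y J n := by
      unfold rest
      apply sum_le_sum_of_subset_of_nonneg
      · intro n hn
        rw [mem_filter, mem_Icc] at hn
        rw [mem_union, mem_union, mem_filter, mem_filter, mem_filter, mem_Icc, mem_Icc, mem_Ioc]
        obtain ⟨⟨a1, a2⟩, a3⟩ := hn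
        by_cases hp : n.Prime
        · exact Or.inr ⟨⟨a1, a2⟩, fun h => a3 ⟨hp, h⟩⟩
        · rcases le_or_gt n y with h | h
          · exact Or.inl (Or.inl ⟨⟨a1, h⟩, hp⟩)
          · exact Or.inl (Or.inr ⟨⟨h, a2⟩, hp⟩)
      · intro n hn _
        apply hw
        rw [mem_union, mem_union, mem_filter, mem_filter, mem_filter, mem_Icc, mem_Icc, mem_Ioc] at hn
        rw [mem_Icc]
        rcases hn with (h | h) | h
        · exact ⟨h.1.1, h.1.2.trans hyN⟩
        · exact ⟨by omega, h.1.2⟩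
        · exact h.1
    refine e0.trans ?_
    have e1 : ∀ (S T : Finset ℕ), (∀ n ∈ S, 0 ≤ vonMangoldt n * wg y J n) → (∀ n ∈ T, 0 ≤ vonMangoldt n * wg y J n) →
        ∑ n ∈ S ∪ T, vonMangoldt n * wg y J n ≤ ∑ n ∈ S, vonMangoldt n * wg y J n + ∑ n ∈ T, vonMangoldt n * wg y J n := by
      intro S T hS hT
      rw [← sum_union_inter]
      have : 0 ≤ ∑ n ∈ S ∩ T, vonMangoldt n * wg y J n :=
        sum_nonneg fun n hn => hS n (mem_inter.1 hn).1
      linarith
    have p1 : ∀ n ∈ (Icc 1 y).filter (fun n => ¬ n.Prime), 0 ≤ vonMangoldt n * wg y J n := by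
      intro n hn
      rw [mem_filter, mem_Icc] at hn
      exact mul_nonneg (hV n) (wg_nonneg hn.1.1)
    have p2 : ∀ n ∈ (Ioc y N).filter (fun n => ¬ n.Prime), 0 ≤ vonMangoldt n * wg y J n := by
      intro n hn
      rw [mem_filter, mem_Ioc] at hn
      exact mul_nonneg (hV n) (wg_nonneg (by omega))
    have p3 : ∀ n ∈ (Icc 1 N).filter (fun n => ¬ n.Coprime m), 0 ≤ vonMangoldt n * wg y J n := by
      intro n hn
      rw [mem_filter, mem_Icc] at hn
      exact mul_nonneg (hV n) (wg_nonneg hn.1.1)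
    have p12 : ∀ n ∈ ((Icc 1 y).filter (fun n => ¬ n.Prime)) ∪ ((Ioc y N).filter (fun n => ¬ n.Prime)),
        0 ≤ vonMangoldt n * wg y J n := by
      intro n hn
      rcases mem_union.1 hn with h | h
      · exact p1 n h
      · exact p2 n h
    have q1 := e1 _ _ p12 p3
    have q2 := e1 _ _ p1 p2
    linarith
  have h5 : 400 * l ^ 3 / √(y : ℝ) ≤ 400 * l ^ 4 / √(y : ℝ) := by
    have : l ^ 3 ≤ l ^ 4 := pow_le_pow_right₀ hl (by norm_num)
    gcongr
  have h6 : 1200 * l ^ 2 / √(y : ℝ) ≤ 1200 * l ^ 4 / √(y : ℝ) := by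
    have : l ^ 2 ≤ l ^ 4 := pow_le_pow_right₀ hl (by norm_num)
    gcongr
  have h7 : 400 * l ^ 4 / √(y : ℝ) + 1200 * l ^ 4 / √(y : ℝ) + 720 * l ^ 4 / √(y : ℝ) = 2320 * l ^ 4 / √(y : ℝ) := by ring
  have h8 : 2320 * l ^ 4 / √(y : ℝ) ≤ 2400 * l ^ 4 / √(y : ℝ) := by gcongr; norm_num
  linarith only [h1, h2, h3, h4, h5, h6, h7, h8]

/-- the character sum of the weights -/
lemma char_ap {y J N m f : ℕ} (hN : ∀ j < J, 2 ^ j ≤ N) (ψ : DirichletCharacter ℂ f) :
    ‖∑ n ∈ Icc 1 N, (ap y J N m n : ℂ) * ψ (n : ZMod f)‖ ≤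
      (∑ j ∈ scales y J, ‖psiLog ((2 : ℝ) ^ j) f ψ‖ / 2 ^ j) + rest y J N m := by
  -- all prime powers
  have h1 : ∑ n ∈ Icc 1 N, ((vonMangoldt n * wg y J n : ℝ) : ℂ) * ψ (n : ZMod f) =
      ∑ j ∈ scales y J, psiLog ((2 : ℝ) ^ j) f ψ / 2 ^ j := by
    have e1 : ∀ n ∈ Icc 1 N, ((vonMangoldt n * wg y J n : ℝ) : ℂ) * ψ (n : ZMod f) =
        ∑ j ∈ scales y J, (if n ≤ 2 ^ j then ((vonMangoldt n : ℝ) : ℂ) * ψ (n : ZMod f) *
          ((Real.log ((2 : ℝ) ^ j / n) : ℝ) : ℂ) / 2 ^ j else 0) := by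
      intro n _
      unfold wg
      rw [mul_sum, Complex.ofReal_sum, sum_mul]
      apply sum_congr rfl
      intro j _
      split_ifs
      · push_cast
        ring
      · push_cast
        ring
    rw [sum_congr rfl e1, sum_comm]
    apply sum_congr rfl
    intro j hj
    rw [scales, mem_filter, mem_range] at hj
    have e2 : ⌊(2 : ℝ) ^ j⌋₊ = 2 ^ j := by
      have : ((2 : ℝ) ^ j) = ((2 ^ j : ℕ) : ℝ) := by push_cast; rfl
      rw [this, Nat.floor_natCast]
    unfold psiLog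
    rw [e2, sum_div, ← sum_filter]
    apply sum_congr _ (fun _ _ => rfl)
    ext n
    rw [mem_filter, mem_Icc, mem_Icc]
    constructor
    · rintro ⟨⟨a1, _⟩, a3⟩
      exact ⟨a1, a3⟩
    · rintro ⟨a1, a2⟩
      exact ⟨⟨a1, a2.trans (hN j hj.1)⟩, a2⟩
  have h2 : ∑ n ∈ Icc 1 N, (ap y J N m n : ℂ) * ψ (n : ZMod f) =
      ∑ n ∈ (Icc 1 N).filter (fun n => n.Prime ∧ n.Coprime m),
        ((vonMangoldt n * wg y J n : ℝ) : ℂ) * ψ (n : ZMod f) := by
    rw [sum_filter]
    apply sum_congr rfl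
    intro n hn
    rw [mem_Icc] at hn
    unfold ap
    by_cases h : n.Prime ∧ n.Coprime m
    · rw [if_pos h, if_pos ⟨h.1, hn.2, h.2⟩, ArithmeticFunction.vonMangoldt_apply_prime h.1]
    · rw [if_neg h, if_neg (fun h2 => h ⟨h2.1, h2.2.2⟩)]
      simp
  have h3 := sum_filter_add_sum_filter_not (Icc 1 N) (fun n => n.Prime ∧ n.Coprime m)
    (fun n => ((vonMangoldt n * wg y J n : ℝ) : ℂ) * ψ (n : ZMod f))
  rw [h1] at h3
  have h4 : ∑ n ∈ Icc 1 N, (ap y J N m n : ℂ) * ψ (n : ZMod f) =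
      (∑ j ∈ scales y J, psiLog ((2 : ℝ) ^ j) f ψ / 2 ^ j) -
      ∑ n ∈ (Icc 1 N).filter (fun n => ¬ (n.Prime ∧ n.Coprime m)),
        ((vonMangoldt n * wg y J n : ℝ) : ℂ) * ψ (n : ZMod f) := by
    rw [h2, ← h3]
    ring
  rw [h4]
  refine (norm_sub_le _ _).trans (add_le_add ?_ ?_)
  · refine (norm_sum_le _ _).trans (sum_le_sum fun j _ => ?_)
    rw [norm_div, norm_pow]
    simp
  · unfold rest
    refine (norm_sum_le _ _).trans (sum_le_sum fun n hn => ?_)
    rw [mem_filter, mem_Icc] at hn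
    have hnn : 0 ≤ vonMangoldt n * wg y J n :=
      mul_nonneg ArithmeticFunction.vonMangoldt_nonneg (wg_nonneg hn.1.1)
    rw [norm_mul, Complex.norm_real, Real.norm_of_nonneg hnn]
    calc vonMangoldt n * wg y J n * ‖ψ (n : ZMod f)‖ ≤ vonMangoldt n * wg y J n * 1 :=
          mul_le_mul_of_nonneg_left (ψ.norm_le_one _) hnn
      _ = _ := mul_one _

lemma SP_ap_lower {y J x N m g c : ℕ} (hxN : x ≤ N) (hJ : 4 * x ≤ 2 ^ J) (hm : 1 ≤ m) (hmy : m ≤ y) :
    Real.log 2 / 4 * ∑ p ∈ (Ioc y x).filter (fun p => p.Prime ∧ p ≡ c [MOD g]), Real.log p / p ≤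
      SP (ap y J N m) N g c := by
  unfold SP
  rw [mul_sum]
  calc ∑ p ∈ (Ioc y x).filter (fun p => p.Prime ∧ p ≡ c [MOD g]), Real.log 2 / 4 * (Real.log p / p)
      ≤ ∑ p ∈ (Ioc y x).filter (fun p => p.Prime ∧ p ≡ c [MOD g]), ap y J N m p := by
        apply sum_le_sum
        intro p hp
        rw [mem_filter, mem_Ioc] at hp
        have h1 := wg_large (y := y) (J := J) hp.2.1.one_le hp.1.1 ((Nat.mul_le_mul_left 4 hp.1.2).trans hJ)
        have hcop : p.Coprime m := by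
          rw [Nat.Prime.coprime_iff_not_dvd hp.2.1]
          intro h
          have := Nat.le_of_dvd (by omega) h
          omega
        unfold ap
        rw [if_pos ⟨hp.2.1, hp.1.2.trans hxN, hcop⟩]
        have h2 := Real.log_natCast_nonneg p
        calc Real.log 2 / 4 * (Real.log p / p) = Real.log p * (Real.log 2 / (4 * p)) := by
              field_simp
          _ ≤ Real.log p * wg y J p := by gcongr
    _ ≤ _ := by
        apply sum_le_sum_of_subset_of_nonneg
        · intro p hp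
          rw [mem_filter, mem_Ioc] at hp
          rw [mem_filter, mem_Icc]
          exact ⟨⟨by omega, hp.1.2.trans hxN⟩, hp.2.2⟩
        · intro n _ _
          exact ap_nonneg y J N m n

lemma SP_ap_upper {y J N y₁ m c : ℕ} (hm : 1 ≤ m) (hy : 1 ≤ y) (hy1 : 1 ≤ y₁) (hy1N : y₁ ≤ N) :
    SP (ap y J N m) N m c ≤ ((y₁ : ℝ) / m + 1) * Real.log y₁ * (J * (J * Real.log 2) / y) +
      3 * ∑ p ∈ (Ioc y₁ N).filter (fun p => p.Prime ∧ p ≡ c [MOD m]), Real.log p / p := by
  have hy0 : (0 : ℝ) < y := by exact_mod_cast hy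
  have hl2' : 0 < Real.log 2 := Real.log_pos (by norm_num)
  have hW0 : (0 : ℝ) ≤ J * (J * Real.log 2) / y := by positivity
  unfold SP
  have h1 : (Icc 1 N).filter (fun n => n ≡ c [MOD m]) = (Ioc 0 y₁).filter (fun n => n ≡ c [MOD m]) ∪
      (Ioc y₁ N).filter (fun n => n ≡ c [MOD m]) := by
    rw [← filter_union, Ioc_union_Ioc_eq_Ioc (Nat.zero_le _) hy1N]
    congr 1
  have hd : Disjoint ((Ioc 0 y₁).filter (fun n => n ≡ c [MOD m])) ((Ioc y₁ N).filter (fun n => n ≡ c [MOD m])) :=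
    disjoint_filter_filter (Ioc_disjoint_Ioc_of_le le_rfl)
  rw [h1, sum_union hd]
  apply add_le_add
  · have h3 : ∀ n ∈ (Ioc 0 y₁).filter (fun n => n ≡ c [MOD m]), ap y J N m n ≤
        Real.log y₁ * (J * (J * Real.log 2) / y) := by
      intro n hn
      rw [mem_filter, mem_Ioc] at hn
      have h6 := Real.log_natCast_nonneg y₁
      unfold ap
      split_ifs with h
      · have h4 : Real.log n ≤ Real.log y₁ := Real.log_le_log (by exact_mod_cast hn.1.1) (by exact_mod_cast hn.1.2)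
        have h5 := wg_small (y := y) (J := J) hn.1.1 hy
        exact mul_le_mul h4 h5 (wg_nonneg hn.1.1) h6
      · positivity
    refine (sum_le_sum h3).trans ?_
    rw [sum_const, nsmul_eq_mul]
    have h4 := Pool.Agent.Helper112.TII.count_class 0 y₁ m c hm (Nat.zero_le _)
    have h5 : (((Ioc 0 y₁).filter (fun n => n ≡ c [MOD m])).card : ℝ) ≤ (y₁ : ℝ) / m + 1 := by
      simpa using h4
    have h6 := Real.log_natCast_nonneg y₁
    calc (((Ioc 0 y₁).filter (fun n => n ≡ c [MOD m])).card : ℝ) * (Real.log y₁ * (J * (J * Real.log 2) / y))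
        ≤ ((y₁ : ℝ) / m + 1) * (Real.log y₁ * (J * (J * Real.log 2) / y)) := by gcongr
      _ = _ := by ring
  · rw [mul_sum]
    have h2 : ∑ n ∈ (Ioc y₁ N).filter (fun n => n ≡ c [MOD m]), ap y J N m n ≤
        ∑ n ∈ (Ioc y₁ N).filter (fun n => n ≡ c [MOD m]), if n.Prime then 3 * (Real.log n / n) else 0 := by
      apply sum_le_sum
      intro n hn
      rw [mem_filter, mem_Ioc] at hn
      unfold ap
      by_cases hp : n.Prime
      · rw [if_pos hp]
        have h6 := Real.log_natCast_nonneg n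
        split_ifs with h
        · have h5 := wg_le (y := y) (J := J) hp.one_le
          calc Real.log n * wg y J n ≤ Real.log n * (3 / n) := mul_le_mul_of_nonneg_left h5 h6
            _ = 3 * (Real.log n / n) := by ring
        · positivity
      · rw [if_neg (fun h => hp h.1), if_neg hp]
    refine h2.trans (le_of_eq ?_)
    rw [← sum_filter, filter_filter]
    apply sum_congr _ (fun _ _ => rfl)
    apply filter_congr
    intro n _
    exact and_comm

end Pool.Agent.K9h19.LW
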