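import Pool.Agent.K9h19.LW.LD1

/-! The two parts of the deviation: mean values. -/

set_option autoImplicit false

open Finset

namespace Pool.Agent.K9h19.LW

open Pool.Agent.H410R2 (psiLog psiLogAP)
open Pool.Agent.H398R2.BV (Prim)
open ArithmeticFunction (vonMangoldt)

/-- the part of the conductors in `(R, F]` -/
noncomputable def EF (y J R F m : ℕ) : ℝ :=
  ∑ j ∈ scales y J, (1 / (m.totient : ℝ)) * (∑ f ∈ m.divisors.filter (fun f => R < f ∧ f ≤ F),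
    ∑ ψ ∈ Prim f, ‖psiLog ((2 : ℝ) ^ j) f ψ‖) / 2 ^ j

/-- the part of the conductors above `F`, in mean square -/
noncomputable def EB (y J F m : ℕ) : ℝ :=
  ∑ j ∈ scales y J, (1 / (m.totient : ℝ)) * (∑ f ∈ m.divisors.filter (fun f => F < f),
    ∑ ψ ∈ Prim f, ‖psiLog ((2 : ℝ) ^ j) f ψ‖ ^ 2) / (2 ^ j) ^ 2

/-- the number of characters modulo `m` of conductor `≤ F`, over `φ(m)` -/
noncomputable def DF (F m : ℕ) : ℝ := (1 / (m.totient : ℝ)) * ∑ f ∈ m.divisors.filter (fun f => f ≤ F), (f.totient : ℝ)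

lemma EF_nonneg (y J R F m : ℕ) : 0 ≤ EF y J R F m := by
  unfold EF
  apply sum_nonneg
  intro j _
  apply div_nonneg _ (by positivity)
  apply mul_nonneg (by positivity)
  exact sum_nonneg fun f _ => sum_nonneg fun ψ _ => norm_nonneg _

lemma EB_nonneg (y J F m : ℕ) : 0 ≤ EB y J F m := by
  unfold EB
  apply sum_nonneg
  intro j _
  apply div_nonneg _ (by positivity)
  apply mul_nonneg (by positivity)
  exact sum_nonneg fun f _ => sum_nonneg fun ψ _ => by positivity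

lemma DF_nonneg (F m : ℕ) : 0 ≤ DF F m := by
  unfold DF
  apply mul_nonneg (by positivity)
  exact sum_nonneg fun f _ => Nat.cast_nonneg _

lemma EB_zero {y J F M m : ℕ} (hm : m ∈ Ioc M (2 * M)) (hF : 2 * M ≤ F) : EB y J F m = 0 := by
  unfold EB
  apply sum_eq_zero
  intro j _
  have h : m.divisors.filter (fun f => F < f) = ∅ := by
    rw [filter_eq_empty_iff]
    intro f hf
    rw [mem_Ioc] at hm
    have := Nat.divisor_le hf
    omega
  rw [h]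
  simp

lemma card_scales (y J : ℕ) : ((scales y J).card : ℝ) ≤ J := by
  have := card_filter_le (range J) (fun j => y < 2 ^ j)
  rw [card_range] at this
  exact_mod_cast this

lemma EF_mean (hMVF : S_MVF) : ∃ C : ℝ, 0 < C ∧ ∀ (M R F U y J : ℕ), 2 ≤ M → 1 ≤ R → 1 ≤ F → F ≤ 2 * M → 1 ≤ U → M ≤ y →
    ∑ m ∈ Ioc M (2 * M), EF y J R F m ≤
      C * J * (1 + J) ^ 8 * (1 / R + 1 / √U + F / √y + (U : ℝ) ^ 2 * (F : ℝ) ^ 2 / y) := by
  obtain ⟨C, hC, h⟩ := hMVF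
  refine ⟨C, hC, fun M R F U y J hM hR hF hFM hU hy => ?_⟩
  have hM2 : (2 : ℝ) ≤ M := by exact_mod_cast hM
  have hyr : (M : ℝ) ≤ y := by exact_mod_cast hy
  have hy0 : (0 : ℝ) < y := by linarith
  have hR0 : (0 : ℝ) < R := by exact_mod_cast hR
  have hU0 : (0 : ℝ) < U := by exact_mod_cast hU
  have hl2 := Real.log_two_lt_d9
  have hl2' : 0 < Real.log 2 := Real.log_pos (by norm_num)
  unfold EF
  rw [sum_comm]
  have h1 : ∀ j ∈ scales y J, ∑ m ∈ Ioc M (2 * M), (1 / (m.totient : ℝ)) *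
      (∑ f ∈ m.divisors.filter (fun f => R < f ∧ f ≤ F), ∑ ψ ∈ Prim f, ‖psiLog ((2 : ℝ) ^ j) f ψ‖) / 2 ^ j ≤
      C * (1 + J) ^ 8 * (1 / R + 1 / √U + F / √y + (U : ℝ) ^ 2 * (F : ℝ) ^ 2 / y) := by
    intro j hj
    rw [scales, mem_filter, mem_range] at hj
    have h2j : (0 : ℝ) < 2 ^ j := by positivity
    have hyj : (y : ℝ) ≤ 2 ^ j := by exact_mod_cast hj.2.le
    have hMj : (M : ℝ) ≤ 2 ^ j := by linarith
    have h2 := h M F R U ((2 : ℝ) ^ j) hM hF hFM hR hU hMj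
    rw [← sum_div, div_le_iff₀ h2j]
    refine h2.trans ?_
    have hlog : Real.log ((2 : ℝ) ^ j) ≤ J := by
      rw [Real.log_pow]
      have e1 : (j : ℝ) ≤ J := by exact_mod_cast hj.1.le
      have e2 : (0 : ℝ) ≤ J := Nat.cast_nonneg _
      nlinarith
    have hlog0 : 0 ≤ Real.log ((2 : ℝ) ^ j) := by rw [Real.log_pow]; positivity
    have hs : √((2 : ℝ) ^ j) * √((2 : ℝ) ^ j) = 2 ^ j := Real.mul_self_sqrt h2j.le
    have hsy : 0 < √(y : ℝ) := Real.sqrt_pos.2 hy0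
    have hs2 : 0 < √((2 : ℝ) ^ j) := Real.sqrt_pos.2 h2j
    have h3 : (F : ℝ) * √((2 : ℝ) ^ j) ≤ (F / √y) * 2 ^ j := by
      have e1 : √(y : ℝ) ≤ √((2 : ℝ) ^ j) := Real.sqrt_le_sqrt hyj
      calc (F : ℝ) * √((2 : ℝ) ^ j) = (F / √y) * (√y * √((2 : ℝ) ^ j)) := by field_simp
        _ ≤ (F / √y) * (√((2 : ℝ) ^ j) * √((2 : ℝ) ^ j)) := by gcongr
        _ = (F / √y) * 2 ^ j := by rw [hs]
    have h4 : (U : ℝ) ^ 2 * (F : ℝ) ^ 2 ≤ ((U : ℝ) ^ 2 * (F : ℝ) ^ 2 / y) * 2 ^ j := by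
      calc (U : ℝ) ^ 2 * (F : ℝ) ^ 2 = ((U : ℝ) ^ 2 * (F : ℝ) ^ 2 / y) * y := by field_simp
        _ ≤ _ := by gcongr
    calc C * (1 + Real.log ((2 : ℝ) ^ j)) ^ 8 * ((2 : ℝ) ^ j / R + (2 : ℝ) ^ j / √U + F * √((2 : ℝ) ^ j) +
          (U : ℝ) ^ 2 * (F : ℝ) ^ 2)
        ≤ C * (1 + J) ^ 8 * ((2 : ℝ) ^ j / R + (2 : ℝ) ^ j / √U + (F / √y) * 2 ^ j +
          ((U : ℝ) ^ 2 * (F : ℝ) ^ 2 / y) * 2 ^ j) := by gcongr
      _ = C * (1 + J) ^ 8 * (1 / R + 1 / √U + F / √y + (U : ℝ) ^ 2 * (F : ℝ) ^ 2 / y) * 2 ^ j := by ring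
  refine (sum_le_sum h1).trans ?_
  rw [sum_const, nsmul_eq_mul]
  have h2 := card_scales y J
  calc ((scales y J).card : ℝ) * (C * (1 + J) ^ 8 * (1 / R + 1 / √U + F / √y + (U : ℝ) ^ 2 * (F : ℝ) ^ 2 / y))
      ≤ J * (C * (1 + J) ^ 8 * (1 / R + 1 / √U + F / √y + (U : ℝ) ^ 2 * (F : ℝ) ^ 2 / y)) := by gcongr
    _ = _ := by ring

lemma EB_mean (hSQ : S_SQ) : ∃ C : ℝ, 0 < C ∧ ∀ (M F y J : ℕ), 2 ≤ M → 1 ≤ F → M ≤ y →
    ∑ m ∈ Ioc M (2 * M), EB y J F m ≤ C * J * (1 + J) ^ 6 * (1 / F + M / y) := by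
  obtain ⟨C, hC, h⟩ := hSQ
  refine ⟨C, hC, fun M F y J hM hF hy => ?_⟩
  have hM2 : (2 : ℝ) ≤ M := by exact_mod_cast hM
  have hyr : (M : ℝ) ≤ y := by exact_mod_cast hy
  have hy0 : (0 : ℝ) < y := by linarith
  have hF0 : (0 : ℝ) < F := by exact_mod_cast hF
  have hl2 := Real.log_two_lt_d9
  have hl2' : 0 < Real.log 2 := Real.log_pos (by norm_num)
  unfold EB
  rw [sum_comm]
  have h1 : ∀ j ∈ scales y J, ∑ m ∈ Ioc M (2 * M), (1 / (m.totient : ℝ)) *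
      (∑ f ∈ m.divisors.filter (fun f => F < f), ∑ ψ ∈ Prim f, ‖psiLog ((2 : ℝ) ^ j) f ψ‖ ^ 2) / (2 ^ j) ^ 2 ≤
      C * (1 + J) ^ 6 * (1 / F + M / y) := by
    intro j hj
    rw [scales, mem_filter, mem_range] at hj
    have h2j : (0 : ℝ) < 2 ^ j := by positivity
    have hyj : (y : ℝ) ≤ 2 ^ j := by exact_mod_cast hj.2.le
    have hMj : (M : ℝ) ≤ 2 ^ j := by linarith
    have h2 := h M F ((2 : ℝ) ^ j) hM hF hMj
    rw [← sum_div, div_le_iff₀ (by positivity)]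
    refine h2.trans ?_
    have hlog : Real.log ((2 : ℝ) ^ j) ≤ J := by
      rw [Real.log_pow]
      have e1 : (j : ℝ) ≤ J := by exact_mod_cast hj.1.le
      have e2 : (0 : ℝ) ≤ J := Nat.cast_nonneg _
      nlinarith
    have hlog0 : 0 ≤ Real.log ((2 : ℝ) ^ j) := by rw [Real.log_pow]; positivity
    have h4 : (M : ℝ) ≤ (M / y) * 2 ^ j := by
      calc (M : ℝ) = (M / y) * y := by field_simp
        _ ≤ _ := by gcongr
    calc C * (1 + Real.log ((2 : ℝ) ^ j)) ^ 6 * ((2 : ℝ) ^ j / F + M) * 2 ^ j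
        ≤ C * (1 + J) ^ 6 * ((2 : ℝ) ^ j / F + (M / y) * 2 ^ j) * 2 ^ j := by gcongr
      _ = C * (1 + J) ^ 6 * (1 / F + M / y) * (2 ^ j) ^ 2 := by ring
  refine (sum_le_sum h1).trans ?_
  rw [sum_const, nsmul_eq_mul]
  have h2 := card_scales y J
  calc ((scales y J).card : ℝ) * (C * (1 + J) ^ 6 * (1 / F + M / y))
      ≤ J * (C * (1 + J) ^ 6 * (1 / F + M / y)) := by gcongr
    _ = _ := by ring

lemma DF_mean {M F : ℕ} (hF : F ≤ 2 * M) :
    ∑ m ∈ Ioc M (2 * M), DF F m ≤ F * (1 + Real.log (2 * M)) ^ 2 := by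
  have h1 : ∀ m ∈ Ioc M (2 * M), DF F m = ∑ f ∈ Icc 1 F, if f ∣ m then (f.totient : ℝ) * (1 / (m.totient : ℝ)) else 0 := by
    intro m hm
    rw [mem_Ioc] at hm
    unfold DF
    rw [mul_sum, ← sum_filter]
    have e : m.divisors.filter (fun f => f ≤ F) = (Icc 1 F).filter (fun f => f ∣ m) := by
      ext f
      rw [mem_filter, mem_filter, Nat.mem_divisors, mem_Icc]
      constructor
      · rintro ⟨⟨a1, a2⟩, a3⟩
        exact ⟨⟨Nat.pos_of_dvd_of_pos a1 (by omega), a3⟩, a1⟩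
      · rintro ⟨⟨a1, a2⟩, a3⟩
        exact ⟨⟨a3, by omega⟩, a2⟩
    rw [e]
    exact sum_congr rfl fun f _ => mul_comm _ _
  rw [sum_congr rfl h1, sum_comm]
  have h2 : ∀ f ∈ Icc 1 F, ∑ m ∈ Ioc M (2 * M), (if f ∣ m then (f.totient : ℝ) * (1 / (m.totient : ℝ)) else 0) ≤
      (1 + Real.log (2 * M)) ^ 2 := by
    intro f hf
    rw [mem_Icc] at hf
    rw [← sum_filter, ← mul_sum]
    have hφ : (0 : ℝ) < f.totient := by exact_mod_cast Nat.totient_pos.2 hf.1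
    have h3 := Vr.sum_inv_mult M f hf.1 (hf.2.trans hF)
    calc (f.totient : ℝ) * ∑ m ∈ (Ioc M (2 * M)).filter (fun m => f ∣ m), 1 / (m.totient : ℝ)
        ≤ f.totient * (1 / (f.totient : ℝ) * (1 + Real.log (2 * M)) ^ 2) := by gcongr
      _ = (1 + Real.log (2 * M)) ^ 2 := by field_simp
  refine (sum_le_sum h2).trans ?_
  rw [sum_const, nsmul_eq_mul, Nat.card_Icc]
  simp

lemma TM_mean {M : ℕ} (hM : 1 ≤ M) :
    ∑ m ∈ Ioc M (2 * M), (m : ℝ) / (m.totient : ℝ) ≤ 2 * M * (1 + Real.log (2 * M)) ^ 2 := by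
  have h3 := Vr.sum_inv_mult M 1 le_rfl (by omega)
  have h4 : (Ioc M (2 * M)).filter (fun m => 1 ∣ m) = Ioc M (2 * M) := by
    rw [filter_eq_self]
    intro m _
    exact one_dvd m
  rw [h4, Nat.totient_one] at h3
  calc ∑ m ∈ Ioc M (2 * M), (m : ℝ) / (m.totient : ℝ) ≤ ∑ m ∈ Ioc M (2 * M), (2 * M) * (1 / (m.totient : ℝ)) := by
        apply sum_le_sum
        intro m hm
        rw [mem_Ioc] at hm
        have : (m : ℝ) ≤ 2 * M := by exact_mod_cast hm.2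
        rw [div_eq_mul_one_div]
        gcongr
    _ = (2 * M) * ∑ m ∈ Ioc M (2 * M), (1 / (m.totient : ℝ)) := by rw [mul_sum]
    _ ≤ (2 * M) * (1 / ((1 : ℕ) : ℝ) * (1 + Real.log (2 * M)) ^ 2) := by gcongr
    _ = _ := by push_cast; ring

/-- the deviation of the classes modulo one `m` -/
lemma dev (hS : S_SPLIT) {y J N m g R F : ℕ} (hN : ∀ j < J, 2 ^ j ≤ N) (hm : 1 ≤ m) (hg : g ∣ m)
    (hR : ∀ f, f ∣ m → ¬ f ∣ g → R < f) :
    ∃ A B : ℕ → ℝ,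
      (∀ c ∈ (range m).filter (fun c => c.Coprime m),
        SP (ap y J N m) N m c - (g.totient : ℝ) / m.totient * SP (ap y J N m) N g c = A c + B c) ∧
      (∀ c, |A c| ≤ EF y J R F m + DF F m * rest y J N m) ∧
      ∑ c ∈ (range m).filter (fun c => c.Coprime m), (B c) ^ 2 ≤
        2 * J * EB y J F m + 2 * ((m : ℝ) / m.totient) * (rest y J N m) ^ 2 := by
  obtain ⟨A, B, h1, h2, h3⟩ := hS N m g F (ap y J N m) hm hg (fun n hn => ap_coprime hn)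
  have hφ : (0 : ℝ) < m.totient := by exact_mod_cast Nat.totient_pos.2 hm
  have hr0 := rest_nonneg y J N m
  refine ⟨A, B, h1, fun c => (h2 c).trans ?_, h3.trans ?_⟩
  · -- small conductors
    have e1 : ∑ f ∈ m.divisors.filter (fun f => ¬ f ∣ g ∧ f ≤ F), ∑ χ ∈ Prim f,
        ‖∑ n ∈ Icc 1 N, (ap y J N m n : ℂ) * χ (n : ZMod f)‖ ≤
        ∑ f ∈ m.divisors.filter (fun f => R < f ∧ f ≤ F), ∑ χ ∈ Prim f,
          ((∑ j ∈ scales y J, ‖psiLog ((2 : ℝ) ^ j) f χ‖ / 2 ^ j) + rest y J N m) := by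
      refine le_trans (sum_le_sum_of_subset_of_nonneg (t := m.divisors.filter (fun f => R < f ∧ f ≤ F)) ?_ ?_) ?_
      · intro f hf
        rw [mem_filter] at hf ⊢
        exact ⟨hf.1, hR f (Nat.dvd_of_mem_divisors hf.1) hf.2.1, hf.2.2⟩
      · intro f _ _
        exact sum_nonneg fun χ _ => norm_nonneg _
      · exact sum_le_sum fun f _ => sum_le_sum fun χ _ => char_ap hN χ
    have e2 : ∑ f ∈ m.divisors.filter (fun f => R < f ∧ f ≤ F), ∑ χ ∈ Prim f,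
          ((∑ j ∈ scales y J, ‖psiLog ((2 : ℝ) ^ j) f χ‖ / 2 ^ j) + rest y J N m) =
        (∑ f ∈ m.divisors.filter (fun f => R < f ∧ f ≤ F), ∑ χ ∈ Prim f,
          ∑ j ∈ scales y J, ‖psiLog ((2 : ℝ) ^ j) f χ‖ / 2 ^ j) +
        ∑ f ∈ m.divisors.filter (fun f => R < f ∧ f ≤ F), ((Prim f).card : ℝ) * rest y J N m := by
      rw [← sum_add_distrib]
      apply sum_congr rfl
      intro f _
      rw [sum_add_distrib, sum_const, nsmul_eq_mul]
    have e3 : 1 / (m.totient : ℝ) * (∑ f ∈ m.divisors.filter (fun f => R < f ∧ f ≤ F), ∑ χ ∈ Prim f,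
          ∑ j ∈ scales y J, ‖psiLog ((2 : ℝ) ^ j) f χ‖ / 2 ^ j) = EF y J R F m := by
      unfold EF
      have a1 : ∑ f ∈ m.divisors.filter (fun f => R < f ∧ f ≤ F), ∑ χ ∈ Prim f,
          ∑ j ∈ scales y J, ‖psiLog ((2 : ℝ) ^ j) f χ‖ / 2 ^ j =
          ∑ j ∈ scales y J, (∑ f ∈ m.divisors.filter (fun f => R < f ∧ f ≤ F), ∑ χ ∈ Prim f,
            ‖psiLog ((2 : ℝ) ^ j) f χ‖) / 2 ^ j := by
        rw [sum_congr rfl fun f _ => sum_comm, sum_comm]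
        apply sum_congr rfl
        intro j _
        rw [sum_div]
        apply sum_congr rfl
        intro f _
        rw [sum_div]
      rw [a1, mul_sum]
      apply sum_congr rfl
      intro j _
      ring
    have e4 : 1 / (m.totient : ℝ) * (∑ f ∈ m.divisors.filter (fun f => R < f ∧ f ≤ F), ((Prim f).card : ℝ) * rest y J N m) ≤
        DF F m * rest y J N m := by
      rw [← sum_mul, ← mul_assoc]
      apply mul_le_mul_of_nonneg_right _ hr0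
      unfold DF
      apply mul_le_mul_of_nonneg_left _ (by positivity)
      calc ∑ f ∈ m.divisors.filter (fun f => R < f ∧ f ≤ F), ((Prim f).card : ℝ)
          ≤ ∑ f ∈ m.divisors.filter (fun f => R < f ∧ f ≤ F), (f.totient : ℝ) := by
            apply sum_le_sum
            intro f hf
            rw [mem_filter] at hf
            exact Pool.Agent.H398R2.BV.card_prim_le (Nat.pos_of_mem_divisors hf.1)
        _ ≤ _ := by
            apply sum_le_sum_of_subset_of_nonneg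
            · intro f hf
              rw [mem_filter] at hf ⊢
              exact ⟨hf.1, hf.2.2⟩
            · intro f _ _
              exact Nat.cast_nonneg _
    calc 1 / (m.totient : ℝ) * ∑ f ∈ m.divisors.filter (fun f => ¬ f ∣ g ∧ f ≤ F), ∑ χ ∈ Prim f,
          ‖∑ n ∈ Icc 1 N, (ap y J N m n : ℂ) * χ (n : ZMod f)‖
        ≤ 1 / (m.totient : ℝ) * ∑ f ∈ m.divisors.filter (fun f => R < f ∧ f ≤ F), ∑ χ ∈ Prim f,
          ((∑ j ∈ scales y J, ‖psiLog ((2 : ℝ) ^ j) f χ‖ / 2 ^ j) + rest y J N m) := by gcongr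
      _ = EF y J R F m + 1 / (m.totient : ℝ) * (∑ f ∈ m.divisors.filter (fun f => R < f ∧ f ≤ F),
          ((Prim f).card : ℝ) * rest y J N m) := by rw [e2, mul_add, e3]
      _ ≤ _ := by linarith
  · -- large conductors
    have e1 : ∀ f ∈ m.divisors.filter (fun f => F < f), ∀ χ ∈ Prim f,
        ‖∑ n ∈ Icc 1 N, (ap y J N m n : ℂ) * χ (n : ZMod f)‖ ^ 2 ≤
        2 * J * (∑ j ∈ scales y J, ‖psiLog ((2 : ℝ) ^ j) f χ‖ ^ 2 / (2 ^ j) ^ 2) + 2 * (rest y J N m) ^ 2 := by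
      intro f _ χ _
      have a1 := char_ap (m := m) (y := y) hN χ
      have a2 : 0 ≤ ∑ j ∈ scales y J, ‖psiLog ((2 : ℝ) ^ j) f χ‖ / 2 ^ j :=
        sum_nonneg fun j _ => by positivity
      have a3 : (∑ j ∈ scales y J, ‖psiLog ((2 : ℝ) ^ j) f χ‖ / 2 ^ j) ^ 2 ≤
          J * ∑ j ∈ scales y J, (‖psiLog ((2 : ℝ) ^ j) f χ‖ / 2 ^ j) ^ 2 := by
        refine (sq_sum_le_card_mul_sum_sq).trans ?_
        exact mul_le_mul_of_nonneg_right (card_scales y J) (sum_nonneg fun j _ => by positivity)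
      have a4 : ∑ j ∈ scales y J, (‖psiLog ((2 : ℝ) ^ j) f χ‖ / 2 ^ j) ^ 2 =
          ∑ j ∈ scales y J, ‖psiLog ((2 : ℝ) ^ j) f χ‖ ^ 2 / (2 ^ j) ^ 2 :=
        sum_congr rfl fun j _ => by rw [div_pow]
      rw [a4] at a3
      have a5 : ‖∑ n ∈ Icc 1 N, (ap y J N m n : ℂ) * χ (n : ZMod f)‖ ^ 2 ≤
          ((∑ j ∈ scales y J, ‖psiLog ((2 : ℝ) ^ j) f χ‖ / 2 ^ j) + rest y J N m) ^ 2 :=
        pow_le_pow_left₀ (norm_nonneg _) a1 2
      nlinarith [sq_nonneg ((∑ j ∈ scales y J, ‖psiLog ((2 : ℝ) ^ j) f χ‖ / 2 ^ j) - rest y J N m)]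
    have e2 : ∑ f ∈ m.divisors.filter (fun f => F < f), ∑ χ ∈ Prim f,
        ‖∑ n ∈ Icc 1 N, (ap y J N m n : ℂ) * χ (n : ZMod f)‖ ^ 2 ≤
        2 * J * (∑ f ∈ m.divisors.filter (fun f => F < f), ∑ χ ∈ Prim f,
          ∑ j ∈ scales y J, ‖psiLog ((2 : ℝ) ^ j) f χ‖ ^ 2 / (2 ^ j) ^ 2) +
        (m : ℝ) * (2 * (rest y J N m) ^ 2) := by
      refine (sum_le_sum fun f hf => sum_le_sum fun χ hχ => e1 f hf χ hχ).trans ?_
      have a1 : ∀ f ∈ m.divisors.filter (fun f => F < f), ∑ χ ∈ Prim f,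
          (2 * J * (∑ j ∈ scales y J, ‖psiLog ((2 : ℝ) ^ j) f χ‖ ^ 2 / (2 ^ j) ^ 2) + 2 * (rest y J N m) ^ 2) =
          2 * J * (∑ χ ∈ Prim f, ∑ j ∈ scales y J, ‖psiLog ((2 : ℝ) ^ j) f χ‖ ^ 2 / (2 ^ j) ^ 2) +
          ((Prim f).card : ℝ) * (2 * (rest y J N m) ^ 2) := by
        intro f _
        rw [sum_add_distrib, sum_const, nsmul_eq_mul, mul_sum]
      rw [sum_congr rfl a1, sum_add_distrib, ← mul_sum, ← sum_mul]
      gcongr
      calc ∑ f ∈ m.divisors.filter (fun f => F < f), ((Prim f).card : ℝ)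
          ≤ ∑ f ∈ m.divisors.filter (fun f => F < f), (f.totient : ℝ) := by
            apply sum_le_sum
            intro f hf
            rw [mem_filter] at hf
            exact Pool.Agent.H398R2.BV.card_prim_le (Nat.pos_of_mem_divisors hf.1)
        _ ≤ ∑ f ∈ m.divisors, (f.totient : ℝ) :=
            sum_le_sum_of_subset_of_nonneg (filter_subset _ _) fun f _ _ => Nat.cast_nonneg _
        _ = (m : ℝ) := by exact_mod_cast Nat.sum_totient m
    have e3 : 1 / (m.totient : ℝ) * (∑ f ∈ m.divisors.filter (fun f => F < f), ∑ χ ∈ Prim f,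
          ∑ j ∈ scales y J, ‖psiLog ((2 : ℝ) ^ j) f χ‖ ^ 2 / (2 ^ j) ^ 2) = EB y J F m := by
      unfold EB
      have a1 : ∑ f ∈ m.divisors.filter (fun f => F < f), ∑ χ ∈ Prim f,
          ∑ j ∈ scales y J, ‖psiLog ((2 : ℝ) ^ j) f χ‖ ^ 2 / (2 ^ j) ^ 2 =
          ∑ j ∈ scales y J, (∑ f ∈ m.divisors.filter (fun f => F < f), ∑ χ ∈ Prim f,
            ‖psiLog ((2 : ℝ) ^ j) f χ‖ ^ 2) / (2 ^ j) ^ 2 := by
        rw [sum_congr rfl fun f _ => sum_comm, sum_comm]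
        apply sum_congr rfl
        intro j _
        rw [sum_div]
        apply sum_congr rfl
        intro f _
        rw [sum_div]
      rw [a1, mul_sum]
      apply sum_congr rfl
      intro j _
      ring
    calc 1 / (m.totient : ℝ) * ∑ f ∈ m.divisors.filter (fun f => F < f), ∑ χ ∈ Prim f,
          ‖∑ n ∈ Icc 1 N, (ap y J N m n : ℂ) * χ (n : ZMod f)‖ ^ 2
        ≤ 1 / (m.totient : ℝ) * (2 * J * (∑ f ∈ m.divisors.filter (fun f => F < f), ∑ χ ∈ Prim f,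
          ∑ j ∈ scales y J, ‖psiLog ((2 : ℝ) ^ j) f χ‖ ^ 2 / (2 ^ j) ^ 2) +
          (m : ℝ) * (2 * (rest y J N m) ^ 2)) := by gcongr
      _ = 2 * J * (1 / (m.totient : ℝ) * (∑ f ∈ m.divisors.filter (fun f => F < f), ∑ χ ∈ Prim f,
          ∑ j ∈ scales y J, ‖psiLog ((2 : ℝ) ^ j) f χ‖ ^ 2 / (2 ^ j) ^ 2)) +
          2 * ((m : ℝ) / m.totient) * (rest y J N m) ^ 2 := by ring
      _ = _ := by rw [e3]

end Pool.Agent.K9h19.LW
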