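import Pool.Agent.K9h19.LW.Lin2

/-! Primes in every class and every window, with one exceptional modulus for all windows between `M` and `M^4`. -/

set_option autoImplicit false

open Finset

namespace Pool.Agent.K9h19.LW

open Pool.Agent.Y851.HZ (LR zR muR ER DD LR_nonneg LR_le DD_apply)
open ArithmeticFunction (vonMangoldt)

/-- the Linnik type lower bound in all windows, uniform in the window -/
def S_LWU : Prop := ∀ e : ℝ, 0 < e → e < 1 → ∃ (L : ℕ) (c₃ : ℝ), 1 ≤ L ∧ 0 < c₃ ∧ ∀ B : ℕ, ∃ M₀ : ℕ, ∀ M : ℕ, M₀ ≤ M →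
  ∃ q₁ : ℕ, (Real.log M) ^ B < (q₁ : ℝ) ∧ ∀ x : ℕ, M ≤ x → x ≤ M ^ 4 → ∀ q b y : ℕ, 0 < q → q ^ L ≤ M →
    ¬ q₁ ∣ q → b.Coprime q → Real.log y ≤ (1 - e) * Real.log x →
    c₃ * Real.log x / q.totient ≤
      ∑ p ∈ (Ioc y x).filter (fun p => p.Prime ∧ p ≡ b [MOD q]), Real.log p / p

/-- choice of the parameters -/
lemma alg_par2 {c e C U T t l K n1 n2 N : ℝ} (hc : 0 < c) (he : 0 < e) (hC : 0 < C) (hU : 1 ≤ U)
    (hn2 : 0 < n2) (hn1 : 0 < n1) (hN : 0 < N) (hT0 : 0 ≤ T) (hTU : n2 * T ≤ U) (hTL : U ≤ 2 * N * T) (htU : n1 * t ≤ U)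
    (hl : e * U / 2 ≤ l) (h2 : 4 * C * K ^ 2 ≤ c * e * n2) (h1 : 8 * C * N ≤ c * e * n1) :
    c * e / (4 * N) * U ^ 2 ≤ 2 * c * T * l - C * (t * U + (K * T) ^ 2) := by
  have hU0 : 0 < U := by linarith
  have e1 : C * t ≤ c * e / 4 * T := by
    have a1 : n1 * (C * t) ≤ n1 * (c * e / 4 * T) := by
      calc n1 * (C * t) = C * (n1 * t) := by ring
        _ ≤ C * U := by gcongr
        _ ≤ C * (2 * N * T) := by gcongr
        _ = (8 * C * N) * (T / 4) := by ring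
        _ ≤ (c * e * n1) * (T / 4) := by gcongr
        _ = n1 * (c * e / 4 * T) := by ring
    exact le_of_mul_le_mul_left a1 hn1
  have e2 : C * (K * T) ^ 2 ≤ c * e / 4 * T * U := by
    have a1 : n2 * (C * (K * T) ^ 2) ≤ n2 * (c * e / 4 * T * U) := by
      calc n2 * (C * (K * T) ^ 2) = (4 * C * K ^ 2) * (T / 4) * (n2 * T) := by ring
        _ ≤ (c * e * n2) * (T / 4) * U := by gcongr
        _ = n2 * (c * e / 4 * T * U) := by ring
    exact le_of_mul_le_mul_left a1 hn2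
  have e3 : c * e * T * U ≤ 2 * c * T * l := by
    calc c * e * T * U = 2 * c * T * (e * U / 2) := by ring
      _ ≤ 2 * c * T * l := by gcongr
  have e4 : c * e / (4 * N) * U ^ 2 ≤ c * e / 2 * T * U := by
    calc c * e / (4 * N) * U ^ 2 = c * e / (4 * N) * U * U := by ring
      _ ≤ c * e / (4 * N) * (2 * N * T) * U := by gcongr
      _ = c * e / 2 * T * U := by field_simp; ring
  have e5 : C * t * U ≤ c * e / 4 * T * U := mul_le_mul_of_nonneg_right e1 hU0.le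
  nlinarith

theorem lwu (hCORE : S_CORE) : S_LWU := by
  intro e0 he0 he01
  obtain ⟨C, hC, w₀, hcore⟩ := hCORE
  obtain ⟨K, c0, hK, hc0, hpage⟩ := Pool.Agent.Y353.PS.page
  obtain ⟨c, hc⟩ : ∃ c : ℝ, c = min c0 1 := ⟨_, rfl⟩
  have hcpos : 0 < c := by rw [hc]; exact lt_min hc0 one_pos
  have hc1 : c ≤ 1 := by rw [hc]; exact min_le_right _ _
  have hcc0 : c ≤ c0 := by rw [hc]; exact min_le_left _ _
  obtain ⟨e, he⟩ : ∃ e : ℝ, e = min e0 (1 / 4) := ⟨_, rfl⟩
  have hepos : 0 < e := by rw [he]; exact lt_min he0 (by norm_num)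
  have he4 : e ≤ 1 / 4 := by rw [he]; exact min_le_right _ _
  have hee0 : e ≤ e0 := by rw [he]; exact min_le_left _ _
  obtain ⟨n2, hn2⟩ : ∃ n2 : ℕ, n2 = max (4 * K) ⌈4 * C * K ^ 2 / (c * e)⌉₊ := ⟨_, rfl⟩
  obtain ⟨n1, hn1⟩ : ∃ n1 : ℕ, n1 = max n2 ⌈8 * C * (4 * n2) / (c * e)⌉₊ := ⟨_, rfl⟩
  have hn2K : 4 * K ≤ n2 := by rw [hn2]; exact le_max_left _ _
  have hn12 : n2 ≤ n1 := by rw [hn1]; exact le_max_left _ _
  have hn2a : 4 * C * (K : ℝ) ^ 2 ≤ c * e * n2 := by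
    have h1 : 4 * C * (K : ℝ) ^ 2 / (c * e) ≤ n2 := by
      refine (Nat.le_ceil _).trans ?_
      rw [hn2]
      exact_mod_cast le_max_right _ _
    rw [div_le_iff₀ (by positivity)] at h1
    linarith
  have hn1a : 8 * C * (4 * (n2 : ℝ)) ≤ c * e * n1 := by
    have h1 : 8 * C * (4 * (n2 : ℝ)) / (c * e) ≤ n1 := by
      refine (Nat.le_ceil _).trans ?_
      rw [hn1]
      exact_mod_cast le_max_right _ _
    rw [div_le_iff₀ (by positivity)] at h1
    linarith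
  have hn2pos : 1 ≤ n2 := by omega
  have hn1pos : 1 ≤ n1 := by omega
  have hn2r : (1 : ℝ) ≤ n2 := by exact_mod_cast hn2pos
  have hn1r : (1 : ℝ) ≤ n1 := by exact_mod_cast hn1pos
  obtain ⟨c3, hc3⟩ : ∃ c3 : ℝ, c3 = c * e / (8 * (4 * n2)) := ⟨_, rfl⟩
  have hc3pos : 0 < c3 := by rw [hc3]; positivity
  refine ⟨16 * n1, c3, by omega, hc3pos, ?_⟩
  intro B
  obtain ⟨z0, hz0⟩ := hpage (B + 1)
  -- threshold
  obtain ⟨U0, hU0⟩ : ∃ U0 : ℝ, U0 = n1 * (Real.log w₀ + 2) + n2 * (Real.log z0 + 2) + (2 * n2) ^ (B + 1) +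
      (800 * (16 / c3) + 1) + 2 / e + 1 := ⟨_, rfl⟩
  obtain ⟨x₀, hx₀⟩ : ∃ x₀ : ℕ, x₀ = ⌈Real.exp U0⌉₊ := ⟨_, rfl⟩
  refine ⟨x₀, fun M hM => ?_⟩
  have hexp : Real.exp U0 ≤ M := by
    refine (Nat.le_ceil _).trans ?_
    rw [← hx₀]
    exact_mod_cast hM
  have hM0 : (0 : ℝ) < M := (Real.exp_pos _).trans_le hexp
  have hM1 : 1 ≤ M := by exact_mod_cast hM0
  obtain ⟨V, hV⟩ : ∃ V : ℝ, V = Real.log M := ⟨_, rfl⟩
  have hUU : U0 ≤ V := by
    rw [hV]
    exact (Real.le_log_iff_exp_le hM0).2 hexp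
  have hlw0 := Real.log_natCast_nonneg w₀
  have hlz0 := Real.log_natCast_nonneg z0
  have p1 : 0 ≤ n1 * (Real.log w₀ + 2) := by positivity
  have p2 : 0 ≤ n2 * (Real.log z0 + 2) := by positivity
  have p3 : (0 : ℝ) ≤ (2 * n2) ^ (B + 1) := by positivity
  have p4 : 0 ≤ 800 * (16 / c3) + 1 := by positivity
  have p5 : 0 ≤ 2 / e := by positivity
  have hV1 : 1 ≤ V := by linarith
  have hVe : 2 / e ≤ V := by linarith
  have hVg : 800 * (16 / c3) + 1 ≤ V := by linarith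
  have hUB : (2 * (n2 : ℝ)) ^ (B + 1) ≤ V := by linarith
  have hUw : n1 * (Real.log w₀ + 2) ≤ V := by linarith
  have hUz : n2 * (Real.log z0 + 2) ≤ V := by linarith
  clear hU0 hUU hexp p1 p2 p3 p4 p5
  -- the levels
  obtain ⟨z, hz⟩ : ∃ z : ℕ, z = rt n2 M := ⟨_, rfl⟩
  obtain ⟨w, hw⟩ : ∃ w : ℕ, w = rt n1 M := ⟨_, rfl⟩
  have hz1 : 1 ≤ z := by rw [hz]; exact (le_rt hn2pos).2 (by simpa using hM1)
  have hw1 : 1 ≤ w := by rw [hw]; exact (le_rt hn1pos).2 (by simpa using hM1)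
  have hwpow : w ^ n1 ≤ M := by rw [hw]; exact (le_rt hn1pos).1 le_rfl
  have hzpow : z ^ n2 ≤ M := by rw [hz]; exact (le_rt hn2pos).1 le_rfl
  have hwz : w ≤ z := by
    rw [hz]
    exact (le_rt hn2pos).2 ((Nat.pow_le_pow_right hw1 hn12).trans hwpow)
  have hTU : n2 * Real.log z ≤ V := by rw [hz, hV]; exact log_rt_le hn2pos hM1
  have htU : n1 * Real.log w ≤ V := by rw [hw, hV]; exact log_rt_le hn1pos hM1
  have hTL1 : V ≤ n2 * (Real.log z + 1) := by rw [hz, hV]; exact log_rt_ge hn2pos hM1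
  have htL1 : V ≤ n1 * (Real.log w + 1) := by rw [hw, hV]; exact log_rt_ge hn1pos hM1
  have hT1 : Real.log z0 + 1 ≤ Real.log z := by
    have : Real.log z0 + 2 ≤ Real.log z + 1 := le_of_mul_le_mul_left (hUz.trans hTL1) (by linarith)
    linarith
  have ht1 : Real.log w₀ + 1 ≤ Real.log w := by
    have : Real.log w₀ + 2 ≤ Real.log w + 1 := le_of_mul_le_mul_left (hUw.trans htL1) (by linarith)
    linarith
  have hzz0 : z0 ≤ z := by
    rcases Nat.eq_zero_or_pos z0 with h | h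
    · omega
    · have h1 : Real.log z0 ≤ Real.log z := by linarith
      have h2 := (Real.log_le_log_iff (by exact_mod_cast h) (by exact_mod_cast hz1)).1 h1
      exact_mod_cast h2
  have hww0 : w₀ ≤ w := by
    rcases Nat.eq_zero_or_pos w₀ with h | h
    · omega
    · have h1 : Real.log w₀ ≤ Real.log w := by linarith
      have h2 := (Real.log_le_log_iff (by exact_mod_cast h) (by exact_mod_cast hw1)).1 h1
      exact_mod_cast h2
  have hTL : V ≤ 2 * n2 * Real.log z := by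
    have a1 : Real.log z + 1 ≤ 2 * Real.log z := by linarith only [hT1, hlz0]
    have a2 : (0 : ℝ) ≤ n2 := zero_le_one.trans hn2r
    have a3 := mul_le_mul_of_nonneg_left a1 a2
    linarith only [a3, hTL1]
  obtain ⟨q₁, hq₁, hpq⟩ := hz0 z hzz0
  refine ⟨q₁, ?_, ?_⟩
  · -- the size of the exceptional modulus
    refine lt_of_le_of_lt ?_ hq₁
    rw [← hV]
    have h1 : V / (2 * n2) ≤ Real.log z := by
      rw [div_le_iff₀ (by positivity)]
      linarith
    calc V ^ B = V ^ B * (2 * (n2 : ℝ)) ^ (B + 1) / (2 * n2) ^ (B + 1) := by field_simp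
      _ ≤ V ^ B * V / (2 * n2) ^ (B + 1) := by gcongr
      _ = (V / (2 * n2)) ^ (B + 1) := by rw [div_pow]; ring
      _ ≤ (Real.log z) ^ (B + 1) := by gcongr
  intro x hMx hxM q b y hq hqM hq1 hb hy
  have hx1 : 1 ≤ x := hM1.trans hMx
  have hx0 : (0 : ℝ) < x := by exact_mod_cast hx1
  have hqL : q ^ (16 * n1) ≤ x := hqM.trans hMx
  obtain ⟨U, hU⟩ : ∃ U : ℝ, U = Real.log x := ⟨_, rfl⟩
  have hVU : V ≤ U := by
    rw [hV, hU]
    exact Real.log_le_log hM0 (by exact_mod_cast hMx)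
  have hUV : U ≤ 4 * V := by
    have h1 : (x : ℝ) ≤ (M : ℝ) ^ 4 := by exact_mod_cast hxM
    have h2 := Real.log_le_log hx0 h1
    rw [Real.log_pow, ← hU, ← hV] at h2
    exact_mod_cast h2
  have hU1 : 1 ≤ U := hV1.trans hVU
  have hUe : 2 / e ≤ U := hVe.trans hVU
  have hUg : 800 * (16 / c3) + 1 ≤ U := hVg.trans hVU
  -- the window
  obtain ⟨Y, hY⟩ : ∃ Y : ℕ, Y = ⌊(x : ℝ) ^ (1 - e)⌋₊ + 1 := ⟨_, rfl⟩
  have hx1r : (1 : ℝ) ≤ x := by exact_mod_cast hx1
  have hpw : 1 ≤ (x : ℝ) ^ (1 - e) := Real.one_le_rpow hx1r (by linarith)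
  have hYlow : (x : ℝ) ^ (1 - e) ≤ Y := by rw [hY]; push_cast; exact (Nat.lt_floor_add_one _).le
  have hYup : (Y : ℝ) ≤ 2 * (x : ℝ) ^ (1 - e) := by
    rw [hY]; push_cast
    have := Nat.floor_le (show (0 : ℝ) ≤ (x : ℝ) ^ (1 - e) by linarith)
    linarith
  have hY1 : 1 ≤ Y := by omega
  have hY0 : (0 : ℝ) < Y := by exact_mod_cast hY1
  have hlogp : Real.log ((x : ℝ) ^ (1 - e)) = (1 - e) * U := by rw [Real.log_rpow hx0, hU]
  have hlY1 : (1 - e) * U ≤ Real.log Y := by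
    rw [← hlogp]
    exact Real.log_le_log (by linarith) hYlow
  have hlY2 : Real.log Y ≤ 1 + (1 - e) * U := by
    have h1 := Real.log_le_log hY0 hYup
    rw [Real.log_mul (by norm_num) (by linarith), hlogp] at h1
    have := Real.log_two_lt_d9
    linarith
  have heU : 2 ≤ e * U := by
    rw [div_le_iff₀ hepos] at hUe
    linarith
  have hYX : Y ≤ x := by
    have h1 : Real.log Y ≤ Real.log x := by rw [← hU]; linarith
    have h2 := (Real.log_le_log_iff hY0 hx0).1 h1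
    exact_mod_cast h2
  have hyY : y ≤ Y := by
    rcases Nat.eq_zero_or_pos y with h | h
    · omega
    · have h1 : Real.log y ≤ Real.log Y := by
        refine hy.trans (le_trans ?_ hlY1)
        rw [← hU]
        exact mul_le_mul_of_nonneg_right (sub_le_sub_left hee0 1) (zero_le_one.trans hU1)
      have h2 := (Real.log_le_log_iff (by exact_mod_cast h) hY0).1 h1
      exact_mod_cast h2
  have he4U : e * U ≤ 1 / 4 * U := mul_le_mul_of_nonneg_right he4 (zero_le_one.trans hU1)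
  -- `CORE`
  have hq8 : q ^ 8 ≤ w := by
    rw [hw]
    apply (le_rt hn1pos).2
    rw [← pow_mul]
    exact (Nat.pow_le_pow_right hq (by omega)).trans hqM
  have hq16 : q ^ 16 ≤ z := by
    rw [hz]
    apply (le_rt hn2pos).2
    rw [← pow_mul]
    exact (Nat.pow_le_pow_right hq (by omega)).trans hqM
  have hφ0 : (0 : ℝ) < q.totient := by exact_mod_cast Nat.totient_pos.2 hq
  have hco := hcore w z K q b Y x c hww0 hq hq8 hb hwz hK
    (((Nat.pow_le_pow_right hz1 hn2K).trans hzpow).trans hMx) hY1 hYX (by rw [← hU]; linarith only [hlY1, he4U]) hcpos hc1 (by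
      intro g hg
      refine le_trans ?_ (hpq q g hq hq16 hq1 hg)
      gcongr)
  rw [← hU] at hco
  have hTL' : U ≤ 2 * (4 * (n2 : ℝ)) * Real.log z := by linarith
  have hpar := alg_par2 (K := (K : ℝ)) (l := U - Real.log Y) (t := Real.log w) hcpos hepos hC hU1
    (show (0 : ℝ) < n2 by linarith) (show (0 : ℝ) < n1 by linarith) (show (0 : ℝ) < 4 * (n2 : ℝ) by linarith)
    (show 0 ≤ Real.log z by linarith) (hTU.trans hVU) hTL' (htU.trans hVU) (by linarith) hn2a hn1a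
  have hDD := CS_DD_le (w := w) (q := q) (b := b) (Y := Y) (X := x) hx1
  rw [← hU] at hDD
  -- prime powers
  have hpp := pp_sum hY1 hYX
  rw [← hU] at hpp
  obtain ⟨P, hP⟩ : ∃ P : ℝ, P = ∑ p ∈ (Ioc Y x).filter (fun p => p.Prime ∧ p ≡ b [MOD q]), Real.log p / p := ⟨_, rfl⟩
  obtain ⟨PP, hPP⟩ : ∃ PP : ℝ, PP = ∑ n ∈ (Ioc Y x).filter (fun n => ¬ n.Prime), vonMangoldt n / (n : ℝ) := ⟨_, rfl⟩
  rw [← hP, ← hPP] at hDD
  rw [← hPP] at hpp
  have hmono : P ≤ ∑ p ∈ (Ioc y x).filter (fun p => p.Prime ∧ p ≡ b [MOD q]), Real.log p / p := by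
    rw [hP]
    apply sum_le_sum_of_subset_of_nonneg
    · intro p hp
      rw [mem_filter, mem_Ioc] at hp ⊢
      exact ⟨⟨by omega, hp.1.2⟩, hp.2⟩
    · intro p _ _
      exact div_nonneg (Real.log_natCast_nonneg p) (Nat.cast_nonneg p)
  refine le_trans ?_ hmono
  -- the size of `q`
  have hqU : 16 * Real.log q ≤ U := by
    have h1 : ((q ^ 16 : ℕ) : ℝ) ≤ x := by
      exact_mod_cast (Nat.pow_le_pow_right hq (by omega)).trans hqL
    have h2 := Real.log_le_log (by push_cast; positivity) h1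
    push_cast at h2
    rw [Real.log_pow, ← hU] at h2
    exact_mod_cast h2
  have hqexp : (q.totient : ℝ) ≤ Real.exp (U / 16) := by
    have h1 : (q.totient : ℝ) ≤ q := by exact_mod_cast Nat.totient_le q
    have h2 : (q : ℝ) = Real.exp (Real.log q) := (Real.exp_log (by exact_mod_cast hq)).symm
    rw [h2] at h1
    refine h1.trans (Real.exp_le_exp.2 (by linarith))
  have hYexp : Real.exp (3 * U / 8) ≤ Real.sqrt Y := by
    apply Real.le_sqrt_of_sq_le
    rw [← Real.exp_nat_mul]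
    have h2 : (Y : ℝ) = Real.exp (Real.log Y) := (Real.exp_log hY0).symm
    rw [h2]
    apply Real.exp_le_exp.2
    push_cast
    linarith only [hlY1, he4U]
  have hg := growth (K1 := 16 / c3) (u := U) (by positivity) hUg
  have hppsmall : PP * q.totient ≤ c3 * U := by
    have h1 : PP * q.totient ≤ 16 * (1 + U) ^ 2 / Real.exp (3 * U / 8) * Real.exp (U / 16) := by
      have h2 : 16 * (1 + U) ^ 2 / Real.sqrt Y ≤ 16 * (1 + U) ^ 2 / Real.exp (3 * U / 8) := by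
        gcongr
      exact mul_le_mul (hpp.trans h2) hqexp hφ0.le (by positivity)
    have h3 : 16 * (1 + U) ^ 2 / Real.exp (3 * U / 8) * Real.exp (U / 16) =
        16 * (1 + U) ^ 2 / Real.exp (5 * U / 16) := by
      rw [div_mul_eq_mul_div, div_eq_div_iff (Real.exp_pos _).ne' (Real.exp_pos _).ne', mul_assoc, ← Real.exp_add]
      congr 2
      ring
    rw [h3] at h1
    refine h1.trans ?_
    rw [div_le_iff₀ (Real.exp_pos _)]
    have h4 : 16 * (1 + U) ^ 2 = c3 * (16 / c3 * (1 + U) ^ 2) := by field_simp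
    rw [h4]
    calc c3 * (16 / c3 * (1 + U) ^ 2) ≤ c3 * (U * Real.exp (5 * U / 16)) := by gcongr
      _ = c3 * U * Real.exp (5 * U / 16) := by ring
  -- conclusion
  have hU0' : 0 < U := by linarith
  have hfin : 2 * c3 * U ^ 2 ≤ q.totient * (U * (P + PP)) := by
    have h1 : 2 * c3 * U ^ 2 = c * e / (4 * (4 * n2)) * U ^ 2 := by rw [hc3]; field_simp; ring
    rw [h1]
    refine hpar.trans (hco.trans ?_)
    exact mul_le_mul_of_nonneg_left hDD hφ0.le
  have hfin2 : 2 * c3 * U ≤ q.totient * (P + PP) := by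
    have h1 : U * (2 * c3 * U) ≤ U * (q.totient * (P + PP)) := by linarith only [hfin]
    exact le_of_mul_le_mul_left h1 hU0'
  rw [← hU, div_le_iff₀ hφ0]
  linarith only [hfin2, hppsmall]

end Pool.Agent.K9h19.LW
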