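import Pool.Agent.K9h19.LW.LD2
import Pool.Agent.K9h19.LW.Lin3

/-! The window `(M^(1+θ+ε/2), M^(1+θ+ε)]` and the error terms of one modulus. -/

set_option autoImplicit false

open Finset

namespace Pool.Agent.K9h19.LW

open Pool.Agent.H410R2 (psiLog psiLogAP)
open Pool.Agent.H398R2.BV (Prim)
open ArithmeticFunction (vonMangoldt)

/-- the primes `p ≡ c` modulo `m` with `m^(1+θ+ε/3) < p < m^(1+θ+ε)` have `∑ log p/p ≥ κ log m/φ(m)` -/
def Many3 (θ ε κ : ℝ) (m c : ℕ) : Prop :=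
  κ * Real.log m / m.totient ≤
    ∑ p ∈ (Icc 1 ⌊(m : ℝ) ^ (1 + θ + ε)⌋₊).filter (fun p => p.Prime ∧ p ≡ c [MOD m] ∧
      (m : ℝ) ^ (1 + θ + ε / 3) < p ∧ (p : ℝ) < (m : ℝ) ^ (1 + θ + ε)), Real.log p / p

open Classical in
/-- the number of classes prime to `m` for which this fails -/
noncomputable def bad3 (θ ε κ : ℝ) (m : ℕ) : ℕ :=
  ((range m).filter (fun c => c.Coprime m ∧ ¬ Many3 θ ε κ m c)).card

lemma grow5 {K ε l : ℝ} (hK : 0 < K) (hε : 0 < ε) (hl : 31104 * K / ε ^ 4 + 1 ≤ l) :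
    K * l ^ 2 ≤ Real.exp (l * (ε / 6)) := by
  have h0 : 0 < 31104 * K / ε ^ 4 := by positivity
  have hl0 : 0 < l := by linarith
  have h2 : (1 : ℝ) ≤ l := by linarith
  have h3 : (l * (ε / 6)) ^ 4 / 24 ≤ Real.exp (l * (ε / 6)) := by
    have := Real.pow_div_factorial_le_exp (l * (ε / 6)) (by positivity) 4
    simpa [Nat.factorial] using this
  have h4 : K * l ^ 3 ≤ (l * (ε / 6)) ^ 4 / 24 := by
    have h5 : (l * (ε / 6)) ^ 4 / 24 = l ^ 3 * (l * ε ^ 4 / 31104) := by ring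
    rw [h5, mul_comm]
    apply mul_le_mul_of_nonneg_left _ (by positivity)
    rw [le_div_iff₀ (by norm_num)]
    have h6 : 31104 * K / ε ^ 4 ≤ l := by linarith
    rw [div_le_iff₀ (by positivity)] at h6
    linarith
  refine le_trans ?_ (h4.trans h3)
  have : l ^ 2 ≤ l ^ 3 := pow_le_pow_right₀ h2 (by norm_num)
  gcongr

/-- elementary facts about the window -/
lemma window3 {θ ε : ℝ} {M : ℕ} (hθ : 0 ≤ θ) (hθ2 : θ ≤ 2) (hε : 0 < ε) (hε1 : ε ≤ 1) (hM : 2 ≤ M)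
    (hl : 64 / ε ≤ Real.log M) :
    ∃ x y y₁ J : ℕ, M ≤ x ∧ x ≤ M ^ 4 ∧ (4 * (x : ℝ)) ≤ (M : ℝ) ^ (1 + θ + ε) ∧
      Real.log ((4 * x : ℕ) : ℝ) ≤ 4 * Real.log M ∧ 2 * M ≤ y ∧ y ≤ 4 * x ∧ (M : ℝ) ^ (1 + θ + ε / 2) ≤ y ∧
      Real.log y ≤ (1 - ε / 16) * Real.log x ∧ y₁ ≤ 4 * x ∧ 1 ≤ y₁ ∧ (2 * (M : ℝ)) ^ (1 + θ + ε / 3) < y₁ + 1 ∧
      (y₁ : ℝ) ≤ 16 * (M : ℝ) ^ (1 + θ + ε / 3) ∧
      (J : ℝ) ≤ 8 * Real.log M ∧ 4 * x ≤ 2 ^ J ∧ ∀ j < J, 2 ^ j ≤ 4 * x := by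
  have hM2 : (2 : ℝ) ≤ M := by exact_mod_cast hM
  have hM0 : (0 : ℝ) < M := by linarith
  have hM1 : (1 : ℝ) ≤ M := by linarith
  have hL : 64 ≤ ε * Real.log M := by
    rw [div_le_iff₀ hε] at hl
    linarith
  have hL32 : 64 ≤ Real.log M := by
    refine le_trans ?_ hl
    rw [le_div_iff₀ hε]
    linarith
  have hlog2 := Real.log_two_lt_d9
  have hlog2' := Real.log_two_gt_d9
  have hlog4 : Real.log 4 ≤ 2 := by
    have : (4 : ℝ) = 2 ^ 2 := by norm_num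
    rw [this, Real.log_pow]
    push_cast
    linarith
  have hlog4' : 0 ≤ Real.log 4 := Real.log_nonneg (by norm_num)
  have hlog8 : Real.log 8 ≤ 3 := by
    have : (8 : ℝ) = 2 ^ 3 := by norm_num
    rw [this, Real.log_pow]
    push_cast
    linarith
  obtain ⟨l, hl'⟩ : ∃ l : ℝ, l = Real.log M := ⟨_, rfl⟩
  rw [← hl'] at hl hL hL32 ⊢
  have hθl : θ * l ≤ 2 * l := mul_le_mul_of_nonneg_right hθ2 (by linarith)
  have hθl0 : 0 ≤ θ * l := mul_nonneg hθ (by linarith)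
  have hεl : ε * l ≤ l := by nlinarith
  have hMexp : ∀ t : ℝ, (M : ℝ) ^ t = Real.exp (l * t) := fun t => by rw [hl']; exact Real.rpow_def_of_pos hM0 t
  obtain ⟨x, hx⟩ : ∃ x : ℕ, x = ⌊(M : ℝ) ^ (1 + θ + ε) / 4⌋₊ := ⟨_, rfl⟩
  obtain ⟨y, hy⟩ : ∃ y : ℕ, y = ⌊(M : ℝ) ^ (1 + θ + ε / 2)⌋₊ + 1 := ⟨_, rfl⟩
  obtain ⟨y₁, hy₁⟩ : ∃ y₁ : ℕ, y₁ = ⌊(2 * (M : ℝ)) ^ (1 + θ + ε / 3)⌋₊ := ⟨_, rfl⟩
  obtain ⟨J, hJ⟩ : ∃ J : ℕ, J = Nat.log 2 x + 3 := ⟨_, rfl⟩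
  -- `x`
  have a1 : (M : ℝ) ≤ (M : ℝ) ^ (1 + θ + ε) / 4 := by
    rw [le_div_iff₀ (by norm_num)]
    have h1 : Real.log (M * 4) ≤ l * (1 + θ + ε) := by
      rw [Real.log_mul hM0.ne' (by norm_num), ← hl']
      linarith only [hlog4, hL, hθl0]
    calc (M : ℝ) * 4 = Real.exp (Real.log (M * 4)) := (Real.exp_log (by positivity)).symm
      _ ≤ Real.exp (l * (1 + θ + ε)) := Real.exp_le_exp.2 h1
      _ = (M : ℝ) ^ (1 + θ + ε) := (hMexp _).symm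
  have a2 : M ≤ x := by rw [hx]; exact Nat.le_floor a1
  have a3 : (x : ℝ) ≤ (M : ℝ) ^ (1 + θ + ε) / 4 := by rw [hx]; exact Nat.floor_le (by positivity)
  have a4 : (4 * (x : ℝ)) ≤ (M : ℝ) ^ (1 + θ + ε) := by linarith
  have hx0 : (0 : ℝ) < x := by exact_mod_cast (show 0 < x by omega)
  have a8 : x ≤ M ^ 4 := by
    have h1 : (x : ℝ) ≤ (M : ℝ) ^ (4 : ℝ) := by
      have h2 : (M : ℝ) ^ (1 + θ + ε) ≤ (M : ℝ) ^ (4 : ℝ) := Real.rpow_le_rpow_of_exponent_le hM1 (by linarith)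
      have h3 : (0 : ℝ) ≤ (M : ℝ) ^ (1 + θ + ε) := by positivity
      linarith
    have h2 : (M : ℝ) ^ (4 : ℝ) = ((M ^ 4 : ℕ) : ℝ) := by
      push_cast
      exact Real.rpow_natCast _ 4
    rw [h2] at h1
    exact_mod_cast h1
  have a5 : Real.log (4 * (x : ℝ)) ≤ (1 + θ + ε) * l := by
    have := Real.log_le_log (by positivity) a4
    rw [Real.log_rpow hM0, ← hl'] at this
    exact this
  have a6 : Real.log (4 * (x : ℝ)) = Real.log 4 + Real.log x := Real.log_mul (by norm_num) hx0.ne'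
  have a7 : (1 + θ + ε) * l - 3 ≤ Real.log x := by
    have h1 : (M : ℝ) ^ (1 + θ + ε) ≤ 8 * x := by
      have h2 := Nat.lt_floor_add_one ((M : ℝ) ^ (1 + θ + ε) / 4)
      rw [← hx] at h2
      have h3 : (1 : ℝ) ≤ x := by exact_mod_cast (show 1 ≤ x by omega)
      linarith
    have h4 := Real.log_le_log (by positivity) h1
    rw [Real.log_rpow hM0, Real.log_mul (by norm_num) hx0.ne', ← hl'] at h4
    linarith
  -- `y`
  have b1 : (M : ℝ) ^ (1 + θ + ε / 2) ≤ y := by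
    rw [hy]
    push_cast
    exact (Nat.lt_floor_add_one _).le
  have b0 : (1 : ℝ) ≤ (M : ℝ) ^ (1 + θ + ε / 2) := Real.one_le_rpow hM1 (by linarith)
  have b2 : 2 * M ≤ y := by
    have h1 : 2 * (M : ℝ) ≤ (M : ℝ) ^ (1 + θ + ε / 2) := by
      have h1 : Real.log (2 * M) ≤ l * (1 + θ + ε / 2) := by
        rw [Real.log_mul (by norm_num) hM0.ne', ← hl']
        linarith only [hlog2, hL, hθl0]
      calc 2 * (M : ℝ) = Real.exp (Real.log (2 * M)) := (Real.exp_log (by positivity)).symm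
        _ ≤ Real.exp (l * (1 + θ + ε / 2)) := Real.exp_le_exp.2 h1
        _ = (M : ℝ) ^ (1 + θ + ε / 2) := (hMexp _).symm
    exact_mod_cast h1.trans b1
  have b4 : Real.log y ≤ (1 + θ + ε / 2) * l + 1 := by
    have h1 : (y : ℝ) ≤ 2 * (M : ℝ) ^ (1 + θ + ε / 2) := by
      rw [hy]
      push_cast
      have := Nat.floor_le (show (0 : ℝ) ≤ (M : ℝ) ^ (1 + θ + ε / 2) by linarith)
      linarith
    have h2 := Real.log_le_log (by linarith) h1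
    rw [Real.log_mul (by norm_num) (by linarith), Real.log_rpow hM0, ← hl'] at h2
    linarith
  have b5 : Real.log y ≤ (1 - ε / 16) * Real.log x := by
    have h1 : (1 - ε / 16) * ((1 + θ + ε) * l - 3) ≤ (1 - ε / 16) * Real.log x := by
      apply mul_le_mul_of_nonneg_left a7
      linarith
    refine b4.trans (le_trans ?_ h1)
    have h2 : ε * (ε * l) ≤ ε * l := by nlinarith
    have h3 : ε * (θ * l) ≤ ε * (2 * l) := mul_le_mul_of_nonneg_left hθl hε.le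
    nlinarith only [h2, h3, hL, hε]
  have hy0 : (0 : ℝ) < y := by linarith
  have b6 : y ≤ 4 * x := by
    have h1 : Real.log y ≤ Real.log x := by
      refine b4.trans (le_trans ?_ a7)
      linarith only [hL]
    have h2 := (Real.log_le_log_iff hy0 hx0).1 h1
    have h3 : y ≤ x := by exact_mod_cast h2
    omega
  -- `y₁`
  have hMp : (0 : ℝ) < (M : ℝ) ^ (1 + θ + ε / 3) := Real.rpow_pos_of_pos hM0 _
  have c0 : (2 * (M : ℝ)) ^ (1 + θ + ε / 3) = (2 : ℝ) ^ (1 + θ + ε / 3) * (M : ℝ) ^ (1 + θ + ε / 3) :=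
    Real.mul_rpow (by norm_num) hM0.le
  have c1 : (2 : ℝ) ^ (1 + θ + ε / 3) ≤ 16 := by
    calc (2 : ℝ) ^ (1 + θ + ε / 3) ≤ (2 : ℝ) ^ (4 : ℝ) := Real.rpow_le_rpow_of_exponent_le (by norm_num) (by linarith)
      _ = 16 := by norm_num
  have c3 : (2 * (M : ℝ)) ^ (1 + θ + ε / 3) ≤ 16 * (M : ℝ) ^ (1 + θ + ε / 3) := by
    rw [c0]; gcongr
  have c5 : (y₁ : ℝ) ≤ (2 * (M : ℝ)) ^ (1 + θ + ε / 3) := by rw [hy₁]; exact Nat.floor_le (by positivity)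
  have c6 : (2 * (M : ℝ)) ^ (1 + θ + ε / 3) < y₁ + 1 := by rw [hy₁]; exact Nat.lt_floor_add_one _
  have c7 : (1 : ℝ) ≤ (2 * (M : ℝ)) ^ (1 + θ + ε / 3) := Real.one_le_rpow (by linarith) (by linarith)
  have c9 : 1 ≤ y₁ := by rw [hy₁]; exact Nat.le_floor (by simpa using c7)
  have c10 : y₁ ≤ 4 * x := by
    have h1 : Real.log y₁ ≤ Real.log x := by
      have h2 := Real.log_le_log (by exact_mod_cast c9) c5
      rw [Real.log_rpow (by positivity), Real.log_mul (by norm_num) hM0.ne', ← hl'] at h2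
      refine h2.trans (le_trans ?_ a7)
      have h3 : (1 + θ + ε / 3) * Real.log 2 ≤ 4 * 0.7 := by
        apply mul_le_mul (by linarith) (by linarith) (by linarith) (by norm_num)
      nlinarith only [h3, hL]
    have h2 : y₁ ≤ x := by
      have := (Real.log_le_log_iff (by exact_mod_cast c9) hx0).1 h1
      exact_mod_cast this
    omega
  -- `J`
  have d1 : 2 ^ Nat.log 2 x ≤ x := Nat.pow_log_le_self 2 (by omega)
  have d2 : x < 2 ^ (Nat.log 2 x + 1) := Nat.lt_pow_succ_log_self (by norm_num) _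
  have a9 : (1 + θ + ε) * l ≤ 4 * l := by linarith only [hθl, hεl]
  refine ⟨x, y, y₁, J, a2, a8, a4, ?_, b2, b6, b1, b5, c10, c9, c6, by linarith, ?_, ?_, ?_⟩
  · push_cast
    linarith
  · have e1 : ((2 ^ Nat.log 2 x : ℕ) : ℝ) ≤ x := by exact_mod_cast d1
    have e2 := Real.log_le_log (by push_cast; positivity) e1
    push_cast at e2
    rw [Real.log_pow] at e2
    rw [hJ]
    push_cast
    have e3 : Real.log x ≤ 4 * l := by linarith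
    have e4 : (0 : ℝ) ≤ (Nat.log 2 x : ℝ) := Nat.cast_nonneg _
    have e5 : (Nat.log 2 x : ℝ) * 0.69 ≤ (Nat.log 2 x : ℝ) * Real.log 2 := mul_le_mul_of_nonneg_left (by linarith) e4
    linarith
  · calc 4 * x ≤ 4 * 2 ^ (Nat.log 2 x + 1) := Nat.mul_le_mul_left 4 d2.le
      _ = 2 ^ J := by rw [hJ]; ring
  · intro j hj
    calc 2 ^ j ≤ 2 ^ (Nat.log 2 x + 2) := Nat.pow_le_pow_right (by norm_num) (by omega)
      _ = 4 * 2 ^ Nat.log 2 x := by ring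
      _ ≤ 4 * x := Nat.mul_le_mul_left 4 d1

/-- the error of the small primes -/
lemma err3 {θ ε : ℝ} (hθ : 0 ≤ θ) (hε : 0 < ε) {M m x y y₁ J : ℕ} (hM : 2 ≤ M)
    (hl : 64 ≤ Real.log M) (hmM : M < m) (hx : Real.log ((4 * x : ℕ) : ℝ) ≤ 4 * Real.log M)
    (hy : (M : ℝ) ^ (1 + θ + ε / 2) ≤ y) (hy1x : y₁ ≤ 4 * x) (hy1 : 1 ≤ y₁)
    (hy1u : (y₁ : ℝ) ≤ 16 * (M : ℝ) ^ (1 + θ + ε / 3)) (hJ : (J : ℝ) ≤ 8 * Real.log M) :
    ((y₁ : ℝ) / m + 1) * Real.log y₁ * (J * (J * Real.log 2) / y) ≤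
      3100 * (Real.log M) ^ 3 * (M : ℝ) ^ (-(1 + ε / 6)) := by
  have hM2 : (2 : ℝ) ≤ M := by exact_mod_cast hM
  have hM0 : (0 : ℝ) < M := by linarith
  have hM1 : (1 : ℝ) ≤ M := by linarith
  obtain ⟨l, hl'⟩ : ∃ l : ℝ, l = Real.log M := ⟨_, rfl⟩
  rw [← hl'] at hl hx hJ ⊢
  have hl0 : 0 < l := by linarith
  have hlog2 := Real.log_two_lt_d9
  have hlog2' : 0 < Real.log 2 := Real.log_pos (by norm_num)
  have hm0 : (0 : ℝ) < m := by exact_mod_cast (show 0 < m by omega)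
  have hmMr : (M : ℝ) ≤ m := by exact_mod_cast hmM.le
  have hPy : (0 : ℝ) < (M : ℝ) ^ (1 + θ + ε / 2) := Real.rpow_pos_of_pos hM0 _
  have hy0 : (0 : ℝ) < y := lt_of_lt_of_le hPy hy
  have hy10 : (0 : ℝ) < y₁ := by exact_mod_cast hy1
  obtain ⟨P, hP⟩ : ∃ P : ℝ, P = (M : ℝ) ^ (-(1 + ε / 6)) := ⟨_, rfl⟩
  have hP0 : 0 < P := by rw [hP]; exact Real.rpow_pos_of_pos hM0 _
  rw [← hP]
  have hly1 : Real.log y₁ ≤ 4 * l := by
    refine le_trans ?_ hx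
    apply Real.log_le_log hy10
    exact_mod_cast hy1x
  have hly10 : 0 ≤ Real.log y₁ := Real.log_natCast_nonneg y₁
  have hJ0 : (0 : ℝ) ≤ J := Nat.cast_nonneg _
  have hA : ((y₁ : ℝ) / m + 1) / y ≤ 17 * P := by
    have h1 : (y₁ : ℝ) / m ≤ 16 * (M : ℝ) ^ (θ + ε / 3) := by
      have e1 : (M : ℝ) ^ (1 + θ + ε / 3) = (M : ℝ) ^ (θ + ε / 3) * M := by
        have : (M : ℝ) ^ (θ + ε / 3) * M = (M : ℝ) ^ (θ + ε / 3) * (M : ℝ) ^ (1 : ℝ) := by rw [Real.rpow_one]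
        rw [this, ← Real.rpow_add hM0]
        congr 1
        ring
      rw [div_le_iff₀ hm0]
      calc (y₁ : ℝ) ≤ 16 * (M : ℝ) ^ (1 + θ + ε / 3) := hy1u
        _ = 16 * (M : ℝ) ^ (θ + ε / 3) * M := by rw [e1]; ring
        _ ≤ 16 * (M : ℝ) ^ (θ + ε / 3) * m := by gcongr
    have h2 : (1 : ℝ) ≤ (M : ℝ) ^ (θ + ε / 3) := Real.one_le_rpow hM1 (by linarith)
    have h3 : (M : ℝ) ^ (θ + ε / 3) = P * (M : ℝ) ^ (1 + θ + ε / 2) := by
      rw [hP, ← Real.rpow_add hM0]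
      congr 1
      ring
    rw [div_le_iff₀ hy0]
    calc (y₁ : ℝ) / m + 1 ≤ 17 * (M : ℝ) ^ (θ + ε / 3) := by linarith
      _ = 17 * P * (M : ℝ) ^ (1 + θ + ε / 2) := by rw [h3]; ring
      _ ≤ 17 * P * y := by gcongr
  have h0 : 0 ≤ ((y₁ : ℝ) / m + 1) / y := by positivity
  calc ((y₁ : ℝ) / m + 1) * Real.log y₁ * (J * (J * Real.log 2) / y)
      = (((y₁ : ℝ) / m + 1) / y) * (Real.log y₁ * (J * (J * Real.log 2))) := by ring
    _ ≤ (17 * P) * ((4 * l) * ((8 * l) * ((8 * l) * 0.7))) := by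
        have hb : Real.log 2 ≤ 0.7 := by linarith
        gcongr
    _ ≤ 3100 * l ^ 3 * P := by
        have : 0 ≤ l ^ 3 * P := by positivity
        nlinarith only [this]

end Pool.Agent.K9h19.LW
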