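import Pool.Agent.K9h19.LW.Stm

/-! Elementary facts about the smooth part. -/

set_option autoImplicit false

open Finset

namespace Pool.Agent.K9h19.LW

lemma sp_dvd' {y m : ℕ} (hm : m ≠ 0) : sp y m ∣ m := by
  unfold sp
  conv_rhs => rw [← Nat.factorization_prod_pow_eq_self hm]
  rw [Finsupp.prod, Nat.support_factorization]
  exact prod_dvd_prod_of_subset _ _ _ (filter_subset _ _)

lemma sp_pos' (y m : ℕ) : 0 < sp y m := by
  unfold sp
  apply prod_pos
  intro p hp
  rw [mem_filter] at hp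
  exact Nat.pow_pos (Nat.prime_of_mem_primeFactors hp.1).pos

lemma dvd_sp' {y m f : ℕ} (hm : m ≠ 0) (hf : f ∣ m) (hfy : f ≤ y) : f ∣ sp y m := by
  have hf0 : f ≠ 0 := by rintro rfl; exact hm (Nat.eq_zero_of_zero_dvd hf)
  unfold sp
  conv_lhs => rw [← Nat.factorization_prod_pow_eq_self hf0]
  rw [Finsupp.prod, Nat.support_factorization]
  have h1 : f.primeFactors ⊆ m.primeFactors.filter (fun p => p ≤ y) := by
    intro p hp
    rw [mem_filter]
    exact ⟨Nat.primeFactors_mono hf hm hp, (Nat.le_of_mem_primeFactors hp).trans hfy⟩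
  refine dvd_trans ?_ (prod_dvd_prod_of_subset _ _ _ h1)
  apply prod_dvd_prod_of_dvd
  intro p _
  exact pow_dvd_pow p ((Nat.factorization_le_iff_dvd hf0 hm).2 hf p)

/-- `y`-smooth part with a real parameter -/
lemma sp_floor' (y : ℝ) (hy : 0 ≤ y) (m : ℕ) :
    sp ⌊y⌋₊ m = ∏ p ∈ m.primeFactors.filter (fun p : ℕ => (p : ℝ) ≤ y), p ^ m.factorization p := by
  unfold sp
  apply prod_congr _ (fun _ _ => rfl)
  apply filter_congr
  intro p _
  exact Nat.le_floor_iff hy

end Pool.Agent.K9h19.LW
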