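import Pool.Agent.K9h19.LW.LD3
import Pool.Agent.K9h19.LW.SpB

/-! The bad classes of one modulus. -/

set_option autoImplicit false

open Finset

namespace Pool.Agent.K9h19.LW

open Pool.Agent.H410R2 (psiLog psiLogAP)
open Pool.Agent.H398R2.BV (Prim)
open ArithmeticFunction (vonMangoldt)

lemma one_mod (hS : S_SPLIT) {θ ε c₃ : ℝ} (hθ : 0 ≤ θ) (hε : 0 < ε) (hc₃ : 0 < c₃)
    {M m x y y₁ J R F : ℕ} (hM : 2 ≤ M) (hl : 64 ≤ Real.log M)
    (hgrow : 99200 / (Real.log 2 * c₃) * (Real.log M) ^ 2 ≤ (M : ℝ) ^ (ε / 6))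
    (hmM : M < m) (hm2 : m ≤ 2 * M) (hMx : M ≤ x) (hx4 : (4 * (x : ℝ)) ≤ (M : ℝ) ^ (1 + θ + ε))
    (hx : Real.log ((4 * x : ℕ) : ℝ) ≤ 4 * Real.log M) (hy2M : 2 * M ≤ y)
    (hy : (M : ℝ) ^ (1 + θ + ε / 2) ≤ y) (hy1x : y₁ ≤ 4 * x) (hy1 : 1 ≤ y₁)
    (hy1a : (2 * (M : ℝ)) ^ (1 + θ + ε / 3) < y₁ + 1)
    (hy1u : (y₁ : ℝ) ≤ 16 * (M : ℝ) ^ (1 + θ + ε / 3)) (hJ : (J : ℝ) ≤ 8 * Real.log M)
    (hJ1 : 4 * x ≤ 2 ^ J) (hJ2 : ∀ j < J, 2 ^ j ≤ 4 * x)
    (hLW : ∀ c : ℕ, c.Coprime m → c₃ * Real.log x / (sp R m).totient ≤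
      ∑ p ∈ (Ioc y x).filter (fun p => p.Prime ∧ p ≡ c [MOD sp R m]), Real.log p / p)
    (hA : EF y J R F m + DF F m * rest y J (4 * x) m < Real.log 2 * c₃ / 32 * Real.log M / M) :
    (bad3 θ ε (Real.log 2 * c₃ / 96) m : ℝ) * (Real.log 2 * c₃ / 32 * Real.log M / M) ^ 2 ≤
      2 * J * EB y J F m + 2 * ((m : ℝ) / m.totient) * (rest y J (4 * x) m) ^ 2 := by
  classical
  have hM2 : (2 : ℝ) ≤ M := by exact_mod_cast hM
  have hM0 : (0 : ℝ) < M := by linarith
  have hlog2' : 0 < Real.log 2 := Real.log_pos (by norm_num)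
  have hm0 : (0 : ℝ) < m := by exact_mod_cast (show 0 < m by omega)
  have hmMr : (M : ℝ) < m := by exact_mod_cast hmM
  have hm2r : (m : ℝ) ≤ 2 * M := by exact_mod_cast hm2
  have hφ : (0 : ℝ) < m.totient := by exact_mod_cast Nat.totient_pos.2 (show 0 < m by omega)
  have hφm : (m.totient : ℝ) ≤ 2 * M := (show (m.totient : ℝ) ≤ m by exact_mod_cast Nat.totient_le m).trans hm2r
  have hspd : sp R m ∣ m := sp_dvd' (by omega)
  have hφs : (0 : ℝ) < (sp R m).totient := by exact_mod_cast Nat.totient_pos.2 (sp_pos' R m)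
  have hlxM : Real.log M ≤ Real.log x := Real.log_le_log hM0 (by exact_mod_cast hMx)
  have hl0 : 0 < Real.log M := by linarith
  obtain ⟨δ, hδ⟩ : ∃ δ : ℝ, δ = Real.log 2 * c₃ / 32 * Real.log M / M := ⟨_, rfl⟩
  have hδ0 : 0 < δ := by rw [hδ]; positivity
  obtain ⟨A, B, h1, h2, h3⟩ := dev hS (y := y) (J := J) (N := 4 * x) (m := m) (g := sp R m) (R := R) (F := F) hJ2
    (by omega) hspd (by
      intro f hf hfn
      by_contra hcon
      exact hfn (dvd_sp' (by omega) hf (by omega)))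
  rw [← hδ] at hA ⊢
  refine le_trans ?_ h3
  -- every bad class
  have hkey : ∀ c ∈ (range m).filter (fun c => c.Coprime m ∧ ¬ Many3 θ ε (Real.log 2 * c₃ / 96) m c),
      δ ^ 2 ≤ (B c) ^ 2 := by
    intro c hc
    rw [mem_filter] at hc
    obtain ⟨hc1, hc2, hbad⟩ := hc
    have e0 := h1 c (mem_filter.2 ⟨hc1, hc2⟩)
    have e1 := SP_ap_lower (y := y) (J := J) (x := x) (N := 4 * x) (m := m) (g := sp R m) (c := c) (by omega) hJ1
      (by omega) (by omega)
    have e2 : Real.log 2 / 4 * c₃ * Real.log M / m.totient ≤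
        ((sp R m).totient : ℝ) / m.totient * SP (ap y J (4 * x) m) (4 * x) (sp R m) c := by
      calc Real.log 2 / 4 * c₃ * Real.log M / m.totient ≤ Real.log 2 / 4 * c₃ * Real.log x / m.totient := by gcongr
        _ = ((sp R m).totient : ℝ) / m.totient * (Real.log 2 / 4 * (c₃ * Real.log x / (sp R m).totient)) := by
            field_simp
        _ ≤ ((sp R m).totient : ℝ) / m.totient * (Real.log 2 / 4 *
            ∑ p ∈ (Ioc y x).filter (fun p => p.Prime ∧ p ≡ c [MOD sp R m]), Real.log p / p) := by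
            have := hLW c hc2
            gcongr
        _ ≤ _ := by gcongr
    have e4 := SP_ap_upper (y := y) (J := J) (N := 4 * x) (y₁ := y₁) (m := m) (c := c) (by omega) (by omega) hy1 hy1x
    have e5 : ∑ p ∈ (Ioc y₁ (4 * x)).filter (fun p => p.Prime ∧ p ≡ c [MOD m]), Real.log p / (p : ℝ) ≤
        Real.log 2 * c₃ / 96 * Real.log m / m.totient := by
      have h1 : ¬ Many3 θ ε (Real.log 2 * c₃ / 96) m c := hbad
      unfold Many3 at h1
      push Not at h1
      refine le_trans ?_ h1.le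
      apply sum_le_sum_of_subset_of_nonneg
      · intro p hp
        rw [mem_filter, mem_Ioc] at hp
        rw [mem_filter, mem_Icc]
        have hpx : (p : ℝ) ≤ 4 * x := by exact_mod_cast hp.1.2
        have hpy : (y₁ : ℝ) + 1 ≤ p := by exact_mod_cast hp.1.1
        have g1 : (M : ℝ) ^ (1 + θ + ε) < (m : ℝ) ^ (1 + θ + ε) := Real.rpow_lt_rpow hM0.le hmMr (by linarith)
        have g2 : (m : ℝ) ^ (1 + θ + ε / 3) ≤ (2 * (M : ℝ)) ^ (1 + θ + ε / 3) :=
          Real.rpow_le_rpow hm0.le hm2r (by linarith)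
        have g3 : (p : ℝ) < (m : ℝ) ^ (1 + θ + ε) := by linarith
        exact ⟨⟨hp.2.1.pos, Nat.le_floor g3.le⟩, hp.2.1, hp.2.2, by linarith, g3⟩
      · intro p _ _
        exact div_nonneg (Real.log_natCast_nonneg p) (Nat.cast_nonneg p)
    have e6 : Real.log m ≤ 2 * Real.log M := by
      have h1 : (m : ℝ) ≤ (M : ℝ) ^ 2 := by nlinarith only [hm2r, hM2]
      have h2 := Real.log_le_log hm0 h1
      rw [Real.log_pow] at h2
      exact_mod_cast h2
    have e7 : Real.log 2 * c₃ / 96 * Real.log m / m.totient ≤ Real.log 2 * c₃ / 48 * Real.log M / m.totient := by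
      rw [div_le_div_iff_of_pos_right hφ]
      calc Real.log 2 * c₃ / 96 * Real.log m ≤ Real.log 2 * c₃ / 96 * (2 * Real.log M) := by gcongr
        _ = Real.log 2 * c₃ / 48 * Real.log M := by ring
    have e8 := err3 hθ hε hM hl hmM hx hy hy1x hy1 hy1u hJ
    have e9 : 3100 * (Real.log M) ^ 3 * (M : ℝ) ^ (-(1 + ε / 6)) ≤ δ := by
      have h1 : (M : ℝ) ^ (-(1 + ε / 6)) = ((M : ℝ) ^ (ε / 6))⁻¹ / M := by
        rw [← Real.rpow_neg hM0.le, ← Real.rpow_sub_one hM0.ne']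
        congr 1
        ring
      have h2 : (0 : ℝ) < (M : ℝ) ^ (ε / 6) := Real.rpow_pos_of_pos hM0 _
      rw [hδ, h1, ← mul_div_assoc, div_le_div_iff_of_pos_right hM0, ← div_eq_mul_inv, div_le_iff₀ h2]
      calc 3100 * (Real.log M) ^ 3
          = Real.log 2 * c₃ / 32 * Real.log M * (99200 / (Real.log 2 * c₃) * (Real.log M) ^ 2) := by
            field_simp
            norm_num
        _ ≤ Real.log 2 * c₃ / 32 * Real.log M * (M : ℝ) ^ (ε / 6) := by gcongr
    -- conclusion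
    have e10 : 3 * δ ≤ Real.log 2 / 4 * c₃ * Real.log M / m.totient - 3 * (Real.log 2 * c₃ / 48 * Real.log M / m.totient) := by
      have h1 : Real.log 2 / 4 * c₃ * Real.log M / m.totient - 3 * (Real.log 2 * c₃ / 48 * Real.log M / m.totient) =
          3 * (Real.log 2 * c₃ / 16) * Real.log M / m.totient := by ring
      have h2 : 3 * δ = (3 * (Real.log 2 * c₃ / 16) * Real.log M) / (2 * M) := by
        rw [hδ]
        field_simp
        ring
      rw [h1, h2]
      gcongr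
    have e11 : A c + B c ≤ -(2 * δ) := by
      rw [← e0]
      linarith only [e2, e4, e5, e7, e8, e9, e10]
    have e12 := (abs_le.1 ((h2 c).trans hA.le)).1
    have e13 : B c ≤ -δ := by linarith only [e11, e12]
    have e14 : δ ≤ -B c := by linarith only [e13]
    calc δ ^ 2 ≤ (-B c) ^ 2 := pow_le_pow_left₀ hδ0.le e14 2
      _ = (B c) ^ 2 := by ring
  unfold bad3
  rw [← nsmul_eq_mul]
  calc ((range m).filter (fun c => c.Coprime m ∧ ¬ Many3 θ ε (Real.log 2 * c₃ / 96) m c)).card • δ ^ 2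
      = ∑ _c ∈ (range m).filter (fun c => c.Coprime m ∧ ¬ Many3 θ ε (Real.log 2 * c₃ / 96) m c), δ ^ 2 :=
        (sum_const _).symm
    _ ≤ ∑ c ∈ (range m).filter (fun c => c.Coprime m ∧ ¬ Many3 θ ε (Real.log 2 * c₃ / 96) m c), (B c) ^ 2 :=
        sum_le_sum hkey
    _ ≤ _ := by
        apply sum_le_sum_of_subset_of_nonneg
        · intro c hc
          rw [mem_filter] at hc ⊢
          exact ⟨hc.1, hc.2.1⟩
        · intro c _ _
          positivity

end Pool.Agent.K9h19.LW
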