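import Pool.Agent.K9h19.LW.LD4

/-! The number of moduli with too many bad classes, for one exponent. -/

set_option autoImplicit false

open Finset

namespace Pool.Agent.K9h19.LW

open Pool.Agent.H410R2 (psiLog psiLogAP)
open Pool.Agent.H398R2.BV (Prim)

lemma grow6 {C s : ℝ} (hC : 0 < C) (hs : 3000000000000 * C + 1 ≤ s) : C * (s ^ 2) ^ 8 ≤ Real.exp (4 * s / 3) := by
  have hs1 : 1 ≤ s := by linarith
  have h1 : (4 * s / 3) ^ 17 / 355687428096000 ≤ Real.exp (4 * s / 3) := by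
    have := Real.pow_div_factorial_le_exp (4 * s / 3) (by positivity) 17
    simpa [Nat.factorial] using this
  have h2 : C * (s ^ 2) ^ 8 ≤ (4 * s / 3) ^ 17 / 355687428096000 := by
    have h3 : (4 * s / 3) ^ 17 / 355687428096000 = s ^ 16 * ((4 / 3) ^ 17 / 355687428096000 * s) := by ring
    rw [h3, ← pow_mul]
    have h4 : C ≤ (4 / 3) ^ 17 / 355687428096000 * s := by
      have h5 : (1 : ℝ) ≤ (4 / 3) ^ 17 / 355687428096000 * 3000000000000 := by norm_num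
      have h6 : (0 : ℝ) < (4 / 3) ^ 17 / 355687428096000 := by positivity
      calc C = 1 * C := (one_mul C).symm
        _ ≤ ((4 / 3) ^ 17 / 355687428096000 * 3000000000000) * C := by gcongr
        _ = (4 / 3) ^ 17 / 355687428096000 * (3000000000000 * C) := by ring
        _ ≤ (4 / 3) ^ 17 / 355687428096000 * s := by gcongr; linarith
    calc C * s ^ (2 * 8) = s ^ 16 * C := by ring
      _ ≤ _ := by gcongr
  exact h2.trans h1

/-- the mean values for the parameters of one exponent -/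
lemma means (hMVF : S_MVF) (hSQ : S_SQ) : ∃ C : ℝ, 0 < C ∧ ∀ (θ ε ρ : ℝ) (M x y J R F : ℕ),
    0 ≤ θ → θ ≤ 2 → 0 < ε → ε ≤ 1 → 0 < ρ → ρ ≤ ε / 32 → 2 ≤ M → 64 / ε ≤ Real.log M →
    Real.log ((4 * x : ℕ) : ℝ) ≤ 4 * Real.log M → 2 * M ≤ y → y ≤ 4 * x → (M : ℝ) ^ (1 + θ + ε / 2) ≤ y →
    (J : ℝ) ≤ 8 * Real.log M → R = ⌊(M : ℝ) ^ ρ⌋₊ → F = min ⌊(M : ℝ) ^ ((1 + θ) / 2 + ε / 8)⌋₊ (2 * M) →
    ∑ m ∈ Ioc M (2 * M), (EF y J R F m + DF F m * rest y J (4 * x) m) ≤ C * (Real.log M) ^ 9 * (M : ℝ) ^ (-ρ) ∧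
    ∑ m ∈ Ioc M (2 * M), (2 * J * EB y J F m + 2 * ((m : ℝ) / m.totient) * (rest y J (4 * x) m) ^ 2) ≤
      C * (Real.log M) ^ 10 * (M : ℝ) ^ (-θ - ε / 8) := by
  obtain ⟨C2, hC2, hEF⟩ := EF_mean hMVF
  obtain ⟨C3, hC3, hEB⟩ := EB_mean hSQ
  refine ⟨C2 * 9 ^ 9 * 6 + 9600 + 128 * 9 ^ 6 * 3 * C3 + 92160000, by positivity, ?_⟩
  intro θ ε ρ M x y J R F hθ hθ2 hε hε1 hρ0 hρ hM hl hx hyM hyx hy hJ hR hF
  have hM2 : (2 : ℝ) ≤ M := by exact_mod_cast hM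
  have hM0 : (0 : ℝ) < M := by linarith
  have hM1 : (1 : ℝ) ≤ M := by linarith
  have hl64 : 64 ≤ Real.log M := by
    refine le_trans ?_ hl
    rw [le_div_iff₀ hε]
    linarith
  obtain ⟨l, hl'⟩ : ∃ l : ℝ, l = Real.log M := ⟨_, rfl⟩
  rw [← hl'] at hl hl64 hx hJ ⊢
  have hl0 : 0 < l := by linarith
  have hlog2 := Real.log_two_lt_d9
  have hlog2' : 0 < Real.log 2 := Real.log_pos (by norm_num)
  have hMexp : ∀ t : ℝ, (M : ℝ) ^ t = Real.exp (l * t) := fun t => by rw [hl']; exact Real.rpow_def_of_pos hM0 t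
  have hJ0 : (0 : ℝ) ≤ J := Nat.cast_nonneg _
  have hy0 : (0 : ℝ) < y := lt_of_lt_of_le (Real.rpow_pos_of_pos hM0 _) hy
  have hMy : M ≤ y := by omega
  -- `R`
  have hMρ : 1 ≤ (M : ℝ) ^ ρ := Real.one_le_rpow hM1 hρ0.le
  have hR1 : 1 ≤ R := by rw [hR]; exact Nat.le_floor (by simpa using hMρ)
  have hR0 : (0 : ℝ) < R := by exact_mod_cast hR1
  have hRl : (M : ℝ) ^ ρ ≤ 2 * R := by
    have h1 := Nat.lt_floor_add_one ((M : ℝ) ^ ρ)
    rw [← hR] at h1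
    have h2 : (1 : ℝ) ≤ R := by exact_mod_cast hR1
    linarith
  have hMmρ : (0 : ℝ) < (M : ℝ) ^ (-ρ) := Real.rpow_pos_of_pos hM0 _
  have h1R : 1 / (R : ℝ) ≤ 2 * (M : ℝ) ^ (-ρ) := by
    rw [Real.rpow_neg hM0.le, div_le_iff₀ hR0]
    have h1 : ((M : ℝ) ^ ρ)⁻¹ * (M : ℝ) ^ ρ = 1 := inv_mul_cancel₀ (by positivity)
    have h2 := mul_le_mul_of_nonneg_left hRl (show 0 ≤ ((M : ℝ) ^ ρ)⁻¹ by positivity)
    rw [h1] at h2
    linarith
  -- `U`
  obtain ⟨U, hU⟩ : ∃ U : ℕ, U = ⌊(M : ℝ) ^ (ε / 16)⌋₊ := ⟨_, rfl⟩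
  have hMU : 1 ≤ (M : ℝ) ^ (ε / 16) := Real.one_le_rpow hM1 (by linarith)
  have hU1 : 1 ≤ U := by rw [hU]; exact Nat.le_floor (by simpa using hMU)
  have hU0 : (0 : ℝ) < U := by exact_mod_cast hU1
  have hUu : (U : ℝ) ≤ (M : ℝ) ^ (ε / 16) := by rw [hU]; exact Nat.floor_le (by linarith)
  have hUl : (M : ℝ) ^ (ε / 16) ≤ 4 * U := by
    have h1 := Nat.lt_floor_add_one ((M : ℝ) ^ (ε / 16))
    rw [← hU] at h1
    have h2 : (1 : ℝ) ≤ U := by exact_mod_cast hU1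
    linarith
  have h1U : 1 / √(U : ℝ) ≤ 2 * (M : ℝ) ^ (-ρ) := by
    have h1 : (M : ℝ) ^ (ε / 32) ≤ 2 * √(U : ℝ) := by
      have h2 : √((M : ℝ) ^ (ε / 16)) ≤ √(4 * U) := Real.sqrt_le_sqrt hUl
      have h3 : √((M : ℝ) ^ (ε / 16)) = (M : ℝ) ^ (ε / 32) := by
        rw [Real.sqrt_eq_rpow, ← Real.rpow_mul hM0.le]
        congr 1
        ring
      have h4 : √(4 * (U : ℝ)) = 2 * √(U : ℝ) := by
        rw [Real.sqrt_mul (by norm_num)]
        congr 1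
        rw [show (4 : ℝ) = 2 ^ 2 by norm_num]
        exact Real.sqrt_sq (by norm_num)
      rw [h3, h4] at h2
      exact h2
    have hsU : 0 < √(U : ℝ) := Real.sqrt_pos.2 hU0
    have h5 : (M : ℝ) ^ ρ ≤ (M : ℝ) ^ (ε / 32) := Real.rpow_le_rpow_of_exponent_le hM1 hρ
    rw [Real.rpow_neg hM0.le, div_le_iff₀ hsU]
    have h6 : ((M : ℝ) ^ ρ)⁻¹ * (M : ℝ) ^ ρ = 1 := inv_mul_cancel₀ (by positivity)
    have h7 := mul_le_mul_of_nonneg_left (h5.trans h1) (show 0 ≤ ((M : ℝ) ^ ρ)⁻¹ by positivity)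
    rw [h6] at h7
    linarith
  -- `F`
  obtain ⟨a, ha⟩ : ∃ a : ℝ, a = (1 + θ) / 2 := ⟨_, rfl⟩
  rw [← ha] at hF
  obtain ⟨F₀, hF₀⟩ : ∃ F₀ : ℕ, F₀ = ⌊(M : ℝ) ^ (a + ε / 8)⌋₊ := ⟨_, rfl⟩
  rw [← hF₀] at hF
  have hMF : 1 ≤ (M : ℝ) ^ (a + ε / 8) := Real.one_le_rpow hM1 (by rw [ha]; linarith)
  have hF₀1 : 1 ≤ F₀ := by rw [hF₀]; exact Nat.le_floor (by simpa using hMF)
  have hF1 : 1 ≤ F := by rw [hF]; exact le_min hF₀1 (by omega)
  have hF2M : F ≤ 2 * M := by rw [hF]; exact min_le_right _ _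
  have hFF₀ : F ≤ F₀ := by rw [hF]; exact min_le_left _ _
  have hFu : (F : ℝ) ≤ (M : ℝ) ^ (a + ε / 8) := by
    have h1 : (F₀ : ℝ) ≤ (M : ℝ) ^ (a + ε / 8) := by rw [hF₀]; exact Nat.floor_le (by linarith)
    exact (show (F : ℝ) ≤ F₀ by exact_mod_cast hFF₀).trans h1
  have hF0 : (0 : ℝ) < F := by exact_mod_cast hF1
  have hsy : (M : ℝ) ^ (a + ε / 4) ≤ √(y : ℝ) := by
    apply Real.le_sqrt_of_sq_le
    rw [← Real.rpow_natCast, ← Real.rpow_mul hM0.le]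
    refine le_trans (le_of_eq ?_) hy
    congr 1
    rw [ha]
    push_cast
    ring
  have hsyp : (0 : ℝ) < (M : ℝ) ^ (a + ε / 4) := Real.rpow_pos_of_pos hM0 _
  have hsy0 : 0 < √(y : ℝ) := Real.sqrt_pos.2 hy0
  have hFy : (F : ℝ) / √(y : ℝ) ≤ (M : ℝ) ^ (-(ε / 8)) := by
    rw [div_le_iff₀ hsy0]
    calc (F : ℝ) ≤ (M : ℝ) ^ (a + ε / 8) := hFu
      _ = (M : ℝ) ^ (-(ε / 8)) * (M : ℝ) ^ (a + ε / 4) := by
          rw [← Real.rpow_add hM0]
          congr 1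
          ring
      _ ≤ (M : ℝ) ^ (-(ε / 8)) * √(y : ℝ) := by gcongr
  have hε8 : (M : ℝ) ^ (-(ε / 8)) ≤ (M : ℝ) ^ (-ρ) := Real.rpow_le_rpow_of_exponent_le hM1 (by linarith)
  have hU2 : (U : ℝ) ^ 2 * (F : ℝ) ^ 2 / y ≤ (M : ℝ) ^ (-(ε / 8)) := by
    rw [div_le_iff₀ hy0]
    have h1 : (U : ℝ) ^ 2 ≤ (M : ℝ) ^ (ε / 8) := by
      calc (U : ℝ) ^ 2 ≤ ((M : ℝ) ^ (ε / 16)) ^ 2 := pow_le_pow_left₀ hU0.le hUu 2
        _ = (M : ℝ) ^ (ε / 8) := by
            rw [← Real.rpow_natCast, ← Real.rpow_mul hM0.le]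
            congr 1
            push_cast
            ring
    have h2 : (F : ℝ) ^ 2 ≤ (M : ℝ) ^ (2 * a + ε / 4) := by
      calc (F : ℝ) ^ 2 ≤ ((M : ℝ) ^ (a + ε / 8)) ^ 2 := pow_le_pow_left₀ hF0.le hFu 2
        _ = (M : ℝ) ^ (2 * a + ε / 4) := by
            rw [← Real.rpow_natCast, ← Real.rpow_mul hM0.le]
            congr 1
            push_cast
            ring
    calc (U : ℝ) ^ 2 * (F : ℝ) ^ 2 ≤ (M : ℝ) ^ (ε / 8) * (M : ℝ) ^ (2 * a + ε / 4) := by gcongr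
      _ = (M : ℝ) ^ (-(ε / 8)) * (M : ℝ) ^ (1 + θ + ε / 2) := by
          rw [← Real.rpow_add hM0, ← Real.rpow_add hM0]
          congr 1
          rw [ha]
          ring
      _ ≤ (M : ℝ) ^ (-(ε / 8)) * y := by gcongr
  -- `log (2M)`
  have hlog2M : 1 + Real.log (2 * M) ≤ 2 * l := by
    rw [Real.log_mul (by norm_num) hM0.ne', ← hl']
    linarith
  have hlog2M0 : 0 ≤ 1 + Real.log (2 * (M : ℝ)) := by
    rw [Real.log_mul (by norm_num) hM0.ne', ← hl']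
    linarith
  -- the rest
  have hrest : ∀ m ∈ Ioc M (2 * M), rest y J (4 * x) m ≤ 2400 * l ^ 4 / √(y : ℝ) := by
    intro m hm
    rw [mem_Ioc] at hm
    apply rest_le (by linarith) hJ hx _ (by omega) (by omega) hyx
    have h1 : (m : ℝ) ≤ 2 * M := by exact_mod_cast hm.2
    have hm0 : (0 : ℝ) < m := by exact_mod_cast (show 0 < m by omega)
    have h2 := Real.log_le_log hm0 h1
    linarith
  obtain ⟨r, hr⟩ : ∃ r : ℝ, r = 2400 * l ^ 4 / √(y : ℝ) := ⟨_, rfl⟩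
  rw [← hr] at hrest
  have hr0 : 0 ≤ r := by rw [hr]; positivity
  refine ⟨?_, ?_⟩
  · -- small conductors
    have h1 := hEF M R F U y J hM hR1 hF1 hF2M hU1 hMy
    have h2 : ∑ m ∈ Ioc M (2 * M), EF y J R F m ≤ C2 * 9 ^ 9 * 6 * l ^ 9 * (M : ℝ) ^ (-ρ) := by
      refine h1.trans ?_
      have e1 : (J : ℝ) ≤ 9 * l := by linarith
      have e2 : 1 + (J : ℝ) ≤ 9 * l := by linarith
      have e3 : 1 / (R : ℝ) + 1 / √(U : ℝ) + F / √(y : ℝ) + (U : ℝ) ^ 2 * (F : ℝ) ^ 2 / y ≤ 6 * (M : ℝ) ^ (-ρ) := by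
        linarith
      calc C2 * J * (1 + J) ^ 8 * (1 / (R : ℝ) + 1 / √(U : ℝ) + F / √(y : ℝ) + (U : ℝ) ^ 2 * (F : ℝ) ^ 2 / y)
          ≤ C2 * (9 * l) * (9 * l) ^ 8 * (6 * (M : ℝ) ^ (-ρ)) := by gcongr
        _ = C2 * 9 ^ 9 * 6 * l ^ 9 * (M : ℝ) ^ (-ρ) := by ring
    have h3 : ∑ m ∈ Ioc M (2 * M), DF F m * rest y J (4 * x) m ≤ 9600 * l ^ 9 * (M : ℝ) ^ (-ρ) := by
      calc ∑ m ∈ Ioc M (2 * M), DF F m * rest y J (4 * x) m ≤ ∑ m ∈ Ioc M (2 * M), DF F m * r := by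
            apply sum_le_sum
            intro m hm
            exact mul_le_mul_of_nonneg_left (hrest m hm) (DF_nonneg F m)
        _ = (∑ m ∈ Ioc M (2 * M), DF F m) * r := by rw [sum_mul]
        _ ≤ (F * (1 + Real.log (2 * M)) ^ 2) * r := by
            apply mul_le_mul_of_nonneg_right (DF_mean hF2M) hr0
        _ ≤ (F * (2 * l) ^ 2) * r := by gcongr
        _ = 9600 * l ^ 6 * (F / √(y : ℝ)) := by rw [hr]; ring
        _ ≤ 9600 * l ^ 9 * (M : ℝ) ^ (-ρ) := by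
            have : l ^ 6 ≤ l ^ 9 := pow_le_pow_right₀ (by linarith) (by norm_num)
            have h5 : (F : ℝ) / √(y : ℝ) ≤ (M : ℝ) ^ (-ρ) := hFy.trans hε8
            gcongr
    rw [sum_add_distrib]
    have h4 : 0 ≤ (128 * 9 ^ 6 * 3 * C3 + 92160000) * l ^ 9 * (M : ℝ) ^ (-ρ) := by positivity
    calc ∑ m ∈ Ioc M (2 * M), EF y J R F m + ∑ m ∈ Ioc M (2 * M), DF F m * rest y J (4 * x) m
        ≤ C2 * 9 ^ 9 * 6 * l ^ 9 * (M : ℝ) ^ (-ρ) + 9600 * l ^ 9 * (M : ℝ) ^ (-ρ) +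
          (128 * 9 ^ 6 * 3 * C3 + 92160000) * l ^ 9 * (M : ℝ) ^ (-ρ) := by linarith
      _ = _ := by ring
  · -- large conductors
    obtain ⟨Q, hQ⟩ : ∃ Q : ℝ, Q = (M : ℝ) ^ (-θ - ε / 8) := ⟨_, rfl⟩
    have hQ0 : 0 < Q := by rw [hQ]; exact Real.rpow_pos_of_pos hM0 _
    rw [← hQ]
    have h1 : ∑ m ∈ Ioc M (2 * M), 2 * J * EB y J F m ≤ 128 * 9 ^ 6 * 3 * C3 * l ^ 10 * Q := by
      rw [← mul_sum]
      rcases le_or_gt (2 * M) F₀ with h | h
      · have e1 : F = 2 * M := by rw [hF]; exact min_eq_right h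
        have e2 : ∑ m ∈ Ioc M (2 * M), EB y J F m = 0 := sum_eq_zero fun m hm => EB_zero hm (by omega)
        rw [e2, mul_zero]
        positivity
      · have e1 : F = F₀ := by rw [hF]; exact min_eq_left h.le
        -- `θ ≤ 1`
        have e2 : θ ≤ 1 := by
          by_contra hcon
          push Not at hcon
          have g1 : 2 * (M : ℝ) ≤ (M : ℝ) ^ (a + ε / 8) := by
            have h1 : Real.log (2 * M) ≤ l * (a + ε / 8) := by
              rw [Real.log_mul (by norm_num) hM0.ne', ← hl', ha]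
              rw [div_le_iff₀ hε] at hl
              nlinarith only [hl, hlog2, hcon, hl0]
            calc 2 * (M : ℝ) = Real.exp (Real.log (2 * M)) := (Real.exp_log (by positivity)).symm
              _ ≤ Real.exp (l * (a + ε / 8)) := Real.exp_le_exp.2 h1
              _ = (M : ℝ) ^ (a + ε / 8) := (hMexp _).symm
          have g2 : 2 * M ≤ F₀ := by
            rw [hF₀]
            exact Nat.le_floor (by push_cast; exact g1)
          omega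
        have e3 : 1 / (F : ℝ) ≤ 2 * Q := by
          have g1 : (M : ℝ) ^ (a + ε / 8) ≤ 2 * F := by
            have g2 := Nat.lt_floor_add_one ((M : ℝ) ^ (a + ε / 8))
            rw [← hF₀, ← e1] at g2
            have g3 : (1 : ℝ) ≤ F := by exact_mod_cast hF1
            linarith
          have g2 : (M : ℝ) ^ (θ + ε / 8) ≤ (M : ℝ) ^ (a + ε / 8) :=
            Real.rpow_le_rpow_of_exponent_le hM1 (by rw [ha]; linarith)
          have g3 : Q * (M : ℝ) ^ (θ + ε / 8) = 1 := by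
            rw [hQ, ← Real.rpow_add hM0]
            have : -θ - ε / 8 + (θ + ε / 8) = 0 := by ring
            rw [this, Real.rpow_zero]
          rw [div_le_iff₀ hF0]
          calc (1 : ℝ) = Q * (M : ℝ) ^ (θ + ε / 8) := g3.symm
            _ ≤ Q * (2 * F) := by gcongr; exact g2.trans g1
            _ = 2 * Q * F := by ring
        have e4 : (M : ℝ) / y ≤ Q := by
          rw [div_le_iff₀ hy0]
          calc (M : ℝ) = (M : ℝ) ^ (1 : ℝ) := (Real.rpow_one _).symm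
            _ ≤ (M : ℝ) ^ (-θ - ε / 8 + (1 + θ + ε / 2)) := Real.rpow_le_rpow_of_exponent_le hM1 (by linarith)
            _ = Q * (M : ℝ) ^ (1 + θ + ε / 2) := by rw [Real.rpow_add hM0, hQ]
            _ ≤ Q * y := by gcongr
        have e5 := hEB M F y J hM hF1 hMy
        have e6 : (J : ℝ) ≤ 8 * l := hJ
        have e7 : 1 + (J : ℝ) ≤ 9 * l := by linarith
        have e8 : 1 / (F : ℝ) + M / y ≤ 3 * Q := by linarith
        have hEB0 : 0 ≤ ∑ m ∈ Ioc M (2 * M), EB y J F m := sum_nonneg fun m _ => EB_nonneg y J F m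
        calc 2 * (J : ℝ) * ∑ m ∈ Ioc M (2 * M), EB y J F m
            ≤ 2 * (8 * l) * (C3 * (8 * l) * (9 * l) ^ 6 * (3 * Q)) := by
              refine mul_le_mul (by linarith) (e5.trans ?_) hEB0 (by positivity)
              gcongr
          _ = 128 * 9 ^ 6 * 3 * C3 * l ^ 8 * Q := by ring
          _ ≤ 128 * 9 ^ 6 * 3 * C3 * l ^ 10 * Q := by
              have : l ^ 8 ≤ l ^ 10 := pow_le_pow_right₀ (by linarith) (by norm_num)
              gcongr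
    have h2 : ∑ m ∈ Ioc M (2 * M), 2 * ((m : ℝ) / m.totient) * (rest y J (4 * x) m) ^ 2 ≤ 92160000 * l ^ 10 * Q := by
      have e1 : r ^ 2 ≤ 5760000 * l ^ 8 / y := by
        rw [hr, div_pow, Real.sq_sqrt hy0.le]
        apply le_of_eq
        ring
      have e2 : (M : ℝ) / y ≤ Q := by
        rw [div_le_iff₀ hy0]
        calc (M : ℝ) = (M : ℝ) ^ (1 : ℝ) := (Real.rpow_one _).symm
          _ ≤ (M : ℝ) ^ (-θ - ε / 8 + (1 + θ + ε / 2)) := Real.rpow_le_rpow_of_exponent_le hM1 (by linarith)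
          _ = Q * (M : ℝ) ^ (1 + θ + ε / 2) := by rw [Real.rpow_add hM0, hQ]
          _ ≤ Q * y := by gcongr
      calc ∑ m ∈ Ioc M (2 * M), 2 * ((m : ℝ) / m.totient) * (rest y J (4 * x) m) ^ 2
          ≤ ∑ m ∈ Ioc M (2 * M), 2 * ((m : ℝ) / m.totient) * r ^ 2 := by
            apply sum_le_sum
            intro m hm
            apply mul_le_mul_of_nonneg_left _ (by positivity)
            exact pow_le_pow_left₀ (rest_nonneg _ _ _ _) (hrest m hm) 2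
        _ = 2 * r ^ 2 * ∑ m ∈ Ioc M (2 * M), ((m : ℝ) / m.totient) := by
            rw [mul_sum]
            exact sum_congr rfl fun m _ => by ring
        _ ≤ 2 * (5760000 * l ^ 8 / y) * (2 * M * (2 * l) ^ 2) := by
            have g1 := TM_mean (M := M) (by omega)
            have g2 : 2 * (M : ℝ) * (1 + Real.log (2 * M)) ^ 2 ≤ 2 * M * (2 * l) ^ 2 := by gcongr
            exact mul_le_mul (by linarith) (g1.trans g2) (sum_nonneg fun m _ => by positivity) (by positivity)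
        _ = 92160000 * l ^ 10 * (M / y) := by ring
        _ ≤ 92160000 * l ^ 10 * Q := by gcongr
    rw [sum_add_distrib]
    have h4 : 0 ≤ (C2 * 9 ^ 9 * 6 + 9600) * l ^ 10 * Q := by positivity
    calc _ ≤ 128 * 9 ^ 6 * 3 * C3 * l ^ 10 * Q + 92160000 * l ^ 10 * Q + (C2 * 9 ^ 9 * 6 + 9600) * l ^ 10 * Q := by
          linarith
      _ = _ := by ring

end Pool.Agent.K9h19.LW
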