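import Pool.Agent.K9h19.LW.LD5

/-! The number of moduli with too many bad classes, for one exponent: the theorem. -/

set_option autoImplicit false

open Finset

namespace Pool.Agent.K9h19.LW

open Pool.Agent.H410R2 (psiLog psiLogAP)
open Pool.Agent.H398R2.BV (Prim)

open Classical in
theorem power3 (hLWU : S_LWU) (hS : S_SPLIT) (hMVF : S_MVF) (hSQ : S_SQ) (ε : ℝ) (hε : 0 < ε) (hε1 : ε ≤ 1) :
    ∃ κ η : ℝ, 0 < κ ∧ 0 < η ∧ η ≤ 1 ∧ ∀ B : ℕ, ∃ M₀ : ℕ, ∀ M : ℕ, M₀ ≤ M → ∃ q₁ : ℕ,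
      (Real.log M) ^ B < (q₁ : ℝ) ∧ ∀ θ : ℝ, 0 ≤ θ → θ ≤ 2 → ∀ ρ : ℝ, 2 / √(Real.log M) ≤ ρ → ρ ≤ ε / 32 →
      (((Ioc M (2 * M)).filter (fun m => ¬ q₁ ∣ m ∧ (sp ⌊(M : ℝ) ^ ρ⌋₊ m : ℝ) ≤ (M : ℝ) ^ η ∧
          (M : ℝ) ^ (1 - θ - ε / 16) < bad3 θ ε κ m)).card : ℝ) ≤ (M : ℝ) ^ (1 - ρ / 3) := by
  obtain ⟨L, c₃, hL, hc₃, hlw⟩ := hLWU (ε / 16) (by linarith) (by linarith)
  obtain ⟨C5, hC5, hmeans⟩ := means hMVF hSQ
  have hLr : (1 : ℝ) ≤ L := by exact_mod_cast hL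
  have hlog2 := Real.log_two_lt_d9
  have hlog2' : 0 < Real.log 2 := Real.log_pos (by norm_num)
  refine ⟨Real.log 2 * c₃ / 96, 1 / L, by positivity, by positivity, ?_, ?_⟩
  · rw [div_le_one (by linarith)]; exact hLr
  intro B
  obtain ⟨x₀, hx₀⟩ := hlw B
  obtain ⟨K, hK⟩ : ∃ K : ℝ, K = 99200 / (Real.log 2 * c₃) := ⟨_, rfl⟩
  have hK0 : 0 < K := by rw [hK]; positivity
  obtain ⟨d, hd⟩ : ∃ d : ℝ, d = Real.log 2 * c₃ / 32 := ⟨_, rfl⟩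
  have hd0 : 0 < d := by rw [hd]; positivity
  obtain ⟨C4, hC4⟩ : ∃ C4 : ℝ, C4 = C5 / d + C5 / d ^ 2 := ⟨_, rfl⟩
  have hC40 : 0 < C4 := by rw [hC4]; positivity
  obtain ⟨s0, hs0⟩ : ∃ s0 : ℝ, s0 = 3000000000000 * C4 + 1 := ⟨_, rfl⟩
  obtain ⟨T, hT⟩ : ∃ T : ℝ, T = 64 / ε + (31104 * K / ε ^ 4 + 1) + s0 ^ 2 := ⟨_, rfl⟩
  have g1 : 0 ≤ 64 / ε := by positivity
  have g2 : 0 ≤ 31104 * K / ε ^ 4 + 1 := by positivity
  have g3 : 0 ≤ s0 ^ 2 := sq_nonneg s0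
  have hT1 : 64 / ε ≤ T := by rw [hT]; linarith only [g2, g3]
  have hT2 : 31104 * K / ε ^ 4 + 1 ≤ T := by rw [hT]; linarith only [g1, g3]
  have hT3 : s0 ^ 2 ≤ T := by rw [hT]; linarith only [g1, g2]
  refine ⟨max (max x₀ 2) ⌈Real.exp T⌉₊, fun M hM => ?_⟩
  have hMx : x₀ ≤ M := ((le_max_left _ _).trans (le_max_left _ _)).trans hM
  have hM2 : 2 ≤ M := ((le_max_right _ _).trans (le_max_left _ _)).trans hM
  have hMe : Real.exp T ≤ M := (Nat.le_ceil _).trans (by exact_mod_cast (le_max_right _ _).trans hM)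
  have hM2r : (2 : ℝ) ≤ M := by exact_mod_cast hM2
  have hM0 : (0 : ℝ) < M := by linarith
  have hM1 : (1 : ℝ) ≤ M := by linarith
  have hlT : T ≤ Real.log M := (Real.le_log_iff_exp_le hM0).2 hMe
  have hl : 64 / ε ≤ Real.log M := hT1.trans hlT
  have hl64 : 64 ≤ Real.log M := by
    refine le_trans ?_ hl
    rw [le_div_iff₀ hε]
    linarith
  have hMexp : ∀ t : ℝ, (M : ℝ) ^ t = Real.exp (Real.log M * t) := fun t => Real.rpow_def_of_pos hM0 t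
  have hgrow : K * (Real.log M) ^ 2 ≤ (M : ℝ) ^ (ε / 6) := by
    rw [hMexp]
    exact grow5 hK0 hε (hT2.trans hlT)
  obtain ⟨q₁, hq₁, hmain⟩ := hx₀ M hMx
  refine ⟨q₁, hq₁, ?_⟩
  intro θ hθ hθ2 ρ hρ hρ2
  obtain ⟨x, y, y₁, J, w1, w2, w3, w4, w5, w6, w7, w8, w9, w10, w11, w12, w13, w14, w15⟩ :=
    window3 hθ hθ2 hε hε1 hM2 hl
  obtain ⟨s, hs⟩ : ∃ s : ℝ, s = √(Real.log M) := ⟨_, rfl⟩
  have hs00 : 0 ≤ s0 := by rw [hs0]; positivity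
  have hss0 : s0 ≤ s := by
    rw [hs]
    exact Real.le_sqrt_of_sq_le (hT3.trans hlT)
  have hs1 : 1 ≤ s := by
    have : 0 < 3000000000000 * C4 := by positivity
    linarith only [this, hs0, hss0]
  have hsl : s ^ 2 = Real.log M := by
    rw [hs]
    exact Real.sq_sqrt (Real.log_natCast_nonneg M)
  rw [← hs] at hρ
  have hs0' : 0 < s := by linarith only [hs1]
  have hρs : 2 ≤ ρ * s := by rwa [div_le_iff₀ hs0'] at hρ
  have hρ0 : 0 < ρ := by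
    by_contra hcon
    nlinarith only [hcon, hρs, hs0']
  have hρl : 2 * s ≤ ρ * Real.log M := by
    rw [← hsl]
    nlinarith only [hρs, hs0']
  have hg := grow6 hC40 (s := s) (by rw [← hs0]; exact hss0)
  rw [hsl] at hg
  have hbig : C4 * (Real.log M) ^ 8 ≤ (M : ℝ) ^ (2 * ρ / 3) := by
    refine hg.trans ?_
    rw [hMexp]
    apply Real.exp_le_exp.2
    linarith only [hρl]
  -- parameters
  obtain ⟨R, hR⟩ : ∃ R : ℕ, R = ⌊(M : ℝ) ^ ρ⌋₊ := ⟨_, rfl⟩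
  obtain ⟨F, hF⟩ : ∃ F : ℕ, F = min ⌊(M : ℝ) ^ ((1 + θ) / 2 + ε / 8)⌋₊ (2 * M) := ⟨_, rfl⟩
  obtain ⟨m1, m2⟩ := hmeans θ ε ρ M x y J R F hθ hθ2 hε hε1 hρ0 hρ2 hM2 hl w4 w5 w6 w7 w13 hR hF
  rw [← hR]
  obtain ⟨l, hl'⟩ : ∃ l : ℝ, l = Real.log M := ⟨_, rfl⟩
  have hl0 : 0 < l := by rw [hl']; linarith only [hl64]
  obtain ⟨δ, hδ⟩ : ∃ δ : ℝ, δ = d * l / M := ⟨_, rfl⟩
  have hδ0 : 0 < δ := by rw [hδ]; positivity
  have hδ' : δ = Real.log 2 * c₃ / 32 * Real.log M / M := by rw [hδ, hd, hl']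
  -- the two sets
  obtain ⟨S, hSS⟩ : ∃ S : Finset ℕ, S = (Ioc M (2 * M)).filter (fun m => ¬ q₁ ∣ m ∧ (sp R m : ℝ) ≤ (M : ℝ) ^ (1 / (L : ℝ)) ∧
      (M : ℝ) ^ (1 - θ - ε / 16) < bad3 θ ε (Real.log 2 * c₃ / 96) m) := ⟨_, rfl⟩
  rw [← hSS]
  obtain ⟨SA, hSA⟩ : ∃ SA : Finset ℕ, SA = (Ioc M (2 * M)).filter (fun m => δ ≤ EF y J R F m + DF F m * rest y J (4 * x) m) :=
    ⟨_, rfl⟩
  obtain ⟨SB, hSB⟩ : ∃ SB : Finset ℕ, SB = S.filter (fun m => ¬ δ ≤ EF y J R F m + DF F m * rest y J (4 * x) m) :=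
    ⟨_, rfl⟩
  have hcover : S ⊆ SA ∪ SB := by
    intro m hm
    rw [mem_union, hSA, hSB, mem_filter, mem_filter]
    by_cases h : δ ≤ EF y J R F m + DF F m * rest y J (4 * x) m
    · left
      refine ⟨?_, h⟩
      rw [hSS, mem_filter] at hm
      exact hm.1
    · exact Or.inr ⟨hm, h⟩
  rw [← hl'] at m1 m2 hbig
  -- `SA`
  have hA : (SA.card : ℝ) ≤ C5 / d * l ^ 8 * (M : ℝ) ^ (1 - ρ) := by
    have h1 : (SA.card : ℝ) * δ ≤ C5 * l ^ 9 * (M : ℝ) ^ (-ρ) := by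
      refine le_trans ?_ m1
      rw [← nsmul_eq_mul, ← sum_const]
      calc ∑ _m ∈ SA, δ ≤ ∑ m ∈ SA, (EF y J R F m + DF F m * rest y J (4 * x) m) := by
            apply sum_le_sum
            intro m hm
            rw [hSA, mem_filter] at hm
            exact hm.2
        _ ≤ _ := by
            apply sum_le_sum_of_subset_of_nonneg
            · rw [hSA]; exact filter_subset _ _
            · intro m _ _
              exact add_nonneg (EF_nonneg _ _ _ _ _) (mul_nonneg (DF_nonneg _ _) (rest_nonneg _ _ _ _))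
    have h2 : (M : ℝ) ^ (1 - ρ) = M * (M : ℝ) ^ (-ρ) := by
      rw [sub_eq_add_neg, Real.rpow_add hM0, Real.rpow_one]
    have h3 : C5 * l ^ 9 * (M : ℝ) ^ (-ρ) = (C5 / d * l ^ 8 * (M : ℝ) ^ (1 - ρ)) * δ := by
      rw [h2, hδ]
      field_simp
    rw [h3] at h1
    exact le_of_mul_le_mul_right h1 hδ0
  -- `SB`
  have hB : (SB.card : ℝ) ≤ C5 / d ^ 2 * l ^ 8 * (M : ℝ) ^ (1 - ρ) := by
    obtain ⟨P, hP⟩ : ∃ P : ℝ, P = (M : ℝ) ^ (1 - θ - ε / 16) := ⟨_, rfl⟩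
    have hP0 : 0 < P := by rw [hP]; exact Real.rpow_pos_of_pos hM0 _
    have hkey : ∀ m ∈ SB, P * δ ^ 2 ≤
        2 * J * EB y J F m + 2 * ((m : ℝ) / m.totient) * (rest y J (4 * x) m) ^ 2 := by
      intro m hm
      rw [hSB, mem_filter, hSS, mem_filter, mem_Ioc, not_le] at hm
      obtain ⟨⟨⟨hm1, hm2⟩, hm3, hm4, hm5⟩, hm6⟩ := hm
      have hspd : sp R m ∣ m := sp_dvd' (by omega)
      have hspL : sp R m ^ L ≤ M := by
        have h1 : ((sp R m : ℝ)) ^ L ≤ ((M : ℝ) ^ (1 / (L : ℝ))) ^ L := pow_le_pow_left₀ (Nat.cast_nonneg _) hm4 L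
        rw [← Real.rpow_natCast ((M : ℝ) ^ (1 / (L : ℝ))), ← Real.rpow_mul hM0.le, one_div,
          inv_mul_cancel₀ (by linarith), Real.rpow_one] at h1
        exact_mod_cast h1
      rw [hK] at hgrow
      have h1 := one_mod hS (R := R) (F := F) hθ hε hc₃ hM2 hl64 hgrow hm1 hm2 w1 w3 w4 w5 w7 w9 w10 w11 w12 w13 w14 w15
        (fun c hc => hmain x w1 w2 (sp R m) c y (sp_pos' R m) hspL (fun h => hm3 (h.trans hspd))
          (Nat.Coprime.coprime_dvd_right hspd hc) w8) (by rw [← hδ']; exact hm6)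
      rw [← hδ'] at h1
      refine le_trans ?_ h1
      rw [← hP] at hm5
      gcongr
    have h1 : (SB.card : ℝ) * (P * δ ^ 2) ≤ C5 * l ^ 10 * (M : ℝ) ^ (-θ - ε / 8) := by
      refine le_trans ?_ m2
      rw [← nsmul_eq_mul, ← sum_const]
      refine (sum_le_sum hkey).trans ?_
      apply sum_le_sum_of_subset_of_nonneg
      · rw [hSB, hSS]
        exact (filter_subset _ _).trans (filter_subset _ _)
      · intro m _ _
        have e1 := EB_nonneg y J F m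
        positivity
    have h2 : (M : ℝ) ^ (-θ - ε / 8) = (M : ℝ) ^ (1 - ε / 16) * P / M ^ 2 := by
      have e1 : (M : ℝ) ^ 2 = (M : ℝ) ^ (2 : ℝ) := by norm_num
      rw [hP, e1, ← Real.rpow_add hM0, ← Real.rpow_sub hM0]
      congr 1
      ring
    have h3 : C5 * l ^ 10 * (M : ℝ) ^ (-θ - ε / 8) = (C5 / d ^ 2 * l ^ 8 * (M : ℝ) ^ (1 - ε / 16)) * (P * δ ^ 2) := by
      rw [h2, hδ]
      field_simp
    rw [h3] at h1
    have h4 := le_of_mul_le_mul_right h1 (by positivity)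
    refine h4.trans ?_
    have h5 : (M : ℝ) ^ (1 - ε / 16) ≤ (M : ℝ) ^ (1 - ρ) := Real.rpow_le_rpow_of_exponent_le hM1 (by linarith)
    gcongr
  have hcard : (S.card : ℝ) ≤ SA.card + SB.card := by
    exact_mod_cast (card_le_card hcover).trans (card_union_le _ _)
  calc (S.card : ℝ) ≤ C5 / d * l ^ 8 * (M : ℝ) ^ (1 - ρ) + C5 / d ^ 2 * l ^ 8 * (M : ℝ) ^ (1 - ρ) := by linarith
    _ = (C4 * l ^ 8) * (M : ℝ) ^ (1 - ρ) := by rw [hC4]; ring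
    _ ≤ (M : ℝ) ^ (2 * ρ / 3) * (M : ℝ) ^ (1 - ρ) := by gcongr
    _ = (M : ℝ) ^ (1 - ρ / 3) := by
        rw [← Real.rpow_add hM0]
        congr 1
        ring

end Pool.Agent.K9h19.LW
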