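import Pool.Agent.K9h19.LW.LD6

/-! All exponents at once, and the moduli with a large smooth part. -/

set_option autoImplicit false

open Finset

namespace Pool.Agent.K9h19.LW

/-- the primes `p ≡ c` modulo `m` with `m^(t-ν) < p < m^t` have `∑ log p/p ≥ κ log m/φ(m)` -/
def ManyT (t ν κ : ℝ) (m c : ℕ) : Prop :=
  κ * Real.log m / m.totient ≤
    ∑ p ∈ (Icc 1 ⌊(m : ℝ) ^ t⌋₊).filter (fun p => p.Prime ∧ p ≡ c [MOD m] ∧
      (m : ℝ) ^ (t - ν) < p ∧ (p : ℝ) < (m : ℝ) ^ t), Real.log p / p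

open Classical in
/-- the number of classes prime to `m` for which this fails -/
noncomputable def fewT (t ν κ : ℝ) (m : ℕ) : ℕ :=
  ((range m).filter (fun c => c.Coprime m ∧ ¬ ManyT t ν κ m c)).card

/-- the bound which follows from GRH, for all exponents -/
def GoodT (ν κ : ℝ) (m : ℕ) : Prop := ∀ t : ℝ, 1 ≤ t → t ≤ 3 → (fewT t ν κ m : ℝ) ≤ (m : ℝ) ^ (2 - t + ν)

lemma many_mono {θ t ν κ : ℝ} {m c : ℕ} (hν : 0 < ν) (hm : 1 ≤ m) (h1 : t - 1 - ν ≤ θ) (h2 : θ ≤ t - 1 - ν / 2)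
    (h : Many3 θ (ν / 2) κ m c) : ManyT t ν κ m c := by
  have hm1 : (1 : ℝ) ≤ m := by exact_mod_cast hm
  unfold Many3 at h
  unfold ManyT
  refine h.trans ?_
  apply sum_le_sum_of_subset_of_nonneg
  · intro p hp
    rw [mem_filter, mem_Icc] at hp ⊢
    obtain ⟨⟨a1, a2⟩, a3, a4, a5, a6⟩ := hp
    have e1 : (m : ℝ) ^ (1 + θ + ν / 2) ≤ (m : ℝ) ^ t := Real.rpow_le_rpow_of_exponent_le hm1 (by linarith)
    have e2 : (m : ℝ) ^ (t - ν) ≤ (m : ℝ) ^ (1 + θ + ν / 2 / 3) :=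
      Real.rpow_le_rpow_of_exponent_le hm1 (by linarith)
    have e3 : (p : ℝ) < (m : ℝ) ^ t := lt_of_lt_of_le a6 e1
    exact ⟨⟨a1, Nat.le_floor e3.le⟩, a3, a4, lt_of_le_of_lt e2 a5, e3⟩
  · intro p _ _
    exact div_nonneg (Real.log_natCast_nonneg p) (Nat.cast_nonneg p)

lemma few_le_bad {θ t ν κ : ℝ} {m : ℕ} (hν : 0 < ν) (hm : 1 ≤ m) (h1 : t - 1 - ν ≤ θ) (h2 : θ ≤ t - 1 - ν / 2) :
    fewT t ν κ m ≤ bad3 θ (ν / 2) κ m := by
  classical
  unfold fewT bad3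
  apply card_le_card
  intro c hc
  rw [mem_filter] at hc ⊢
  exact ⟨hc.1, hc.2.1, fun h => hc.2.2 (many_mono hν hm h1 h2 h)⟩

lemma few_le (t ν κ : ℝ) (m : ℕ) : fewT t ν κ m ≤ m := by
  classical
  unfold fewT
  exact (card_filter_le _ _).trans (by rw [card_range])

/-- a modulus which is not good is bad for one point of the grid -/
lemma grid {ν κ : ℝ} {M m N₀ : ℕ} (hν : 0 < ν) (hν1 : ν ≤ 1) (hM : 2 ≤ M) (hm : M < m) (hN : 4 / ν ≤ N₀)
    (h : ∀ i ∈ range (N₀ + 1), (i : ℝ) * (ν / 2) ≤ 2 →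
      (bad3 ((i : ℝ) * (ν / 2)) (ν / 2) κ m : ℝ) ≤ (M : ℝ) ^ (1 - (i : ℝ) * (ν / 2) - ν / 2 / 16)) :
    GoodT ν κ m := by
  have hM2 : (2 : ℝ) ≤ M := by exact_mod_cast hM
  have hM1 : (1 : ℝ) ≤ M := by linarith
  have hM0 : (0 : ℝ) < M := by linarith
  have hmM : (M : ℝ) ≤ m := by exact_mod_cast hm.le
  have hm1 : (1 : ℝ) ≤ m := by linarith
  intro t ht1 ht3
  rcases lt_or_ge t (1 + ν) with h0 | h0
  · calc (fewT t ν κ m : ℝ) ≤ m := by exact_mod_cast few_le t ν κ m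
      _ = (m : ℝ) ^ (1 : ℝ) := (Real.rpow_one _).symm
      _ ≤ (m : ℝ) ^ (2 - t + ν) := Real.rpow_le_rpow_of_exponent_le hm1 (by linarith)
  · obtain ⟨i, hi⟩ : ∃ i : ℕ, i = ⌈(t - 1 - ν) / (ν / 2)⌉₊ := ⟨_, rfl⟩
    have hu0 : 0 ≤ (t - 1 - ν) / (ν / 2) := div_nonneg (by linarith) (by linarith)
    have hi1 : t - 1 - ν ≤ (i : ℝ) * (ν / 2) := by
      have := Nat.le_ceil ((t - 1 - ν) / (ν / 2))
      rw [← hi, div_le_iff₀ (by linarith)] at this
      exact this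
    have hi2 : (i : ℝ) * (ν / 2) ≤ t - 1 - ν / 2 := by
      have := Nat.ceil_lt_add_one hu0
      rw [← hi] at this
      have h2 : (i : ℝ) * (ν / 2) ≤ ((t - 1 - ν) / (ν / 2) + 1) * (ν / 2) :=
        mul_le_mul_of_nonneg_right this.le (by linarith)
      have h3 : ((t - 1 - ν) / (ν / 2) + 1) * (ν / 2) = t - 1 - ν / 2 := by
        rw [add_mul, div_mul_cancel₀ _ (by linarith)]
        ring
      linarith
    have hiN : i ∈ range (N₀ + 1) := by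
      rw [mem_range, hi]
      have : (t - 1 - ν) / (ν / 2) ≤ N₀ := by
        refine le_trans ?_ hN
        rw [div_le_div_iff₀ (by linarith) hν]
        nlinarith
      have := Nat.ceil_le.2 this
      omega
    have h4 := h i hiN (by linarith)
    have h5 : (fewT t ν κ m : ℝ) ≤ bad3 ((i : ℝ) * (ν / 2)) (ν / 2) κ m := by
      exact_mod_cast few_le_bad hν (by omega) hi1 hi2
    rcases le_or_gt 0 (1 - (i : ℝ) * (ν / 2) - ν / 2 / 16) with h6 | h6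
    · calc (fewT t ν κ m : ℝ) ≤ (M : ℝ) ^ (1 - (i : ℝ) * (ν / 2) - ν / 2 / 16) := h5.trans h4
        _ ≤ (m : ℝ) ^ (1 - (i : ℝ) * (ν / 2) - ν / 2 / 16) := Real.rpow_le_rpow hM0.le hmM h6
        _ ≤ (m : ℝ) ^ (2 - t + ν) := Real.rpow_le_rpow_of_exponent_le hm1 (by linarith)
    · have h7 : (fewT t ν κ m : ℝ) ≤ 0 := by
        have h8 : (M : ℝ) ^ (1 - (i : ℝ) * (ν / 2) - ν / 2 / 16) < 1 := by
          exact Real.rpow_lt_one_of_one_lt_of_neg (by linarith) h6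
        have h9 : (fewT t ν κ m : ℝ) < 1 := lt_of_le_of_lt (h5.trans h4) h8
        have h10 : fewT t ν κ m < 1 := by exact_mod_cast h9
        have h11 : fewT t ν κ m = 0 := by omega
        rw [h11]
        simp
      exact h7.trans (Real.rpow_nonneg (by linarith) _)

end Pool.Agent.K9h19.LW
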