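import Pool.Agent.K9h19.LW.LD7

/-! All exponents at once: the count. -/

set_option autoImplicit false

open Finset

namespace Pool.Agent.K9h19.LW

open Classical in
theorem ldcount (hLWU : S_LWU) (hS : S_SPLIT) (hMVF : S_MVF) (hSQ : S_SQ) (hSM : S_SM) (ν : ℝ) (hν : 0 < ν) (hν1 : ν ≤ 1) :
    ∃ κ η C : ℝ, 0 < κ ∧ 0 < η ∧ 0 < C ∧ ∀ B : ℕ, ∃ M₀ : ℕ, ∀ M : ℕ, M₀ ≤ M → ∃ q₁ : ℕ,
      (Real.log M) ^ B < (q₁ : ℝ) ∧ ∀ ρ : ℝ, 2 / √(Real.log M) ≤ ρ → ρ ≤ ν / 64 →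
      (((Ioc M (2 * M)).filter (fun m => ¬ q₁ ∣ m ∧ (sp ⌊(M : ℝ) ^ ρ⌋₊ m : ℝ) ≤ (M : ℝ) ^ η ∧
          ¬ GoodT ν κ m)).card : ℝ) ≤ (M : ℝ) ^ (1 - ρ / 4) ∧
      (((Ioc M (2 * M)).filter (fun m => ¬ q₁ ∣ m ∧ ¬ GoodT ν κ m)).card : ℝ) ≤ C * M * Real.exp (-(η / ρ)) := by
  obtain ⟨κ, η, hκ, hη, hη1, hpow⟩ := power3 hLWU hS hMVF hSQ (ν / 2) (by linarith) (by linarith)
  obtain ⟨C2, hC2, y₀, hsm⟩ := hSM
  refine ⟨κ, η, 1 + C2, hκ, hη, by linarith, fun B => ?_⟩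
  obtain ⟨M1, hM1⟩ := hpow B
  obtain ⟨N₀, hN₀⟩ : ∃ N₀ : ℕ, N₀ = ⌈4 / ν⌉₊ := ⟨_, rfl⟩
  have hN4 : 4 / ν ≤ N₀ := by rw [hN₀]; exact Nat.le_ceil _
  obtain ⟨s0, hs0⟩ : ∃ s0 : ℝ, s0 = 1 + y₀ + 6 * (N₀ + 1) := ⟨_, rfl⟩
  refine ⟨max (max M1 2) ⌈Real.exp (s0 ^ 2)⌉₊, fun M hM => ?_⟩
  have hMM1 : M1 ≤ M := ((le_max_left _ _).trans (le_max_left _ _)).trans hM
  have hM2 : 2 ≤ M := ((le_max_right _ _).trans (le_max_left _ _)).trans hM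
  have hMe : Real.exp (s0 ^ 2) ≤ M := (Nat.le_ceil _).trans (by exact_mod_cast (le_max_right _ _).trans hM)
  have hM2r : (2 : ℝ) ≤ M := by exact_mod_cast hM2
  have hM0 : (0 : ℝ) < M := by linarith
  have hM1r : (1 : ℝ) ≤ M := by linarith
  have hl : s0 ^ 2 ≤ Real.log M := (Real.le_log_iff_exp_le hM0).2 hMe
  obtain ⟨s, hs⟩ : ∃ s : ℝ, s = √(Real.log M) := ⟨_, rfl⟩
  have hss0 : s0 ≤ s := by
    rw [hs]
    exact Real.le_sqrt_of_sq_le hl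
  have hy0r : (0 : ℝ) ≤ y₀ := Nat.cast_nonneg _
  have hN0r : (0 : ℝ) ≤ N₀ := Nat.cast_nonneg _
  have hs1 : 1 ≤ s := by linarith
  have hsl : s ^ 2 = Real.log M := by
    rw [hs]
    exact Real.sq_sqrt (Real.log_natCast_nonneg M)
  obtain ⟨q₁, hq₁, hmain⟩ := hM1 M hMM1
  refine ⟨q₁, hq₁, fun ρ hρ hρ2 => ?_⟩
  have hρ' := hρ
  rw [← hs] at hρ
  have hs0' : 0 < s := by linarith
  have hρs : 2 ≤ ρ * s := by rwa [div_le_iff₀ hs0'] at hρ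
  have hρ0 : 0 < ρ := by
    by_contra hcon
    nlinarith
  have hρl : 2 * s ≤ ρ * Real.log M := by
    rw [← hsl]
    nlinarith
  have hMexp : ∀ t : ℝ, (M : ℝ) ^ t = Real.exp (Real.log M * t) := fun t => Real.rpow_def_of_pos hM0 t
  -- all exponents
  have h1 : (((Ioc M (2 * M)).filter (fun m => ¬ q₁ ∣ m ∧ (sp ⌊(M : ℝ) ^ ρ⌋₊ m : ℝ) ≤ (M : ℝ) ^ η ∧
      ¬ GoodT ν κ m)).card : ℝ) ≤ (M : ℝ) ^ (1 - ρ / 4) := by
    obtain ⟨I, hI⟩ : ∃ I : Finset ℕ, I = (range (N₀ + 1)).filter (fun i : ℕ => (i : ℝ) * (ν / 2) ≤ 2) := ⟨_, rfl⟩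
    have hsub : (Ioc M (2 * M)).filter (fun m => ¬ q₁ ∣ m ∧ (sp ⌊(M : ℝ) ^ ρ⌋₊ m : ℝ) ≤ (M : ℝ) ^ η ∧
        ¬ GoodT ν κ m) ⊆ I.biUnion (fun i : ℕ => (Ioc M (2 * M)).filter (fun m => ¬ q₁ ∣ m ∧
          (sp ⌊(M : ℝ) ^ ρ⌋₊ m : ℝ) ≤ (M : ℝ) ^ η ∧
          (M : ℝ) ^ (1 - (i : ℝ) * (ν / 2) - ν / 2 / 16) < bad3 ((i : ℝ) * (ν / 2)) (ν / 2) κ m)) := by
      intro m hm
      rw [mem_filter, mem_Ioc] at hm
      obtain ⟨⟨a1, a2⟩, a3, a4, a5⟩ := hm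
      by_contra hcon
      apply a5
      apply grid hν hν1 hM2 a1 hN4
      intro i hi hi2
      by_contra hlt
      push Not at hlt
      apply hcon
      rw [mem_biUnion]
      refine ⟨i, ?_, ?_⟩
      · rw [hI, mem_filter]
        exact ⟨hi, hi2⟩
      · rw [mem_filter, mem_Ioc]
        exact ⟨⟨a1, a2⟩, a3, a4, hlt⟩
    have h2 : (((Ioc M (2 * M)).filter (fun m => ¬ q₁ ∣ m ∧ (sp ⌊(M : ℝ) ^ ρ⌋₊ m : ℝ) ≤ (M : ℝ) ^ η ∧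
        ¬ GoodT ν κ m)).card : ℝ) ≤ ∑ _i ∈ I, (M : ℝ) ^ (1 - ρ / 3) := by
      have e1 := (card_le_card hsub).trans card_biUnion_le
      have e2 : (((Ioc M (2 * M)).filter (fun m => ¬ q₁ ∣ m ∧ (sp ⌊(M : ℝ) ^ ρ⌋₊ m : ℝ) ≤ (M : ℝ) ^ η ∧
          ¬ GoodT ν κ m)).card : ℝ) ≤ ∑ i ∈ I, (((Ioc M (2 * M)).filter (fun m => ¬ q₁ ∣ m ∧
          (sp ⌊(M : ℝ) ^ ρ⌋₊ m : ℝ) ≤ (M : ℝ) ^ η ∧
          (M : ℝ) ^ (1 - (i : ℝ) * (ν / 2) - ν / 2 / 16) < bad3 ((i : ℝ) * (ν / 2)) (ν / 2) κ m)).card : ℝ) := by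
        exact_mod_cast e1
      refine e2.trans (sum_le_sum fun i hi => ?_)
      rw [hI, mem_filter] at hi
      exact hmain ((i : ℝ) * (ν / 2)) (by positivity) hi.2 ρ hρ' (by linarith)
    refine h2.trans ?_
    rw [sum_const, nsmul_eq_mul]
    have h3 : (I.card : ℝ) ≤ N₀ + 1 := by
      have : I.card ≤ N₀ + 1 := by
        rw [hI]
        exact (card_filter_le _ _).trans (by rw [card_range])
      exact_mod_cast this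
    have h4 : (N₀ : ℝ) + 1 ≤ (M : ℝ) ^ (ρ / 12) := by
      rw [hMexp]
      have e1 : s / 6 ≤ Real.log M * (ρ / 12) := by nlinarith
      have e2 := Real.add_one_le_exp (Real.log M * (ρ / 12))
      linarith
    calc (I.card : ℝ) * (M : ℝ) ^ (1 - ρ / 3) ≤ (M : ℝ) ^ (ρ / 12) * (M : ℝ) ^ (1 - ρ / 3) := by
          have := h3.trans h4
          gcongr
      _ = (M : ℝ) ^ (1 - ρ / 4) := by
          rw [← Real.rpow_add hM0]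
          congr 1
          ring
  refine ⟨h1, ?_⟩
  -- the smooth parts
  obtain ⟨R, hR⟩ : ∃ R : ℕ, R = ⌊(M : ℝ) ^ ρ⌋₊ := ⟨_, rfl⟩
  rw [← hR] at h1
  have hMρ : Real.exp (2 * s) ≤ (M : ℝ) ^ ρ := by
    rw [hMexp]
    apply Real.exp_le_exp.2
    linarith
  have hy : 2 * (y₀ : ℝ) + 1 ≤ (M : ℝ) ^ ρ := by
    have e1 := Real.add_one_le_exp (2 * s)
    linarith
  have hRy : y₀ ≤ R := by rw [hR]; exact Nat.le_floor (by linarith)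
  have hR3 : 3 ≤ R := by
    rw [hR]
    apply Nat.le_floor
    have e1 := Real.add_one_le_exp (2 * s)
    push_cast
    linarith
  have hR0 : (0 : ℝ) < R := by exact_mod_cast (show 0 < R by omega)
  have hlR0 : 0 < Real.log R := Real.log_pos (by exact_mod_cast (show 1 < R by omega))
  have hlR : Real.log R ≤ ρ * Real.log M := by
    rw [← Real.log_rpow hM0]
    apply Real.log_le_log hR0
    rw [hR]
    exact Nat.floor_le (by positivity)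
  have hS := hsm R M ((M : ℝ) ^ η) hRy (by omega) (Real.one_le_rpow hM1r hη.le)
  have hlog0 : 0 < Real.log M := by rw [← hsl]; positivity
  have hS2 : C2 * M * Real.exp (-(Real.log ((M : ℝ) ^ η) / Real.log R)) ≤ C2 * M * Real.exp (-(η / ρ)) := by
    apply mul_le_mul_of_nonneg_left _ (by positivity)
    apply Real.exp_le_exp.2
    rw [neg_le_neg_iff, Real.log_rpow hM0, div_le_div_iff₀ hρ0 hlR0]
    calc η * Real.log R ≤ η * (ρ * Real.log M) := by gcongr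
      _ = η * Real.log M * ρ := by ring
  have hM3 : (M : ℝ) ^ (1 - ρ / 4) ≤ M * Real.exp (-(η / ρ)) := by
    have e1 : (M : ℝ) * Real.exp (-(η / ρ)) = Real.exp (Real.log M + -(η / ρ)) := by
      rw [Real.exp_add, Real.exp_log hM0]
    rw [hMexp, e1]
    apply Real.exp_le_exp.2
    have e2 : η / ρ ≤ ρ / 4 * Real.log M := by
      rw [div_le_iff₀ hρ0]
      have e3 : 4 ≤ ρ ^ 2 * Real.log M := by
        rw [← hsl]
        nlinarith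
      nlinarith
    nlinarith
  have hsub : ((Ioc M (2 * M)).filter (fun m => ¬ q₁ ∣ m ∧ ¬ GoodT ν κ m)) ⊆
      ((Ioc M (2 * M)).filter (fun m => ¬ q₁ ∣ m ∧ (sp R m : ℝ) ≤ (M : ℝ) ^ η ∧ ¬ GoodT ν κ m)) ∪
      ((Ioc M (2 * M)).filter (fun m => (M : ℝ) ^ η < (sp R m : ℝ))) := by
    intro m hm
    rw [mem_filter] at hm
    rw [mem_union, mem_filter, mem_filter]
    rcases le_or_gt (sp R m : ℝ) ((M : ℝ) ^ η) with h | h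
    · exact Or.inl ⟨hm.1, hm.2.1, h, hm.2.2⟩
    · exact Or.inr ⟨hm.1, h⟩
  have hcard : (((Ioc M (2 * M)).filter (fun m => ¬ q₁ ∣ m ∧ ¬ GoodT ν κ m)).card : ℝ) ≤
      (((Ioc M (2 * M)).filter (fun m => ¬ q₁ ∣ m ∧ (sp R m : ℝ) ≤ (M : ℝ) ^ η ∧ ¬ GoodT ν κ m)).card : ℝ) +
      (((Ioc M (2 * M)).filter (fun m => (M : ℝ) ^ η < (sp R m : ℝ))).card : ℝ) := by
    exact_mod_cast (card_le_card hsub).trans (card_union_le _ _)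
  have hS3 : (((Ioc M (2 * M)).filter (fun m => (M : ℝ) ^ η < (sp R m : ℝ))).card : ℝ) ≤
      C2 * M * Real.exp (-(η / ρ)) := by
    refine le_trans (le_of_eq ?_) (hS.trans hS2)
    congr 2
  calc (((Ioc M (2 * M)).filter (fun m => ¬ q₁ ∣ m ∧ ¬ GoodT ν κ m)).card : ℝ)
      ≤ M * Real.exp (-(η / ρ)) + C2 * M * Real.exp (-(η / ρ)) := by linarith
    _ = (1 + C2) * M * Real.exp (-(η / ρ)) := by ring

end Pool.Agent.K9h19.LW
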