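import Pool.Agent.K9h19.LW.Stm2
import Pool.Agent.K9h19.LW.VAR
import Pool.Agent.H398R2.BV5

/-! Leaf MV of project LW (helper19), by helper85. -/

set_option autoImplicit false

open Finset

namespace Pool.Agent.K9h19.LW

open Pool.Agent.H410R2 (psiLog psiLogAP)
open Pool.Agent.H398R2.BV (Prim TL)
open Pool.Agent.Helper112 (LamII)

theorem mv : S_MV := by
  classical
  refine ⟨200, by norm_num, ?_⟩
  intro M R U X hM hR hU hMX
  have hM2 : (2 : ℝ) ≤ M := by exact_mod_cast hM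
  have hX : 1 ≤ X := by linarith
  have hX0 : 0 < X := by linarith
  have hlX : 0 ≤ Real.log X := Real.log_nonneg hX
  set L : ℝ := 1 + Real.log X with hL
  have hL1 : 1 ≤ L := by linarith
  have hl2M : 1 + Real.log (2 * M) ≤ 2 * L := by
    rw [Real.log_mul (by norm_num) (by positivity)]
    have h1 : Real.log 2 ≤ 1 := by
      have := Real.log_two_lt_d9
      linarith
    have h2 : Real.log M ≤ Real.log X := Real.log_le_log (by positivity) hMX
    linarith
  have hl2M0 : 0 ≤ 1 + Real.log (2 * M) := by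
    have : 0 ≤ Real.log (2 * M) := Real.log_nonneg (by linarith)
    linarith
  set G : ℕ → ℝ := fun f => ∑ ψ ∈ Prim f, ‖psiLog X f ψ‖ with hG
  have hG0 : ∀ f, 0 ≤ G f := fun f => sum_nonneg fun ψ _ => norm_nonneg _
  -- interchange
  have h1 : ∀ m ∈ Ioc M (2 * M), (1 / (m.totient : ℝ)) *
      ∑ f ∈ m.divisors.filter (fun f => R < f), G f ≤
      ∑ f ∈ Ioc R (2 * M), if f ∣ m then 1 / (m.totient : ℝ) * G f else 0 := by
    intro m hm
    rw [mem_Ioc] at hm
    rw [mul_sum, ← sum_filter]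
    refine sum_le_sum_of_subset_of_nonneg ?_ ?_
    · intro f hf
      rw [mem_filter, Nat.mem_divisors] at hf
      rw [mem_filter, mem_Ioc]
      exact ⟨⟨hf.2, (Nat.le_of_dvd (by omega) hf.1.1).trans hm.2⟩, hf.1.1⟩
    · intro f _ _
      exact mul_nonneg (by positivity) (hG0 f)
  have h2 : ∑ m ∈ Ioc M (2 * M), (1 / (m.totient : ℝ)) *
      ∑ f ∈ m.divisors.filter (fun f => R < f), G f ≤
      (2 * L) ^ 2 * ∑ f ∈ Ioc R (2 * M), 1 / (f.totient : ℝ) * G f := by
    calc _ ≤ ∑ m ∈ Ioc M (2 * M), ∑ f ∈ Ioc R (2 * M),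
          (if f ∣ m then 1 / (m.totient : ℝ) * G f else 0) := sum_le_sum h1
      _ = ∑ f ∈ Ioc R (2 * M), ∑ m ∈ Ioc M (2 * M),
          (if f ∣ m then 1 / (m.totient : ℝ) * G f else 0) := sum_comm
      _ = ∑ f ∈ Ioc R (2 * M), (∑ m ∈ (Ioc M (2 * M)).filter (fun m => f ∣ m),
          1 / (m.totient : ℝ)) * G f := by
          refine sum_congr rfl fun f _ => ?_
          rw [← sum_filter, sum_mul]
      _ ≤ ∑ f ∈ Ioc R (2 * M), (1 / (f.totient : ℝ) * (2 * L) ^ 2) * G f := by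
          apply sum_le_sum
          intro f hf
          rw [mem_Ioc] at hf
          apply mul_le_mul_of_nonneg_right _ (hG0 f)
          refine (Vr.sum_inv_mult M f (by omega) hf.2).trans ?_
          gcongr
      _ = _ := by
          rw [mul_sum]
          refine sum_congr rfl fun f _ => ?_
          ring
  -- the terms
  have h3 : ∀ f ∈ Ioc R (2 * M), 1 / (f.totient : ℝ) * G f ≤
      8 * (U : ℝ) ^ 2 * (2 * M) * L ^ 2 +
      1 / (f.totient : ℝ) * ∑ ψ ∈ Prim f, ‖TL X f ψ (LamII U U)‖ := by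
    intro f hf
    rw [mem_Ioc] at hf
    have hφ : (0 : ℝ) < f.totient := by exact_mod_cast Nat.totient_pos.mpr (by omega)
    have hfM : (f : ℝ) ≤ 2 * M := by exact_mod_cast hf.2
    have h4 : G f ≤ f.totient * (8 * (U : ℝ) ^ 2 * (2 * M) * L ^ 2) +
        ∑ ψ ∈ Prim f, ‖TL X f ψ (LamII U U)‖ := by
      calc G f ≤ ∑ ψ ∈ Prim f, (8 * (U : ℝ) ^ 2 * (2 * M) * L ^ 2 +
            ‖TL X f ψ (LamII U U)‖) := by
            apply sum_le_sum
            intro ψ hψ
            refine (Pool.Agent.H398R2.BV.norm_psiLog_le X hX U U f hU hU (by omega) ψ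
              (Pool.Agent.H398R2.BV.prim_ne_one (by omega) hψ)).trans ?_
            apply add_le_add_left
            calc 8 * (U : ℝ) * U * f * Real.log X ^ 2 = 8 * (U : ℝ) ^ 2 * f * Real.log X ^ 2 := by
                  ring
              _ ≤ 8 * (U : ℝ) ^ 2 * (2 * M) * L ^ 2 := by
                  have : Real.log X ^ 2 ≤ L ^ 2 := by
                    apply pow_le_pow_left₀ hlX
                    linarith
                  gcongr
        _ = ((Prim f).card : ℝ) * (8 * (U : ℝ) ^ 2 * (2 * M) * L ^ 2) +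
            ∑ ψ ∈ Prim f, ‖TL X f ψ (LamII U U)‖ := by
            rw [sum_add_distrib, sum_const, nsmul_eq_mul]
        _ ≤ _ := by
            gcongr
            exact_mod_cast Pool.Agent.H398R2.BV.card_prim_le (f := f) (by omega)
    calc 1 / (f.totient : ℝ) * G f ≤ 1 / (f.totient : ℝ) *
          (f.totient * (8 * (U : ℝ) ^ 2 * (2 * M) * L ^ 2) +
        ∑ ψ ∈ Prim f, ‖TL X f ψ (LamII U U)‖) := by gcongr
      _ = _ := by
          rw [mul_add, ← mul_assoc, one_div_mul_cancel hφ.ne', one_mul]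
  have h5 : ∑ f ∈ Ioc R (2 * M), 1 / (f.totient : ℝ) * ∑ ψ ∈ Prim f, ‖TL X f ψ (LamII U U)‖ ≤
      12 * (1 + Real.log (2 * M : ℕ)) * (√X / R + (√(X / U) + √(X / U)) + (2 * M : ℕ)) *
        (√X * (1 + Real.log X) ^ 3) * Real.log X := by
    refine le_trans ?_ (Pool.Agent.H398R2.BV.typeII_block X hX U U R (2 * M) hU hU hR (by omega))
    apply sum_le_sum_of_subset_of_nonneg
    · intro f hf
      rw [mem_Ioc] at hf
      rw [mem_Icc]
      omega
    · intro f _ _
      exact mul_nonneg (by positivity) (sum_nonneg fun ψ _ => norm_nonneg _)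
  have hs : √X * √X = X := Real.mul_self_sqrt hX0.le
  have hUr : (1 : ℝ) ≤ U := by exact_mod_cast hU
  have hRr : (1 : ℝ) ≤ R := by exact_mod_cast hR
  have h6 : √(X / U) * √X = X / √U := by
    rw [Real.sqrt_div hX0.le, div_mul_eq_mul_div, hs]
  have h7 : 12 * (1 + Real.log (2 * M : ℕ)) * (√X / R + (√(X / U) + √(X / U)) + (2 * M : ℕ)) *
        (√X * (1 + Real.log X) ^ 3) * Real.log X ≤
      48 * L ^ 5 * (X / R + X / √U + M * √X) := by
    have e1 : (√X / R + (√(X / U) + √(X / U)) + (2 * M : ℕ)) * √X =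
        X / R + 2 * (X / √U) + 2 * (M * √X) := by
      rw [add_mul, add_mul, add_mul, h6, div_mul_eq_mul_div, hs]
      push_cast
      ring
    have e2 : X / R + 2 * (X / √U) + 2 * (M * √X) ≤ 2 * (X / R + X / √U + M * √X) := by
      have : 0 ≤ X / R := by positivity
      linarith
    have e3 : 1 + Real.log (2 * M : ℕ) ≤ 2 * L := by
      push_cast
      exact hl2M
    have e4 : 0 ≤ 1 + Real.log (2 * M : ℕ) := by
      push_cast
      exact hl2M0
    have e5 : 0 ≤ X / R + X / √U + M * √X := by positivity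
    calc _ = 12 * (1 + Real.log (2 * M : ℕ)) *
          ((√X / R + (√(X / U) + √(X / U)) + (2 * M : ℕ)) * √X) * L ^ 3 * Real.log X := by
          ring
      _ = 12 * (1 + Real.log (2 * M : ℕ)) *
          (X / R + 2 * (X / √U) + 2 * (M * √X)) * L ^ 3 * Real.log X := by rw [e1]
      _ ≤ 12 * (2 * L) * (2 * (X / R + X / √U + M * √X)) * L ^ 3 * L := by
          have : Real.log X ≤ L := by linarith
          gcongr
      _ = _ := by ring
  have hcard : ∑ _f ∈ Ioc R (2 * M), 8 * (U : ℝ) ^ 2 * (2 * M) * L ^ 2 ≤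
      32 * (U : ℝ) ^ 2 * M ^ 2 * L ^ 2 := by
    rw [sum_const, nsmul_eq_mul, Nat.card_Ioc]
    have : ((2 * M - R : ℕ) : ℝ) ≤ 2 * M := by
      exact_mod_cast (Nat.sub_le (2 * M) R)
    calc ((2 * M - R : ℕ) : ℝ) * (8 * (U : ℝ) ^ 2 * (2 * M) * L ^ 2) ≤
          (2 * M) * (8 * (U : ℝ) ^ 2 * (2 * M) * L ^ 2) := by gcongr
      _ = _ := by ring
  calc _ ≤ (2 * L) ^ 2 * ∑ f ∈ Ioc R (2 * M), 1 / (f.totient : ℝ) * G f := h2
    _ ≤ (2 * L) ^ 2 * (32 * (U : ℝ) ^ 2 * M ^ 2 * L ^ 2 +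
        48 * L ^ 5 * (X / R + X / √U + M * √X)) := by
        gcongr
        refine (sum_le_sum h3).trans ?_
        rw [sum_add_distrib]
        exact add_le_add hcard (h5.trans h7)
    _ ≤ 200 * L ^ 8 * (X / R + X / √U + M * √X + (U : ℝ) ^ 2 * (M : ℝ) ^ 2) := by
        have e5 : 0 ≤ X / R + X / √U + M * √X := by positivity
        have e6 : 0 ≤ (U : ℝ) ^ 2 * (M : ℝ) ^ 2 := by positivity
        have e7 : L ^ 4 ≤ L ^ 8 := pow_le_pow_right₀ hL1 (by norm_num)
        have e8 : L ^ 7 ≤ L ^ 8 := pow_le_pow_right₀ hL1 (by norm_num)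
        have e9 : L ^ 4 * ((U : ℝ) ^ 2 * (M : ℝ) ^ 2) ≤ L ^ 8 * ((U : ℝ) ^ 2 * (M : ℝ) ^ 2) := by
          gcongr
        have e10 : L ^ 7 * (X / R + X / √U + M * √X) ≤ L ^ 8 * (X / R + X / √U + M * √X) := by
          gcongr
        have e11 : 0 ≤ L ^ 8 * (X / R + X / √U + M * √X) := by positivity
        have e12 : 0 ≤ L ^ 8 * ((U : ℝ) ^ 2 * (M : ℝ) ^ 2) := by positivity
        nlinarith [e9, e10, e11, e12]

end Pool.Agent.K9h19.LW
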