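import Pool.Agent.K9h19.LW.Stm
import Pool.Agent.Y851.HZ.WN

/-! Task PAIR: ordered pairs by the smaller member. -/

set_option autoImplicit false

open Finset

namespace Pool.Agent.K9h19.LW

open Pool.Agent.Y851.HZ (LR zR muR ER DD LR_nonneg res_apply)
open Pool.Agent.H318R2.Cr (Rgh)

theorem cls_cast {q m b : ℕ} (hq : 1 ≤ q) :
    ((cls q m b : ℕ) : ZMod q) = (b : ZMod q) * (m : ZMod q)⁻¹ := by
  haveI : NeZero q := ⟨by omega⟩
  rw [cls, ZMod.natCast_val, ZMod.cast_id]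

theorem cls_iff {q m b k : ℕ} (hq : 1 ≤ q) (hm : m.Coprime q) :
    k ≡ cls q m b [MOD q] ↔ m * k ≡ b [MOD q] := by
  rw [← ZMod.natCast_eq_natCast_iff, ← ZMod.natCast_eq_natCast_iff, cls_cast hq]
  have h1 : (m : ZMod q) * (m : ZMod q)⁻¹ = 1 := ZMod.coe_mul_inv_eq_one m hm
  push_cast
  constructor
  · intro h
    rw [h, mul_comm (b : ZMod q), ← mul_assoc, h1, one_mul]
  · intro h
    rw [← h, mul_comm (m : ZMod q) k, mul_assoc, h1, mul_one]

theorem cls_coprime {q m b : ℕ} (hq : 1 ≤ q) (hm : m.Coprime q) (hb : b.Coprime q) :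
    (cls q m b).Coprime q := by
  have h := (cls_iff (k := cls q m b) (b := b) hq hm).1 (Nat.ModEq.refl _)
  have h1 : (m * cls q m b).Coprime q := by
    rw [Nat.Coprime, h.gcd_eq]
    exact hb
  exact Nat.Coprime.coprime_mul_left h1

theorem LR_rough {w n : ℕ} (h : LR w n ≠ 0) : Rgh w n := by
  classical
  by_contra hcon
  apply h
  rw [LR, res_apply, if_neg hcon]

theorem LR_one (w : ℕ) : LR w 1 = 0 := by
  classical
  rw [LR, res_apply]
  split_ifs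
  · simp
  · rfl

theorem LR_zero (w : ℕ) : LR w 0 = 0 := (LR w).map_zero

theorem LR_gt {w n : ℕ} (h : LR w n ≠ 0) : w < n := by
  apply Pool.Agent.Y851.HZ.rough_gt _ (LR_rough h)
  rcases Nat.lt_or_ge n 2 with h1 | h1
  · exfalso
    interval_cases n
    · exact h (LR_zero w)
    · exact h (LR_one w)
  · exact h1

theorem rough_coprime {w q n : ℕ} (hq : 1 ≤ q) (hqw : q ≤ w) (h : Rgh w n) : n.Coprime q := by
  rw [Nat.coprime_iff_gcd_eq_one]
  by_contra hcon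
  obtain ⟨p, hp, hpd⟩ := Nat.exists_prime_and_dvd hcon
  have h1 : p ∣ n := hpd.trans (Nat.gcd_dvd_left _ _)
  have h2 : p ∣ q := hpd.trans (Nat.gcd_dvd_right _ _)
  exact h p hp ((Nat.le_of_dvd hq h2).trans hqw) h1

/-- sums of convolutions over classes -/
theorem CS_mul (f g : ArithmeticFunction ℝ) (q b Y X : ℕ) :
    CS (⇑(f * g)) q b Y X = ∑ p ∈ ((Icc 1 X) ×ˢ (Icc 1 X)).filter
      (fun p : ℕ × ℕ => Y < p.1 * p.2 ∧ p.1 * p.2 ≤ X ∧ p.1 * p.2 ≡ b [MOD q]),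
        f p.1 / p.1 * (g p.2 / p.2) := by
  unfold CS
  have h1 : ∀ n ∈ (Ioc Y X).filter (fun n => n ≡ b [MOD q]), (f * g) n / n =
      ∑ p ∈ n.divisorsAntidiagonal, f p.1 / p.1 * (g p.2 / p.2) := by
    intro n hn
    rw [ArithmeticFunction.mul_apply, sum_div]
    refine sum_congr rfl fun p hp => ?_
    rw [Nat.mem_divisorsAntidiagonal] at hp
    rw [← hp.1]
    push_cast
    rw [mul_div_mul_comm]
  rw [sum_congr rfl h1, sum_sigma']
  symm
  refine sum_bij' (fun p _ => (⟨p.1 * p.2, p⟩ : (_ : ℕ) × (ℕ × ℕ))) (fun q _ => q.2) ?_ ?_ ?_ ?_ ?_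
  · intro p hp
    simp only [mem_filter, mem_product, mem_Icc] at hp
    simp only [mem_sigma, mem_filter, mem_Ioc, Nat.mem_divisorsAntidiagonal]
    have : 0 < p.1 * p.2 := Nat.mul_pos hp.1.1.1 hp.1.2.1
    exact ⟨⟨⟨hp.2.1, hp.2.2.1⟩, hp.2.2.2⟩, trivial, this.ne'⟩
  · rintro ⟨n, p⟩ hq
    simp only [mem_sigma, mem_filter, mem_Ioc, Nat.mem_divisorsAntidiagonal] at hq
    obtain ⟨⟨⟨h3, h4⟩, h3'⟩, h5, h6⟩ := hq
    have h7 : p.1 ≠ 0 := by rintro h; rw [h, zero_mul] at h5; omega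
    have h8 : p.2 ≠ 0 := by rintro h; rw [h, mul_zero] at h5; omega
    simp only [mem_filter, mem_product, mem_Icc]
    have h9 : p.1 ≤ p.1 * p.2 := Nat.le_mul_of_pos_right _ (Nat.pos_of_ne_zero h8)
    have h10 : p.2 ≤ p.1 * p.2 := Nat.le_mul_of_pos_left _ (Nat.pos_of_ne_zero h7)
    rw [h5] at *
    exact ⟨⟨⟨by omega, by omega⟩, by omega, by omega⟩, h3, h4, h3'⟩
  · intro p _; rfl
  · rintro ⟨n, p⟩ hq
    rw [mem_sigma, Nat.mem_divisorsAntidiagonal] at hq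
    simp only at hq ⊢
    rw [hq.2.1]
  · intro p _; rfl

/-- Task PAIR. -/
theorem pair : S_PAIR := by
  classical
  intro w q b Y X hq hqw hb
  set f := LR w with hf
  set F : ℕ × ℕ → ℝ := fun p => f p.1 / p.1 * (f p.2 / p.2) with hF
  set S := ((Icc 1 X) ×ˢ (Icc 1 X)).filter
      (fun p : ℕ × ℕ => Y < p.1 * p.2 ∧ p.1 * p.2 ≤ X ∧ p.1 * p.2 ≡ b [MOD q]) with hS
  have hf0 : ∀ n, 0 ≤ f n / (n : ℝ) := fun n => div_nonneg (LR_nonneg w n) (Nat.cast_nonneg n)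
  have hF0 : ∀ p, 0 ≤ F p := fun p => mul_nonneg (hf0 _) (hf0 _)
  rw [CS_mul]
  -- symmetry
  have h1 : ∑ p ∈ S, F p ≤ 2 * ∑ p ∈ S.filter (fun p => p.1 ≤ p.2), F p := by
    rw [← sum_filter_add_sum_filter_not S (fun p : ℕ × ℕ => p.1 ≤ p.2), two_mul]
    refine add_le_add le_rfl ?_
    have h2 : ∑ p ∈ S.filter (fun p => ¬ p.1 ≤ p.2), F p ≤ ∑ p ∈ S.filter (fun p => p.2 ≤ p.1), F p := by
      refine sum_le_sum_of_subset_of_nonneg ?_ fun p _ _ => hF0 p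
      intro p hp
      rw [mem_filter] at hp ⊢
      exact ⟨hp.1, by omega⟩
    refine h2.trans (le_of_eq ?_)
    refine sum_bij' (fun p _ => (p.2, p.1)) (fun p _ => (p.2, p.1)) ?_ ?_ ?_ ?_ ?_
    · intro p hp
      simp only [hS, mem_filter, mem_product] at hp ⊢
      rw [mul_comm p.2 p.1]
      exact ⟨⟨⟨hp.1.1.2, hp.1.1.1⟩, hp.1.2⟩, hp.2⟩
    · intro p hp
      simp only [hS, mem_filter, mem_product] at hp ⊢
      rw [mul_comm p.2 p.1]
      exact ⟨⟨⟨hp.1.1.2, hp.1.1.1⟩, hp.1.2⟩, hp.2⟩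
    · intro p _; rfl
    · intro p _; rfl
    · intro p _
      simp only [hF]
      ring
  refine h1.trans ?_
  refine mul_le_mul_of_nonneg_left (le_of_eq ?_) (by norm_num)
  -- sum over the smaller member
  rw [hS, filter_filter, sum_filter, sum_product]
  have h3 : ∀ m ∈ Icc 1 X, (∑ k ∈ Icc 1 X, if (Y < m * k ∧ m * k ≤ X ∧ m * k ≡ b [MOD q]) ∧ m ≤ k then
      F (m, k) else 0) = if 1 < m ∧ m ^ 2 ≤ X then f m / m * CS f q (cls q m b) (max (Y / m) (m - 1)) (X / m)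
        else 0 := by
    intro m hm
    rw [mem_Icc] at hm
    by_cases hm1 : m = 1
    · subst hm1
      rw [if_neg (by omega)]
      refine sum_eq_zero fun k _ => ?_
      split_ifs
      · simp [hF, hf, LR_one]
      · rfl
    by_cases hm0 : f m = 0
    · have h4 : ∀ k, F (m, k) = 0 := by
        intro k
        simp [hF, hm0]
      simp [h4, hm0]
    have hcop : m.Coprime q := rough_coprime hq hqw (LR_rough hm0)
    by_cases hmX : m ^ 2 ≤ X
    · rw [if_pos ⟨by omega, hmX⟩, CS, ← sum_filter, mul_sum]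
      refine sum_congr ?_ fun k _ => rfl
      ext k
      simp only [mem_filter, mem_Icc, mem_Ioc, max_lt_iff]
      rw [cls_iff hq hcop, Nat.div_lt_iff_lt_mul (by omega), Nat.le_div_iff_mul_le (by omega),
        mul_comm k m]
      constructor
      · rintro ⟨⟨h5, h6⟩, ⟨h7, h8, h9⟩, h10⟩
        exact ⟨⟨⟨h7, by omega⟩, h8⟩, h9⟩
      · rintro ⟨⟨⟨h7, h10⟩, h8⟩, h9⟩
        have h11 : k ≤ m * k := Nat.le_mul_of_pos_left _ (by omega)
        exact ⟨⟨by omega, by omega⟩, ⟨h7, h8, h9⟩, by omega⟩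
    · rw [if_neg (by tauto)]
      refine sum_eq_zero fun k hk => ?_
      rw [if_neg]
      rintro ⟨⟨h7, h8, h9⟩, h10⟩
      apply hmX
      rw [pow_two]
      exact (Nat.mul_le_mul_left m h10).trans h8
  rw [sum_congr rfl h3, ← sum_filter]
  refine sum_congr ?_ fun k _ => rfl
  ext m
  simp only [mem_filter, mem_Icc, mem_Ioc]
  constructor
  · rintro ⟨⟨h4, h5⟩, h6, h7⟩
    exact ⟨⟨h6, h5⟩, h7⟩
  · rintro ⟨⟨h4, h5⟩, h6⟩
    exact ⟨⟨by omega, h5⟩, h4, h6⟩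

end Pool.Agent.K9h19.LW
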