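import Pool.Agent.K9h19.LW.Stm
import Pool.Agent.Y851.HZ.WN
import Pool.Agent.Y851.HZ.E2

/-! Rough numbers in long windows. -/

set_option autoImplicit false

open Finset

namespace Pool.Agent.K9h19.LW

open Pool.Agent.Y851.HZ (LR zR muR ER DD zR_apply rough_gt rough_unit win_cover)
open Pool.Agent.H318R2.Cr (Rgh)

theorem rl : S_RL := by
  classical
  obtain ⟨z₁, C, hz₁, hC, h⟩ := rough_unit
  refine ⟨C, by linarith, max z₁ 8, fun w A B hw hA hAB => ?_⟩
  have hwz : z₁ ≤ w := (le_max_left _ _).trans hw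
  have hw8 : 8 ≤ w := (le_max_right _ _).trans hw
  have hw1 : (1 : ℝ) < w := by exact_mod_cast (show 1 < w by omega)
  have hlw : 2 ≤ Real.log w := by
    have h1 : Real.exp 2 ≤ w := by
      have h2 := Pool.Agent.Y851.HZ.exp_two_lt
      have h3 : (8 : ℝ) ≤ w := by exact_mod_cast hw8
      linarith
    rwa [Real.le_log_iff_exp_le (by linarith)]
  have hA0 : (0 : ℝ) < A := by exact_mod_cast hA
  have hlA : 0 ≤ Real.log A := Real.log_natCast_nonneg A
  have hlAB : Real.log A ≤ Real.log B := Real.log_le_log hA0 (by exact_mod_cast hAB)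
  -- the sum over rough numbers
  set S := (Ioc A B).filter (fun n => Rgh w n) with hS
  have h1 : TS (zR w) A B = ∑ n ∈ S, 1 / (n : ℝ) := by
    unfold TS
    rw [hS, sum_filter]
    apply sum_congr rfl
    intro n hn
    rw [mem_Ioc] at hn
    rw [zR_apply w n (by omega)]
    split_ifs <;> simp
  have hmem : ∀ n ∈ S, 1 ≤ n ∧ w < n ∧ Rgh w n ∧ A < n ∧ n ≤ B := by
    intro n hn
    rw [hS, mem_filter, mem_Ioc] at hn
    exact ⟨by omega, rough_gt (by omega) hn.2, hn.2, hn.1.1, hn.1.2⟩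
  have h2 : ∑ n ∈ S, 1 / (n : ℝ) ≤ C / Real.log w * ∑ j ∈ Icc ⌊Real.log (A : ℝ)⌋₊ ⌊Real.log (B : ℝ)⌋₊, (1 : ℝ) := by
    apply win_cover S _ (fun n => 1 / (n : ℝ)) (fun n _ => by positivity)
      (fun n hn => (hmem n hn).1) (fun n hn => by
        obtain ⟨h3, h4, h5, h6, h7⟩ := hmem n hn
        rw [mem_Icc]
        constructor
        · exact Nat.floor_le_floor (Real.log_le_log hA0 (by exact_mod_cast h6.le))
        · exact Nat.floor_le_floor (Real.log_le_log (by exact_mod_cast h3) (by exact_mod_cast h7)))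
      (fun _ => 1) (fun n => 1 / (n : ℝ))
      (fun _ _ => zero_le_one) (fun _ _ _ _ _ _ => by rw [one_mul])
    intro j _
    rcases (S.filter (fun n : ℕ => (j : ℝ) ≤ Real.log n ∧ Real.log n < j + 1)).eq_empty_or_nonempty with he | ⟨m, hm⟩
    · rw [he]
      simp only [sum_empty]
      positivity
    · have hmm := mem_filter.1 hm
      have hlm : Real.log w ≤ Real.log m :=
        Real.log_le_log (by linarith) (by exact_mod_cast (hmem m hmm.1).2.1.le)
      apply h w hwz (j + 1) (by linarith [hmm.2.2])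
      intro n hn
      have hnn := mem_filter.1 hn
      refine ⟨(hmem n hnn.1).1, ?_, (hmem n hnn.1).2.2.1⟩
      rw [abs_le]
      constructor <;> linarith [hnn.2.1, hnn.2.2]
  have h3 : ∑ j ∈ Icc ⌊Real.log (A : ℝ)⌋₊ ⌊Real.log (B : ℝ)⌋₊, (1 : ℝ) ≤ Real.log B - Real.log A + 2 := by
    rw [sum_const, Nat.card_Icc, nsmul_eq_mul, mul_one]
    have h4 := Nat.floor_le (hlA.trans hlAB)
    have h5 := Nat.lt_floor_add_one (Real.log (A : ℝ))
    have h6 : ⌊Real.log (A : ℝ)⌋₊ ≤ ⌊Real.log (B : ℝ)⌋₊ + 1 := (Nat.floor_le_floor hlAB).trans (Nat.le_succ _)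
    rw [Nat.cast_sub h6]
    push_cast
    linarith
  rw [h1]
  refine h2.trans ?_
  have h7 : C / Real.log w * ∑ j ∈ Icc ⌊Real.log (A : ℝ)⌋₊ ⌊Real.log (B : ℝ)⌋₊, (1 : ℝ) ≤
      C / Real.log w * (Real.log B - Real.log A + 2) := by
    gcongr
  refine h7.trans ?_
  have h8 : C / Real.log w * (Real.log B - Real.log A + 2) = C * ((Real.log B - Real.log A) / Real.log w + 2 / Real.log w) := by
    ring
  rw [h8]
  have h9 : 2 / Real.log w ≤ 1 := by
    rw [div_le_one (by linarith)]; exact hlw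
  have hC0 : 0 ≤ C := by linarith
  apply mul_le_mul_of_nonneg_left _ hC0
  linarith

end Pool.Agent.K9h19.LW
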