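import Pool.Agent.K9h19.LW.PAIR
import Pool.Agent.Y851.HZ.E2

/-! Class differences of Selberg's function. -/

set_option autoImplicit false

open Finset

namespace Pool.Agent.K9h19.LW

open Pool.Agent.Y851.HZ (LR zR muR ER DD zR_apply rough_gt DD_apply muR_le ER_eq res_apply)
open Pool.Agent.H318R2.Cr (Rgh)

namespace SD

theorem zR_nonneg (w n : ℕ) : 0 ≤ zR w n := by
  classical
  rcases Nat.eq_zero_or_pos n with rfl | hn
  · simp
  · rw [zR_apply w n hn]
    split_ifs <;> norm_num

theorem zR_rough {w n : ℕ} (h : zR w n ≠ 0) : Rgh w n := by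
  classical
  by_contra hcon
  apply h
  rw [zR, res_apply, if_neg hcon]

theorem muR_abs (w n : ℕ) (hn : 1 ≤ n) : |muR w n| ≤ zR w n := by
  classical
  rw [zR_apply w n hn]
  exact muR_le w n

theorem muR_rough {w n : ℕ} (h : muR w n ≠ 0) : Rgh w n := by
  classical
  by_contra hcon
  apply h
  rw [muR, res_apply, if_neg hcon]

/-- the weight vanishes up to `w` -/
theorem H_zero {w e : ℕ} (he : e ≤ w) : DD (DD (zR w)) e = 0 := by
  classical
  rw [DD_apply, DD_apply]
  rcases Nat.lt_or_ge e 2 with h1 | h1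
  · interval_cases e <;> simp
  · have h2 : zR w e = 0 := by
      by_contra h3
      have := rough_gt h1 (zR_rough h3)
      omega
    rw [h2]; simp

theorem CS_ER (w q b Y X : ℕ) (hq : 1 ≤ q) (hqw : q ≤ w) : CS (⇑(ER w)) q b Y X =
    ∑ d ∈ Ioc 0 X, muR w d / d * CS (⇑(DD (DD (zR w)))) q (cls q d b) (Y / d) (X / d) := by
  classical
  rw [ER_eq, CS_mul, sum_filter, sum_product]
  apply sum_congr rfl
  intro d hd
  rw [mem_Icc] at hd
  by_cases h0 : muR w d = 0
  · simp only [h0, zero_div, zero_mul, ite_self, sum_const_zero]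
  · have hr := muR_rough h0
    have hc := rough_coprime hq hqw hr
    unfold CS
    rw [mul_sum, ← sum_filter]
    apply sum_congr _ (fun _ _ => rfl)
    ext e
    rw [mem_filter, mem_filter, mem_Icc, mem_Ioc, cls_iff hq hc, Nat.div_lt_iff_lt_mul (by omega),
      Nat.le_div_iff_mul_le (by omega)]
    constructor
    · rintro ⟨h1, h2, h3, h4⟩
      exact ⟨⟨by rw [mul_comm]; exact h2, by rw [mul_comm]; exact h3⟩, h4⟩
    · rintro ⟨⟨h1, h2⟩, h3⟩
      have he : 1 ≤ e := by
        rcases Nat.eq_zero_or_pos e with h | h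
        · rw [h, zero_mul] at h1; omega
        · exact h
      have heX : e ≤ X := (Nat.le_mul_of_pos_right e (by omega)).trans h2
      exact ⟨⟨he, heX⟩, by rw [mul_comm]; exact h1, by rw [mul_comm]; exact h2, h3⟩

theorem log_div_le {m N : ℕ} (hm : 1 ≤ m) (h : m ≤ N) :
    Real.log ((N / m : ℕ) : ℝ) ≤ Real.log N - Real.log m := by
  have hm0 : (0 : ℝ) < m := by exact_mod_cast hm
  have hN0 : (0 : ℝ) < N := by exact_mod_cast (show 0 < N by omega)
  rw [← Real.log_div hN0.ne' hm0.ne']
  apply Real.log_le_log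
  · exact_mod_cast Nat.div_pos h (by omega)
  · exact Nat.cast_div_le

theorem log_div_ge {m N : ℕ} (hm : 1 ≤ m) (h : m ≤ N) :
    Real.log N - Real.log m - 1 ≤ Real.log ((N / m : ℕ) : ℝ) := by
  have hm0 : (0 : ℝ) < m := by exact_mod_cast hm
  have hN0 : (0 : ℝ) < N := by exact_mod_cast (show 0 < N by omega)
  have h1 : 1 ≤ N / m := Nat.div_pos h (by omega)
  have h1r : (1 : ℝ) ≤ ((N / m : ℕ) : ℝ) := by exact_mod_cast h1
  have h2 : (N : ℝ) / m ≤ 2 * ((N / m : ℕ) : ℝ) := by
    rw [div_le_iff₀ hm0]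
    have h3 : N < m * (N / m + 1) := Nat.lt_mul_div_succ N (by omega)
    have h4 : (N : ℝ) < m * (((N / m : ℕ) : ℝ) + 1) := by exact_mod_cast h3
    nlinarith
  have h5 := Real.log_le_log (div_pos hN0 hm0) h2
  rw [Real.log_div hN0.ne' hm0.ne', Real.log_mul (by norm_num) (by linarith)] at h5
  have h6 := Real.log_two_lt_d9
  linarith

/-- one block -/
theorem block {C : ℝ} {w : ℕ} (hC : 0 < C) (hw : 8 ≤ w)
    (hRL : ∀ A B : ℕ, 1 ≤ A → A ≤ B → TS (zR w) A B ≤ C * (1 + (Real.log B - Real.log A) / Real.log w))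
    (Y j : ℕ) : TS (zR w) (Y / w ^ (j + 1)) (Y / w ^ j) ≤ 1 + 3 * C := by
  classical
  have hw1 : (8 : ℝ) ≤ w := by exact_mod_cast hw
  have hlw : 1 < Real.log w := by
    rw [Real.lt_log_iff_exp_lt (by linarith)]
    linarith [Real.exp_one_lt_d9]
  rcases Nat.eq_zero_or_pos (Y / w ^ (j + 1)) with h0 | h0
  · rw [h0]
    have hlt : Y < w ^ (j + 1) := by
      by_contra hcon
      have := Nat.div_pos (not_lt.1 hcon) (pow_pos (by omega : 0 < w) (j + 1))
      omega
    have hlt2 : Y / w ^ j < w := by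
      rw [Nat.div_lt_iff_lt_mul (pow_pos (by omega) j)]
      rwa [pow_succ, mul_comm] at hlt
    have h1 : TS (zR w) 0 (Y / w ^ j) ≤ 1 := by
      unfold TS
      calc ∑ n ∈ Ioc 0 (Y / w ^ j), zR w n / n ≤ ∑ n ∈ ({1} : Finset ℕ), zR w n / n := by
            rw [← sum_filter_add_sum_filter_not (Ioc 0 (Y / w ^ j)) (fun n => n = 1)]
            have h2 : ∑ n ∈ (Ioc 0 (Y / w ^ j)).filter (fun n => ¬ n = 1), zR w n / n = 0 := by
              apply sum_eq_zero
              intro n hn
              rw [mem_filter, mem_Ioc] at hn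
              have h3 : zR w n = 0 := by
                by_contra h4
                have := rough_gt (show 2 ≤ n by omega) (zR_rough h4)
                omega
              rw [h3, zero_div]
            rw [h2, add_zero]
            apply sum_le_sum_of_subset_of_nonneg
            · intro n hn
              rw [mem_filter] at hn
              rw [mem_singleton]; exact hn.2
            · intro n _ _
              exact div_nonneg (zR_nonneg w n) (Nat.cast_nonneg n)
        _ ≤ 1 := by
            rw [sum_singleton, zR_apply w 1 le_rfl]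
            split_ifs <;> norm_num
    linarith
  · have hwj : 1 ≤ w ^ j := Nat.one_le_pow _ _ (by omega)
    have hwj1 : 1 ≤ w ^ (j + 1) := Nat.one_le_pow _ _ (by omega)
    have hle1 : w ^ (j + 1) ≤ Y := by
      by_contra hcon
      rw [Nat.div_eq_of_lt (not_le.1 hcon)] at h0
      omega
    have hle0 : w ^ j ≤ w ^ (j + 1) := Nat.pow_le_pow_right (by omega) (by omega)
    have h1 := hRL (Y / w ^ (j + 1)) (Y / w ^ j) h0 (Nat.div_le_div_left hle0 (by omega))
    have h2 := log_div_le hwj (hle0.trans hle1)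
    have h3 := log_div_ge hwj1 hle1
    have h4 : Real.log ((w ^ (j + 1) : ℕ) : ℝ) = Real.log ((w ^ j : ℕ) : ℝ) + Real.log w := by
      push_cast
      rw [pow_succ, Real.log_mul (by positivity) (by positivity)]
    have h5 : (Real.log ((Y / w ^ j : ℕ) : ℝ) - Real.log ((Y / w ^ (j + 1) : ℕ) : ℝ)) / Real.log w ≤ 2 := by
      rw [div_le_iff₀ (by linarith)]
      linarith
    calc TS (zR w) (Y / w ^ (j + 1)) (Y / w ^ j) ≤ C * (1 + 2) := by
          refine h1.trans ?_
          gcongr
      _ ≤ 1 + 3 * C := by linarith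

theorem sum_inv_cube (S : Finset ℕ) (hS : ∀ j ∈ S, 1 ≤ j) : ∑ j ∈ S, 1 / (j : ℝ) ^ 3 ≤ 2 := by
  refine le_trans (sum_le_sum (fun j hj => ?_)) (Pool.Agent.H318R2.Cr.sum_inv_sq S)
  have h1 : (1 : ℝ) ≤ j := by exact_mod_cast hS j hj
  apply div_le_div_of_nonneg_left zero_le_one (by positivity)
  exact pow_le_pow_right₀ h1 (by norm_num)

/-- the blocks together -/
theorem blocks {C : ℝ} {w : ℕ} (hC : 0 < C) (hw : 8 ≤ w)
    (hRL : ∀ A B : ℕ, 1 ≤ A → A ≤ B → TS (zR w) A B ≤ C * (1 + (Real.log B - Real.log A) / Real.log w))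
    (Y : ℕ) : ∑ d ∈ Ioc 0 (Y / w), zR w d / d * (1 / (Real.log ((Y / d : ℕ) : ℝ)) ^ 3) ≤
      2 * (1 + 3 * C) / (Real.log w) ^ 3 := by
  classical
  have hw1 : (8 : ℝ) ≤ w := by exact_mod_cast hw
  have hlw : 1 < Real.log w := by
    rw [Real.lt_log_iff_exp_lt (by linarith)]
    linarith [Real.exp_one_lt_d9]
  have hmem : ∀ d ∈ Ioc 0 (Y / w), w ≤ Y / d := by
    intro d hd
    rw [mem_Ioc] at hd
    rw [Nat.le_div_iff_mul_le (by omega)]
    have := (Nat.le_div_iff_mul_le (by omega : 0 < w)).1 hd.2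
    rwa [mul_comm]
  have hmaps : ∀ d ∈ Ioc 0 (Y / w), Nat.log w (Y / d) ∈ Icc 1 (Nat.log w Y) := by
    intro d hd
    rw [mem_Icc]
    constructor
    · exact Nat.log_pos (by omega) (hmem d hd)
    · exact Nat.log_mono_right (Nat.div_le_self _ _)
  rw [← sum_fiberwise_of_maps_to hmaps]
  have h1 : ∀ j ∈ Icc 1 (Nat.log w Y), ∑ d ∈ (Ioc 0 (Y / w)).filter (fun d => Nat.log w (Y / d) = j),
      zR w d / d * (1 / (Real.log ((Y / d : ℕ) : ℝ)) ^ 3) ≤ (1 + 3 * C) / (Real.log w) ^ 3 * (1 / (j : ℝ) ^ 3) := by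
    intro j hj
    rw [mem_Icc] at hj
    have hj0 : (1 : ℝ) ≤ j := by exact_mod_cast hj.1
    calc ∑ d ∈ (Ioc 0 (Y / w)).filter (fun d => Nat.log w (Y / d) = j),
          zR w d / d * (1 / (Real.log ((Y / d : ℕ) : ℝ)) ^ 3)
        ≤ ∑ d ∈ (Ioc 0 (Y / w)).filter (fun d => Nat.log w (Y / d) = j),
          zR w d / d * (1 / (j * Real.log w) ^ 3) := by
          apply sum_le_sum
          intro d hd
          rw [mem_filter] at hd
          have h2 := hmem d hd.1
          have h3 : w ^ j ≤ Y / d := by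
            rw [← hd.2]
            exact Nat.pow_log_le_self w (by omega)
          have h4 : j * Real.log w ≤ Real.log ((Y / d : ℕ) : ℝ) := by
            rw [← Real.log_pow]
            apply Real.log_le_log (by positivity)
            exact_mod_cast h3
          have h5 : 0 ≤ zR w d / d := div_nonneg (zR_nonneg w d) (Nat.cast_nonneg d)
          have h6 : 0 < j * Real.log w := by positivity
          gcongr
      _ = (∑ d ∈ (Ioc 0 (Y / w)).filter (fun d => Nat.log w (Y / d) = j), zR w d / d) * (1 / (j * Real.log w) ^ 3) := by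
          rw [sum_mul]
      _ ≤ (1 + 3 * C) * (1 / (j * Real.log w) ^ 3) := by
          apply mul_le_mul_of_nonneg_right _ (by positivity)
          refine le_trans ?_ (block hC hw hRL Y j)
          unfold TS
          apply sum_le_sum_of_subset_of_nonneg
          · intro d hd
            rw [mem_filter, mem_Ioc] at hd
            have h2 := hmem d (mem_Ioc.2 hd.1)
            have h3 : w ^ j ≤ Y / d := by
              rw [← hd.2]
              exact Nat.pow_log_le_self w (by omega)
            have h4 : Y / d < w ^ (j + 1) := by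
              rw [← hd.2]
              exact Nat.lt_pow_succ_log_self (by omega) _
            rw [mem_Ioc, Nat.div_lt_iff_lt_mul (pow_pos (by omega) _), Nat.le_div_iff_mul_le (pow_pos (by omega) _)]
            rw [Nat.le_div_iff_mul_le (by omega)] at h3
            rw [Nat.div_lt_iff_lt_mul (by omega)] at h4
            exact ⟨by rw [mul_comm]; exact h4, by rw [mul_comm]; exact h3⟩
          · intro d _ _
            exact div_nonneg (zR_nonneg w d) (Nat.cast_nonneg d)
      _ = (1 + 3 * C) / (Real.log w) ^ 3 * (1 / (j : ℝ) ^ 3) := by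
          rw [mul_pow]
          field_simp
  refine (sum_le_sum h1).trans ?_
  rw [← mul_sum]
  have h2 := sum_inv_cube (Icc 1 (Nat.log w Y)) (fun j hj => (mem_Icc.1 hj).1)
  calc (1 + 3 * C) / (Real.log w) ^ 3 * ∑ j ∈ Icc 1 (Nat.log w Y), 1 / (j : ℝ) ^ 3
      ≤ (1 + 3 * C) / (Real.log w) ^ 3 * 2 := by gcongr
    _ = 2 * (1 + 3 * C) / (Real.log w) ^ 3 := by ring

end SD

open SD in
theorem sd (hTD : S_TD) (hRL : S_RL) : S_SD := by
  classical
  obtain ⟨C₁, hC₁, w₁, hT⟩ := hTD
  obtain ⟨C₂, hC₂, w₂, hR⟩ := hRL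
  refine ⟨C₁ * (4 + 8 * C₂), by positivity, max 8 (max w₁ w₂), fun w q b b' Y X hw hq hq8 hb hb' hwY hYX => ?_⟩
  have hw8 : 8 ≤ w := (le_max_left _ _).trans hw
  have hww₁ : w₁ ≤ w := ((le_max_left _ _).trans (le_max_right _ _)).trans hw
  have hww₂ : w₂ ≤ w := ((le_max_right _ _).trans (le_max_right _ _)).trans hw
  have hw1 : (8 : ℝ) ≤ w := by exact_mod_cast hw8
  have hlw : 2 < Real.log w := by
    rw [Real.lt_log_iff_exp_lt (by linarith)]
    linarith [Pool.Agent.Y851.HZ.exp_two_lt]
  have hqw : q ≤ w := (Nat.le_self_pow (by norm_num) q).trans hq8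
  have hRw := fun A B h1 h2 => hR w A B hww₂ h1 h2
  set t := Real.log w with ht
  set l := Real.log X - Real.log Y with hl
  have hY0 : (0 : ℝ) < Y := by exact_mod_cast (show 0 < Y by omega)
  have hl0 : 0 ≤ l := by
    rw [hl, sub_nonneg]
    exact Real.log_le_log hY0 (by exact_mod_cast hYX)
  have hφ : (0 : ℝ) < q.totient := by exact_mod_cast Nat.totient_pos.2 hq
  set H := (⇑(DD (DD (zR w))) : ℕ → ℝ) with hH
  set Δ := fun d : ℕ => CS H q (cls q d b) (Y / d) (X / d) - CS H q (cls q d b') (Y / d) (X / d) with hΔ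
  have e1 : CS (⇑(ER w)) q b Y X - CS (⇑(ER w)) q b' Y X = ∑ d ∈ Ioc 0 X, muR w d / d * Δ d := by
    rw [CS_ER w q b Y X hq hqw, CS_ER w q b' Y X hq hqw, ← sum_sub_distrib]
    apply sum_congr rfl
    intro d _
    rw [hΔ]
    ring
  have e2 : |CS (⇑(ER w)) q b Y X - CS (⇑(ER w)) q b' Y X| ≤ ∑ d ∈ Ioc 0 X, zR w d / d * |Δ d| := by
    rw [e1]
    refine (abs_sum_le_sum_abs _ _).trans (sum_le_sum fun d hd => ?_)
    rw [mem_Ioc] at hd
    rw [abs_mul, abs_div, Nat.abs_cast]
    have := muR_abs w d hd.1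
    gcongr
  -- small `e` do not matter
  have hcut : ∀ c y x : ℕ, y ≤ w → w ≤ x → CS H q c y x = CS H q c w x := by
    intro c y x hy hx
    unfold CS
    symm
    apply sum_subset
    · intro n hn
      rw [mem_filter, mem_Ioc] at hn ⊢
      exact ⟨⟨by omega, hn.1.2⟩, hn.2⟩
    · intro n hn hn2
      rw [mem_filter, mem_Ioc] at hn hn2
      have h1 : n ≤ w := by
        by_contra hcon
        exact hn2 ⟨⟨by omega, hn.1.2⟩, hn.2⟩
      rw [hH, H_zero h1, zero_div]
  have hvan : ∀ c y x : ℕ, x ≤ w → CS H q c y x = 0 := by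
    intro c y x hx
    unfold CS
    apply sum_eq_zero
    intro n hn
    rw [mem_filter, mem_Ioc] at hn
    rw [hH, H_zero (by omega), zero_div]
  -- the three ranges
  have hYX' : Y / w ≤ X / w := Nat.div_le_div_right hYX
  have hXX : X / w ≤ X := Nat.div_le_self _ _
  have e3 : ∑ d ∈ Ioc 0 X, zR w d / d * |Δ d| = ∑ d ∈ Ioc 0 (Y / w), zR w d / d * |Δ d| +
      ∑ d ∈ Ioc (Y / w) (X / w), zR w d / d * |Δ d| + ∑ d ∈ Ioc (X / w) X, zR w d / d * |Δ d| := by
    rw [sum_Ioc_consecutive _ (Nat.zero_le _) hYX', sum_Ioc_consecutive _ (Nat.zero_le _) hXX]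
  have e4 : ∑ d ∈ Ioc (X / w) X, zR w d / d * |Δ d| = 0 := by
    apply sum_eq_zero
    intro d hd
    rw [mem_Ioc] at hd
    have hd0 : 0 < d := (Nat.zero_le _).trans_lt hd.1
    have h1 : X / d ≤ w := by
      have h2 := (Nat.div_lt_iff_lt_mul (by omega : 0 < w)).1 hd.1
      apply Nat.le_of_lt
      rw [Nat.div_lt_iff_lt_mul hd0]
      rwa [mul_comm]
    have h2 : Δ d = 0 := by
      rw [hΔ]
      simp only
      rw [hvan _ _ _ h1, hvan _ _ _ h1, sub_zero]
    rw [h2, abs_zero, mul_zero]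
  -- second range
  have e5 : ∑ d ∈ Ioc (Y / w) (X / w), zR w d / d * |Δ d| ≤
      C₁ / q.totient * t ^ 2 * (C₂ * (1 + (l + 1) / t)) := by
    have h1 : ∀ d ∈ Ioc (Y / w) (X / w), zR w d / d * |Δ d| ≤ zR w d / d * (C₁ / q.totient * t ^ 2) := by
      intro d hd
      rw [mem_Ioc] at hd
      have hd0 : 0 < d := (Nat.zero_le _).trans_lt hd.1
      have h0 : 0 ≤ zR w d / d := div_nonneg (zR_nonneg w d) (Nat.cast_nonneg d)
      by_cases hr : zR w d = 0
      · rw [hr]; simp
      · apply mul_le_mul_of_nonneg_left _ h0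
        have hc := rough_coprime hq hqw (zR_rough hr)
        have h2 : Y / d ≤ w := by
          have h3 := (Nat.div_lt_iff_lt_mul (by omega : 0 < w)).1 hd.1
          apply Nat.le_of_lt
          rw [Nat.div_lt_iff_lt_mul hd0]
          rwa [mul_comm]
        have h3 : w ≤ X / d := by
          have h4 := (Nat.le_div_iff_mul_le (by omega : 0 < w)).1 hd.2
          rw [Nat.le_div_iff_mul_le hd0]
          rwa [mul_comm]
        rw [hΔ]
        simp only
        rw [hcut _ _ _ h2 h3, hcut _ _ _ h2 h3]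
        refine ((hT w q (cls q d b) (cls q d b') w (X / d) hww₁ hq hq8 (cls_coprime hq hc hb)
          (cls_coprime hq hc hb') le_rfl h3).2).trans (le_of_eq ?_)
        rw [← ht]
        have : t ≠ 0 := by linarith
        field_simp
    refine (sum_le_sum h1).trans ?_
    rw [← sum_mul, mul_comm]
    apply mul_le_mul_of_nonneg_left _ (by positivity)
    have h2 := hRw (Y / w) (X / w) (Nat.div_pos hwY (by omega)) hYX'
    have h3 := log_div_le (m := w) (N := X) (by omega) (hwY.trans hYX)
    have h4 := log_div_ge (m := w) (N := Y) (by omega) hwY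
    refine (show _ ≤ _ from h2).trans ?_
    have ht0 : 0 < t := by linarith
    gcongr
    linarith
  -- first range
  have e6 : ∑ d ∈ Ioc 0 (Y / w), zR w d / d * |Δ d| ≤
      C₁ / q.totient * t ^ 4 * (l + 2) * (2 * (1 + 3 * C₂) / t ^ 3) := by
    have h1 : ∀ d ∈ Ioc 0 (Y / w), zR w d / d * |Δ d| ≤
        C₁ / q.totient * t ^ 4 * (l + 2) * (zR w d / d * (1 / (Real.log ((Y / d : ℕ) : ℝ)) ^ 3)) := by
      intro d hd
      rw [mem_Ioc] at hd
      have h0 : 0 ≤ zR w d / d := div_nonneg (zR_nonneg w d) (Nat.cast_nonneg d)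
      by_cases hr : zR w d = 0
      · rw [hr]; simp
      · have hc := rough_coprime hq hqw (zR_rough hr)
        have h2 : d * w ≤ Y := by
          have := (Nat.le_div_iff_mul_le (by omega : 0 < w)).1 hd.2
          exact this
        have h3 : w ≤ Y / d := by
          rw [Nat.le_div_iff_mul_le (by omega)]
          rwa [mul_comm]
        have hdY : d ≤ Y := (Nat.le_mul_of_pos_right d (by omega)).trans h2
        have h4 := (hT w q (cls q d b) (cls q d b') (Y / d) (X / d) hww₁ hq hq8 (cls_coprime hq hc hb)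
          (cls_coprime hq hc hb') h3 (Nat.div_le_div_right hYX)).1
        have h5 := log_div_le (m := d) (N := X) (by omega) (hdY.trans hYX)
        have h6 := log_div_ge (m := d) (N := Y) (by omega) hdY
        have h7 : 0 < Real.log ((Y / d : ℕ) : ℝ) := by
          have : Real.log w ≤ Real.log ((Y / d : ℕ) : ℝ) := Real.log_le_log (by linarith) (by exact_mod_cast h3)
          linarith
        calc zR w d / d * |Δ d| ≤ zR w d / d * (C₁ / q.totient * t ^ 4 *
              ((l + 2) / (Real.log ((Y / d : ℕ) : ℝ)) ^ 3)) := by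
              apply mul_le_mul_of_nonneg_left _ h0
              refine h4.trans ?_
              rw [← ht]
              apply mul_le_mul_of_nonneg_left _ (by positivity)
              gcongr
              linarith
          _ = _ := by ring
    refine (sum_le_sum h1).trans ?_
    rw [← mul_sum]
    apply mul_le_mul_of_nonneg_left _ (by positivity)
    exact blocks hC₂ hw8 hRw Y
  -- total
  refine e2.trans ?_
  rw [e3, e4, add_zero]
  refine (add_le_add e6 e5).trans ?_
  have ht0 : 0 < t := by linarith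
  have h1 : C₁ / q.totient * t ^ 4 * (l + 2) * (2 * (1 + 3 * C₂) / t ^ 3) =
      C₁ / q.totient * (t * (l + 2) * (2 * (1 + 3 * C₂))) := by
    field_simp
  have h2 : C₁ / q.totient * t ^ 2 * (C₂ * (1 + (l + 1) / t)) = C₁ / q.totient * (C₂ * (t * (t + (l + 1)))) := by
    field_simp
  have h3 : C₁ * (4 + 8 * C₂) * t * (Real.log X - Real.log Y + t) / q.totient =
      C₁ / q.totient * ((4 + 8 * C₂) * (t * (l + t))) := by rw [hl]; ring
  rw [h1, h2, h3, ← mul_add]
  apply mul_le_mul_of_nonneg_left _ (by positivity)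
  have h4 : t * (l + 2) ≤ t * (l + t) := by nlinarith
  have h5 : t * (t + (l + 1)) ≤ 2 * (t * (l + t)) := by nlinarith
  have h6 : 0 ≤ t * (l + t) := by positivity
  nlinarith

end Pool.Agent.K9h19.LW
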