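import Pool.Agent.K9h19.LW.Stm
import Pool.Agent.Erdos456.Mertens

/-! Leaf SM of project LW (helper19), by helper66: Rankin's method for the smooth part. -/

set_option autoImplicit false

open Finset

namespace Pool.Agent.K9h19.LW

namespace Sm

/-- the weights of the powers -/
noncomputable def kk (r : ℝ) (j : ℕ) : ℝ := if j = 0 then 1 else r ^ j - r ^ (j - 1)

lemma kk_nonneg {r : ℝ} (hr : 1 ≤ r) (j : ℕ) : 0 ≤ kk r j := by
  unfold kk
  split_ifs with h
  · norm_num
  · have := pow_le_pow_right₀ hr (Nat.sub_le j 1)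
    linarith

lemma sum_kk (r : ℝ) (v : ℕ) : ∑ j ∈ range (v + 1), kk r j = r ^ v := by
  induction v with
  | zero => simp [kk]
  | succ v ih =>
    rw [sum_range_succ, ih]
    unfold kk
    rw [if_neg (by omega), Nat.add_sub_cancel]
    ring

lemma sum_kk_div (r q : ℝ) (hr : 1 ≤ r) (hq : 0 < q) (hrq : r / q ≤ 3 / 4) (n : ℕ) :
    ∑ j ∈ range (n + 1), kk r j / q ^ j ≤ 1 + 4 * (r - 1) / q := by
  have h1 : ∀ n : ℕ, ∑ j ∈ range (n + 1), kk r j / q ^ j =
      1 + ((r - 1) / q) * ∑ i ∈ range n, (r / q) ^ i := by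
    intro n
    induction n with
    | zero => simp [kk]
    | succ n ih =>
      rw [sum_range_succ, ih, sum_range_succ _ n]
      unfold kk
      rw [if_neg (by omega), Nat.add_sub_cancel, div_pow, pow_succ, pow_succ]
      field_simp
      ring
  rw [h1]
  have h2 : ∑ i ∈ range n, (r / q) ^ i ≤ 4 := by
    have h3 : ∑ i ∈ range n, (r / q) ^ i ≤ ∑ i ∈ range n, (3 / 4 : ℝ) ^ i := by
      apply sum_le_sum
      intro i _
      exact pow_le_pow_left₀ (by positivity) hrq i
    refine h3.trans ?_
    rw [geom_sum_eq (by norm_num)]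
    have : (0 : ℝ) ≤ (3 / 4 : ℝ) ^ n := by positivity
    rw [div_le_iff_of_neg (by norm_num)]
    linarith
  have h3 : 0 ≤ (r - 1) / q := div_nonneg (by linarith) hq.le
  have h4 := mul_le_mul_of_nonneg_left h2 h3
  have h5 : (r - 1) / q * 4 = 4 * (r - 1) / q := by ring
  linarith

/-- the weight of `m` -/
noncomputable def hw (r : ℕ → ℝ) (P : Finset ℕ) (m : ℕ) : ℝ := ∏ p ∈ P, r p ^ m.factorization p

lemma hw_nonneg (r : ℕ → ℝ) (P : Finset ℕ) (hr : ∀ p ∈ P, 1 ≤ r p) (m : ℕ) : 0 ≤ hw r P m :=
  prod_nonneg fun p hp => pow_nonneg (by linarith [hr p hp]) _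

lemma pow_fact (r : ℝ) (q m n : ℕ) (hq : q.Prime) (hm : 1 ≤ m) (hmn : m ≤ n) :
    r ^ m.factorization q = ∑ j ∈ range (n + 1), if q ^ j ∣ m then kk r j else 0 := by
  rw [← sum_kk, ← sum_filter]
  apply sum_congr _ fun _ _ => rfl
  ext j
  rw [mem_range, mem_filter, mem_range]
  have h1 : q ^ j ∣ m ↔ j ≤ m.factorization q :=
    (Nat.Prime.pow_dvd_iff_le_factorization hq (by omega))
  rw [h1]
  constructor
  · intro h
    refine ⟨?_, by omega⟩
    have h2 : m.factorization q < m := Nat.factorization_lt q (by omega)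
    omega
  · intro h
    omega

lemma hw_mul (r : ℕ → ℝ) (P : Finset ℕ) (q j m : ℕ) (hq : q.Prime)
    (hqP : q ∉ P) (hm : m ≠ 0) : hw r P (q ^ j * m) = hw r P m := by
  unfold hw
  refine prod_congr rfl fun p hp => ?_
  congr 1
  have hpq : p ≠ q := fun h => hqP (h ▸ hp)
  rw [Nat.factorization_mul (pow_ne_zero _ hq.ne_zero) hm, hq.factorization_pow]
  simp [hpq.symm]

lemma rankin (r : ℕ → ℝ) (P : Finset ℕ) (hP : ∀ p ∈ P, p.Prime)
    (hr : ∀ p ∈ P, 1 ≤ r p ∧ r p / p ≤ 3 / 4) :
    ∀ n : ℕ, ∑ m ∈ Icc 1 n, hw r P m ≤ n * ∏ p ∈ P, (1 + 4 * (r p - 1) / p) := by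
  induction P using Finset.induction_on with
  | empty =>
    intro n
    simp [hw]
  | insert q P hqP ih =>
    intro n
    have hP' : ∀ p ∈ P, p.Prime := fun p hp => hP p (mem_insert_of_mem hp)
    have hr' : ∀ p ∈ P, 1 ≤ r p ∧ r p / p ≤ 3 / 4 := fun p hp => hr p (mem_insert_of_mem hp)
    have hq : q.Prime := hP q (mem_insert_self _ _)
    obtain ⟨hrq1, hrq2⟩ := hr q (mem_insert_self _ _)
    have ih' := ih hP' hr'
    set D0 := ∏ p ∈ P, (1 + 4 * (r p - 1) / p) with hD0
    have hD00 : 0 ≤ D0 := by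
      refine prod_nonneg fun p hp => ?_
      have := (hr' p hp).1
      have h2 : 0 ≤ 4 * (r p - 1) / p := div_nonneg (by linarith) (Nat.cast_nonneg p)
      linarith
    have hq0 : (0 : ℝ) < q := by exact_mod_cast hq.pos
    have h1 : ∑ m ∈ Icc 1 n, hw r (insert q P) m =
        ∑ j ∈ range (n + 1), kk (r q) j * ∑ m ∈ Icc 1 n, if q ^ j ∣ m then hw r P m else 0 := by
      have h2 : ∀ m ∈ Icc 1 n, hw r (insert q P) m =
          ∑ j ∈ range (n + 1), kk (r q) j * (if q ^ j ∣ m then hw r P m else 0) := by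
        intro m hm
        rw [mem_Icc] at hm
        have h3 : hw r (insert q P) m = r q ^ m.factorization q * hw r P m := by
          unfold hw
          rw [prod_insert hqP]
        rw [h3, pow_fact (r q) q m n hq hm.1 hm.2, sum_mul]
        refine sum_congr rfl fun j _ => ?_
        split_ifs
        · rfl
        · ring
      rw [sum_congr rfl h2, sum_comm]
      refine sum_congr rfl fun j _ => ?_
      rw [mul_sum]
    have h2 : ∀ j : ℕ, ∑ m ∈ Icc 1 n, (if q ^ j ∣ m then hw r P m else 0) ≤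
        (n : ℝ) / q ^ j * D0 := by
      intro j
      have hqj : 0 < q ^ j := pow_pos hq.pos j
      have h3 : ∑ m ∈ Icc 1 n, (if q ^ j ∣ m then hw r P m else 0) =
          ∑ m ∈ Icc 1 (n / q ^ j), hw r P m := by
        rw [← sum_filter]
        symm
        refine sum_bij (fun m _ => q ^ j * m) ?_ ?_ ?_ ?_
        · intro m hm
          rw [mem_Icc] at hm
          rw [mem_filter, mem_Icc]
          refine ⟨⟨Nat.mul_pos hqj hm.1, ?_⟩, Dvd.intro _ rfl⟩
          have := (Nat.le_div_iff_mul_le hqj).mp hm.2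
          rwa [mul_comm]
        · intro m _ m' _ h
          exact Nat.eq_of_mul_eq_mul_left hqj h
        · intro m hm
          rw [mem_filter, mem_Icc] at hm
          obtain ⟨⟨hm1, hm2⟩, k, rfl⟩ := hm
          refine ⟨k, ?_, rfl⟩
          rw [mem_Icc]
          refine ⟨Nat.pos_of_ne_zero (by rintro rfl; simp at hm1), ?_⟩
          rw [Nat.le_div_iff_mul_le hqj, mul_comm]
          exact hm2
        · intro m hm
          rw [mem_Icc] at hm
          rw [hw_mul r P q j m hq hqP (by omega)]
      rw [h3]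
      refine (ih' (n / q ^ j)).trans ?_
      apply mul_le_mul_of_nonneg_right _ hD00
      have := Nat.cast_div_le (α := ℝ) (m := n) (n := q ^ j)
      push_cast at this
      exact this
    rw [h1, prod_insert hqP]
    calc _ ≤ ∑ j ∈ range (n + 1), kk (r q) j * ((n : ℝ) / q ^ j * D0) :=
          sum_le_sum fun j _ => mul_le_mul_of_nonneg_left (h2 j) (kk_nonneg hrq1 j)
      _ = (n * D0) * ∑ j ∈ range (n + 1), kk (r q) j / (q : ℝ) ^ j := by
          rw [mul_sum]
          refine sum_congr rfl fun j _ => ?_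
          ring
      _ ≤ (n * D0) * (1 + 4 * (r q - 1) / q) := by
          apply mul_le_mul_of_nonneg_left _ (by positivity)
          exact sum_kk_div (r q) q hrq1 hq0 hrq2 n
      _ = _ := by ring

/-- the weight `p ^ (1 / log y)` -/
noncomputable def rr (y p : ℕ) : ℝ := Real.exp (Real.log p / Real.log y)

lemma rr_bound (y p : ℕ) (hp : p.Prime) (hy : 8 ≤ y) (hpy : p ≤ y) :
    (1 ≤ rr y p ∧ rr y p / p ≤ 3 / 4) ∧
      1 + 4 * (rr y p - 1) / p ≤ Real.exp (8 / Real.log y * (Real.log p / p)) := by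
  have hp0 : (0 : ℝ) < p := by exact_mod_cast hp.pos
  have hp2 : (2 : ℝ) ≤ p := by exact_mod_cast hp.two_le
  have hlogy : 2 ≤ Real.log y := by
    have h1 : Real.log 8 ≤ Real.log y := Real.log_le_log (by norm_num) (by exact_mod_cast hy)
    have h2 : Real.log 8 = 3 * Real.log 2 := by
      rw [show (8 : ℝ) = 2 ^ 3 by norm_num, Real.log_pow]
      norm_num
    have h3 := Real.log_two_gt_d9
    linarith
  have hlogp : Real.log 2 ≤ Real.log p := Real.log_le_log (by norm_num) hp2
  have hlog2 := Real.log_two_gt_d9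
  have hlogpy : Real.log p ≤ Real.log y := Real.log_le_log hp0 (by exact_mod_cast hpy)
  set u := Real.log p / Real.log y with hu
  have hu0 : 0 ≤ u := div_nonneg (by linarith) (by linarith)
  have hu1 : u ≤ 1 := (div_le_one (by linarith)).mpr hlogpy
  have hu2 : u ≤ Real.log p / 2 := by
    rw [hu]
    exact div_le_div_of_nonneg_left (by linarith) (by norm_num) hlogy
  have hr1 : rr y p - 1 ≤ 2 * u := by
    have h1 := convexOn_exp.2 (Set.mem_univ (0 : ℝ)) (Set.mem_univ (1 : ℝ))
      (show 0 ≤ 1 - u by linarith) hu0 (by ring)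
    simp only [smul_eq_mul, mul_zero, mul_one, zero_add, Real.exp_zero] at h1
    have h2 := Real.exp_one_lt_d9
    have h3 : rr y p = Real.exp u := rfl
    rw [h3]
    nlinarith
  refine ⟨⟨Real.one_le_exp hu0, ?_⟩, ?_⟩
  · have h1 : rr y p / p = Real.exp (u - Real.log p) := by
      rw [Real.exp_sub, Real.exp_log hp0]
      rfl
    rw [h1]
    have h2 : Real.exp (u - Real.log p) ≤ Real.exp (-(Real.log 2 / 2)) := by
      apply Real.exp_le_exp.mpr
      linarith
    refine h2.trans ?_
    set x := Real.exp (-(Real.log 2 / 2)) with hx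
    have hx0 : 0 < x := Real.exp_pos _
    have hx2 : x * x = 1 / 2 := by
      rw [hx, ← Real.exp_add, show -(Real.log 2 / 2) + -(Real.log 2 / 2) = -Real.log 2 by ring,
        Real.exp_neg, Real.exp_log (by norm_num)]
      norm_num
    by_contra hcon
    push Not at hcon
    nlinarith
  · have h1 : 1 + 4 * (rr y p - 1) / p ≤ 1 + 8 / Real.log y * (Real.log p / p) := by
      have h2 : 4 * (rr y p - 1) / p ≤ 4 * (2 * u) / p := by gcongr
      have h3 : 4 * (2 * u) / p = 8 / Real.log y * (Real.log p / p) := by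
        rw [hu]
        ring
      linarith
    refine h1.trans ?_
    have := Real.add_one_le_exp (8 / Real.log y * (Real.log p / p))
    linarith

lemma hw_sp (y m : ℕ) (T : ℝ) (hT : 1 ≤ T) (hy : 8 ≤ y) (h : T < (sp y m : ℝ)) :
    1 ≤ hw (rr y) ((Icc 1 y).filter Nat.Prime) m * Real.exp (-(Real.log T / Real.log y)) := by
  have hlogy : 0 < Real.log y := Real.log_pos (by
    have : 1 < y := by omega
    exact_mod_cast this)
  have h1 : hw (rr y) ((Icc 1 y).filter Nat.Prime) m = Real.exp (Real.log (sp y m) / Real.log y) := by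
    have h2 : Real.log (sp y m) = ∑ p ∈ (Icc 1 y).filter Nat.Prime,
        (m.factorization p : ℝ) * Real.log p := by
      unfold sp
      rw [Nat.cast_prod, Real.log_prod]
      · have h3 : ∀ p ∈ m.primeFactors.filter (fun p => p ≤ y),
            Real.log ((p ^ m.factorization p : ℕ) : ℝ) = (m.factorization p : ℝ) * Real.log p := by
          intro p _
          rw [Nat.cast_pow, Real.log_pow]
        rw [sum_congr rfl h3]
        apply sum_subset
        · intro p hp
          rw [mem_filter] at hp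
          rw [mem_filter, mem_Icc]
          have hpp := Nat.prime_of_mem_primeFactors hp.1
          exact ⟨⟨hpp.one_lt.le, hp.2⟩, hpp⟩
        · intro p hp hp'
          rw [mem_filter, mem_Icc] at hp
          have h4 : p ∉ m.primeFactors := fun h5 => hp' (mem_filter.mpr ⟨h5, hp.1.2⟩)
          rw [Finsupp.notMem_support_iff.mp (by rwa [Nat.support_factorization])]
          simp
      · intro p hp
        rw [mem_filter] at hp
        have hpp := Nat.prime_of_mem_primeFactors hp.1
        exact_mod_cast (pow_pos hpp.pos _).ne'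
    rw [h2, sum_div, Real.exp_sum]
    unfold hw
    refine prod_congr rfl fun p _ => ?_
    unfold rr
    rw [← Real.exp_nat_mul]
    congr 1
    ring
  rw [h1, ← Real.exp_add]
  apply Real.one_le_exp
  have h3 : Real.log T ≤ Real.log (sp y m) := Real.log_le_log (by linarith) h.le
  have h4 : Real.log T / Real.log y ≤ Real.log (sp y m) / Real.log y := by gcongr
  linarith

end Sm

theorem sm : S_SM := by
  obtain ⟨C₁, hC₁⟩ := Pool.Agent.Erdos456.Mert.mertens_log
  have hC0 : 0 ≤ C₁ := (abs_nonneg _).trans (hC₁ 1 le_rfl)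
  refine ⟨2 * Real.exp (8 + 4 * C₁), by positivity, 8, ?_⟩
  intro y M T hy _ hT
  have hlogy : 2 ≤ Real.log y := by
    have h1 : Real.log 8 ≤ Real.log y := Real.log_le_log (by norm_num) (by exact_mod_cast hy)
    have h2 : Real.log 8 = 3 * Real.log 2 := by
      rw [show (8 : ℝ) = 2 ^ 3 by norm_num, Real.log_pow]
      norm_num
    have h3 := Real.log_two_gt_d9
    linarith
  set P := (Icc 1 y).filter Nat.Prime with hP
  have hPm : ∀ p ∈ P, p.Prime ∧ p ≤ y := by
    intro p hp
    rw [hP, mem_filter, mem_Icc] at hp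
    exact ⟨hp.2, hp.1.2⟩
  have hr : ∀ p ∈ P, 1 ≤ Sm.rr y p ∧ Sm.rr y p / p ≤ 3 / 4 := fun p hp =>
    (Sm.rr_bound y p (hPm p hp).1 hy (hPm p hp).2).1
  have h1 := Sm.rankin (Sm.rr y) P (fun p hp => (hPm p hp).1) hr (2 * M)
  have h2 : ∏ p ∈ P, (1 + 4 * (Sm.rr y p - 1) / p) ≤ Real.exp (8 + 4 * C₁) := by
    calc ∏ p ∈ P, (1 + 4 * (Sm.rr y p - 1) / p) ≤
        ∏ p ∈ P, Real.exp (8 / Real.log y * (Real.log p / p)) := by
          apply prod_le_prod
          · intro p hp
            have := (hr p hp).1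
            have h3 : 0 ≤ 4 * (Sm.rr y p - 1) / p := div_nonneg (by linarith) (Nat.cast_nonneg p)
            linarith
          · intro p hp
            exact (Sm.rr_bound y p (hPm p hp).1 hy (hPm p hp).2).2
      _ = Real.exp (8 / Real.log y * ∑ p ∈ P, Real.log p / p) := by
          rw [← Real.exp_sum, mul_sum]
      _ ≤ _ := by
          apply Real.exp_le_exp.mpr
          have h3 := (abs_le.mp (hC₁ y (by omega))).2
          have h4 : ∑ p ∈ P, Real.log p / p ≤ Real.log y + C₁ := by linarith
          calc 8 / Real.log y * ∑ p ∈ P, Real.log p / p ≤ 8 / Real.log y * (Real.log y + C₁) := by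
                gcongr
            _ = 8 + 8 * C₁ / Real.log y := by
                field_simp
            _ ≤ 8 + 4 * C₁ := by
                have h5 : 8 * C₁ / Real.log y ≤ 8 * C₁ / 2 :=
                  div_le_div_of_nonneg_left (by linarith) (by norm_num) hlogy
                linarith
  have h3 : (((Ioc M (2 * M)).filter (fun m => T < (sp y m : ℝ))).card : ℝ) ≤
      ∑ m ∈ Icc 1 (2 * M), Sm.hw (Sm.rr y) P m * Real.exp (-(Real.log T / Real.log y)) := by
    calc (((Ioc M (2 * M)).filter (fun m => T < (sp y m : ℝ))).card : ℝ) =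
        ∑ _m ∈ (Ioc M (2 * M)).filter (fun m => T < (sp y m : ℝ)), (1 : ℝ) := by
          rw [sum_const, nsmul_eq_mul, mul_one]
      _ ≤ ∑ m ∈ (Ioc M (2 * M)).filter (fun m => T < (sp y m : ℝ)),
          Sm.hw (Sm.rr y) P m * Real.exp (-(Real.log T / Real.log y)) := by
          apply sum_le_sum
          intro m hm
          rw [mem_filter] at hm
          exact Sm.hw_sp y m T hT hy hm.2
      _ ≤ _ := by
          apply sum_le_sum_of_subset_of_nonneg
          · intro m hm
            rw [mem_filter, mem_Ioc] at hm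
            rw [mem_Icc]
            omega
          · intro m _ _
            exact mul_nonneg (Sm.hw_nonneg _ _ (fun p hp => (hr p hp).1) m) (Real.exp_pos _).le
  refine h3.trans ?_
  rw [← sum_mul]
  apply mul_le_mul_of_nonneg_right _ (Real.exp_pos _).le
  refine h1.trans ?_
  push_cast
  calc 2 * (M : ℝ) * ∏ p ∈ P, (1 + 4 * (Sm.rr y p - 1) / p) ≤
      2 * (M : ℝ) * Real.exp (8 + 4 * C₁) := by gcongr
    _ = _ := by ring

end Pool.Agent.K9h19.LW
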