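import Pool.Agent.K9h19.LW.Stm3
import Pool.Agent.K9h19.LW.PARS

/-! Leaf SPLIT of project LW (helper19), by helper85. -/

set_option autoImplicit false

open Finset

namespace Pool.Agent.K9h19.LW

open Pool.Agent.H398R2.BV (Prim)

namespace Spl

variable {m : ℕ}

/-- a combination of characters -/
noncomputable def K (S : Finset (DirichletCharacter ℂ m)) (b : DirichletCharacter ℂ m → ℂ)
    (c : ZMod m) : ℂ :=
  (1 / (m.totient : ℂ)) * ∑ χ ∈ S, χ⁻¹ c * b χ

lemma norm_K_le (S : Finset (DirichletCharacter ℂ m)) (b : DirichletCharacter ℂ m → ℂ)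
    (c : ZMod m) : ‖K S b c‖ ≤ 1 / (m.totient : ℝ) * ∑ χ ∈ S, ‖b χ‖ := by
  unfold K
  rw [norm_mul, norm_div, norm_one, Complex.norm_natCast]
  gcongr
  refine (norm_sum_le _ _).trans (sum_le_sum fun χ _ => ?_)
  rw [norm_mul]
  calc _ ≤ 1 * ‖b χ‖ := mul_le_mul_of_nonneg_right ((χ⁻¹).norm_le_one _) (norm_nonneg _)
    _ = _ := one_mul _

variable [NeZero m]

open Classical in
lemma orth (χ ψ : DirichletCharacter ℂ m) :
    ∑ c : ZMod m, χ⁻¹ c * ψ c = if χ = ψ then (m.totient : ℂ) else 0 := by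
  have h : ∀ c : ZMod m, χ⁻¹ c * ψ c = (χ⁻¹ * ψ) c := fun c => (MulChar.mul_apply _ _ _).symm
  simp_rw [h]
  by_cases hh : χ = ψ
  · rw [if_pos hh, hh, inv_mul_cancel, MulChar.sum_one_eq_card_units, ZMod.card_units_eq_totient]
  · rw [if_neg hh]
    apply MulChar.sum_eq_zero_of_ne_one
    intro h1
    exact hh (inv_mul_eq_one.mp h1)

open Classical in
lemma sum_K_sq (S : Finset (DirichletCharacter ℂ m)) (b : DirichletCharacter ℂ m → ℂ) :
    ∑ c : ZMod m, ‖K S b c‖ ^ 2 = 1 / (m.totient : ℝ) * ∑ χ ∈ S, ‖b χ‖ ^ 2 := by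
  have hφ : (m.totient : ℂ) ≠ 0 := by
    have := Nat.totient_pos.mpr (NeZero.pos m)
    exact_mod_cast this.ne'
  have key : ∑ c : ZMod m, K S b c * (starRingEnd ℂ) (K S b c) =
      (1 / (m.totient : ℂ)) * ∑ χ ∈ S, b χ * (starRingEnd ℂ) (b χ) := by
    have h1 : ∀ c : ZMod m, K S b c * (starRingEnd ℂ) (K S b c) =
        ∑ χ ∈ S, ∑ ψ ∈ S, ((1 / (m.totient : ℂ)) ^ 2 * (b χ * (starRingEnd ℂ) (b ψ))) *
          (χ⁻¹ c * ψ c) := by
      intro c
      have h2 : (starRingEnd ℂ) (K S b c) =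
          (1 / (m.totient : ℂ)) * ∑ ψ ∈ S, ψ c * (starRingEnd ℂ) (b ψ) := by
        unfold K
        rw [map_mul, map_sum, map_div₀, map_one, Complex.conj_natCast]
        congr 1
        refine sum_congr rfl fun ψ _ => ?_
        rw [map_mul]
        congr 1
        have := MulChar.star_apply' ψ⁻¹ c
        rw [inv_inv] at this
        exact this
      rw [h2]
      unfold K
      rw [mul_mul_mul_comm, sum_mul_sum, mul_sum]
      refine sum_congr rfl fun χ _ => ?_
      rw [mul_sum]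
      refine sum_congr rfl fun ψ _ => ?_
      ring
    simp_rw [h1]
    rw [sum_comm, mul_sum]
    refine sum_congr rfl fun χ hχ => ?_
    rw [sum_comm]
    simp_rw [← mul_sum, orth]
    rw [sum_eq_single_of_mem χ hχ]
    · rw [if_pos rfl]
      field_simp
    · intro ψ _ hne
      rw [if_neg (Ne.symm hne), mul_zero]
  have h3 : ∀ z : ℂ, z * (starRingEnd ℂ) z = ((‖z‖ ^ 2 : ℝ) : ℂ) := by
    intro z
    rw [Complex.mul_conj, Complex.normSq_eq_norm_sq]
  simp_rw [h3] at key
  apply Complex.ofReal_injective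
  push_cast at key ⊢
  exact key

open Classical in
/-- the deviation of one class -/
lemma D_eq (N m g : ℕ) (a : ℕ → ℝ) [NeZero m] (hg : g ∣ m) (ha : ∀ n, a n ≠ 0 → n.Coprime m)
    (c : ℕ) (hc : c.Coprime m) :
    ((SP a N m c - (g.totient : ℝ) / m.totient * SP a N g c : ℝ) : ℂ) =
      K ((univ : Finset (DirichletCharacter ℂ m)).filter (fun χ => ¬ χ.FactorsThrough g))
        (Prs.A N a) (c : ZMod m) := by
  have hφ : (m.totient : ℂ) ≠ 0 := by
    have := Nat.totient_pos.mpr (NeZero.pos m)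
    exact_mod_cast this.ne'
  have hu : IsUnit (c : ZMod m) := (ZMod.isUnit_iff_coprime c m).mpr hc
  have hSP : ∀ k : ℕ, k ∣ m → SP a N k (c : ZMod m).val = SP a N k c := by
    intro k hk
    unfold SP
    have h1 : (c : ZMod m).val ≡ c [MOD k] := by
      rw [ZMod.val_natCast]
      exact (Nat.mod_modEq c m).of_dvd hk
    congr 1
    ext n
    rw [mem_filter, mem_filter]
    constructor
    · rintro ⟨h2, h3⟩
      exact ⟨h2, h3.trans h1⟩
    · rintro ⟨h2, h3⟩
      exact ⟨h2, h3.trans h1.symm⟩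
  have hD : Prs.D N m g a (c : ZMod m) =
      ((SP a N m c - (g.totient : ℝ) / m.totient * SP a N g c : ℝ) : ℂ) := by
    unfold Prs.D
    rw [hSP m dvd_rfl, hSP g hg]
  have h1 : ∑ χ : DirichletCharacter ℂ m, χ (c : ZMod m)⁻¹ * ∑ b : ZMod m, χ b * Prs.D N m g a b =
      (m.totient : ℂ) * Prs.D N m g a (c : ZMod m) := by
    calc _ = ∑ b : ZMod m, (∑ χ : DirichletCharacter ℂ m, χ (c : ZMod m)⁻¹ * χ b) *
          Prs.D N m g a b := by
          simp_rw [mul_sum, sum_mul]
          rw [sum_comm]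
          refine sum_congr rfl fun b _ => sum_congr rfl fun χ _ => ?_
          ring
      _ = ∑ b : ZMod m, (if (c : ZMod m) = b then (m.totient : ℂ) else 0) *
          Prs.D N m g a b := by
          refine sum_congr rfl fun b _ => ?_
          rw [DirichletCharacter.sum_char_inv_mul_char_eq ℂ hu b]
      _ = _ := by
          simp
  have h4 : ∀ χ : DirichletCharacter ℂ m, χ (c : ZMod m)⁻¹ = χ⁻¹ (c : ZMod m) := by
    intro χ
    obtain ⟨u, hu'⟩ := hu
    rw [← hu', ZMod.inv_coe_unit, MulChar.inv_apply, Ring.inverse_unit]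
  rw [← hD]
  unfold K
  rw [one_div, eq_inv_mul_iff_mul_eq₀ hφ, ← h1, sum_filter]
  refine sum_congr rfl fun χ _ => ?_
  rw [Prs.transform N m g a hg ha χ, h4]
  by_cases h : χ.FactorsThrough g
  · rw [if_pos h, if_neg (not_not.mpr h), mul_zero]
  · rw [if_neg h, if_pos h]

open Classical in
/-- a sum over characters by primitive characters, with a condition on the conductor -/
lemma step (g : ℕ) (hg : g ∣ m) (P : ℕ → Prop) [DecidablePred P] (F : DirichletCharacter ℂ m → ℝ)
    (hF : ∀ χ, 0 ≤ F χ) (B : (f : ℕ) → DirichletCharacter ℂ f → ℝ)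
    (hB : ∀ (f : ℕ) (h : f ∣ m) (ψ : DirichletCharacter ℂ f),
      F (DirichletCharacter.changeLevel h ψ) ≤ B f ψ) :
    ∑ χ ∈ ((univ : Finset (DirichletCharacter ℂ m)).filter
      (fun χ => ¬ χ.FactorsThrough g)).filter (fun χ => P χ.conductor), F χ ≤
      ∑ f ∈ m.divisors.filter (fun f => ¬ f ∣ g ∧ P f), ∑ ψ ∈ Prim f, B f ψ := by
  have h1 : ∀ χ ∈ ((univ : Finset (DirichletCharacter ℂ m)).filter
      (fun χ => ¬ χ.FactorsThrough g)).filter (fun χ => P χ.conductor),
      χ.conductor ∈ m.divisors.filter (fun f => ¬ f ∣ g ∧ P f) := by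
    intro χ hχ
    rw [mem_filter, mem_filter] at hχ
    rw [mem_filter]
    refine ⟨Nat.mem_divisors.mpr ⟨χ.conductor_dvd_level, NeZero.ne m⟩, ?_, hχ.2⟩
    intro h
    exact hχ.1.2 (χ.factorsThrough_conductor.mono χ h hg)
  rw [← sum_fiberwise_of_maps_to h1]
  apply sum_le_sum
  intro f hf
  rw [mem_filter, Nat.mem_divisors] at hf
  have hfm := hf.1.1
  have h2 : ((((univ : Finset (DirichletCharacter ℂ m)).filter
      (fun χ => ¬ χ.FactorsThrough g)).filter (fun χ => P χ.conductor)).filter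
        (fun χ => χ.conductor = f)) ⊆
      (Prim f).image (DirichletCharacter.changeLevel hfm) := by
    intro χ hχ
    rw [mem_filter] at hχ
    obtain ⟨_, hc⟩ := hχ
    subst hc
    rw [mem_image]
    exact ⟨χ.primitiveCharacter, by
      unfold Pool.Agent.H398R2.BV.Prim
      rw [mem_filter]; exact ⟨mem_univ _, χ.primitiveCharacter_isPrimitive⟩,
      χ.changeLevel_primitiveCharacter⟩
  calc _ ≤ ∑ χ ∈ (Prim f).image (DirichletCharacter.changeLevel hfm), F χ :=
        sum_le_sum_of_subset_of_nonneg h2 fun χ _ _ => hF χ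
    _ = ∑ ψ ∈ Prim f, F (DirichletCharacter.changeLevel hfm ψ) := by
        rw [sum_image]
        intro x _ y _ hxy
        exact DirichletCharacter.changeLevel_injective hfm hxy
    _ ≤ _ := sum_le_sum fun ψ _ => hB f hfm ψ

end Spl

open Spl in
theorem split : S_SPLIT := by
  classical
  intro N m g F a hm hg ha
  have hmz : NeZero m := ⟨by omega⟩
  have hφ : (0 : ℝ) < m.totient := by exact_mod_cast Nat.totient_pos.mpr hm
  set S : Finset (DirichletCharacter ℂ m) := univ.filter (fun χ => ¬ χ.FactorsThrough g) with hS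
  set S1 := S.filter (fun χ => χ.conductor ≤ F) with hS1
  set S2 := S.filter (fun χ => ¬ χ.conductor ≤ F) with hS2
  refine ⟨fun c => (K S1 (Prs.A N a) (c : ZMod m)).re,
    fun c => (K S2 (Prs.A N a) (c : ZMod m)).re, ?_, ?_, ?_⟩
  · intro c hc
    rw [mem_filter] at hc
    have h1 := D_eq N m g a hg ha c hc.2
    have h2 : K S (Prs.A N a) (c : ZMod m) =
        K S1 (Prs.A N a) (c : ZMod m) + K S2 (Prs.A N a) (c : ZMod m) := by
      unfold K
      rw [← mul_add, hS1, hS2, sum_filter_add_sum_filter_not]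
    have h3 := congrArg Complex.re h1
    rw [Complex.ofReal_re] at h3
    rw [h3, ← Complex.add_re, ← h2]
  · intro c
    refine (Complex.abs_re_le_norm _).trans ((norm_K_le _ _ _).trans ?_)
    gcongr
    exact step g hg (fun f => f ≤ F) (fun χ => ‖Prs.A N a χ‖) (fun χ => norm_nonneg _)
      (fun f ψ => ‖∑ n ∈ Icc 1 N, (a n : ℂ) * ψ (n : ZMod f)‖) (by
        intro f h ψ
        rw [Prs.A_changeLevel N m f a h ha ψ]
        exact le_rfl)
  · have h1 := Prs.sum_units m (fun c => (K S2 (Prs.A N a) (c : ZMod m)).re ^ 2)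
    rw [← h1]
    have h2 : ∑ u : (ZMod m)ˣ, (K S2 (Prs.A N a) (((u : ZMod m).val : ℕ) : ZMod m)).re ^ 2 ≤
        ∑ c : ZMod m, ‖K S2 (Prs.A N a) c‖ ^ 2 := by
      calc _ ≤ ∑ u : (ZMod m)ˣ, ‖K S2 (Prs.A N a) (u : ZMod m)‖ ^ 2 := by
            refine sum_le_sum fun u _ => ?_
            rw [ZMod.natCast_val, ZMod.cast_id]
            exact sq_le_sq' (by
              have := (abs_le.mp (Complex.abs_re_le_norm (K S2 (Prs.A N a) (u : ZMod m)))).1
              exact this) (Complex.re_le_norm _)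
        _ = ∑ c ∈ univ.map ⟨((↑) : (ZMod m)ˣ → ZMod m), Units.val_injective⟩,
            ‖K S2 (Prs.A N a) c‖ ^ 2 := by
            rw [sum_map]
            rfl
        _ ≤ _ := sum_le_sum_of_subset_of_nonneg (subset_univ _) fun _ _ _ => by positivity
    refine h2.trans ?_
    rw [sum_K_sq]
    gcongr
    refine (step g hg (fun f => ¬ f ≤ F) (fun χ => ‖Prs.A N a χ‖ ^ 2) (fun χ => by positivity)
      (fun f ψ => ‖∑ n ∈ Icc 1 N, (a n : ℂ) * ψ (n : ZMod f)‖ ^ 2) (by
        intro f h ψ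
        rw [Prs.A_changeLevel N m f a h ha ψ]
        exact le_rfl)).trans ?_
    apply sum_le_sum_of_subset_of_nonneg
    · intro f hf
      rw [mem_filter] at hf ⊢
      exact ⟨hf.1, not_le.mp hf.2.2⟩
    · intro f _ _
      exact sum_nonneg fun _ _ => by positivity

end Pool.Agent.K9h19.LW
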