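import Pool.Agent.K9h19.LW.Stm3
import Pool.Agent.K9h19.LW.VAR
import Pool.Agent.H398R2.BV5

/-! Leaf SQ of project LW (helper19), by helper42 (adapted from `VAR.lean` of helper66). -/

set_option autoImplicit false

open Finset

namespace Pool.Agent.K9h19.LW

open Pool.Agent.H410R2 (psiLog psiLogAP)
open Pool.Agent.H398R2.BV (Prim)

theorem sq : S_SQ := by
  classical
  refine ⟨96, by norm_num, ?_⟩
  intro M F X hM hF hMX
  have hM2 : (2 : ℝ) ≤ M := by exact_mod_cast hM
  have hX : 1 ≤ X := by linarith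
  have hX0 : 0 < X := by linarith
  have hlX : 0 ≤ Real.log X := Real.log_nonneg hX
  set L : ℝ := 1 + Real.log X with hL
  have hL1 : 1 ≤ L := by linarith
  have hl2M : 1 + Real.log (2 * M) ≤ 2 * L := by
    rw [Real.log_mul (by norm_num) (by positivity)]
    have h1 : Real.log 2 ≤ 1 := by
      have := Real.log_two_lt_d9
      linarith
    have h2 : Real.log M ≤ Real.log X := Real.log_le_log (by positivity) hMX
    linarith
  have hl2M0 : 0 ≤ 1 + Real.log (2 * M) := by
    have : 0 ≤ Real.log (2 * M) := Real.log_nonneg (by linarith)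
    linarith
  obtain ⟨N, hN⟩ : ∃ N : ℕ, N = ⌊X⌋₊ := ⟨_, rfl⟩
  have hNX : (N : ℝ) ≤ X := by
    rw [hN]
    exact Nat.floor_le hX0.le
  set G : ℕ → ℝ := fun f => ∑ ψ ∈ Prim f, ‖psiLog X f ψ‖ ^ 2 with hG
  have hG0 : ∀ f, 0 ≤ G f := fun f => sum_nonneg fun χ _ => by positivity
  set a : ℕ → ℂ := fun n => ((ArithmeticFunction.vonMangoldt n : ℝ) : ℂ) *
    ((Real.log (X / n) : ℝ) : ℂ) with ha
  set S : ℝ := ∑ n ∈ Icc 1 N, ‖a n‖ ^ 2 with hS
  have hS0 : 0 ≤ S := sum_nonneg fun n _ => by positivity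
  have hS1 : S ≤ X * L ^ 4 := by
    have h1 : ∀ n ∈ Icc 1 N, ‖a n‖ ^ 2 ≤ L ^ 4 := by
      intro n hn
      rw [mem_Icc] at hn
      have hn1 : (1 : ℝ) ≤ n := by exact_mod_cast hn.1
      have hn0 : (0 : ℝ) < n := by linarith
      have hnX : (n : ℝ) ≤ X := le_trans (by exact_mod_cast hn.2) hNX
      have e1 : ArithmeticFunction.vonMangoldt n ≤ L := by
        refine ArithmeticFunction.vonMangoldt_le_log.trans ?_
        have := Real.log_le_log hn0 hnX
        linarith
      have e2 : 0 ≤ ArithmeticFunction.vonMangoldt n := ArithmeticFunction.vonMangoldt_nonneg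
      have e3 : 0 ≤ Real.log (X / n) := Real.log_nonneg (by rwa [le_div_iff₀ hn0, one_mul])
      have e4 : Real.log (X / n) ≤ L := by
        have : Real.log (X / n) ≤ Real.log X :=
          Real.log_le_log (by positivity) (div_le_self hX0.le hn1)
        linarith
      have e5 : ‖a n‖ = ArithmeticFunction.vonMangoldt n * Real.log (X / n) := by
        simp only [ha]
        rw [norm_mul, Complex.norm_real, Complex.norm_real, Real.norm_of_nonneg e2,
          Real.norm_of_nonneg e3]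
      have e6 : ‖a n‖ ≤ L * L := by
        rw [e5]
        exact mul_le_mul e1 e4 e3 (by linarith)
      calc ‖a n‖ ^ 2 ≤ (L * L) ^ 2 := pow_le_pow_left₀ (norm_nonneg _) e6 2
        _ = L ^ 4 := by ring
    calc S ≤ ∑ _n ∈ Icc 1 N, L ^ 4 := sum_le_sum h1
      _ = N * L ^ 4 := by rw [sum_const, Nat.card_Icc, nsmul_eq_mul, Nat.add_sub_cancel]
      _ ≤ X * L ^ 4 := by gcongr
  have hls : ∀ K : ℕ, ∑ f ∈ Icc 1 K, ((f : ℝ) / (Nat.totient f : ℝ)) * G f ≤
      6 * (N + (K : ℝ) ^ 2) * S := by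
    intro K
    have h := Pool.Agent.Helper112.mult_large_sieve N K a
    refine le_trans (le_of_eq ?_) h
    refine sum_congr rfl fun f _ => ?_
    congr 1
    refine sum_congr ?_ fun χ _ => ?_
    · unfold Prim
      rfl
    · unfold psiLog
      rw [hN]
      congr 2
      refine sum_congr rfl fun n _ => ?_
      simp only [ha]
      ring
  have htail := Vr.tail_bound (fun f => ((f : ℝ) / (Nat.totient f : ℝ)) * G f)
    (fun f => mul_nonneg (by positivity) (hG0 f)) N F (2 * M) S hS0 hF hls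
  -- each modulus
  have h1 : ∀ m ∈ Ioc M (2 * M), (1 / (m.totient : ℝ)) *
      ∑ f ∈ m.divisors.filter (fun f => F < f), ∑ ψ ∈ Prim f, ‖psiLog X f ψ‖ ^ 2 ≤
      ∑ f ∈ Ioc F (2 * M), if f ∣ m then 1 / (m.totient : ℝ) * G f else 0 := by
    intro m hm
    rw [mem_Ioc] at hm
    rw [mul_sum, ← sum_filter]
    refine sum_le_sum_of_subset_of_nonneg ?_ ?_
    · intro f hf
      rw [mem_filter, Nat.mem_divisors] at hf
      rw [mem_filter, mem_Ioc]
      exact ⟨⟨hf.2, (Nat.le_of_dvd (by omega) hf.1.1).trans hm.2⟩, hf.1.1⟩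
    · intro f _ _
      exact mul_nonneg (by positivity) (hG0 f)
  calc _ ≤ ∑ m ∈ Ioc M (2 * M), ∑ f ∈ Ioc F (2 * M),
        (if f ∣ m then 1 / (m.totient : ℝ) * G f else 0) := sum_le_sum h1
    _ = ∑ f ∈ Ioc F (2 * M), ∑ m ∈ Ioc M (2 * M),
        (if f ∣ m then 1 / (m.totient : ℝ) * G f else 0) := sum_comm
    _ = ∑ f ∈ Ioc F (2 * M), (∑ m ∈ (Ioc M (2 * M)).filter (fun m => f ∣ m),
        1 / (m.totient : ℝ)) * G f := by
        refine sum_congr rfl fun f _ => ?_
        rw [← sum_filter, sum_mul]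
    _ ≤ ∑ f ∈ Ioc F (2 * M), (1 / (f.totient : ℝ) * (2 * L) ^ 2) * G f := by
        apply sum_le_sum
        intro f hf
        rw [mem_Ioc] at hf
        apply mul_le_mul_of_nonneg_right _ (hG0 f)
        refine (Vr.sum_inv_mult M f (by omega) hf.2).trans ?_
        gcongr
    _ = (2 * L) ^ 2 * ∑ f ∈ Ioc F (2 * M), ((f : ℝ) / (Nat.totient f : ℝ)) * G f / f := by
        rw [mul_sum]
        refine sum_congr rfl fun f hf => ?_
        rw [mem_Ioc] at hf
        have hf0 : (f : ℝ) ≠ 0 := by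
          have : f ≠ 0 := by omega
          exact_mod_cast this
        field_simp
    _ ≤ (2 * L) ^ 2 * (12 * (N / F + (2 * M : ℕ)) * S) := by gcongr
    _ ≤ (2 * L) ^ 2 * (12 * (X / F + 2 * M) * (X * L ^ 4)) := by
        push_cast
        gcongr
    _ ≤ 96 * L ^ 6 * (X / F + M) * X := by
        have h5 : X / F + 2 * M ≤ 2 * (X / F + M) := by
          have : 0 ≤ X / F := by positivity
          linarith
        calc (2 * L) ^ 2 * (12 * (X / F + 2 * M) * (X * L ^ 4)) =
            48 * L ^ 6 * X * (X / F + 2 * M) := by ring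
          _ ≤ 48 * L ^ 6 * X * (2 * (X / F + M)) := by gcongr
          _ = _ := by ring

end Pool.Agent.K9h19.LW
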