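import Pool.Agent.K9h19.LW.Stm

/-!
# Sketches for the tasks of `Stm.lean`

Each task: prove `theorem Pool.Agent.K9h19.LW.<name> : S_<NAME>` (possibly from other `S_*` as hypotheses) in the
file `Pool/Agent/K9h19/LW/<NAME>.lean` (namespace `Pool.Agent.K9h19.LW`). Notation: `t = log w`,
`l = log X - log Y`.  Useful: `Pool.Agent.W333.MH.fl : St_FL` (rough numbers in classes, with `rc`),
`Pool.Agent.H318R2.Cr.cz_bounds` (`V z * log z` bounded), `Pool.Agent.H318R2.Cr.T_bound`, `T_zero`,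
`fL_apply` (Mertens for rough numbers: `∑_{d ≤ N} LR w d / d = log N - log w + O(1)`, `N ≥ w`; zero for `N ≤ w`),
`Pool.Agent.Y851.HZ.rough_unit` (file Ch), `rough_gt` (file WN), `zR_apply`, `muR_le` (file E2), `ER_eq`, `LR_nonneg`, `ER_nonneg`.

* TD `theorem td : S_TD`. `e(k) = 1[k ≡ a] - 1[k ≡ a']` on rough `k`, `E(n) = ∑_{A<k≤n} e(k)`;
  by `fl` (twice, at `n` and at `A`) and `V w ≤ c₂ / log w`: `|E(n)| ≤ C t^4/φ(q) * n/(log n)^5` for `n ≥ A ≥ w`
  (`n/(log n)^5` is increasing for `n ≥ 149`; take `w₀ ≥ 149`, or lose a constant).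
  Abel with `c(k) = (log k)^2/k` (decreasing): `c(k) - c(k+1) ≤ (log k)^2/(k(k+1))`. So the difference is at most
  `C t^4/φ * (1/(log A)^3 + ∑_{A<k≤B} 1/(k (log k)^3))`, and the last sum is `≤ (log B - log A)/(log A)^3` and
  `≤ 1/(2 (log A)^2)` (telescoping with `1/(log (k-1))^2 - 1/(log k)^2`).
* RL `theorem rl : S_RL`. From `rough_unit`: unit windows `j ≤ log n < j+1`; those below `log w` are empty (a rough
  number `> 1` is `> w`). See the proof of `Pool.Agent.Y851.HZ.rough_total` (file WN), same argument.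
* SD `theorem sd (hTD : S_TD) (hRL : S_RL) : S_SD`. By `ER_eq`: `CS (ER w) q b Y X =
  ∑_{d ≤ X rough} μ(d)/d * CS (DD (DD (zR w))) q (b/d) (Y/d) (X/d)` (class `b/d`: use `cls`; rough `d` are coprime to
  `q ≤ w`). If `Y/d ≥ w`: first bound of TD with `A = Y/d`, `log B - log A ≤ l + log 2`; the sum over the rough `d ≤ Y/w`
  of `1/(d (log (Y/d))^3)`: blocks `w^j ≤ Y/d < w^(j+1)`, `j ≥ 1`, each with `∑ 1/d ≤ C` by RL (for the block which
  contains `d = 1` separately: all rough `1 < d ≤ w` do not exist), so `≤ C/t^3`. If `Y/d < w`: replace `Y/d` by `w`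
  (there are no rough `k` in `(1, w]`, and `log 1 = 0`), second bound of TD with `A = w`: `≤ C t^2/φ` each, and
  `∑_{Y/w < d ≤ X/w} 1/d ≤ C (1 + (l+1)/t)` by RL. Total `≤ C/φ * (t (2+l) + t^2 + t (l+1))`.
* TOT `theorem tot : S_TOT`. `ER = DD LR + LR*LR`. Let `R(N) = ∑_{d≤N} LR w d/d = (log N - t)_+ + O(1)` (all `N ≥ 1`).
  `F(M) := ∑_{m≤M} (LR m/m)(log M - log m)` satisfies `F(M+1) - F(M) = R(M)(log(M+1) - log M)`, so
  `F(M) = (log M - t)_+^2/2 + O(1 + log M)` by induction. First part: `∑_{n≤N} (LR n/n) log n = log N R(N) - F(N)`.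
  Second part: `∑_{Y<n≤X} (LR*LR)(n)/n = ∑_{m≤X} (LR m/m)(R(X/m) - R(Y/m))`, and `∑_{m≤X} (LR m/m) R(X/m) =
  F(X/w)`-like `= (log X - 2t)_+^2/2 + O(1 + log X)`. The sum of both main terms differs from
  `(log X)^2 - (log Y)^2` by at most `2 t l + O(log X)`.
* AVG `theorem avg (hSD : S_SD) (hTOT : S_TOT) : S_AVG`. The sum of `CS (ER w) q b' Y X` over the `φ(q)` coprime classes
  `b' < q` is `TS (ER w) Y X` (rough numbers `n > 1` are coprime to `q ≤ w`).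
* UP `theorem up (hAVG : S_AVG) : S_UP`. For `A ≤ n ≤ B`: `G(n) = ∑_{A<k≤n, k≡a} LR k log k/k ≤ CS (ER w) q a A n ≤
  H(n)/φ`, `H(n) = (log n)^2 - (log A)^2 + E`, `E = C (t (log B - log A + t) + log B)`. Abel inequality with the
  decreasing weight `1/log k`: `φ CS (LR w) ≤ E/log A + ∑_{A<k≤B} (H(k) - H(k-1))/log k ≤ E/log A + 2 (log B - log A)`.
  (Induction on `n`: `S(n) + c(n)(H(n) - G(n)) ≤ E/log A + 2(log n - log A)`.) `E/log A ≤ C' t` as `log B ≤ 5 log A`.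
* PAIR `theorem pair : S_PAIR`. Expand `LR*LR`, sum over ordered pairs `(m₁, m₂)` by `Y < m₁ m₂ ≤ X`, `m₁ m₂ ≡ b`;
  by symmetry at most twice the sum over `m₁ ≤ m₂`. Also state and prove (public, others need it):
  `theorem cls_iff {q m b k : ℕ} (hq : 1 ≤ q) (hm : m.Coprime q) : k ≡ cls q m b [MOD q] ↔ m * k ≡ b [MOD q]` and
  `theorem cls_coprime {q m b : ℕ} (hq : 1 ≤ q) (hm : m.Coprime q) (hb : b.Coprime q) : (cls q m b).Coprime q`.
* ABEL `theorem abel : S_ABEL`. `R(n) ≤ log n + C`; Abel inequality with the decreasing weight `g(v) = min l (U - 2v)`,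
  `v = log m`; `g(b)(b-a) ≤ P(b) - P(a)` for `a ≤ b`, `P(v) = l v - ((2v - (U - l))_+)^2/4`, `P(U/2) = U l/2 - l^2/4`.
* GAIN `theorem gain (hUP : S_UP) : S_GAIN` (uses `cls_coprime`, `cls_iff`). Let `h(a) = CS (LR w) q a (Y/z^K) (X/z)`,
  `l' = log(X/z) - log(Y/z^K)`. For `p` in `J`: `CS (LR w) q (b/p) (Y/p) (X/p) ≤ h(b/p)`; UP: `φ h(a) ≤ 2l' + C t`.
  `def(a) = (2l' + C t)/φ - h(a) ≥ 0`, `∑_a def(a) ≥ l' - C` (sum over coprime classes; Mertens `T_bound`), and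
  `∑_{p∈J} (log p/p) def(b/p) ≥ log z ∑_g def(b/g) ∑_{p∈J, p≡g} 1/p ≥ (c/φ) log z (l' - C)`.
  Finally `|l' - l| ≤ K log z + 1`, `∑_J log p/p ≤ C K log z`.
* PARS `theorem pars : S_PARS`. Orthogonality modulo `m` and modulo `g`; characters modulo `m` are induced by primitive
  ones; see `H441R3/BV/Small.lean` (`class_bound`), `Helper112/MultLS.lean` (`parseval`).
* VAR `theorem var (hPARS : S_PARS) : S_VAR`. `∑_{m in (M,2M], f | m} 1/φ(m) ≤ (1/φ(f)) (1 + log 2M)^2`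
  (`H441R3.BV... sum_inv_tot`), then dyadic blocks `(2^i R, 2^(i+1) R]` of `f` and `Helper112.mult_large_sieve`.
* SM `theorem sm : S_SM`. Rankin with `s = 1/log y`: `∑_{m ≤ 2M} sp(m)^s ≤ 2M ∏_{p≤y}(1 + ∑_{k≥1} (p^(ks) - p^((k-1)s))/p^k)
  ≤ 2M exp(C s ∑_{p≤y} log p/p) ≤ C M`.
-/
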