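import Mathlib
import Pool.Agent.H318R2.Cr.Prod
import Pool.Agent.H262R3.Lk.Stubs
import Pool.Agent.Y851.HZ.AF

/-!
# Linnik type lower bounds in every window: definitions and exact statements of the independent tasks

`LR w` is the von Mangoldt function restricted to `w`-rough numbers (no prime factor `≤ w`), `zR w` the
indicator function of rough numbers, `DD f = f * log`, and
`ER w = DD (LR w) + LR w * LR w = muR w * DD (DD (zR w))` (Selberg's identity `ER_eq`).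
-/

set_option autoImplicit false

open Finset

namespace Pool.Agent.K9h19.LW

open Pool.Agent.Y851.HZ (LR zR muR ER DD)

/-- `∑ f(n)/n` over `A < n ≤ B`, `n ≡ b` modulo `q` -/
noncomputable def CS (f : ℕ → ℝ) (q b A B : ℕ) : ℝ :=
  ∑ n ∈ (Ioc A B).filter (fun n => n ≡ b [MOD q]), f n / n

/-- `∑ f(n)/n` over `A < n ≤ B` -/
noncomputable def TS (f : ℕ → ℝ) (A B : ℕ) : ℝ := ∑ n ∈ Ioc A B, f n / n

/-- the class `b / m` modulo `q` -/
noncomputable def cls (q m b : ℕ) : ℕ := ((b : ZMod q) * (m : ZMod q)⁻¹).val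

/-- the `y`-smooth part of `m` -/
noncomputable def sp (y m : ℕ) : ℕ := ∏ p ∈ m.primeFactors.filter (fun p => p ≤ y), p ^ m.factorization p

/-- TD: class differences of `∑ (log k)^2/k` over rough numbers -/
def S_TD : Prop := ∃ C : ℝ, 0 < C ∧ ∃ w₀ : ℕ, ∀ w q a a' A B : ℕ, w₀ ≤ w → 1 ≤ q → q ^ 8 ≤ w →
  a.Coprime q → a'.Coprime q → w ≤ A → A ≤ B →
  |CS (DD (DD (zR w))) q a A B - CS (DD (DD (zR w))) q a' A B| ≤
    C / q.totient * (Real.log w) ^ 4 * ((1 + Real.log B - Real.log A) / (Real.log A) ^ 3) ∧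
  |CS (DD (DD (zR w))) q a A B - CS (DD (DD (zR w))) q a' A B| ≤
    C / q.totient * (Real.log w) ^ 4 / (Real.log A) ^ 2

/-- RL: rough numbers in long windows -/
def S_RL : Prop := ∃ C : ℝ, 0 < C ∧ ∃ w₀ : ℕ, ∀ w A B : ℕ, w₀ ≤ w → 1 ≤ A → A ≤ B →
  TS (zR w) A B ≤ C * (1 + (Real.log B - Real.log A) / Real.log w)

/-- SD: class differences of Selberg's function (from TD and RL) -/
def S_SD : Prop := ∃ C : ℝ, 0 < C ∧ ∃ w₀ : ℕ, ∀ w q b b' Y X : ℕ, w₀ ≤ w → 1 ≤ q → q ^ 8 ≤ w →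
  b.Coprime q → b'.Coprime q → w ≤ Y → Y ≤ X →
  |CS (ER w) q b Y X - CS (ER w) q b' Y X| ≤
    C * Real.log w * (Real.log X - Real.log Y + Real.log w) / q.totient

/-- TOT: the total sum of Selberg's function (Mertens) -/
def S_TOT : Prop := ∃ C : ℝ, 0 < C ∧ ∃ w₀ : ℕ, ∀ w Y X : ℕ, w₀ ≤ w → w ≤ Y → Y ≤ X →
  |TS (ER w) Y X - ((Real.log X) ^ 2 - (Real.log Y) ^ 2)| ≤
    C * (Real.log w * (Real.log X - Real.log Y) + Real.log X)

/-- AVG: Selberg's formula in a class (from SD and TOT) -/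
def S_AVG : Prop := ∃ C : ℝ, 0 < C ∧ ∃ w₀ : ℕ, ∀ w q b Y X : ℕ, w₀ ≤ w → 1 ≤ q → q ^ 8 ≤ w →
  b.Coprime q → w ≤ Y → Y ≤ X →
  |q.totient * CS (ER w) q b Y X - ((Real.log X) ^ 2 - (Real.log Y) ^ 2)| ≤
    C * (Real.log w * (Real.log X - Real.log Y + Real.log w) + Real.log X)

/-- UP: upper bound for primes in a class, with the constant two (from AVG) -/
def S_UP : Prop := ∃ C : ℝ, 0 < C ∧ ∃ w₀ : ℕ, ∀ w q a A B : ℕ, w₀ ≤ w → 1 ≤ q → q ^ 8 ≤ w →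
  a.Coprime q → w ≤ A → A ≤ B → Real.log B ≤ 5 * Real.log A →
  q.totient * CS (LR w) q a A B ≤ 2 * (Real.log B - Real.log A) + C * Real.log w

/-- PAIR: ordered pairs by the smaller member -/
def S_PAIR : Prop := ∀ w q b Y X : ℕ, 1 ≤ q → q ≤ w → b.Coprime q →
  CS (⇑(LR w * LR w)) q b Y X ≤
    2 * ∑ m ∈ (Ioc 1 X).filter (fun m => m ^ 2 ≤ X), LR w m / m *
      CS (LR w) q (cls q m b) (max (Y / m) (m - 1)) (X / m)

/-- ABEL: the main term of the pairs -/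
def S_ABEL : Prop := ∃ C : ℝ, 0 < C ∧ ∃ w₀ : ℕ, ∀ w X : ℕ, ∀ l : ℝ, w₀ ≤ w → w ≤ X → 0 ≤ l → l ≤ Real.log X →
  ∑ m ∈ (Ioc 1 X).filter (fun m => m ^ 2 ≤ X), LR w m / m * min l (Real.log X - 2 * Real.log m) ≤
    (Real.log X * l - l ^ 2 / 2) / 2 + C * l

/-- GAIN: the saving from the primes of the interval `(z, z^K]`, which fill all classes (from UP) -/
def S_GAIN : Prop := ∃ C : ℝ, 0 < C ∧ ∃ w₀ : ℕ, ∀ w z K q b Y X : ℕ, ∀ c : ℝ, w₀ ≤ w → 1 ≤ q → q ^ 8 ≤ w →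
  b.Coprime q → w ≤ z → 1 ≤ K → z ^ (4 * K) ≤ X → 1 ≤ Y → Y ≤ X →
  4 * (Real.log X - Real.log Y) ≤ Real.log X → 0 < c → c ≤ 1 →
  (∀ g : ℕ, g.Coprime q → c / (q.totient : ℝ) ≤
    ∑ p ∈ (Ioc z (z ^ K)).filter (fun p => p.Prime ∧ p ≡ g [MOD q]), (1 : ℝ) / p) →
  q.totient * ∑ p ∈ (Ioc z (z ^ K)).filter Nat.Prime, Real.log p / p *
      CS (LR w) q (cls q p b) (Y / p) (X / p) ≤
    (2 * (Real.log X - Real.log Y) + C * Real.log w) *
        (∑ p ∈ (Ioc z (z ^ K)).filter Nat.Prime, Real.log p / p) +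
      C * (K * Real.log z) ^ 2 - c * Real.log z * (Real.log X - Real.log Y - C)

/-- the sum over a class of the weights `a n`, `n ≤ N` -/
noncomputable def SP (a : ℕ → ℝ) (N m c : ℕ) : ℝ := ∑ n ∈ (Icc 1 N).filter (fun n => n ≡ c [MOD m]), a n

open Classical in
/-- PARS: the variance of `SP (m) - (φ(g)/φ(m)) SP (g)` over the classes modulo `m` by primitive characters -/
def S_PARS : Prop := ∀ (N m g : ℕ) (a : ℕ → ℝ), 1 ≤ m → g ∣ m → (∀ n, a n ≠ 0 → n.Coprime m) →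
  ∑ c ∈ (range m).filter (fun c => c.Coprime m),
      (SP a N m c - (g.totient : ℝ) / m.totient * SP a N g c) ^ 2 ≤
    1 / (m.totient : ℝ) * ∑ f ∈ m.divisors.filter (fun f => ¬ f ∣ g),
      ∑ χ ∈ (univ : Finset (DirichletCharacter ℂ f)).filter (fun χ => χ.IsPrimitive),
        ‖∑ n ∈ Icc 1 N, (a n : ℂ) * χ (n : ZMod f)‖ ^ 2

/-- VAR: the mean square over moduli and classes (from PARS and the large sieve `Helper112.mult_large_sieve`) -/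
def S_VAR : Prop := ∃ C : ℝ, 0 < C ∧ ∀ (M N R : ℕ) (a : ℕ → ℝ) (g : ℕ → ℕ), 2 ≤ M → 1 ≤ R →
  (∀ n, a n ≠ 0 → n.Prime ∧ 2 * M < n) →
  (∀ m ∈ Ioc M (2 * M), g m ∣ m ∧ ∀ f, f ∣ m → ¬ f ∣ g m → R < f) →
  ∑ m ∈ Ioc M (2 * M), ∑ c ∈ (range m).filter (fun c => c.Coprime m),
      (SP a N m c - ((g m).totient : ℝ) / m.totient * SP a N (g m) c) ^ 2 ≤
    C * (Real.log M) ^ 2 * (N / R + M) * ∑ n ∈ Icc 1 N, (a n) ^ 2

/-- SM: few integers have a large smooth part (Rankin) -/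
def S_SM : Prop := ∃ C : ℝ, 0 < C ∧ ∃ y₀ : ℕ, ∀ (y M : ℕ) (T : ℝ), y₀ ≤ y → 1 ≤ M → 1 ≤ T →
  (((Ioc M (2 * M)).filter (fun m => T < (sp y m : ℝ))).card : ℝ) ≤
    C * M * Real.exp (-(Real.log T / Real.log y))

end Pool.Agent.K9h19.LW
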