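import Pool.Agent.K9h19.LW.Stm
import Pool.Agent.H398R2.BV5
import Pool.Agent.H410R2.Iface2

/-!
# All classes (exponent `2 + ε`): two more tasks

* CL2 `theorem cl2 : S_CL2` in `CL2.lean`. This is `Pool.Agent.H398R2.BV.disc_le` (file `H398R2/BA2.lean`, the case
  `g = 1`) with the approximation from the modulus `g ∣ m`. By orthogonality modulo `m` and modulo `g`
  (`psiLogAP_char`); the characters modulo `m` which factor through `g` cancel up to the prime powers not prime to `m`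
  (total at most `ω(m) (log X)^2` in each sum), the others are induced by primitive characters of conductor `f ∣ m`,
  `¬ f ∣ g`, again up to `ω(m) (log X)^2`. `ω(m) ≤ 2 log m` (`H398R2/BA1.lean: omega_le_log`). See also `PARS.lean` of this
  folder (helper66) for the classification of the characters.
* MV `theorem mv : S_MV` in `MV.lean`. Interchange (`∑_{m in (M,2M], f ∣ m} 1/φ(m) ≤ (1/φ(f)) (1 + log 2M)^2`, as in
  `VAR.lean` of this folder), then `H398R2.BV.norm_psiLog_le` with `V = U` and `H398R2.BV.typeII_block` with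
  `F0 = R`, `F1 = 2M`; type I part: `∑_{R<f≤2M} (1/φ(f)) φ(f) 8 U^2 f (log X)^2 ≤ 32 U^2 M^2 (log X)^2` (`card_prim_le`).
-/

set_option autoImplicit false

open Finset

namespace Pool.Agent.K9h19.LW

open Pool.Agent.H410R2 (psiLog psiLogAP)
open Pool.Agent.H398R2.BV (Prim)

/-- CL2: the deviation of one class from the approximation by a divisor `g` of the modulus -/
def S_CL2 : Prop := ∃ C : ℝ, 0 < C ∧ ∀ (X : ℝ) (m g c : ℕ), 1 ≤ X → 1 ≤ m → g ∣ m → c.Coprime m →
  |psiLogAP X m c - (g.totient : ℝ) / m.totient * psiLogAP X g c| ≤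
    (1 / (m.totient : ℝ)) * (∑ f ∈ m.divisors.filter (fun f => ¬ f ∣ g), ∑ ψ ∈ Prim f, ‖psiLog X f ψ‖) +
      C * (1 + Real.log m) * (Real.log X) ^ 2

/-- MV: the mean value over large conductors -/
def S_MV : Prop := ∃ C : ℝ, 0 < C ∧ ∀ (M R U : ℕ) (X : ℝ), 2 ≤ M → 1 ≤ R → 1 ≤ U → (M : ℝ) ≤ X →
  ∑ m ∈ Ioc M (2 * M), (1 / (m.totient : ℝ)) * ∑ f ∈ m.divisors.filter (fun f => R < f),
      ∑ ψ ∈ Prim f, ‖psiLog X f ψ‖ ≤
    C * (1 + Real.log X) ^ 8 * (X / R + X / √U + M * √X + (U : ℝ) ^ 2 * (M : ℝ) ^ 2)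

end Pool.Agent.K9h19.LW
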