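import Pool.Agent.K9h19.LW.Stm2

/-!
# All exponents between one and two: three more tasks

* SPLIT `theorem split : S_SPLIT` in `SPLIT.lean` (helper66's `PARS.lean` has everything: `Prs.transform`, `Prs.plan`,
  `Prs.A_changeLevel`). Take `A c`, `B c` the real parts of `(1/φ(m)) ∑ conj χ(c) A(χ)` over the characters `χ` modulo `m`
  which do not factor through `g` and have conductor `≤ F` (for `A`), `> F` (for `B`); `|Re z| ≤ |z|`; the mean square of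
  `B` by orthogonality of the characters.
* MVF `theorem mvf : S_MVF` in `MVF.lean` (as MV of `Stm2.lean`, with `f ≤ F` in place of `f ≤ 2M`).
* SQ `theorem sq : S_SQ` in `SQ.lean` (as `VAR.lean`, second half: `Vr.tail_bound`, `Vr.sum_inv_mult` and the large sieve
  `Pool.Agent.Helper112.mult_large_sieve` for `Λ(n) log (X/n)`, `n ≤ ⌊X⌋`).
-/

set_option autoImplicit false

open Finset

namespace Pool.Agent.K9h19.LW

open Pool.Agent.H410R2 (psiLog psiLogAP)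
open Pool.Agent.H398R2.BV (Prim)

/-- SPLIT: the deviation from the approximation by `g ∣ m` is a sum of two parts, one for the characters of conductor
`≤ F` (bounded for every class) and one for the others (bounded in mean square) -/
def S_SPLIT : Prop := ∀ (N m g F : ℕ) (a : ℕ → ℝ), 1 ≤ m → g ∣ m → (∀ n, a n ≠ 0 → n.Coprime m) →
  ∃ A B : ℕ → ℝ,
    (∀ c ∈ (range m).filter (fun c => c.Coprime m),
      SP a N m c - (g.totient : ℝ) / m.totient * SP a N g c = A c + B c) ∧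
    (∀ c, |A c| ≤ 1 / (m.totient : ℝ) * ∑ f ∈ m.divisors.filter (fun f => ¬ f ∣ g ∧ f ≤ F),
      ∑ χ ∈ Prim f, ‖∑ n ∈ Icc 1 N, (a n : ℂ) * χ (n : ZMod f)‖) ∧
    ∑ c ∈ (range m).filter (fun c => c.Coprime m), (B c) ^ 2 ≤
      1 / (m.totient : ℝ) * ∑ f ∈ m.divisors.filter (fun f => F < f),
        ∑ χ ∈ Prim f, ‖∑ n ∈ Icc 1 N, (a n : ℂ) * χ (n : ZMod f)‖ ^ 2

/-- MVF: the mean value over the conductors in `(R, F]` -/
def S_MVF : Prop := ∃ C : ℝ, 0 < C ∧ ∀ (M F R U : ℕ) (X : ℝ), 2 ≤ M → 1 ≤ F → F ≤ 2 * M → 1 ≤ R → 1 ≤ U →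
  (M : ℝ) ≤ X →
  ∑ m ∈ Ioc M (2 * M), (1 / (m.totient : ℝ)) * ∑ f ∈ m.divisors.filter (fun f => R < f ∧ f ≤ F),
      ∑ ψ ∈ Prim f, ‖psiLog X f ψ‖ ≤
    C * (1 + Real.log X) ^ 8 * (X / R + X / √U + F * √X + (U : ℝ) ^ 2 * (F : ℝ) ^ 2)

/-- SQ: the mean square over the conductors above `F` -/
def S_SQ : Prop := ∃ C : ℝ, 0 < C ∧ ∀ (M F : ℕ) (X : ℝ), 2 ≤ M → 1 ≤ F → (M : ℝ) ≤ X →
  ∑ m ∈ Ioc M (2 * M), (1 / (m.totient : ℝ)) * ∑ f ∈ m.divisors.filter (fun f => F < f),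
      ∑ ψ ∈ Prim f, ‖psiLog X f ψ‖ ^ 2 ≤
    C * (1 + Real.log X) ^ 6 * (X / F + M) * X

end Pool.Agent.K9h19.LW
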