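import Pool.Agent.K9h19.LW.Abl
import Pool.Agent.K9h19.LW.Stm
import Pool.Agent.Y851.HZ.WN
import Pool.Agent.Y851.HZ.E2
import Pool.Agent.W333.MH.FL

/-! Class differences of `∑ (log k)^2/k` over rough numbers. -/

set_option autoImplicit false

open Finset

namespace Pool.Agent.K9h19.LW

open Pool.Agent.Y851.HZ (LR zR muR ER DD zR_apply rough_gt DD_apply)
open Pool.Agent.H318R2.Cr (Rgh cz_bounds V_pos)
open Pool.Agent.H318R2.Cr renaming V → VV
open Pool.Agent.H262R3.Lk (rc)

namespace TD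

/-- the weight `(log n)^2 / n` -/
noncomputable def cc (n : ℕ) : ℝ := (Real.log n) ^ 2 / n

theorem cc_anti {n : ℕ} (hn : 8 ≤ n) : cc (n + 1) ≤ cc n := by
  have h8 : (8 : ℝ) ≤ n := by exact_mod_cast hn
  have he : Real.exp 2 ≤ n := by
    have := Pool.Agent.Y851.HZ.exp_two_lt
    linarith
  have h := Real.log_div_sqrt_antitoneOn (a := (n : ℝ)) (b := (n : ℝ) + 1) he
    (by show Real.exp 2 ≤ (n : ℝ) + 1; linarith) (by linarith)
  have h1 : ∀ x : ℝ, 0 < x → (Real.log x) ^ 2 / x = (Real.log x / √x) ^ 2 := by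
    intro x hx
    rw [div_pow, Real.sq_sqrt hx.le]
  unfold cc
  push_cast
  rw [h1 n (by linarith), h1 (n + 1) (by linarith)]
  have h2 : 0 ≤ Real.log ((n : ℝ) + 1) / √((n : ℝ) + 1) :=
    div_nonneg (Real.log_nonneg (by linarith)) (Real.sqrt_nonneg _)
  exact pow_le_pow_left₀ h2 h 2

theorem cc_diff {n : ℕ} (hn : 1 ≤ n) : cc n - cc (n + 1) ≤ (Real.log n) ^ 2 / (n * (n + 1)) := by
  have h1 : (0 : ℝ) < n := by exact_mod_cast hn
  have h2 : Real.log n ≤ Real.log (n + 1) := Real.log_le_log h1 (by linarith)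
  have h3 : 0 ≤ Real.log n := Real.log_natCast_nonneg n
  have h4 : (Real.log n) ^ 2 / (n + 1) ≤ (Real.log ((n : ℝ) + 1)) ^ 2 / (n + 1) := by gcongr
  unfold cc
  push_cast
  have h5 : (Real.log n) ^ 2 / (n : ℝ) - (Real.log n) ^ 2 / ((n : ℝ) + 1) = (Real.log n) ^ 2 / (n * (n + 1)) := by
    field_simp
    ring
  linarith

/-- the difference of the indicator functions of the classes on rough numbers -/
noncomputable def ee (w q a a' : ℕ) (k : ℕ) : ℝ :=
  ((if k ≡ a [MOD q] then 1 else 0) - (if k ≡ a' [MOD q] then 1 else 0)) * zR w k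

theorem sum_cls (w q b : ℕ) {A n : ℕ} (hAn : A ≤ n) :
    ∑ k ∈ Ioc A n, (if k ≡ b [MOD q] then (1 : ℝ) else 0) * zR w k = rc w q b n - rc w q b A := by
  classical
  have h1 : ∀ N : ℕ, (rc w q b N : ℝ) = ∑ k ∈ Ioc 0 N, (if k ≡ b [MOD q] then (1 : ℝ) else 0) * zR w k := by
    intro N
    unfold rc
    rw [card_eq_sum_ones, sum_filter]
    push_cast
    apply sum_congr rfl
    intro k hk
    rw [mem_Icc] at hk
    rw [zR_apply w k hk.1]
    by_cases h2 : Rgh w k <;> by_cases h3 : k ≡ b [MOD q] <;> simp [h2, h3]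
  rw [h1, h1, ← sum_Ioc_consecutive _ (Nat.zero_le A) hAn]
  ring

theorem ee_sum : ∃ K : ℝ, 0 < K ∧ ∀ w q a a' A n : ℕ, 32 ≤ w → 1 ≤ q → q ^ 8 ≤ w → a.Coprime q → a'.Coprime q →
    w ≤ A → A ≤ n → |∑ k ∈ Ioc A n, ee w q a a' k| ≤
      K / q.totient * (Real.log w) ^ 4 * (n / (Real.log n) ^ 5 + A / (Real.log A) ^ 5) := by
  obtain ⟨C, hC, hfl⟩ := Pool.Agent.W333.MH.fl
  obtain ⟨c1, c2, hc1, hc12, hcz⟩ := cz_bounds
  have hc2 : 0 < c2 := hc1.trans_le hc12
  refine ⟨2 * C * c2, by positivity, fun w q a a' A n hw hq hq8 ha ha' hwA hAn => ?_⟩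
  have hw1 : (1 : ℝ) < w := by exact_mod_cast (show 1 < w by omega)
  have hlw : 0 < Real.log w := Real.log_pos hw1
  have hA1 : (w : ℝ) ≤ A := by exact_mod_cast hwA
  have hn1 : (A : ℝ) ≤ n := by exact_mod_cast hAn
  have hlA : Real.log w ≤ Real.log A := Real.log_le_log (by linarith) hA1
  have hln : Real.log A ≤ Real.log n := Real.log_le_log (by linarith) hn1
  have ht : (0 : ℝ) < q.totient := by exact_mod_cast Nat.totient_pos.2 hq
  have hV : VV w ≤ c2 / Real.log w := by
    rw [le_div_iff₀ hlw]; exact (hcz w (by omega)).2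
  have hVp := V_pos w
  -- one value
  have key : ∀ b N : ℕ, b.Coprime q → w ≤ N → |(rc w q b N : ℝ) - N * VV w / q.totient| ≤
      C * c2 / q.totient * (Real.log w) ^ 4 * (N / (Real.log N) ^ 5) := by
    intro b N hb hN
    refine (hfl w q b N hw hq hq8 hb hN).trans ?_
    have hN1 : (w : ℝ) ≤ N := by exact_mod_cast hN
    have hlN : 0 < Real.log N := Real.log_pos (by linarith)
    calc C * (N * VV w / q.totient) * (Real.log w / Real.log N) ^ 5
        ≤ C * (N * (c2 / Real.log w) / q.totient) * (Real.log w / Real.log N) ^ 5 := by gcongr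
      _ = C * c2 / q.totient * (Real.log w) ^ 4 * (N / (Real.log N) ^ 5) := by
        field_simp
  have h1 : ∑ k ∈ Ioc A n, ee w q a a' k =
      ((rc w q a n : ℝ) - n * VV w / q.totient) - ((rc w q a A : ℝ) - A * VV w / q.totient) -
      (((rc w q a' n : ℝ) - n * VV w / q.totient) - ((rc w q a' A : ℝ) - A * VV w / q.totient)) := by
    have h2 := sum_cls w q a hAn
    have h3 := sum_cls w q a' hAn
    have h4 : ∑ k ∈ Ioc A n, ee w q a a' k = ∑ k ∈ Ioc A n, (if k ≡ a [MOD q] then (1 : ℝ) else 0) * zR w k -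
        ∑ k ∈ Ioc A n, (if k ≡ a' [MOD q] then (1 : ℝ) else 0) * zR w k := by
      rw [← sum_sub_distrib]
      apply sum_congr rfl
      intro k _
      unfold ee
      ring
    rw [h4, h2, h3]
    ring
  have e1 := key a n ha (hwA.trans hAn)
  have e2 := key a A ha hwA
  have e3 := key a' n ha' (hwA.trans hAn)
  have e4 := key a' A ha' hwA
  rw [h1]
  have e5 := abs_sub (((rc w q a n : ℝ) - n * VV w / q.totient) - ((rc w q a A : ℝ) - A * VV w / q.totient))
    (((rc w q a' n : ℝ) - n * VV w / q.totient) - ((rc w q a' A : ℝ) - A * VV w / q.totient))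
  have e6 := abs_sub ((rc w q a n : ℝ) - n * VV w / q.totient) ((rc w q a A : ℝ) - A * VV w / q.totient)
  have e7 := abs_sub ((rc w q a' n : ℝ) - n * VV w / q.totient) ((rc w q a' A : ℝ) - A * VV w / q.totient)
  have e8 : 2 * C * c2 / q.totient * (Real.log w) ^ 4 * (n / (Real.log n) ^ 5 + A / (Real.log A) ^ 5) =
      2 * (C * c2 / q.totient * (Real.log w) ^ 4 * (n / (Real.log n) ^ 5)) +
      2 * (C * c2 / q.totient * (Real.log w) ^ 4 * (A / (Real.log A) ^ 5)) := by ring
  rw [e8]
  linarith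

theorem CS_diff (w q a a' A B : ℕ) :
    CS (DD (DD (zR w))) q a A B - CS (DD (DD (zR w))) q a' A B = ∑ k ∈ Ioc A B, ee w q a a' k * cc k := by
  unfold CS
  rw [sum_filter, sum_filter, ← sum_sub_distrib]
  apply sum_congr rfl
  intro k _
  rw [DD_apply, DD_apply]
  unfold ee cc
  split_ifs <;> ring

/-- the general Abel bound -/
theorem main_bound {K φ t : ℝ} (hK : 0 < K) (hφ : 0 < φ) (ht : 0 < t) (e G : ℕ → ℝ) (A B : ℕ) (h8 : 8 ≤ A)
    (hAB : A ≤ B)
    (he : ∀ n, A ≤ n → n ≤ B → |∑ k ∈ Ioc A n, e k| ≤ K / φ * t ^ 4 * (n / (Real.log n) ^ 5 + A / (Real.log A) ^ 5))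
    (hG : ∀ n, A ≤ n → n < B → 1 / (((n : ℝ) + 1) * (Real.log n) ^ 3) ≤ G (n + 1) - G n) :
    |∑ k ∈ Ioc A B, e k * cc k| ≤ K / φ * t ^ 4 * (2 / (Real.log A) ^ 3 + (G B - G A)) := by
  have hA8 : (8 : ℝ) ≤ A := by exact_mod_cast h8
  have hlA : 0 < Real.log A := Real.log_pos (by linarith)
  set M := K / φ * t ^ 4 with hM
  have hM0 : 0 < M := by positivity
  set P := (A : ℝ) / (Real.log A) ^ 5 with hP
  have hP0 : 0 ≤ P := by positivity
  have hanti : ∀ n, A ≤ n → cc n ≤ cc A := by
    intro n hn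
    induction n, hn using Nat.le_induction with
    | base => exact le_rfl
    | succ n hn ih => exact (cc_anti (by omega)).trans ih
  have hPA : P * cc A = 1 / (Real.log A) ^ 3 := by
    rw [hP]; unfold cc
    have : (A : ℝ) ≠ 0 := by positivity
    field_simp
  have hab := abel_abs e cc (fun n => M * (-(P * cc n) + G n)) A B hAB (fun n hn hnB => by
    have h1 := he n hn hnB.le
    have h2 : cc (n + 1) ≤ cc n := cc_anti (by omega)
    have h3 := cc_diff (show 1 ≤ n by omega)
    have h4 := hG n hn hnB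
    have hn0 : (8 : ℝ) ≤ n := by exact_mod_cast (show 8 ≤ n by omega)
    have hln : 0 < Real.log n := Real.log_pos (by linarith)
    rw [abs_mul, abs_of_nonneg (sub_nonneg.2 h2)]
    have h5 : (n : ℝ) / (Real.log n) ^ 5 * (cc n - cc (n + 1)) ≤ 1 / (((n : ℝ) + 1) * (Real.log n) ^ 3) := by
      calc (n : ℝ) / (Real.log n) ^ 5 * (cc n - cc (n + 1))
          ≤ (n : ℝ) / (Real.log n) ^ 5 * ((Real.log n) ^ 2 / (n * (n + 1))) := by gcongr
        _ = 1 / (((n : ℝ) + 1) * (Real.log n) ^ 3) := by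
          have : (n : ℝ) ≠ 0 := by positivity
          field_simp
    calc |∑ k ∈ Ioc A n, e k| * (cc n - cc (n + 1))
        ≤ M * (n / (Real.log n) ^ 5 + P) * (cc n - cc (n + 1)) :=
          mul_le_mul_of_nonneg_right h1 (sub_nonneg.2 h2)
      _ = M * ((n : ℝ) / (Real.log n) ^ 5 * (cc n - cc (n + 1)) + P * (cc n - cc (n + 1))) := by ring
      _ ≤ M * ((G (n + 1) - G n) + P * (cc n - cc (n + 1))) := by
          apply mul_le_mul_of_nonneg_left _ hM0.le
          linarith
      _ = M * (-(P * cc (n + 1)) + G (n + 1)) - M * (-(P * cc n) + G n) := by ring)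
  have hB0 : (8 : ℝ) ≤ B := by exact_mod_cast (show 8 ≤ B by omega)
  have hlB : 0 < Real.log B := Real.log_pos (by linarith)
  have hlAB : Real.log A ≤ Real.log B := Real.log_le_log (by linarith) (by exact_mod_cast hAB)
  have hccB : 0 ≤ cc B := by unfold cc; positivity
  have h6 : |(∑ k ∈ Ioc A B, e k) * cc B| ≤ M * (1 / (Real.log A) ^ 3 + P * cc B) := by
    rw [abs_mul, abs_of_nonneg hccB]
    have h7 : (B : ℝ) / (Real.log B) ^ 5 * cc B = 1 / (Real.log B) ^ 3 := by
      unfold cc
      have : (B : ℝ) ≠ 0 := by positivity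
      field_simp
    have h8 : 1 / (Real.log B) ^ 3 ≤ 1 / (Real.log A) ^ 3 := by gcongr
    calc |∑ k ∈ Ioc A B, e k| * cc B ≤ M * (B / (Real.log B) ^ 5 + P) * cc B :=
          mul_le_mul_of_nonneg_right (he B hAB le_rfl) hccB
      _ = M * ((B : ℝ) / (Real.log B) ^ 5 * cc B + P * cc B) := by ring
      _ ≤ M * (1 / (Real.log A) ^ 3 + P * cc B) := by
          apply mul_le_mul_of_nonneg_left _ hM0.le
          linarith
  have h9 : |∑ k ∈ Ioc A B, e k * cc k| ≤
      |∑ k ∈ Ioc A B, e k * cc k - (∑ k ∈ Ioc A B, e k) * cc B| + |(∑ k ∈ Ioc A B, e k) * cc B| := by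
    have := abs_add_le (∑ k ∈ Ioc A B, e k * cc k - (∑ k ∈ Ioc A B, e k) * cc B) ((∑ k ∈ Ioc A B, e k) * cc B)
    rwa [sub_add_cancel] at this
  have h10 : M * (2 / (Real.log A) ^ 3 + (G B - G A)) =
      M * (1 / (Real.log A) ^ 3 + P * cc B) + (M * (-(P * cc B) + G B) - M * (-(P * cc A) + G A)) := by
    rw [show M * (1 / (Real.log A) ^ 3 + P * cc B) + (M * (-(P * cc B) + G B) - M * (-(P * cc A) + G A)) =
      M * (1 / (Real.log A) ^ 3 + P * cc A + (G B - G A)) by ring, hPA]
    ring
  rw [h10]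
  linarith

end TD

open TD in
theorem td : S_TD := by
  obtain ⟨K, hK, hE⟩ := ee_sum
  refine ⟨4 * K, by positivity, 32, fun w q a a' A B hw hq hq8 ha ha' hwA hAB => ?_⟩
  have hw1 : (32 : ℝ) ≤ w := by exact_mod_cast hw
  have hlw : 1 < Real.log w := by
    rw [Real.lt_log_iff_exp_lt (by linarith)]
    linarith [Real.exp_one_lt_d9]
  have hA1 : (w : ℝ) ≤ A := by exact_mod_cast hwA
  have hlA : Real.log w ≤ Real.log A := Real.log_le_log (by linarith) hA1
  have hB1 : (A : ℝ) ≤ B := by exact_mod_cast hAB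
  have hlAB : Real.log A ≤ Real.log B := Real.log_le_log (by linarith) hB1
  have ht : (0 : ℝ) < q.totient := by exact_mod_cast Nat.totient_pos.2 hq
  have hlA0 : 0 < Real.log A := by linarith
  rw [CS_diff]
  have hstep : ∀ n : ℕ, A ≤ n → 1 / ((n : ℝ) + 1) ≤ Real.log ((n : ℝ) + 1) - Real.log n := by
    intro n hn
    have hn0 : (0 : ℝ) < n := by exact_mod_cast (show 0 < n by omega)
    have h1 := Real.one_sub_inv_le_log_of_pos (show (0 : ℝ) < ((n : ℝ) + 1) / n by positivity)
    rw [Real.log_div (by positivity) (by positivity)] at h1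
    have h2 : 1 - (((n : ℝ) + 1) / n)⁻¹ = 1 / ((n : ℝ) + 1) := by
      field_simp
      ring
    linarith
  constructor
  · have h := main_bound hK ht (show 0 < Real.log w by linarith) (ee w q a a')
      (fun n => Real.log n / (Real.log A) ^ 3) A B (by omega) hAB
      (fun n hn _ => hE w q a a' A n hw hq hq8 ha ha' hwA hn) (fun n hn _ => by
        have h1 := hstep n hn
        have hn0 : (0 : ℝ) < n := by exact_mod_cast (show 0 < n by omega)
        have hln : Real.log A ≤ Real.log n := Real.log_le_log (by linarith) (by exact_mod_cast hn)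
        have h2 : 1 / (((n : ℝ) + 1) * (Real.log n) ^ 3) ≤ 1 / ((n : ℝ) + 1) / (Real.log A) ^ 3 := by
          rw [div_div]
          gcongr
        refine h2.trans ?_
        push_cast
        rw [← sub_div]
        gcongr)
    refine h.trans ?_
    have h3 : K / q.totient * (Real.log w) ^ 4 * (2 / (Real.log A) ^ 3 +
        (Real.log B / (Real.log A) ^ 3 - Real.log A / (Real.log A) ^ 3)) =
        K / q.totient * (Real.log w) ^ 4 * ((2 + Real.log B - Real.log A) / (Real.log A) ^ 3) := by ring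
    have h4 : 4 * K / q.totient * (Real.log w) ^ 4 * ((1 + Real.log B - Real.log A) / (Real.log A) ^ 3) =
        K / q.totient * (Real.log w) ^ 4 * (4 * (1 + Real.log B - Real.log A) / (Real.log A) ^ 3) := by ring
    rw [h3, h4]
    apply mul_le_mul_of_nonneg_left _ (by positivity)
    gcongr
    linarith
  · have h := main_bound hK ht (show 0 < Real.log w by linarith) (ee w q a a')
      (fun n => -(2 / (Real.log n) ^ 2)) A B (by omega) hAB
      (fun n hn _ => hE w q a a' A n hw hq hq8 ha ha' hwA hn) (fun n hn _ => by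
        have h1 := hstep n hn
        have hn0 : (32 : ℝ) ≤ n := by exact_mod_cast (show 32 ≤ n by omega)
        have hln : Real.log A ≤ Real.log n := Real.log_le_log (by linarith) (by exact_mod_cast hn)
        push_cast
        set x := Real.log n with hx
        set y := Real.log ((n : ℝ) + 1) with hy
        have hx0 : 0 < x := by linarith
        have hxy : x ≤ y := Real.log_le_log (by linarith) (by linarith)
        have hy2 : y ≤ 2 * x := by
          have : Real.log ((n : ℝ) + 1) ≤ Real.log ((n : ℝ) ^ 2) :=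
            Real.log_le_log (by linarith) (by nlinarith)
          rw [Real.log_pow] at this
          push_cast at this
          linarith
        have hy0 : 0 < y := by linarith
        calc 1 / (((n : ℝ) + 1) * x ^ 3) = 1 / ((n : ℝ) + 1) / x ^ 3 := by rw [div_div]
          _ ≤ (y - x) / x ^ 3 := by gcongr
          _ ≤ -(2 / y ^ 2) - -(2 / x ^ 2) := by
            have h5 : -(2 / y ^ 2) - -(2 / x ^ 2) - (y - x) / x ^ 3 =
                (y - x) * (2 * x * (x + y) - y ^ 2) / (x ^ 3 * y ^ 2) := by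
              field_simp
              ring
            have h6 : 0 ≤ (y - x) * (2 * x * (x + y) - y ^ 2) / (x ^ 3 * y ^ 2) := by
              apply div_nonneg _ (by positivity)
              apply mul_nonneg (by linarith)
              nlinarith
            linarith)
    refine h.trans ?_
    have h3 : 2 / (Real.log A) ^ 3 ≤ 2 / (Real.log A) ^ 2 := by
      apply div_le_div_of_nonneg_left (by norm_num) (by positivity)
      apply pow_le_pow_right₀ (by linarith) (by norm_num)
    have h4 : 0 ≤ 2 / (Real.log B) ^ 2 := by positivity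
    calc K / q.totient * (Real.log w) ^ 4 * (2 / (Real.log A) ^ 3 + (-(2 / (Real.log B) ^ 2) - -(2 / (Real.log A) ^ 2)))
        ≤ K / q.totient * (Real.log w) ^ 4 * (4 / (Real.log A) ^ 2) := by
          apply mul_le_mul_of_nonneg_left _ (by positivity)
          have h5 : 4 / (Real.log A) ^ 2 = 2 / (Real.log A) ^ 2 + 2 / (Real.log A) ^ 2 := by ring
          linarith
      _ = 4 * K / q.totient * (Real.log w) ^ 4 / (Real.log A) ^ 2 := by ring

end Pool.Agent.K9h19.LW
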