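import Pool.Agent.K9h19.LW.Stm
import Pool.Agent.H318R2.Cr.Rough

/-! The total sum of Selberg's function over rough numbers. -/

set_option autoImplicit false

open Finset

namespace Pool.Agent.K9h19.LW

open Pool.Agent.Y851.HZ (LR zR muR ER DD LR_nonneg DD_apply)
open Pool.Agent.H318R2.Cr (Rgh fL fL_apply fL_nonneg T_bound T_zero)

namespace TOT

lemma LR_div (w n : ℕ) : LR w n / n = fL w n := by
  classical
  unfold LR
  rw [Pool.Agent.Y851.HZ.res_apply, fL_apply]
  split_ifs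
  · rfl
  · rw [zero_div]

/-- `∑_{n ≤ N} Λ(n)/n` over rough numbers -/
noncomputable def RR (w N : ℕ) : ℝ := ∑ n ∈ Ioc 0 N, fL w n

/-- `∑_{n ≤ N} (Λ(n)/n) (log N - log n)` over rough numbers -/
noncomputable def FF (w N : ℕ) : ℝ := ∑ n ∈ Ioc 0 N, fL w n * (Real.log N - Real.log n)

lemma RR_nonneg (w N : ℕ) : 0 ≤ RR w N := sum_nonneg fun n _ => fL_nonneg w n

lemma log_nat_nonneg (n : ℕ) : 0 ≤ Real.log n := Real.log_natCast_nonneg n

lemma RR_bound : ∃ C : ℝ, 1 ≤ C ∧ ∀ w N : ℕ, 1 ≤ w → 1 ≤ N →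
    |RR w N - max (Real.log N - Real.log w) 0| ≤ C := by
  obtain ⟨C, hC, h⟩ := T_bound
  refine ⟨C + 1, by linarith, fun w N hw hN => ?_⟩
  have hw0 : (0 : ℝ) < w := by exact_mod_cast hw
  have hN0 : (0 : ℝ) < N := by exact_mod_cast hN
  rcases le_total w N with h1 | h1
  · have h2 := h w N hw h1
    rw [max_eq_left (sub_nonneg.2 (Real.log_le_log hw0 (by exact_mod_cast h1)))]
    unfold RR
    linarith
  · unfold RR
    rw [T_zero h1, max_eq_right (sub_nonpos.2 (Real.log_le_log hN0 (by exact_mod_cast h1)))]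
    rw [sub_zero, abs_zero]
    linarith

lemma log_step {N : ℕ} (hN : 1 ≤ N) : 0 ≤ Real.log (N + 1 : ℕ) - Real.log N ∧
    Real.log (N + 1 : ℕ) - Real.log N ≤ 1 := by
  have hN0 : (0 : ℝ) < N := by exact_mod_cast hN
  have h1 : (N : ℝ) ≤ ((N + 1 : ℕ) : ℝ) := by exact_mod_cast Nat.le_succ N
  have h2 : ((N + 1 : ℕ) : ℝ) ≤ 2 * N := by exact_mod_cast (show N + 1 ≤ 2 * N by omega)
  have h3 := Real.log_le_log hN0 h1
  have h4 := Real.log_le_log (by positivity) h2
  rw [Real.log_mul (by norm_num) hN0.ne'] at h4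
  have h5 : Real.log 2 < 1 := by linarith [Real.log_two_lt_d9]
  constructor <;> linarith

lemma FF_step (w N : ℕ) : FF w (N + 1) - FF w N = RR w N * (Real.log (N + 1 : ℕ) - Real.log N) := by
  unfold FF RR
  rw [← Nat.succ_eq_add_one, Finset.sum_Ioc_succ_top (Nat.zero_le N)]
  rw [sub_self, mul_zero, add_zero, ← sum_sub_distrib, sum_mul]
  exact sum_congr rfl fun n _ => by ring

lemma half_step {a b : ℝ} (hab : a ≤ b) (hb : b - a ≤ 1) :
    max a 0 * (b - a) ≤ (max b 0) ^ 2 / 2 - (max a 0) ^ 2 / 2 ∧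
    (max b 0) ^ 2 / 2 - (max a 0) ^ 2 / 2 ≤ (max a 0 + 1) * (b - a) := by
  rcases le_total a 0 with ha | ha
  · rw [max_eq_right ha]
    rcases le_total b 0 with hb0 | hb0
    · rw [max_eq_right hb0]
      constructor
      · norm_num
      · nlinarith
    · rw [max_eq_left hb0]
      constructor
      · nlinarith
      · nlinarith
  · rw [max_eq_left ha, max_eq_left (ha.trans hab)]
    constructor
    · nlinarith
    · nlinarith

lemma FF_bound : ∃ C : ℝ, 1 ≤ C ∧ ∀ w N : ℕ, 1 ≤ w → 1 ≤ N →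
    |FF w N - (max (Real.log N - Real.log w) 0) ^ 2 / 2| ≤ C * Real.log N := by
  obtain ⟨C, hC, h⟩ := RR_bound
  refine ⟨C + 1, by linarith, fun w N hw hN => ?_⟩
  induction N, hN using Nat.le_induction with
  | base =>
    have h1 : FF w 1 = 0 := by
      unfold FF
      have h0 : Ioc 0 1 = ({1} : Finset ℕ) := rfl
      rw [h0, sum_singleton, sub_self, mul_zero]
    have h2 : max (Real.log ((1 : ℕ) : ℝ) - Real.log w) 0 = 0 := by
      rw [Nat.cast_one, Real.log_one, max_eq_right]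
      linarith [log_nat_nonneg w]
    rw [h1, h2]
    simp
  | succ N hN ih =>
    have h1 := FF_step w N
    obtain ⟨h2, h3⟩ := log_step hN
    have h4 := abs_le.1 (h w N hw hN)
    obtain ⟨h5, h6⟩ := half_step (a := Real.log N - Real.log w)
      (b := Real.log (N + 1 : ℕ) - Real.log w) (by linarith) (by linarith)
    have e : Real.log (N + 1 : ℕ) - Real.log w - (Real.log N - Real.log w) =
        Real.log (N + 1 : ℕ) - Real.log N := by ring
    rw [e] at h5 h6
    have ih' := abs_le.1 ih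
    set u := Real.log (N : ℝ) with hu
    set u' := Real.log ((N + 1 : ℕ) : ℝ) with hu'
    set M := max (u - Real.log w) 0 with hM
    have h7 : (M - C) * (u' - u) ≤ RR w N * (u' - u) :=
      mul_le_mul_of_nonneg_right (by linarith) h2
    have h8 : RR w N * (u' - u) ≤ (M + C) * (u' - u) :=
      mul_le_mul_of_nonneg_right (by linarith) h2
    rw [abs_le]
    constructor
    · nlinarith
    · nlinarith

/-- `∑_{n ≤ N} (Λ(n)/n) log n` -/
lemma sum_DD {C₁ C₂ : ℝ}
    (h₁ : ∀ w N : ℕ, 1 ≤ w → 1 ≤ N → |RR w N - max (Real.log N - Real.log w) 0| ≤ C₁)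
    (h₂ : ∀ w N : ℕ, 1 ≤ w → 1 ≤ N →
      |FF w N - (max (Real.log N - Real.log w) 0) ^ 2 / 2| ≤ C₂ * Real.log N)
    {w N : ℕ} (hw : 1 ≤ w) (hN : w ≤ N) :
    |∑ n ∈ Ioc 0 N, DD (LR w) n / n - ((Real.log N) ^ 2 - (Real.log w) ^ 2) / 2| ≤
      (C₁ + C₂) * Real.log N := by
  have hN1 : 1 ≤ N := hw.trans hN
  have hw0 : (0 : ℝ) < w := by exact_mod_cast hw
  have e1 : ∑ n ∈ Ioc 0 N, DD (LR w) n / n = Real.log N * RR w N - FF w N := by
    unfold RR FF
    rw [mul_sum, ← sum_sub_distrib]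
    refine sum_congr rfl fun n _ => ?_
    rw [DD_apply, ← LR_div]
    ring
  have h3 := h₁ w N hw hN1
  have h4 := h₂ w N hw hN1
  have h5 : max (Real.log N - Real.log w) 0 = Real.log N - Real.log w :=
    max_eq_left (sub_nonneg.2 (Real.log_le_log hw0 (by exact_mod_cast hN)))
  rw [h5] at h3 h4
  rw [e1]
  have hu := log_nat_nonneg N
  set u := Real.log (N : ℝ)
  set t := Real.log (w : ℝ)
  have h3' := abs_le.1 h3
  have h4' := abs_le.1 h4
  rw [abs_le]
  constructor
  · nlinarith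
  · nlinarith

lemma log_div_ge' {Y m : ℕ} (hm : 1 ≤ m) (h : m ≤ Y) :
    Real.log Y - Real.log m - 1 ≤ Real.log (Y / m : ℕ) := by
  have hm0 : (0 : ℝ) < m := by exact_mod_cast hm
  have hY0 : (0 : ℝ) < Y := by exact_mod_cast (show 0 < Y by omega)
  have h1 : 1 ≤ Y / m := Nat.div_pos h hm
  have h2 : Y < m * (Y / m + 1) := Nat.lt_mul_div_succ Y hm
  have h3 : Y ≤ m * (2 * (Y / m)) := h2.le.trans (Nat.mul_le_mul_left m (by omega))
  have h4 : (Y : ℝ) ≤ m * (2 * ((Y / m : ℕ) : ℝ)) := by exact_mod_cast h3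
  have h5 : (0 : ℝ) < ((Y / m : ℕ) : ℝ) := by exact_mod_cast h1
  have h6 := Real.log_le_log hY0 h4
  rw [Real.log_mul hm0.ne' (by positivity), Real.log_mul (by norm_num) h5.ne'] at h6
  linarith [Real.log_two_lt_d9]

lemma log_div_le' {X m : ℕ} (hm : 1 ≤ m) (h : m ≤ X) :
    Real.log (X / m : ℕ) ≤ Real.log X - Real.log m := by
  have hm0 : (0 : ℝ) < m := by exact_mod_cast hm
  have hX0 : (0 : ℝ) < X := by exact_mod_cast (show 0 < X by omega)
  have h1 : 1 ≤ X / m := Nat.div_pos h hm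
  have h5 : (0 : ℝ) < ((X / m : ℕ) : ℝ) := by exact_mod_cast h1
  rw [← Real.log_div hX0.ne' hm0.ne']
  exact Real.log_le_log h5 Nat.cast_div_le

/-- the sum over the pairs -/
lemma sum_LL {C₁ C₂ : ℝ} (hC₁ : 1 ≤ C₁) (hC₂ : 1 ≤ C₂)
    (h₁ : ∀ w N : ℕ, 1 ≤ w → 1 ≤ N → |RR w N - max (Real.log N - Real.log w) 0| ≤ C₁)
    (h₂ : ∀ w N : ℕ, 1 ≤ w → 1 ≤ N →
      |FF w N - (max (Real.log N - Real.log w) 0) ^ 2 / 2| ≤ C₂ * Real.log N)
    {w N : ℕ} (hw : 3 ≤ w) (hN : w ≤ N) :
    |∑ n ∈ Ioc 0 N, (LR w * LR w) n / n - (max (Real.log N - 2 * Real.log w) 0) ^ 2 / 2| ≤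
      ((C₁ + 1) * (1 + C₁) + C₂ + (1 + C₁) + 1) * Real.log N := by
  classical
  have hw1 : 1 ≤ w := by omega
  have hN1 : 1 ≤ N := hw1.trans hN
  have hw0 : (0 : ℝ) < w := by exact_mod_cast hw1
  have hN0 : (0 : ℝ) < N := by exact_mod_cast hN1
  have hlw : 1 ≤ Real.log w := by
    rw [← Real.log_exp 1]
    apply Real.log_le_log (Real.exp_pos 1)
    have h3 : (3 : ℝ) ≤ w := by exact_mod_cast hw
    linarith [Real.exp_one_lt_d9]
  have hwN : Real.log w ≤ Real.log N := Real.log_le_log hw0 (by exact_mod_cast hN)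
  have hRle : ∀ M : ℕ, 1 ≤ M → RR w M ≤ Real.log M + C₁ := by
    intro M hM
    have h3 := (abs_le.1 (h₁ w M hw1 hM)).2
    have h4 : max (Real.log M - Real.log w) 0 ≤ Real.log M :=
      max_le (by linarith) (log_nat_nonneg M)
    linarith
  -- the double sum
  have e1 : ∑ n ∈ Ioc 0 N, (LR w * LR w) n / n = ∑ a ∈ Ioc 0 N, fL w a * RR w (N / a) := by
    unfold RR
    rw [← ArithmeticFunction.sum_Ioc_mul_eq_sum_sum]
    refine sum_congr rfl fun n _ => ?_
    rw [ArithmeticFunction.mul_apply, ArithmeticFunction.mul_apply, sum_div]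
    refine sum_congr rfl fun x hx => ?_
    rw [← LR_div, ← LR_div, ← (Nat.mem_divisorsAntidiagonal.1 hx).1]
    push_cast
    ring
  -- the first comparison
  have e2 : |∑ a ∈ Ioc 0 N, fL w a * RR w (N / a) -
      ∑ a ∈ Ioc 0 N, fL w a * max (Real.log N - Real.log w - Real.log a) 0| ≤
      (C₁ + 1) * RR w N := by
    rw [← sum_sub_distrib]
    refine (abs_sum_le_sum_abs _ _).trans ?_
    unfold RR
    rw [mul_sum]
    refine sum_le_sum fun a ha => ?_
    rw [mem_Ioc] at ha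
    rw [← mul_sub, abs_mul, abs_of_nonneg (fL_nonneg w a), mul_comm (C₁ + 1)]
    refine mul_le_mul_of_nonneg_left ?_ (fL_nonneg w a)
    have ha1 : 1 ≤ a := ha.1
    have h3 := h₁ w (N / a) hw1 (Nat.div_pos ha.2 ha.1)
    have h4 := log_div_ge' ha1 ha.2
    have h5 := log_div_le' ha1 ha.2
    have h6 : |max (Real.log (N / a : ℕ) - Real.log w) 0 -
        max (Real.log N - Real.log w - Real.log a) 0| ≤ 1 := by
      refine (abs_max_sub_max_le_abs _ _ _).trans ?_
      rw [abs_le]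
      constructor <;> linarith
    have h7 := abs_add_le (RR w (N / a) - max (Real.log (N / a : ℕ) - Real.log w) 0)
      (max (Real.log (N / a : ℕ) - Real.log w) 0 -
        max (Real.log N - Real.log w - Real.log a) 0)
    have e : RR w (N / a) - max (Real.log (N / a : ℕ) - Real.log w) 0 +
      (max (Real.log (N / a : ℕ) - Real.log w) 0 -
        max (Real.log N - Real.log w - Real.log a) 0) =
      RR w (N / a) - max (Real.log N - Real.log w - Real.log a) 0 := by ring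
    rw [e] at h7
    unfold RR at h7 h3
    linarith
  -- the second comparison
  set M := N / w with hM
  have hM1 : 1 ≤ M := Nat.div_pos hN hw1
  have hMN : M ≤ N := Nat.div_le_self _ _
  have hM0 : (0 : ℝ) < M := by exact_mod_cast hM1
  have hlM : Real.log M ≤ Real.log N := Real.log_le_log hM0 (by exact_mod_cast hMN)
  have h8 := log_div_ge' hw1 hN
  have h9 := log_div_le' hw1 hN
  rw [← hM] at h8 h9
  have e3 : ∑ a ∈ Ioc 0 N, fL w a * max (Real.log N - Real.log w - Real.log a) 0 =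
      FF w M + RR w M * (Real.log N - Real.log w - Real.log M) := by
    have hsub : Ioc 0 M ⊆ Ioc 0 N := Ioc_subset_Ioc_right hMN
    rw [← sum_subset hsub]
    · unfold FF RR
      rw [sum_mul, ← sum_add_distrib]
      refine sum_congr rfl fun a ha => ?_
      rw [mem_Ioc] at ha
      have h3 : a * w ≤ N := (Nat.le_div_iff_mul_le hw1).1 ha.2
      have ha0 : (0 : ℝ) < a := by exact_mod_cast ha.1
      have h4 : Real.log ((a : ℝ) * w) ≤ Real.log N :=
        Real.log_le_log (by positivity) (by exact_mod_cast h3)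
      rw [Real.log_mul ha0.ne' hw0.ne'] at h4
      rw [max_eq_left (by linarith)]
      ring
    · intro a ha ha'
      rw [mem_Ioc] at ha ha'
      have h3 : ¬ a ≤ N / w := fun h => ha' ⟨ha.1, h⟩
      rw [Nat.le_div_iff_mul_le hw1] at h3
      have ha0 : (0 : ℝ) < a := by exact_mod_cast ha.1
      have h4 : Real.log N ≤ Real.log ((a : ℝ) * w) :=
        Real.log_le_log hN0 (by exact_mod_cast (not_le.1 h3).le)
      rw [Real.log_mul ha0.ne' hw0.ne'] at h4
      rw [max_eq_right (by linarith), mul_zero]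
  have h10 := abs_le.1 (h₂ w M hw1 hM1)
  have h11 := hRle M hM1
  have h12 := hRle N hN1
  have hlM0 := log_nat_nonneg M
  -- squares
  have hx : max (Real.log M - Real.log w) 0 ≤ max (Real.log N - 2 * Real.log w) 0 :=
    max_le_max (by linarith) le_rfl
  have hx' : max (Real.log N - 2 * Real.log w) 0 ≤ max (Real.log M - Real.log w) 0 + 1 := by
    refine max_le ?_ ?_
    · have := le_max_left (Real.log M - Real.log w) 0
      linarith
    · have := le_max_right (Real.log M - Real.log w) 0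
      linarith
  have hy : max (Real.log N - 2 * Real.log w) 0 ≤ Real.log N :=
    max_le (by linarith) (by linarith)
  have hx0 : 0 ≤ max (Real.log M - Real.log w) 0 := le_max_right _ _
  rw [e1]
  have e2' := abs_le.1 e2
  rw [e3] at e2'
  set x := max (Real.log M - Real.log w) 0
  set y := max (Real.log N - 2 * Real.log w) 0
  set u := Real.log (N : ℝ)
  have h13 : 0 ≤ y ^ 2 / 2 - x ^ 2 / 2 := by nlinarith
  have h14 : y ^ 2 / 2 - x ^ 2 / 2 ≤ u := by nlinarith
  have h15 : 0 ≤ RR w M * (u - Real.log w - Real.log M) :=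
    mul_nonneg (RR_nonneg w M) (by linarith)
  have h16 : RR w M * (u - Real.log w - Real.log M) ≤ (1 + C₁) * u := by
    have h17 : RR w M * (u - Real.log w - Real.log M) ≤ RR w M * 1 :=
      mul_le_mul_of_nonneg_left (by linarith) (RR_nonneg w M)
    nlinarith
  have h18 : (C₁ + 1) * RR w N ≤ (C₁ + 1) * (1 + C₁) * u := by
    rw [mul_assoc]
    refine mul_le_mul_of_nonneg_left ?_ (by linarith)
    nlinarith
  have h19 : C₂ * Real.log M ≤ C₂ * u := mul_le_mul_of_nonneg_left hlM (by linarith)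
  have hu0 : 0 ≤ u := by linarith
  have h20 : 0 ≤ (1 + C₁) * u := by positivity
  have e4 : ((C₁ + 1) * (1 + C₁) + C₂ + (1 + C₁) + 1) * u =
    (C₁ + 1) * (1 + C₁) * u + C₂ * u + (1 + C₁) * u + u := by ring
  rw [e4, abs_le]
  constructor
  · linarith
  · linarith

lemma lip {x y t : ℝ} (ht : 0 ≤ t) (hy : 0 ≤ y) (hxy : y ≤ x) :
    0 ≤ (x ^ 2 - (max (x - 2 * t) 0) ^ 2) - (y ^ 2 - (max (y - 2 * t) 0) ^ 2) ∧
    (x ^ 2 - (max (x - 2 * t) 0) ^ 2) - (y ^ 2 - (max (y - 2 * t) 0) ^ 2) ≤ 4 * t * (x - y) := by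
  rcases le_total (x - 2 * t) 0 with hx | hx
  · rw [max_eq_right hx, max_eq_right (by linarith)]
    constructor <;> nlinarith
  · rw [max_eq_left hx]
    rcases le_total (y - 2 * t) 0 with hy' | hy'
    · rw [max_eq_right hy']
      constructor <;> nlinarith
    · rw [max_eq_left hy']
      constructor <;> nlinarith

end TOT

open TOT in
theorem tot : S_TOT := by
  obtain ⟨C₁, hC₁, h₁⟩ := RR_bound
  obtain ⟨C₂, hC₂, h₂⟩ := FF_bound
  set D := (C₁ + 1) * (1 + C₁) + C₂ + (1 + C₁) + 1 with hD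
  have hDpos : 0 < D := by positivity
  refine ⟨2 * (C₁ + C₂) + 2 * D + 2, by positivity, 3, fun w Y X hw hY hYX => ?_⟩
  have hw1 : 1 ≤ w := by omega
  have hw0 : (0 : ℝ) < w := by exact_mod_cast hw1
  have hY0 : (0 : ℝ) < Y := by exact_mod_cast (show 0 < Y by omega)
  have hlw := log_nat_nonneg w
  have hlwY : Real.log w ≤ Real.log Y := Real.log_le_log hw0 (by exact_mod_cast hY)
  have hlYX : Real.log Y ≤ Real.log X := Real.log_le_log hY0 (by exact_mod_cast hYX)
  have e1 : TS (ER w) Y X = (∑ n ∈ Ioc 0 X, DD (LR w) n / n - ∑ n ∈ Ioc 0 Y, DD (LR w) n / n) +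
      (∑ n ∈ Ioc 0 X, (LR w * LR w) n / n - ∑ n ∈ Ioc 0 Y, (LR w * LR w) n / n) := by
    have h3 : ∀ f : ℕ → ℝ, ∑ n ∈ Ioc Y X, f n = ∑ n ∈ Ioc 0 X, f n - ∑ n ∈ Ioc 0 Y, f n := by
      intro f
      rw [← sum_Ioc_consecutive f (Nat.zero_le Y) hYX]
      ring
    rw [← h3, ← h3, ← sum_add_distrib]
    unfold TS
    refine sum_congr rfl fun n _ => ?_
    rw [ER, ArithmeticFunction.add_apply]
    ring
  have a1 := abs_le.1 (sum_DD h₁ h₂ hw1 (hY.trans hYX))
  have a2 := abs_le.1 (sum_DD h₁ h₂ hw1 hY)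
  have b1 := abs_le.1 (sum_LL hC₁ hC₂ h₁ h₂ hw (hY.trans hYX))
  have b2 := abs_le.1 (sum_LL hC₁ hC₂ h₁ h₂ hw hY)
  rw [← hD] at b1 b2
  obtain ⟨l1, l2⟩ := lip hlw (log_nat_nonneg Y) hlYX
  rw [e1]
  set u := Real.log (X : ℝ)
  set v := Real.log (Y : ℝ)
  set t := Real.log (w : ℝ)
  have h5 : (C₁ + C₂) * v ≤ (C₁ + C₂) * u := mul_le_mul_of_nonneg_left hlYX (by linarith)
  have h6 : D * v ≤ D * u := mul_le_mul_of_nonneg_left hlYX hDpos.le
  have h7 : 0 ≤ t * (u - v) := mul_nonneg hlw (by linarith)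
  have h8 : 0 ≤ (2 * (C₁ + C₂) + 2 * D) * (t * (u - v)) := mul_nonneg (by positivity) h7
  have h9 : 0 ≤ u := by linarith
  rw [abs_le]
  constructor
  · nlinarith
  · nlinarith

end Pool.Agent.K9h19.LW
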