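import Pool.Agent.K9h19.LW.AVG

/-! Task UP: upper bound for primes in a class, with the constant two. -/

set_option autoImplicit false

open Finset

namespace Pool.Agent.K9h19.LW

open Pool.Agent.Y851.HZ (LR zR muR ER DD LR_nonneg ER_nonneg DD_apply mul_nonneg')
open Pool.Agent.H318R2.Cr (Rgh)

theorem CS_succ (f : ℕ → ℝ) (q b A n : ℕ) (h : A ≤ n) :
    CS f q b A (n + 1) = CS f q b A n + if n + 1 ≡ b [MOD q] then f (n + 1) / ((n + 1 : ℕ) : ℝ) else 0 := by
  rw [CS_eq, CS_eq, sum_Ioc_succ_top h]

theorem CS_self (f : ℕ → ℝ) (q b A : ℕ) : CS f q b A A = 0 := by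
  rw [CS_eq, Ioc_self, sum_empty]

/-- Task UP. -/
theorem up (hAVG : S_AVG) : S_UP := by
  obtain ⟨C, hC, w₀, h⟩ := hAVG
  refine ⟨10 * C, by positivity, max 3 w₀, fun w q a A B hw hq hqw ha hwA hAB hlog => ?_⟩
  have hw0 : w₀ ≤ w := (le_max_right _ _).trans hw
  have hw3 : 3 ≤ w := (le_max_left _ _).trans hw
  have hA3 : 3 ≤ A := hw3.trans hwA
  have hφ : 0 < (q.totient : ℝ) := by
    exact_mod_cast Nat.totient_pos.2 hq
  set t := Real.log w with htdef
  have ht : 1 ≤ t := by
    rw [htdef, Real.le_log_iff_exp_le (by exact_mod_cast (by omega : 0 < w))]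
    have h1 : (3 : ℝ) ≤ w := by exact_mod_cast hw3
    linarith [Real.exp_one_lt_d9]
  have htA : t ≤ Real.log A := Real.log_le_log (by exact_mod_cast (by omega : 0 < w)) (by exact_mod_cast hwA)
  have hlA : 0 < Real.log A := by linarith
  set E := C * (t * (Real.log B - Real.log A + t) + Real.log B) with hE
  -- the invariant
  have key : ∀ n, A ≤ n → n ≤ B →
      0 ≤ (Real.log n) ^ 2 - (Real.log A) ^ 2 + E - q.totient * CS (DD (LR w)) q a A n ∧
      q.totient * CS (LR w) q a A n + 1 / Real.log n *
        ((Real.log n) ^ 2 - (Real.log A) ^ 2 + E - q.totient * CS (DD (LR w)) q a A n) ≤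
        E / Real.log A + 2 * (Real.log n - Real.log A) := by
    intro n hAn
    have hpos : ∀ n, A ≤ n → n ≤ B →
        0 ≤ (Real.log n) ^ 2 - (Real.log A) ^ 2 + E - q.totient * CS (DD (LR w)) q a A n := by
      intro n hAn hnB
      have h1 := h w q a A n hw0 hq hqw ha hwA hAn
      have h2 := (abs_le.1 h1).2
      have h3 : CS (DD (LR w)) q a A n ≤ CS (ER w) q a A n := by
        unfold CS
        refine sum_le_sum fun k _ => ?_
        refine div_le_div_of_nonneg_right ?_ (Nat.cast_nonneg k)
        rw [ER, ArithmeticFunction.add_apply]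
        have := mul_nonneg' (LR_nonneg w) (LR_nonneg w) k
        linarith
      have h4 := mul_le_mul_of_nonneg_left h3 hφ.le
      have h5 : Real.log n ≤ Real.log B :=
        Real.log_le_log (by exact_mod_cast (by omega : 0 < n)) (by exact_mod_cast hnB)
      have h6 : C * (t * (Real.log n - Real.log A + t) + Real.log n) ≤ E := by
        rw [hE]
        refine mul_le_mul_of_nonneg_left ?_ hC.le
        have h7 : t * (Real.log n - Real.log A + t) ≤ t * (Real.log B - Real.log A + t) :=
          mul_le_mul_of_nonneg_left (by linarith) (by linarith)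
        linarith
      linarith
    induction n, hAn using Nat.le_induction with
    | base =>
      intro hAB'
      refine ⟨hpos A le_rfl hAB', ?_⟩
      rw [CS_self, CS_self]
      simp only [mul_zero, sub_self, zero_add, sub_zero, add_zero]
      rw [one_div, inv_mul_eq_div]
    | succ n hAn ih =>
      intro hnB
      refine ⟨hpos (n + 1) (by omega) hnB, ?_⟩
      obtain ⟨h1, h2⟩ := ih (by omega)
      have hn0 : (0 : ℝ) < n := by exact_mod_cast (by omega : 0 < n)
      have hln : 0 < Real.log n := by
        have : Real.log A ≤ Real.log n :=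
          Real.log_le_log (by exact_mod_cast (by omega : 0 < A)) (by exact_mod_cast hAn)
        linarith
      have hmono : Real.log n ≤ Real.log ((n + 1 : ℕ) : ℝ) :=
        Real.log_le_log hn0 (by push_cast; linarith)
      have hln1 : 0 < Real.log ((n + 1 : ℕ) : ℝ) := by linarith
      rw [CS_succ _ _ _ _ _ hAn, CS_succ _ _ _ _ _ hAn]
      set x := Real.log n with hx
      set y := Real.log ((n + 1 : ℕ) : ℝ) with hy
      set G := (q.totient : ℝ) * CS (DD (LR w)) q a A n with hG
      set S := (q.totient : ℝ) * CS (LR w) q a A n with hS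
      set δ := if n + 1 ≡ a [MOD q] then LR w (n + 1) / ((n + 1 : ℕ) : ℝ) else 0 with hδ
      have hδ2 : (if n + 1 ≡ a [MOD q] then DD (LR w) (n + 1) / ((n + 1 : ℕ) : ℝ) else 0) = δ * y := by
        rw [hδ, DD_apply]
        split_ifs
        · ring
        · ring
      rw [hδ2, mul_add, mul_add, ← hG, ← hS]
      have h3 : 1 / y * (y ^ 2 - (Real.log A) ^ 2 + E - (G + q.totient * (δ * y))) =
          1 / y * (x ^ 2 - (Real.log A) ^ 2 + E - G) + (y ^ 2 - x ^ 2) / y - q.totient * δ := by
        field_simp
        ring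
      rw [h3]
      have h4 : 1 / y * (x ^ 2 - (Real.log A) ^ 2 + E - G) ≤
          1 / x * (x ^ 2 - (Real.log A) ^ 2 + E - G) :=
        mul_le_mul_of_nonneg_right (one_div_le_one_div_of_le hln hmono) h1
      have h5 : (y ^ 2 - x ^ 2) / y ≤ 2 * (y - x) := by
        rw [div_le_iff₀ hln1]
        nlinarith
      linarith
  obtain ⟨h1, h2⟩ := key B hAB le_rfl
  have hlB : 0 < Real.log B := by
    have : Real.log A ≤ Real.log B :=
      Real.log_le_log (by exact_mod_cast (by omega : 0 < A)) (by exact_mod_cast hAB)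
    linarith
  have h3 : 0 ≤ 1 / Real.log B * ((Real.log B) ^ 2 - (Real.log A) ^ 2 + E -
      q.totient * CS (DD (LR w)) q a A B) := mul_nonneg (by positivity) h1
  have h4 : E / Real.log A ≤ 10 * C * t := by
    rw [div_le_iff₀ hlA, hE]
    have h5 : t * (Real.log B - Real.log A + t) + Real.log B ≤ 10 * (t * Real.log A) := by
      nlinarith
    nlinarith
  linarith

end Pool.Agent.K9h19.LW
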